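import Pool.Agent.H36.MX.Hh
import Pool.Agent.H76.PP.E0

/-!
ROW MXBs (project MP_78d38b_MX, about 200 lines, pure algebra): the conic of an element at a place where the cubic splits. Use the STATEMENTS of Ha, Hh (hs_comm, hs_sq, sol_of_iso, hs_eq_zero, hs_congr, hsc_sc).

Notation: `c i = y0 + y1 e_i + y2 e_i^2`, `f' i` = product of the two `e_i - e_j`, `a_i = c i / f' i`, `α = y2`, `β = y1^2 - y0 y2 + a y2^2`, `s0 = y2, s1 = y1, s2 = y0 - a y2, s3 = -a y1 - b y2, s4 = -a y0 + a^2 y2 - b y1`; `ν^2 = c 0 * c 1 * c 2`, `ν ≠ 0`; `d = (e_0 - e_1)(e_0 - e_2)(e_1 - e_2) ≠ 0`.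
FACTS (field identities, using `a, b` in terms of the `e_i` (h.s1, h.s2, h.s3)): `∑ a_i e_i^k = s_k` for `k ≤ 4` (clear denominators: multiply by `d^2`, `field_simp`, `ring` after replacing `e 2 = -e 0 - e 1`, `a`, `b`). `c 0 c 1 c 2 = -(s0 s2 s4 + 2 s1 s2 s3 - s2^3 - s0 s3^2 - s1^2 s4)`. `f' 0 * f' 1 * f' 2 = -d^2`.
(I) For `z = (z0, z1, z2)`, `Z_i = z0 + z1 e_i + z2 e_i^2`, `T = ∑ a_i Z_i^2 = s0 z0^2 + 2 s1 z0 z1 + s2 (2 z0 z2 + z1^2) + 2 s3 z1 z2 + s4 z2^2`. With `p = s0 z0 + s1 z1 + s2 z2`, `γ = s0 s3 - s1 s2`, `q = β z1 - γ z2`: `α β T = β p^2 + α (ν z2)^2 - q^2` (ring after `s0 s2 - s1^2 = -β` and `γ^2 - (s0 s2 - s1^2)(s0 s4 - s2^2) = α ν^2`).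
(II) `a_1 = -(ν/d)^2 / (a_0 a_2)`, so `a_0 a_2 T = a_2 (a_0 Z_0)^2 + a_0 (a_2 Z_2)^2 - (ν Z_1 / d)^2`.
(III) `a_0 = c 0 *` square, `a_2 = c 2 *` square (h.sq0, h.sq2: `f' 0 = (e 0 - e 1)(e 0 - e 2)`, `f' 2 = (e 2 - e 0)(e 2 - e 1)`), so `hs (c 0) (c 2) = hs a_0 a_2 = hs a_2 a_0`.
PROOF of conic_split: it is enough to show `Sol α β ↔ Sol a_2 a_0`. (→) `α x^2 + β y^2 = 1`: let `z2 = x/ν`, `z1 = (1 + γ z2)/β`, `z0 = (y - s1 z1 - s2 z2)/α`: so `p = y`, `q = 1`, `ν z2 = x`, `T = 0` by (I), `z ≠ 0`, and not all `Z_i` vanish (a polynomial of degree at most 2 with three different zeros vanishes: `z2 = ∑ Z_i / f' i` etc.), so by (II) and sol_of_iso `Sol a_2 a_0`.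
(←) `a_2 X^2 + a_0 Y^2 = 1`: `Z_0 = X/a_0, Z_2 = Y/a_2, Z_1 = d/ν`, `T = 0`. Let `z2 = ∑ Z_i/f' i`, `z1 = ∑ Z_i e_i/f' i`, `z0 = ∑ Z_i P_i/f' i`, `P_i` the product of the other two roots: then `Z_i = z0 + z1 e_i + z2 e_i^2` (Lagrange interpolation), `z ≠ 0` since `Z_1 ≠ 0`; `(p, q, ν z2) ≠ 0` (otherwise `z2 = 0`, `z1 = 0`, `z0 = 0`), and (I) with sol_of_iso gives `Sol α β` (`α (ν z2)^2 + β p^2 = q^2`).
norm_prod: `h.norm` (H76/PP/E0.lean), `Matrix.det_fin_three`, rh_apply, then `ring` after replacing `i A`, `i B` (hs.s2, hs.s3) and `e 2 = -e 0 - e 1`.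
conic_all: apply conic_split with `y_k = i (h.co k y)`, rh_apply, norm_prod (`i (N y)` is a square), `rh _ ≠ 0` (injective), lcl_sc, hsc_sc; `al`, `be` in H76/MQ/Df.lean; `hsv` in Df.lean; `map_sub, map_mul, ..`.
-/

set_option autoImplicit false
set_option linter.unusedSectionVars false
open scoped Classical

open WithZero NumberField IsDedekindDomain H38RT
open H38T1 (SC sc scu rep rep_ne sc_rep sc_mul sc_eq_zero sc_surj eo la si Pri OddP tp unif ka)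
open H76PP

namespace H36MX

private lemma Bs_hs {F : Type} [Field F] {a b c d : F} (h : Sol a b ↔ Sol c d) :
    hs a b = hs c d := by
  by_cases h1 : Sol a b
  · rw [hs_eq_zero.2 h1, hs_eq_zero.2 (h.1 h1)]
  · rw [hs_eq_one.2 h1, hs_eq_one.2 (fun h2 => h1 (h.2 h2))]

/-- The polynomial identities. -/
private lemma Bs_hankel {F : Type} [Field F] {a b e0 e1 e2 y0 y1 y2 c0 c1 c2 : F}
    (h1 : e0 + e1 + e2 = 0) (h2 : e0 * e1 + e0 * e2 + e1 * e2 = a) (h3 : e0 * e1 * e2 = -b)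
    (hc0 : c0 = y0 + y1 * e0 + y2 * e0 ^ 2) (hc1 : c1 = y0 + y1 * e1 + y2 * e1 ^ 2)
    (hc2 : c2 = y0 + y1 * e2 + y2 * e2 ^ 2) (s0 s1 s2 s3 s4 : F) (hs0 : s0 = y2) (hs1 : s1 = y1)
    (hs2 : s2 = y0 - a * y2) (hs3 : s3 = -a * y1 - b * y2)
    (hs4 : s4 = -a * y0 + a ^ 2 * y2 - b * y1) :
    c0 * c1 * c2 = -(s0 * s2 * s4 + 2 * s1 * s2 * s3 - s2 ^ 3 - s0 * s3 ^ 2 - s1 ^ 2 * s4) := by
  obtain rfl : e2 = -e0 - e1 := by linear_combination h1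
  obtain rfl : b = -(e0 * e1 * (-e0 - e1)) := by linear_combination h3
  rw [hs0, hs1, hs2, hs3, hs4, hc0, hc1, hc2, ← h2]
  ring

private lemma Bs_sum {F : Type} [Field F] {a b e0 e1 e2 y0 y1 y2 c0 c1 c2 δ : F}
    (h1 : e0 + e1 + e2 = 0) (h2 : e0 * e1 + e0 * e2 + e1 * e2 = a) (h3 : e0 * e1 * e2 = -b)
    (hc0 : c0 = y0 + y1 * e0 + y2 * e0 ^ 2) (hc1 : c1 = y0 + y1 * e1 + y2 * e1 ^ 2)
    (hc2 : c2 = y0 + y1 * e2 + y2 * e2 ^ 2)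
    (hδ : (e0 - e1) * (e0 - e2) * (e1 - e2) * δ = 1) (a0 a1 a2 : F)
    (ha0 : a0 = c0 * (e1 - e2) * δ) (ha1 : a1 = -(c1 * (e0 - e2) * δ))
    (ha2 : a2 = c2 * (e0 - e1) * δ) :
    a0 + a1 + a2 = y2 ∧ a0 * e0 + a1 * e1 + a2 * e2 = y1 ∧
    a0 * e0 ^ 2 + a1 * e1 ^ 2 + a2 * e2 ^ 2 = y0 - a * y2 ∧
    a0 * e0 ^ 3 + a1 * e1 ^ 3 + a2 * e2 ^ 3 = -a * y1 - b * y2 ∧
    a0 * e0 ^ 4 + a1 * e1 ^ 4 + a2 * e2 ^ 4 = -a * y0 + a ^ 2 * y2 - b * y1 := by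
  obtain rfl : e2 = -e0 - e1 := by linear_combination h1
  obtain rfl : b = -(e0 * e1 * (-e0 - e1)) := by linear_combination h3
  subst h2 ha0 ha1 ha2 hc0 hc1 hc2
  refine ⟨?_, ?_, ?_, ?_, ?_⟩
  · linear_combination y2 * hδ
  · linear_combination y1 * hδ
  · linear_combination (y0 - (e0 * e1 + e0 * (-e0 - e1) + e1 * (-e0 - e1)) * y2) * hδ
  · linear_combination (-(e0 * e1 + e0 * (-e0 - e1) + e1 * (-e0 - e1)) * y1 -
      (-(e0 * e1 * (-e0 - e1))) * y2) * hδ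
  · linear_combination (-(e0 * e1 + e0 * (-e0 - e1) + e1 * (-e0 - e1)) * y0 +
      (e0 * e1 + e0 * (-e0 - e1) + e1 * (-e0 - e1)) ^ 2 * y2 -
      (-(e0 * e1 * (-e0 - e1))) * y1) * hδ

/-- Lagrange interpolation. -/
private lemma Bs_lag {F : Type} [Field F] {e0 e1 e2 δ : F}
    (h1 : e0 + e1 + e2 = 0)
    (hδ : (e0 - e1) * (e0 - e2) * (e1 - e2) * δ = 1) (Z0 Z1 Z2 : F) :
    ∃ z0 z1 z2 : F, z0 + z1 * e0 + z2 * e0 ^ 2 = Z0 ∧ z0 + z1 * e1 + z2 * e1 ^ 2 = Z1 ∧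
      z0 + z1 * e2 + z2 * e2 ^ 2 = Z2 := by
  obtain rfl : e2 = -e0 - e1 := by linear_combination h1
  refine ⟨δ * ((e1 - (-e0 - e1)) * (e1 * (-e0 - e1)) * Z0 -
      (e0 - (-e0 - e1)) * (e0 * (-e0 - e1)) * Z1 + (e0 - e1) * (e0 * e1) * Z2),
    δ * ((e1 - (-e0 - e1)) * e0 * Z0 - (e0 - (-e0 - e1)) * e1 * Z1 +
      (e0 - e1) * (-e0 - e1) * Z2),
    δ * ((e1 - (-e0 - e1)) * Z0 - (e0 - (-e0 - e1)) * Z1 + (e0 - e1) * Z2), ?_, ?_, ?_⟩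
  · linear_combination Z0 * hδ
  · linear_combination Z1 * hδ
  · linear_combination Z2 * hδ

private lemma Bs_zero {F : Type} [Field F] {e0 e1 e2 δ : F}
    (hδ : (e0 - e1) * (e0 - e2) * (e1 - e2) * δ = 1) {z0 z1 z2 : F}
    (h0 : z0 + z1 * e0 + z2 * e0 ^ 2 = 0) (h1 : z0 + z1 * e1 + z2 * e1 ^ 2 = 0)
    (h2 : z0 + z1 * e2 + z2 * e2 ^ 2 = 0) : z1 = 0 ∧ z2 = 0 := by
  have e : z2 = 0 := by
    linear_combination (-z2) * hδ + δ * ((e1 - e2) * h0 - (e0 - e2) * h1 + (e0 - e1) * h2)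
  refine ⟨?_, e⟩
  subst e
  linear_combination (-z1) * hδ + δ * ((e0 - e2) * (e1 - e2)) * (h0 - h1)

/-- The main computation. -/
private lemma Bs_core {F : Type} [Field F] (hF2 : (2 : F) ≠ 0)
    {a b e0 e1 e2 y0 y1 y2 c0 c1 c2 : F}
    (h1 : e0 + e1 + e2 = 0) (h2 : e0 * e1 + e0 * e2 + e1 * e2 = a) (h3 : e0 * e1 * e2 = -b)
    (n01 : e0 ≠ e1) (n02 : e0 ≠ e2) (n12 : e1 ≠ e2)
    (hc0 : c0 = y0 + y1 * e0 + y2 * e0 ^ 2) (hc1 : c1 = y0 + y1 * e1 + y2 * e1 ^ 2)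
    (hc2 : c2 = y0 + y1 * e2 + y2 * e2 ^ 2) (k0 : c0 ≠ 0) (k1 : c1 ≠ 0) (k2 : c2 ≠ 0)
    {ν : F} (hν : c0 * c1 * c2 = ν * ν) {α β : F} (hα' : α = y2) (hα : α ≠ 0)
    (hβ' : β = y1 ^ 2 - y0 * y2 + a * y2 ^ 2) (hβ : β ≠ 0)
    {δ : F} (hδ : (e0 - e1) * (e0 - e2) * (e1 - e2) * δ = 1) {a0 a2 : F}
    (ha0 : a0 = c0 * (e1 - e2) * δ) (ha2 : a2 = c2 * (e0 - e1) * δ) :
    Sol α β ↔ Sol a2 a0 := by
  have hδ0 : δ ≠ 0 := by
    rintro rfl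
    rw [mul_zero] at hδ
    exact zero_ne_one hδ
  have hν0 : ν ≠ 0 := by
    rintro rfl
    rw [mul_zero] at hν
    exact mul_ne_zero (mul_ne_zero k0 k1) k2 hν
  have hνi : ν * ν⁻¹ = 1 := mul_inv_cancel₀ hν0
  have hαi : α * α⁻¹ = 1 := mul_inv_cancel₀ hα
  have hβi : β * β⁻¹ = 1 := mul_inv_cancel₀ hβ
  have z0' : a0 ≠ 0 := by
    rw [ha0]
    exact mul_ne_zero (mul_ne_zero k0 (sub_ne_zero.2 n12)) hδ0
  have z2' : a2 ≠ 0 := by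
    rw [ha2]
    exact mul_ne_zero (mul_ne_zero k2 (sub_ne_zero.2 n01)) hδ0
  have h0i : a0 * a0⁻¹ = 1 := mul_inv_cancel₀ z0'
  have h2i : a2 * a2⁻¹ = 1 := mul_inv_cancel₀ z2'
  obtain ⟨a1, ha1⟩ : ∃ a1 : F, a1 = -(c1 * (e0 - e2) * δ) := ⟨_, rfl⟩
  obtain ⟨t0, t1, t2, t3, t4⟩ := Bs_sum h1 h2 h3 hc0 hc1 hc2 hδ a0 a1 a2 ha0 ha1 ha2
  obtain ⟨s2, hs2⟩ : ∃ s2 : F, s2 = y0 - a * y2 := ⟨_, rfl⟩
  obtain ⟨s3, hs3⟩ : ∃ s3 : F, s3 = -a * y1 - b * y2 := ⟨_, rfl⟩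
  obtain ⟨s4, hs4⟩ : ∃ s4 : F, s4 = -a * y0 + a ^ 2 * y2 - b * y1 := ⟨_, rfl⟩
  have hH := Bs_hankel h1 h2 h3 hc0 hc1 hc2 y2 y1 s2 s3 s4 rfl rfl hs2 hs3 hs4
  rw [← hs2] at t2
  rw [← hs3] at t3
  rw [← hs4] at t4
  have hβ2 : β = y1 ^ 2 - y2 * s2 := by
    rw [hβ', hs2]
    ring
  obtain ⟨γ, hγ⟩ : ∃ γ : F, γ = y2 * s3 - y1 * s2 := ⟨_, rfl⟩
  have hprod : a0 * a1 * a2 = -(ν * δ) ^ 2 := by
    rw [ha0, ha1, ha2]
    linear_combination (-((e1 - e2) * (e0 - e2) * (e0 - e1) * δ ^ 3)) * hν -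
      (ν * ν * δ ^ 2) * hδ
  -- the two forms of `T`
  have hT1 : ∀ z0 z1 z2 : F, a0 * (z0 + z1 * e0 + z2 * e0 ^ 2) ^ 2 +
      a1 * (z0 + z1 * e1 + z2 * e1 ^ 2) ^ 2 + a2 * (z0 + z1 * e2 + z2 * e2 ^ 2) ^ 2 =
      y2 * z0 ^ 2 + 2 * y1 * z0 * z1 + s2 * (2 * z0 * z2 + z1 ^ 2) + 2 * s3 * z1 * z2 +
        s4 * z2 ^ 2 := by
    intro z0 z1 z2
    linear_combination z0 ^ 2 * t0 + 2 * z0 * z1 * t1 + (2 * z0 * z2 + z1 ^ 2) * t2 +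
      2 * z1 * z2 * t3 + z2 ^ 2 * t4
  have hT2 : ∀ z0 z1 z2 : F, α * β * (y2 * z0 ^ 2 + 2 * y1 * z0 * z1 +
      s2 * (2 * z0 * z2 + z1 ^ 2) + 2 * s3 * z1 * z2 + s4 * z2 ^ 2) =
      β * (y2 * z0 + y1 * z1 + s2 * z2) ^ 2 + α * (ν * z2) ^ 2 - (β * z1 - γ * z2) ^ 2 := by
    intro z0 z1 z2
    rw [hγ, hβ2, hα']
    have e : ν * ν = -(y2 * s2 * s4 + 2 * y1 * s2 * s3 - s2 ^ 3 - y2 * s3 ^ 2 - y1 ^ 2 * s4) := by
      rw [← hν, hH]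
    linear_combination (-(y2 * z2 ^ 2)) * e
  have hT3 : ∀ Z0 Z1 Z2 : F, a0 * a2 * (a0 * Z0 ^ 2 + a1 * Z1 ^ 2 + a2 * Z2 ^ 2) =
      a2 * (a0 * Z0) ^ 2 + a0 * (a2 * Z2) ^ 2 - (ν * δ * Z1) ^ 2 := by
    intro Z0 Z1 Z2
    linear_combination Z1 ^ 2 * hprod
  constructor
  · rintro ⟨x, y, hxy⟩
    obtain ⟨z2, hz2⟩ : ∃ z2 : F, z2 = x * ν⁻¹ := ⟨_, rfl⟩
    obtain ⟨z1, hz1⟩ : ∃ z1 : F, z1 = (1 + γ * z2) * β⁻¹ := ⟨_, rfl⟩
    obtain ⟨z0, hz0⟩ : ∃ z0 : F, z0 = (y - y1 * z1 - s2 * z2) * α⁻¹ := ⟨_, rfl⟩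
    have hp : y2 * z0 + y1 * z1 + s2 * z2 = y := by
      rw [← hα', hz0]
      linear_combination (y - y1 * z1 - s2 * z2) * hαi
    have hq : β * z1 - γ * z2 = 1 := by
      rw [hz1]
      linear_combination (1 + γ * z2) * hβi
    have hx : ν * z2 = x := by
      rw [hz2]
      linear_combination x * hνi
    have hT := hT2 z0 z1 z2
    rw [hp, hq, hx, ← hT1] at hT
    have hT0 : a0 * (z0 + z1 * e0 + z2 * e0 ^ 2) ^ 2 +
      a1 * (z0 + z1 * e1 + z2 * e1 ^ 2) ^ 2 + a2 * (z0 + z1 * e2 + z2 * e2 ^ 2) ^ 2 = 0 := by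
      have h5 : α * β * (a0 * (z0 + z1 * e0 + z2 * e0 ^ 2) ^ 2 +
        a1 * (z0 + z1 * e1 + z2 * e1 ^ 2) ^ 2 + a2 * (z0 + z1 * e2 + z2 * e2 ^ 2) ^ 2) = 0 := by
        rw [hT]
        linear_combination hxy
      rcases mul_eq_zero.1 h5 with h6 | h6
      · exact absurd h6 (mul_ne_zero hα hβ)
      · exact h6
    have h7 := hT3 (z0 + z1 * e0 + z2 * e0 ^ 2) (z0 + z1 * e1 + z2 * e1 ^ 2)
      (z0 + z1 * e2 + z2 * e2 ^ 2)
    rw [hT0, mul_zero] at h7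
    apply sol_of_iso hF2 z2' z0' (X := a0 * (z0 + z1 * e0 + z2 * e0 ^ 2))
      (Y := a2 * (z0 + z1 * e2 + z2 * e2 ^ 2)) (Z := ν * δ * (z0 + z1 * e1 + z2 * e1 ^ 2))
    · linear_combination -h7
    · by_contra hne
      push Not at hne
      obtain ⟨m0, m2, m1⟩ := hne
      have m0' := (mul_eq_zero.1 m0).resolve_left z0'
      have m2' := (mul_eq_zero.1 m2).resolve_left z2'
      have m1' := (mul_eq_zero.1 m1).resolve_left (mul_ne_zero hν0 hδ0)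
      obtain ⟨w1, w2⟩ := Bs_zero hδ m0' m1' m2'
      rw [w1, w2, mul_zero, mul_zero, sub_zero] at hq
      exact zero_ne_one hq
  · rintro ⟨X, Y, hXY⟩
    obtain ⟨z0, z1, z2, w0, w1, w2⟩ := Bs_lag h1 hδ (X * a0⁻¹) (δ⁻¹ * ν⁻¹) (Y * a2⁻¹)
    have hδi : δ * δ⁻¹ = 1 := mul_inv_cancel₀ hδ0
    have h7 := hT3 (z0 + z1 * e0 + z2 * e0 ^ 2) (z0 + z1 * e1 + z2 * e1 ^ 2)
      (z0 + z1 * e2 + z2 * e2 ^ 2)
    rw [hT1] at h7
    have h8 : a2 * (a0 * (z0 + z1 * e0 + z2 * e0 ^ 2)) ^ 2 +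
        a0 * (a2 * (z0 + z1 * e2 + z2 * e2 ^ 2)) ^ 2 -
        (ν * δ * (z0 + z1 * e1 + z2 * e1 ^ 2)) ^ 2 = 0 := by
      have m0 : a0 * (z0 + z1 * e0 + z2 * e0 ^ 2) = X := by
        rw [w0]
        linear_combination X * h0i
      have m2 : a2 * (z0 + z1 * e2 + z2 * e2 ^ 2) = Y := by
        rw [w2]
        linear_combination Y * h2i
      have m1 : ν * δ * (z0 + z1 * e1 + z2 * e1 ^ 2) = 1 := by
        rw [w1]
        linear_combination (δ * δ⁻¹) * hνi + hδi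
      rw [m0, m2, m1]
      linear_combination hXY
    rw [h8] at h7
    have h9 := (mul_eq_zero.1 h7).resolve_left (mul_ne_zero z0' z2')
    have h10 := hT2 z0 z1 z2
    rw [h9, mul_zero] at h10
    apply sol_of_iso hF2 hα hβ (X := ν * z2) (Y := y2 * z0 + y1 * z1 + s2 * z2)
      (Z := β * z1 - γ * z2)
    · linear_combination -h10
    · by_contra hne
      push Not at hne
      obtain ⟨m0, m1, m2⟩ := hne
      have m0' := (mul_eq_zero.1 m0).resolve_left hν0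
      rw [m0', mul_zero, sub_zero] at m2
      have m2' := (mul_eq_zero.1 m2).resolve_left hβ
      rw [m0', m2', mul_zero, mul_zero, add_zero, add_zero] at m1
      have m1' := (mul_eq_zero.1 m1).resolve_left (hα' ▸ hα)
      rw [m0', m2', m1', zero_mul, zero_mul, add_zero, add_zero] at w1
      exact mul_ne_zero (inv_ne_zero hδ0) (inv_ne_zero hν0) w1.symm

theorem conic_split {F : Type} [Field F] (h2 : (2 : F) ≠ 0) {a b : F} {e : Fin 3 → F}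
    (h : Spl a b e) {y0 y1 y2 : F} (h0 : ∀ i, y0 + y1 * e i + y2 * e i ^ 2 ≠ 0)
    (hsq : IsSquare ((y0 + y1 * e 0 + y2 * e 0 ^ 2) * (y0 + y1 * e 1 + y2 * e 1 ^ 2) *
      (y0 + y1 * e 2 + y2 * e 2 ^ 2)))
    (hα : y2 ≠ 0) (hβ : y1 ^ 2 - y0 * y2 + a * y2 ^ 2 ≠ 0) :
    hs y2 (y1 ^ 2 - y0 * y2 + a * y2 ^ 2) =
      hs (y0 + y1 * e 0 + y2 * e 0 ^ 2) (y0 + y1 * e 2 + y2 * e 2 ^ 2) := by
  obtain ⟨h1, h3, h4, n01, n02, n12, q0, q2⟩ := h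
  have k0 := h0 0
  have k1 := h0 1
  have k2 := h0 2
  obtain ⟨ν, hν⟩ := hsq
  obtain ⟨r0, hr0⟩ := q0
  obtain ⟨r2, hr2⟩ := q2
  have d01 : e 0 - e 1 ≠ 0 := sub_ne_zero.2 n01
  have d02 : e 0 - e 2 ≠ 0 := sub_ne_zero.2 n02
  have d12 : e 1 - e 2 ≠ 0 := sub_ne_zero.2 n12
  have hD : (e 0 - e 1) * (e 0 - e 2) * (e 1 - e 2) ≠ 0 :=
    mul_ne_zero (mul_ne_zero d01 d02) d12
  obtain ⟨δ, hδ⟩ : ∃ δ : F, (e 0 - e 1) * (e 0 - e 2) * (e 1 - e 2) * δ = 1 :=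
    ⟨_, mul_inv_cancel₀ hD⟩
  have hr00 : r0 ≠ 0 := by
    rintro rfl
    rw [mul_zero] at hr0
    exact mul_ne_zero d01 d02 hr0
  have hr20 : r2 ≠ 0 := by
    rintro rfl
    rw [mul_zero] at hr2
    have h5 : (e 0 - e 2) * (e 1 - e 2) = 0 := by linear_combination hr2
    exact mul_ne_zero d02 d12 h5
  have hcore := Bs_core h2 h1 h3 h4 n01 n02 n12 rfl rfl rfl k0 k1 k2 hν rfl hα rfl hβ hδ rfl rfl
  rw [Bs_hs hcore, hs_comm]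
  have g0 : (y0 + y1 * e 0 + y2 * e 0 ^ 2) * (e 1 - e 2) * δ =
      (y0 + y1 * e 0 + y2 * e 0 ^ 2) * (r0⁻¹) ^ 2 := by
    have h5 : (e 1 - e 2) * δ * (r0 * r0) = 1 := by
      rw [← hr0]
      linear_combination hδ
    have h6 : r0 * r0⁻¹ = 1 := mul_inv_cancel₀ hr00
    have h7 : (e 1 - e 2) * δ = (r0⁻¹) ^ 2 := by
      linear_combination (r0⁻¹) ^ 2 * h5 -
        ((e 1 - e 2) * δ * (r0 * r0⁻¹ + 1)) * h6
    rw [mul_assoc, h7]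
  have g2 : (y0 + y1 * e 2 + y2 * e 2 ^ 2) * (e 0 - e 1) * δ =
      (y0 + y1 * e 2 + y2 * e 2 ^ 2) * (r2⁻¹) ^ 2 := by
    have h5 : (e 0 - e 1) * δ * (r2 * r2) = 1 := by
      rw [← hr2]
      linear_combination hδ
    have h6 : r2 * r2⁻¹ = 1 := mul_inv_cancel₀ hr20
    have h7 : (e 0 - e 1) * δ = (r2⁻¹) ^ 2 := by
      linear_combination (r2⁻¹) ^ 2 * h5 -
        ((e 0 - e 1) * δ * (r2 * r2⁻¹ + 1)) * h6
    rw [mul_assoc, h7]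
  rw [hs_congr (inv_ne_zero hr00) g0, hs_congr_right (inv_ne_zero hr20) g2]

theorem norm_prod {K L F : Type} [Field K] [Field L] [Algebra K L] [Field F] {A B : K} {θ : L}
    (h : Cub K L A B θ) (i : K →+* F) {e : Fin 3 → F} (hs : Spl (i A) (i B) e) (y : L) :
    rh h i (hs.root 0) y * rh h i (hs.root 1) y * rh h i (hs.root 2) y = i (Algebra.norm K y) := by
  rw [h.norm, Matrix.det_fin_three, rh_apply, rh_apply, rh_apply]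
  simp only [Matrix.of_apply, Matrix.cons_val', Matrix.cons_val_zero,
    Matrix.cons_val_one, Matrix.cons_val_two, Matrix.head_cons, Matrix.tail_cons,
    Matrix.head_fin_const, Matrix.empty_val', Matrix.cons_val_fin_one]
  simp only [map_add, map_sub, map_mul, map_neg]
  have h1 := hs.s1
  have h2 := hs.s2
  have h3 := hs.s3
  generalize i (h.co 0 y) = a0
  generalize i (h.co 1 y) = a1
  generalize i (h.co 2 y) = a2
  generalize i A = a at *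
  generalize i B = b at *
  generalize e 0 = e0 at *
  generalize e 1 = e1 at *
  generalize e 2 = e2 at *
  obtain rfl : e2 = -e0 - e1 := by linear_combination h1
  obtain rfl : b = -(e0 * e1 * (-e0 - e1)) := by linear_combination h3
  rw [← h2]
  ring

theorem conic_all {K : Type} [Field K] [NumberField K] (L : Type) [Field L] [NumberField L]
    [Algebra K L] (A B : K) (θ : L) (h : Cub K L A B θ) (u : HeightOneSpectrum (𝓞 K))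
    (e : Fin 3 → u.adicCompletion K)
    (hs : Spl (algebraMap K (u.adicCompletion K) A) (algebraMap K (u.adicCompletion K) B) e)
    (y : L) (hy : y ≠ 0) (hN : IsSquare (Algebra.norm K y)) (ha : H76MQ.al h y ≠ 0)
    (hb : H76MQ.be h y ≠ 0) :
    hsv u (H76MQ.al h y) (H76MQ.be h y) =
      hsc (lcl h (algebraMap K (u.adicCompletion K)) hs 0 (sc y))
        (lcl h (algebraMap K (u.adicCompletion K)) hs 2 (sc y)) := by
  have hi : ∀ j, rh h (algebraMap K (u.adicCompletion K)) (hs.root j) y ≠ 0 := fun j =>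
    (map_ne_zero _).2 hy
  rw [lcl_sc h _ hs 0 hy, lcl_sc h _ hs 2 hy, hsc_sc (hi 0) (hi 2)]
  have h2 : (2 : u.adicCompletion K) ≠ 0 := by
    have h3 : (algebraMap K (u.adicCompletion K)) 2 ≠ 0 :=
      (map_ne_zero _).2 two_ne_zero
    rwa [map_ofNat] at h3
  have hsq := norm_prod h (algebraMap K (u.adicCompletion K)) hs y
  have hN' : IsSquare (algebraMap K (u.adicCompletion K) (Algebra.norm K y)) := hN.map _
  rw [← hsq] at hN'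
  have ha' : algebraMap K (u.adicCompletion K) (h.co 2 y) ≠ 0 := (map_ne_zero _).2 ha
  have hb' : algebraMap K (u.adicCompletion K) (H76MQ.be h y) ≠ 0 := (map_ne_zero _).2 hb
  have e1 : algebraMap K (u.adicCompletion K) (H76MQ.be h y) =
      algebraMap K (u.adicCompletion K) (h.co 1 y) ^ 2 -
      algebraMap K (u.adicCompletion K) (h.co 0 y) *
      algebraMap K (u.adicCompletion K) (h.co 2 y) +
      algebraMap K (u.adicCompletion K) A * algebraMap K (u.adicCompletion K) (h.co 2 y) ^ 2 := by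
    unfold H76MQ.be
    simp only [map_add, map_sub, map_mul, map_pow]
  rw [e1] at hb'
  unfold hsv H76MQ.al
  rw [e1]
  exact conic_split h2 hs hi hN' ha' hb'

end H36MX
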