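import Pool.Agent.H36.MX.Hg

/-!
MXHk (project MP_78d38b_MX): the product formula for the Hilbert symbols. Use the STATEMENTS of Ha, Hh, Hu, Hg.

PROOF. `S2 = {v | v.valuation K 2 < 1}` is finite (`H38RT.fin_bad`). (B) Let `v ∈ S2` and `y ∈ K^*` a square at all the other places `u ∈ S2`, `x ∈ K^*` arbitrary. Let `e ∈ K^*` be the unramified class `g` at `v` (exists_unr) and a square at the other `u ∈ S2` (`weak_sq`). So `BB x e = 0` for all `x` (pri_unr, pri_sq, BB_pri).
(B1) If `hsv v e y = 1` then `BB x y = 0`: if `hsv v x y = 0` then `hsv u x y = 0` for all `u ∈ S2` (`y` a square at `u ≠ v`: hs_comm, hs_of_sq), BB_sol. If `hsv v x y = 1` then `hsv v (x e) y = 1 + 1 = 0` (HF.mul), so `BB (x e) y = 0` by BB_sol, and `BB (x e) y = BB x y + BB e y`, `BB e y = BB y e = 0`.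
(B2) In general choose `γ ∈ K^*` which is a square at the `u ≠ v` and equal to `π * r^2` at `v`, `π` a uniformizer (`weak_sq`), so `hsv v e γ = 1` (unr_even: `|π|` is not an even power). If `hsv v e y = 0` then `hsv v e (y γ) = 1`, so `BB x (y γ) = 0 = BB x γ` by (B1) (`y γ` is a square at the other places), and `BB x y = BB x (y γ) + BB x γ = 0` (BB_mul, characteristic two).
(A) For arbitrary `a, b`: induction on the number of `u ∈ S2` at which `b` is not a square: if none, `BB a b = 0` by BB_sol. Otherwise choose such a `v` and `y ∈ K^*` with `y = b *` square at `v` and `y` a square at the other places of `S2` (weak_sq); `b y` is a square at `v` and `b y = b *` square at the others; `BB a b = BB a (b y) + BB a y` (as `b = (b y) y (1/y)^2`: `BB a (b y) = BB a b + BB a y`), `BB a y = 0` by (B), `BB a (b y) = 0` by induction.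
prodH: BB_eq.
-/

set_option autoImplicit false
set_option linter.unusedSectionVars false
open scoped Classical

open WithZero NumberField IsDedekindDomain H38RT
open H38T1 (SC sc scu rep rep_ne sc_rep sc_mul sc_eq_zero sc_surj eo la si Pri OddP tp unif ka)
open H76PP

namespace H36MX

variable {K : Type} [Field K] [NumberField K]

private theorem Hk_S : ∃ S : Finset (HeightOneSpectrum (𝓞 K)),
    ∀ v : HeightOneSpectrum (𝓞 K), v ∈ S ↔ v.valuation K 2 < 1 := by
  have h2 : (2 : K) ≠ 0 := two_ne_zero
  refine ⟨(H38RT.fin_bad h2).toFinset, fun v => ?_⟩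
  rw [Set.Finite.mem_toFinset, Set.mem_ofPred_eq]
  constructor
  · intro h
    exact lt_of_le_of_ne (val_two_le v) h
  · intro h
    exact h.ne

private theorem Hk_sq {v : HeightOneSpectrum (𝓞 K)} {x y : K} (hy : y ≠ 0)
    (h : IsSquare (algebraMap K (v.adicCompletion K) y)) : hsv v x y = 0 := by
  unfold hsv
  rw [hs_comm]
  exact hs_of_sq ((map_ne_zero _).2 hy) h

private theorem Hk_B1 {v : HeightOneSpectrum (𝓞 K)} {e : K}
    (he : e ≠ 0) (heB : ∀ x : K, x ≠ 0 → BB x e = 0) {x y : K} (hx : x ≠ 0) (hy : y ≠ 0)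
    (hsq : ∀ u : HeightOneSpectrum (𝓞 K), u.valuation K 2 < 1 → u ≠ v →
      IsSquare (algebraMap K (u.adicCompletion K) y))
    (h1 : hsv v e y = 1) : BB x y = 0 := by
  have key : ∀ z : K, z ≠ 0 → hsv v z y = 0 → BB z y = 0 := by
    intro z hz h0
    refine BB_sol hz hy fun u hu => ?_
    by_cases huv : u = v
    · rw [huv]
      exact h0
    · exact Hk_sq hy (hsq u hu huv)
  by_cases h0 : hsv v x y = 0
  · exact key x hx h0
  · have h2 : hsv v x y = 1 := by
      revert h0
      generalize hsv v x y = t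
      revert t
      decide
    have h3 : hsv v (x * e) y = 0 := by
      have h4 := (hf_all v).mul (algebraMap K _ x) (algebraMap K _ e) (algebraMap K _ y)
        ((map_ne_zero _).2 hx) ((map_ne_zero _).2 he) ((map_ne_zero _).2 hy)
      unfold hsv at h1 h2 ⊢
      rw [map_mul, h4, h1, h2]
      decide
    have h5 := key (x * e) (mul_ne_zero hx he) h3
    rw [BB_comm, BB_mul hy hx he, heB y hy, add_zero] at h5
    rw [BB_comm]
    exact h5

private theorem Hk_exp {z : WithZero (Multiplicative ℤ)} (hz : z ≠ 0) {n : ℤ}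
    (h : exp (-1 : ℤ) * z ^ 2 = exp (2 * n)) : False := by
  have h1 := congrArg log h
  rw [log_mul exp_ne_zero (pow_ne_zero 2 hz), log_exp, log_exp, log_pow] at h1
  simp only [nsmul_eq_mul, Nat.cast_ofNat] at h1
  omega

private theorem Hk_B {v : HeightOneSpectrum (𝓞 K)} (hv : v.valuation K 2 < 1) {x y : K}
    (hx : x ≠ 0) (hy : y ≠ 0)
    (hsq : ∀ u : HeightOneSpectrum (𝓞 K), u.valuation K 2 < 1 → u ≠ v →
      IsSquare (algebraMap K (u.adicCompletion K) y)) : BB x y = 0 := by
  obtain ⟨S, hS⟩ := Hk_S (K := K)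
  obtain ⟨g, hg⟩ := exists_unr hv
  have hg0 : g ≠ 0 := by
    intro h
    have h1 := unr_one hv hg
    rw [h, map_zero] at h1
    exact zero_ne_one h1
  -- the element e
  have hex : ∃ G : ∀ u : HeightOneSpectrum (𝓞 K), u.adicCompletion K, (∀ u, G u ≠ 0) ∧
      G v = g ∧ ∀ u, u ≠ v → G u = 1 := by
    refine ⟨Function.update (fun u => 1) v g, fun u => ?_, Function.update_self .., fun u hu =>
      Function.update_of_ne hu _ _⟩
    by_cases hu : u = v
    · subst hu
      rw [Function.update_self]
      exact hg0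
    · rw [Function.update_of_ne hu]
      exact one_ne_zero
  obtain ⟨G, hG0, hGv, hGu⟩ := hex
  obtain ⟨e, he, hes⟩ := weak_sq S G hG0
  obtain ⟨r, hr, her⟩ := hes v ((hS v).2 hv)
  rw [hGv] at her
  have heB : ∀ z : K, z ≠ 0 → BB z e = 0 := by
    intro z hz
    refine BB_pri hz he fun u hu => ?_
    have hu2 : u.valuation K 2 < 1 := lt_of_le_of_ne (val_two_le u) hu
    by_cases huv : u = v
    · subst huv
      exact pri_unr hv he hg her
    · refine pri_sq hu2 he ?_
      obtain ⟨t, _, ht⟩ := hes u ((hS u).2 hu2)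
      rw [ht, hGu u huv, one_mul]
      exact ⟨t, sq t⟩
  -- the element γ
  have hex : ∃ G : ∀ u : HeightOneSpectrum (𝓞 K), u.adicCompletion K, (∀ u, G u ≠ 0) ∧
      G v = algebraMap K _ (unif v) ∧ ∀ u, u ≠ v → G u = 1 := by
    have hu0 : algebraMap K (v.adicCompletion K) (unif v) ≠ 0 := by
      refine (map_ne_zero _).2 fun h => ?_
      have h1 := H38T1.unif_spec v
      rw [h, map_zero] at h1
      exact exp_ne_zero h1.symm
    refine ⟨Function.update (fun u => 1) v (algebraMap K _ (unif v)), fun u => ?_,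
      Function.update_self .., fun u hu => Function.update_of_ne hu _ _⟩
    by_cases hu : u = v
    · subst hu
      rw [Function.update_self]
      exact hu0
    · rw [Function.update_of_ne hu]
      exact one_ne_zero
  obtain ⟨P, hP0, hPv, hPu⟩ := hex
  obtain ⟨γ, hγ, hγs⟩ := weak_sq S P hP0
  have hγsq : ∀ u : HeightOneSpectrum (𝓞 K), u.valuation K 2 < 1 → u ≠ v →
      IsSquare (algebraMap K (u.adicCompletion K) γ) := by
    intro u hu2 huv
    obtain ⟨t, _, ht⟩ := hγs u ((hS u).2 hu2)
    rw [ht, hPu u huv, one_mul]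
    exact ⟨t, sq t⟩
  have h1 : hsv v e γ = 1 := by
    obtain ⟨t, ht0, ht⟩ := hγs v ((hS v).2 hv)
    rw [hPv] at ht
    unfold hsv
    rw [her, hs_congr hr rfl]
    have h2 : ¬ hs g (algebraMap K (v.adicCompletion K) γ) = 0 := by
      rw [unr_even hv (hf_all v) hg ((map_ne_zero _).2 hγ)]
      rintro ⟨n, hn⟩
      rw [ht, map_mul, map_pow, H36CY.val_coe, H38T1.unif_spec] at hn
      exact Hk_exp ((Valuation.ne_zero_iff _).2 ht0) hn
    revert h2
    generalize hs g (algebraMap K (v.adicCompletion K) γ) = t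
    revert t
    decide
  by_cases h0 : hsv v e y = 0
  · have h2 : hsv v e (y * γ) = 1 := by
      have h3 := hs_mul_right (hf_all v) (a := algebraMap K _ y) (b := algebraMap K _ γ)
        (c := algebraMap K _ e) ((map_ne_zero _).2 hy) ((map_ne_zero _).2 hγ)
        ((map_ne_zero _).2 he)
      unfold hsv at h0 h1 ⊢
      rw [map_mul, h3, h0, h1, zero_add]
    have h4 : BB x (y * γ) = 0 := by
      refine Hk_B1 (v := v) he heB hx (mul_ne_zero hy hγ) (fun u hu huv => ?_) h2
      rw [map_mul]
      exact (hsq u hu huv).mul (hγsq u hu huv)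
    have h5 : BB x γ = 0 := Hk_B1 (v := v) he heB hx hγ hγsq h1
    rw [BB_mul hx hy hγ, h5, add_zero] at h4
    exact h4
  · have h2 : hsv v e y = 1 := by
      revert h0
      generalize hsv v e y = t
      revert t
      decide
    exact Hk_B1 (v := v) he heB hx hy hsq h2

private theorem Hk_A {a : K} (ha : a ≠ 0) (T : Finset (HeightOneSpectrum (𝓞 K))) :
    ∀ b : K, b ≠ 0 → (∀ u : HeightOneSpectrum (𝓞 K), u.valuation K 2 < 1 → u ∉ T →
      IsSquare (algebraMap K (u.adicCompletion K) b)) → BB a b = 0 := by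
  induction T using Finset.induction_on with
  | empty =>
    intro b hb h
    exact BB_sol ha hb fun u hu => Hk_sq hb (h u hu (Finset.notMem_empty u))
  | insert v T hvT ih =>
    intro b hb h
    by_cases hv : v.valuation K 2 < 1
    · obtain ⟨S, hS⟩ := Hk_S (K := K)
      have hex : ∃ G : ∀ u : HeightOneSpectrum (𝓞 K), u.adicCompletion K, (∀ u, G u ≠ 0) ∧
          G v = algebraMap K _ b ∧ ∀ u, u ≠ v → G u = 1 := by
        have hu0 : algebraMap K (v.adicCompletion K) b ≠ 0 := (map_ne_zero _).2 hb
        refine ⟨Function.update (fun u => 1) v (algebraMap K _ b), fun u => ?_,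
          Function.update_self .., fun u hu => Function.update_of_ne hu _ _⟩
        by_cases hu : u = v
        · subst hu
          rw [Function.update_self]
          exact hu0
        · rw [Function.update_of_ne hu]
          exact one_ne_zero
      obtain ⟨P, hP0, hPv, hPu⟩ := hex
      obtain ⟨y, hy, hys⟩ := weak_sq S P hP0
      have hysq : ∀ u : HeightOneSpectrum (𝓞 K), u.valuation K 2 < 1 → u ≠ v →
          IsSquare (algebraMap K (u.adicCompletion K) y) := by
        intro u hu2 huv
        obtain ⟨t, _, ht⟩ := hys u ((hS u).2 hu2)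
        rw [ht, hPu u huv, one_mul]
        exact ⟨t, sq t⟩
      have h1 : BB a y = 0 := Hk_B hv ha hy hysq
      have h2 : BB a (b * y) = 0 := by
        refine ih (b * y) (mul_ne_zero hb hy) fun u hu huT => ?_
        by_cases huv : u = v
        · subst huv
          obtain ⟨t, _, ht⟩ := hys u ((hS u).2 hv)
          rw [map_mul, ht, hPv]
          exact ⟨algebraMap K _ b * t, by ring⟩
        · rw [map_mul]
          refine (h u hu ?_).mul (hysq u hu huv)
          rw [Finset.mem_insert, not_or]
          exact ⟨huv, huT⟩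
      rw [BB_mul ha hb hy, h1, add_zero] at h2
      exact h2
    · refine ih b hb fun u hu huT => h u hu ?_
      rw [Finset.mem_insert, not_or]
      exact ⟨fun h1 => hv (h1 ▸ hu), huT⟩

theorem BB_zero {a b : K} (ha : a ≠ 0) (hb : b ≠ 0) : BB a b = 0 := by
  obtain ⟨S, hS⟩ := Hk_S (K := K)
  exact Hk_A ha S b hb fun u hu huS => absurd ((hS u).2 hu) huS

/-- The product formula. -/
theorem prodH (T : Finset (HeightOneSpectrum (𝓞 K))) {a b : K} (ha : a ≠ 0) (hb : b ≠ 0)
    (hT : ∀ v : HeightOneSpectrum (𝓞 K), v ∉ T → OddP v ∧ eo v (sc a) = 0 ∧ eo v (sc b) = 0) :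
    ∑ v ∈ T, hsv v a b + ∑ s : K →+* ℝ, si s (sc a) * si s (sc b) = 0 := by
  have h1 := BB_eq (a := a) (b := b) T fun v hv => by
    obtain ⟨h1, h2, h3⟩ := hT v hv
    exact hsv_supp ha hb h1 h2 h3
  rw [← h1]
  exact BB_zero ha hb

end H36MX
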