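import Pool.Agent.H36.MX.Bg
import Pool.Agent.H36.MX.Bs
import Pool.Agent.H36.MX.Hk

/-!
The facts of the blocks A and B in the form used in `Pool/Agent/H76/MX` (project MP_78d38b_MX; no row).
-/

set_option autoImplicit false
set_option linter.unusedSectionVars false
open scoped Classical

open WithZero NumberField IsDedekindDomain H38RT
open H38T1 (SC sc scu rep eo la si Pri OddP tp unif ka)
open H76PP H76MX

namespace H36MX

theorem hilb (K : Type) [Field K] [NumberField K] : Hilb K where
  hf := hf_all
  odd _ hv _ _ ha hb := hs_odd hv ha hb
  prod _ _ ha hb := BB_zero ha hb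

theorem conicSplit (K : Type) [Field K] [NumberField K] : ConicSplit K :=
  fun L _ _ _ A B θ h u e hs y hy hN ha hb => conic_all L A B θ h u e hs y hy hN ha hb

end H36MX
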