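import Pool.Agent.H76.MQ.Df

/-!
Definitions for the project MP_78d38b_MX (no row, proved): conics, Hilbert symbols, places at which the cubic
splits.
-/

set_option autoImplicit false
set_option linter.unusedSectionVars false
open scoped Classical

open WithZero NumberField IsDedekindDomain H38RT
open H38T1 (SC sc scu rep rep_ne sc_rep sc_mul sc_eq_zero sc_surj eo la si Pri OddP tp unif ka)
open H76PP

namespace H36MX

section Hilb

variable {F : Type} [Field F]

/-- The conic `a x^2 + b y^2 = 1` has a point. -/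
def Sol (a b : F) : Prop := ∃ x y : F, a * x ^ 2 + b * y ^ 2 = 1

/-- The Hilbert symbol, additively. -/
noncomputable def hs (a b : F) : ZMod 2 := if Sol a b then 0 else 1

lemma hs_eq_zero {a b : F} : hs a b = 0 ↔ Sol a b := by
  unfold hs
  split_ifs with h
  · exact ⟨fun _ => h, fun _ => rfl⟩
  · exact ⟨fun h1 => absurd h1 (by decide), fun h1 => absurd h1 h⟩

lemma hs_eq_one {a b : F} : hs a b = 1 ↔ ¬ Sol a b := by
  unfold hs
  split_ifs with h
  · exact ⟨fun h1 => absurd h1 (by decide), fun h1 => absurd h h1⟩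
  · exact ⟨fun _ => h, fun _ => rfl⟩

variable (F) in
/-- The Hilbert symbol of `F` is bilinear and nondegenerate. -/
structure HF : Prop where
  two : (2 : F) ≠ 0
  mul : ∀ a b c : F, a ≠ 0 → b ≠ 0 → c ≠ 0 → hs (a * b) c = hs a c + hs b c
  nd : ∀ a : F, a ≠ 0 → ¬ IsSquare a → ∃ b : F, b ≠ 0 ∧ hs a b = 1

/-- The Hilbert symbol of square classes. -/
noncomputable def hsc (x y : SC F) : ZMod 2 := hs (rep x) (rep y)

end Hilb

section Split

variable {F : Type} [Field F]

/-- `x^3 + a x + b` is the product of the `x - e i`, which are different; the derivatives at `e 0` and `e 2` are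
squares. -/
structure Spl (a b : F) (e : Fin 3 → F) : Prop where
  s1 : e 0 + e 1 + e 2 = 0
  s2 : e 0 * e 1 + e 0 * e 2 + e 1 * e 2 = a
  s3 : e 0 * e 1 * e 2 = -b
  ne01 : e 0 ≠ e 1
  ne02 : e 0 ≠ e 2
  ne12 : e 1 ≠ e 2
  sq0 : IsSquare ((e 0 - e 1) * (e 0 - e 2))
  sq2 : IsSquare ((e 2 - e 0) * (e 2 - e 1))

lemma Spl.root {a b : F} {e : Fin 3 → F} (h : Spl a b e) (i : Fin 3) :
    e i ^ 3 + a * e i + b = 0 := by
  have h1 := h.s1
  have h2 := h.s2
  have h3 := h.s3
  have key : ∀ x : F, x ^ 3 + a * x + b = (x - e 0) * (x - e 1) * (x - e 2) := by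
    intro x
    linear_combination (-x) * h2 + h3 + x ^ 2 * h1
  rw [key]
  fin_cases i <;> simp

variable {K L : Type} [Field K] [Field L] [Algebra K L] {A B : K} {θ : L}

/-- The homomorphism `L → F` which maps `θ` to the root `t`. -/
noncomputable def rh (h : Cub K L A B θ) (i : K →+* F) {t : F} (ht : t ^ 3 + i A * t + i B = 0) :
    L →+* F where
  toFun y := i (h.co 0 y) + i (h.co 1 y) * t + i (h.co 2 y) * t ^ 2
  map_zero' := by simp
  map_one' := by
    obtain ⟨h0, h1, h2⟩ := h.co_one
    rw [h0, h1, h2]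
    simp
  map_add' x y := by
    simp only [map_add]
    ring
  map_mul' x y := by
    obtain ⟨h0, h1, h2⟩ := h.co_mul x y
    rw [h0, h1, h2]
    simp only [map_add, map_sub, map_mul]
    generalize i (h.co 0 x) = a0
    generalize i (h.co 1 x) = a1
    generalize i (h.co 2 x) = a2
    generalize i (h.co 0 y) = b0
    generalize i (h.co 1 y) = b1
    generalize i (h.co 2 y) = b2
    linear_combination (-(a1 * b2 + a2 * b1 + a2 * b2 * t)) * ht

lemma rh_apply (h : Cub K L A B θ) (i : K →+* F) {t : F} (ht : t ^ 3 + i A * t + i B = 0) (y : L) :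
    rh h i ht y = i (h.co 0 y) + i (h.co 1 y) * t + i (h.co 2 y) * t ^ 2 := rfl

lemma rh_algebraMap (h : Cub K L A B θ) (i : K →+* F) {t : F} (ht : t ^ 3 + i A * t + i B = 0)
    (x : K) : rh h i ht (algebraMap K L x) = i x := by
  have h1 := h.co_mk' x 0 0
  simp only [map_zero, zero_mul, add_zero] at h1
  rw [rh_apply, h1.1, h1.2.1, h1.2.2]
  simp

lemma rh_theta (h : Cub K L A B θ) (i : K →+* F) {t : F} (ht : t ^ 3 + i A * t + i B = 0) :
    rh h i ht θ = t := by
  obtain ⟨h0, h1, h2⟩ := h.co_theta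
  rw [rh_apply, h0, h1, h2]
  simp

/-- The local class of `c` at the root `e j`. -/
noncomputable def lcl (h : Cub K L A B θ) (i : K →+* F) {e : Fin 3 → F} (hs : Spl (i A) (i B) e)
    (j : Fin 3) : SC L →+ SC F := scm ((rh h i (hs.root j) : L →+* F) : L →* F)

lemma lcl_sc (h : Cub K L A B θ) (i : K →+* F) {e : Fin 3 → F} (hs : Spl (i A) (i B) e)
    (j : Fin 3) {y : L} (hy : y ≠ 0) : lcl h i hs j (sc y) = sc (rh h i (hs.root j) y) :=
  scm_sc _ hy

end Split

section Cond

variable {F : Type} [Field F]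

/-- The local condition on the classes `c0`, `c2` (at the roots `e 0` and `e 2`); `x` is the class of the twist (or
its replacement). -/
def LW (x c0 c2 : SC F) : Prop := (c0 = 0 ∨ c0 = x) ∧ hsc c2 x = 0

variable [Valued F (WithZero (Multiplicative ℤ))]

/-- `g` is a unit of the form `1 + 4 ρ` which generates the unramified quadratic extension (above two). -/
def Unr (g : F) : Prop := ∃ ρ : F, Valued.v ρ ≤ 1 ∧
  (∀ t : F, Valued.v t ≤ 1 → Valued.v (t ^ 2 + t - ρ) = 1) ∧ g = 1 + 4 * ρ

end Cond

section Glob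

variable {K : Type} [Field K] [NumberField K]

/-- The Hilbert symbol of elements of `K` at the place `v`. -/
noncomputable def hsv (v : HeightOneSpectrum (𝓞 K)) (a b : K) : ZMod 2 :=
  hs (algebraMap K (v.adicCompletion K) a) (algebraMap K (v.adicCompletion K) b)

/-- The sum of all local symbols. -/
noncomputable def BB (a b : K) : ZMod 2 :=
  ∑ᶠ v : HeightOneSpectrum (𝓞 K), hsv v a b + ∑ s : K →+* ℝ, si s (sc a) * si s (sc b)

end Glob

end H36MX
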