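import Pool.Agent.H36.MX.Df
import Pool.Agent.H36.CY.Ld
import Pool.Agent.H36.CY.Sq

/-!
Weak approximation at finitely many finite places (no row, proved).
-/

set_option autoImplicit false
set_option linter.unusedSectionVars false
open scoped Classical

open WithZero NumberField IsDedekindDomain H38RT
open H76PP

namespace H36MX

private theorem Wa_pow {N : Type} [Field N] [NumberField N] (S : Finset (HeightOneSpectrum (𝓞 N)))
    {b : 𝓞 N} (hb : b ≠ 0) {ε : HeightOneSpectrum (𝓞 N) → WithZero (Multiplicative ℤ)}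
    (hε : ∀ w, ε w ≠ 0) :
    ∃ k : ℕ, ∀ V ∈ S, exp (-(k : ℤ)) < ε V * V.intValuation b := by
  induction S using Finset.induction_on with
  | empty => exact ⟨0, fun V hV => absurd hV (Finset.notMem_empty V)⟩
  | insert V S hV ih =>
    obtain ⟨k, hk⟩ := ih
    have h0 : ε V * V.intValuation b ≠ 0 := mul_ne_zero (hε V) (V.intValuation_ne_zero b hb)
    obtain ⟨l, hl⟩ : ∃ l : ℕ, exp (-(l : ℤ)) < ε V * V.intValuation b := by
      refine ⟨(-(log (ε V * V.intValuation b)) + 1).toNat, ?_⟩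
      have h2 := Int.self_le_toNat (-(log (ε V * V.intValuation b)) + 1)
      have h3 : exp (-((-(log (ε V * V.intValuation b)) + 1).toNat : ℤ)) <
          exp (log (ε V * V.intValuation b)) := by
        rw [exp_lt_exp]
        omega
      rwa [exp_log h0] at h3
    refine ⟨max k l, fun U hU => ?_⟩
    rcases Finset.mem_insert.mp hU with rfl | hU
    · refine lt_of_le_of_lt ?_ hl
      rw [exp_le_exp]
      have : (l : ℤ) ≤ ((max k l : ℕ) : ℤ) := by exact_mod_cast le_max_right k l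
      omega
    · refine lt_of_le_of_lt ?_ (hk U hU)
      rw [exp_le_exp]
      have : (k : ℤ) ≤ ((max k l : ℕ) : ℤ) := by exact_mod_cast le_max_left k l
      omega

theorem weak {N : Type} [Field N] [NumberField N]
    (S : Finset (HeightOneSpectrum (𝓞 N))) (x : HeightOneSpectrum (𝓞 N) → N)
    {ε : HeightOneSpectrum (𝓞 N) → WithZero (Multiplicative ℤ)} (hε : ∀ w, ε w ≠ 0) :
    ∃ y : N, ∀ V ∈ S, V.valuation N (y - x V) < ε V := by
  obtain ⟨b, hb⟩ := IsLocalization.exist_integer_multiples_of_finset (nonZeroDivisors (𝓞 N))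
    (S.image x)
  have hb0 : (b : 𝓞 N) ≠ 0 := nonZeroDivisors.ne_zero b.2
  have ha : ∀ V : HeightOneSpectrum (𝓞 N), V ∈ S → ∃ a : 𝓞 N,
      algebraMap (𝓞 N) N a = algebraMap (𝓞 N) N b * x V := by
    intro V hV
    obtain ⟨a, ha⟩ := hb (x V) (Finset.mem_image_of_mem x hV)
    refine ⟨a, ?_⟩
    rw [ha, Algebra.smul_def]
  obtain ⟨k, hk⟩ := Wa_pow S hb0 hε
  obtain ⟨z, hz⟩ := IsDedekindDomain.exists_forall_sub_mem_ideal
    (s := S) (fun V : HeightOneSpectrum (𝓞 N) => V.asIdeal) (fun _ => k)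
    (fun V _ => V.prime)
    (fun V _ U _ hVU h => hVU (HeightOneSpectrum.ext h))
    (fun V => (ha V.1 V.2).choose)
  have hbN : algebraMap (𝓞 N) N b ≠ 0 := by
    intro h
    exact hb0 ((FaithfulSMul.algebraMap_injective (𝓞 N) N) (by rw [h, map_zero]))
  refine ⟨algebraMap (𝓞 N) N z / algebraMap (𝓞 N) N b, fun V hV => ?_⟩
  have h1 := hz V hV
  have h2 := (ha V hV).choose_spec
  set a := (ha V hV).choose with hadef
  have h3 : algebraMap (𝓞 N) N z / algebraMap (𝓞 N) N b - x V =
      algebraMap (𝓞 N) N (z - a) / algebraMap (𝓞 N) N b := by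
    rw [map_sub, h2]
    field_simp
  rw [h3, map_div₀, V.valuation_of_algebraMap, V.valuation_of_algebraMap,
    div_lt_iff₀ (zero_lt_iff.mpr (V.intValuation_ne_zero b hb0))]
  exact lt_of_le_of_lt ((V.intValuation_le_pow_iff_mem (z - a) k).mpr h1) (hk V hV)

variable {K : Type} [Field K] [NumberField K]

/-- Approximation of elements of the completions. -/
theorem weak_F (S : Finset (HeightOneSpectrum (𝓞 K)))
    (x : ∀ v : HeightOneSpectrum (𝓞 K), v.adicCompletion K)
    {ε : HeightOneSpectrum (𝓞 K) → WithZero (Multiplicative ℤ)} (hε : ∀ v, ε v ≠ 0) :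
    ∃ y : K, ∀ v ∈ S, Valued.v (algebraMap K (v.adicCompletion K) y - x v) < ε v := by
  have h1 : ∀ v : HeightOneSpectrum (𝓞 K), ∃ c : v.adicCompletion K, c ≠ 0 ∧ Valued.v c = ε v := by
    intro v
    obtain ⟨π, hπ⟩ := v.valuation_exists_uniformizer K
    refine ⟨algebraMap K (v.adicCompletion K) (π ^ (-log (ε v))), ?_, ?_⟩
    · refine (map_ne_zero _).2 (zpow_ne_zero _ ?_)
      rintro rfl
      rw [map_zero] at hπ
      exact exp_ne_zero hπ.symm
    · rw [H36CY.val_coe, map_zpow₀, hπ, ← exp_zsmul]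
      rw [smul_eq_mul, mul_neg, mul_one, neg_neg, exp_log (hε v)]
  have h2 : ∀ v : HeightOneSpectrum (𝓞 K), ∃ y : K,
      Valued.v (algebraMap K (v.adicCompletion K) y - x v) < ε v := by
    intro v
    obtain ⟨c, hc, hcv⟩ := h1 v
    obtain ⟨y, hy⟩ := H36CY.near_coe v (x v) hc
    exact ⟨y, by rw [← hcv]; exact hy⟩
  choose z hz using h2
  obtain ⟨y, hy⟩ := weak S z hε
  refine ⟨y, fun v hv => ?_⟩
  have e1 : algebraMap K (v.adicCompletion K) y - x v =
      algebraMap K (v.adicCompletion K) (y - z v) +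
        (algebraMap K (v.adicCompletion K) (z v) - x v) := by
    rw [map_sub]
    ring
  rw [e1]
  refine Valuation.map_add_lt _ ?_ (hz v)
  rw [H36CY.val_coe]
  exact hy v hv

/-- An element of `K` in given square classes of finitely many completions. -/
theorem weak_sq (S : Finset (HeightOneSpectrum (𝓞 K)))
    (x : ∀ v : HeightOneSpectrum (𝓞 K), v.adicCompletion K) (hx : ∀ v, x v ≠ 0) :
    ∃ y : K, y ≠ 0 ∧ ∀ v ∈ S, ∃ r : v.adicCompletion K, r ≠ 0 ∧
      algebraMap K (v.adicCompletion K) y = x v * r ^ 2 := by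
  have h4 : ∀ v : HeightOneSpectrum (𝓞 K), Valued.v (4 * x v) ≠ 0 := by
    intro v
    have _ := H36CY.char_zero v
    exact (Valuation.ne_zero_iff _).2 (mul_ne_zero (by norm_num) (hx v))
  obtain ⟨y, hy⟩ := weak_F S x (ε := fun v => Valued.v (4 * x v)) h4
  have key : ∀ v ∈ S, ∃ r : v.adicCompletion K, r ≠ 0 ∧
      algebraMap K (v.adicCompletion K) y = x v * r ^ 2 := by
    intro v hv
    have _ := H36CY.char_zero v
    exact H36CY.sq_near (hy v hv)
  by_cases hS : S.Nonempty
  · refine ⟨y, ?_, key⟩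
    rintro rfl
    obtain ⟨v, hv⟩ := hS
    obtain ⟨r, hr, h⟩ := key v hv
    rw [map_zero] at h
    exact mul_ne_zero (hx v) (pow_ne_zero 2 hr) h.symm
  · rw [Finset.not_nonempty_iff_eq_empty] at hS
    refine ⟨1, one_ne_zero, fun v hv => ?_⟩
    rw [hS] at hv
    exact absurd hv (Finset.notMem_empty v)

end H36MX
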