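import Pool.Agent.H36.MX.Hh
import Pool.Agent.H36.MX.Wa
import Pool.Agent.H36.CY.Ld
import Pool.Agent.H38.T1.Ea
import Pool.Agent.H76.PP.Tf

/-!
ROW MXHe (project MP_78d38b_MX, about 250 lines): the Hilbert symbol at odd places is the tame symbol. `F = K_v`, `|x| = Valued.v x`. Use the STATEMENTS of Ha, Hh (only hs_comm, hs_sq, hs_of_sq, sol_iff, hsc_sc).

PROOF of hs_odd. Both sides only depend on the classes of `a`, `b` in `SC K` and are symmetric (`tp` unfold; `H38T1.eo_add`, `la_add`, `tp_comm`, grep in H38/T1/Ea.lean, H38/T1/*.lean; for a class `c` at an odd place: `eo v c = 0 ∧ la v c = 0` iff it is a square in `K_v`, see `H38T1` / `H36CY.sq_near'` with `|4| = 1`; `la` is additive). So we can assume (multiplying by squares of `unif v`) that `|a|, |b| ∈ {1, exp (-1)}`.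
(1) `|a| = |b| = 1`: `tp = 0`, and Sol: modulo `v` (`k` the residue field, finite, odd characteristic) there are `x, y` with `a x^2 + b y^2 = 1` (`FiniteField.exists_root_sum_quadratic` or ZMod-free: Mathlib `FiniteField.exists_root_sum_quadratic`), one of them nonzero, say `x`: lift to `𝓞 K`: `a x^2 = 1 - b y^2` times a unit close to one, which is a square in `F` (sq_near with `|4| = 1`).
(2) `|a| = 1`, `|b| = exp (-1)`: `tp v (sc a) (sc b) = la v (sc a)`. If `la v (sc a) = 0` then `a` is a square in `F`: hs_of_sq. Otherwise no solution: `a x^2 + b y^2 = 1`: the orders of `a x^2` and `b y^2` have different parity, so `|a x^2 + b y^2| = max = 1`, `|a x^2| = 1 > |b y^2|`, so `|a x^2 - 1| < 1`, `a` is a square in `F` (sq_near), so `la v (sc a) = 0`, a contradiction.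
(3) `|a| = |b| = exp (-1)`: `hs a b = hs a (-(a b))`: by sol_iff and `-a = 0^2 - a 1^2`, products of norms are norms (sol_mul) both ways; and `-(a b) = unif^2 *` unit: case (2) with exchanged roles (hs_comm): the value is `la v (sc (-(a b)))` `= la v (sc (-1)) + la v (sc a) + la v (sc b) = tp v (sc a) (sc b)`.
PROOF of hf_odd: every element of `F^*` is an element of `K^*` times a square (`weak_sq` with `S = {v}`), so `mul` follows from the additivity of `tp` (in `c` and in `c'`; `H38T1`: `tp_add` or unfold with `eo_add`, `la_add`, `ring`/`decide`). `nd`: `a` (in `K`) not a square in `F`: `eo v (sc a) = 1` or `la v (sc a) = 1`. If `eo v (sc a) = 0`: `b = unif v`: `tp = la v (sc a) = 1`.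
If `eo v (sc a) = 1`: take `b` a unit with `la v (sc b) = 1` (a unit of `𝓞 K` whose residue is not a square; `FiniteField.exists_nonsquare`): `tp = la v (sc b) = 1`. `two`: characteristic zero (`H36CY.char_zero`).
-/

set_option autoImplicit false
set_option linter.unusedSectionVars false
open scoped Classical

open WithZero NumberField IsDedekindDomain H38RT
open H38T1 (SC sc scu rep rep_ne sc_rep sc_mul sc_eq_zero sc_surj eo la si Pri OddP tp unif ka)
open H76PP

namespace H36MX

variable {K : Type} [Field K] [NumberField K] {v : HeightOneSpectrum (𝓞 K)}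

private theorem He_v4 (hv : OddP v) : v.valuation K 4 = 1 := by
  have h : (4 : K) = 2 * 2 := by norm_num
  have h2 : v.valuation K 2 = 1 := hv
  rw [h, map_mul, h2, one_mul]

private theorem He_v4' (hv : OddP v) : Valued.v (4 : v.adicCompletion K) = 1 := by
  have h : (4 : v.adicCompletion K) = algebraMap K (v.adicCompletion K) 4 := by rw [map_ofNat]
  rw [h, H36CY.val_coe, He_v4 hv]

private theorem He_near (hv : OddP v) {y z : K} (h : v.valuation K (y - z) < v.valuation K z) :
    ∃ r : v.adicCompletion K, r ≠ 0 ∧ algebraMap K (v.adicCompletion K) y =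
      algebraMap K (v.adicCompletion K) z * r ^ 2 := by
  refine H36CY.sq_near' v ?_
  rw [map_mul, He_v4 hv, one_mul]
  exact h

private theorem He_sqone {t : WithZero (Multiplicative ℤ)} (h : t * t = 1) : t = 1 := by
  have h' : t ^ 2 = 1 := by rw [sq, h]
  exact (pow_eq_one_iff.1 h').resolve_right two_ne_zero

private theorem He_sq (hv : OddP v) {x : K} (hx : v.valuation K x = 1) :
    IsSquare (algebraMap K (v.adicCompletion K) x) ↔ Sq (v.valuation K) x := by
  constructor
  · rintro ⟨s, hs⟩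
    have h1 : Valued.v s * Valued.v s = 1 := by
      rw [← map_mul, ← hs, H36CY.val_coe, hx]
    have h2 : Valued.v s = 1 := He_sqone h1
    obtain ⟨y, hy⟩ := H36CY.near_coe v s (c := 1) one_ne_zero
    rw [map_one] at hy
    refine ⟨y, ?_⟩
    have hy1 : Valued.v (algebraMap K (v.adicCompletion K) y) ≤ 1 := by
      have e : algebraMap K (v.adicCompletion K) y =
          (algebraMap K (v.adicCompletion K) y - s) + s := by ring
      rw [e]
      exact (Valuation.map_add _ _ _).trans (max_le hy.le h2.le)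
    have hy2 : Valued.v (s + algebraMap K (v.adicCompletion K) y) ≤ 1 :=
      (Valuation.map_add _ _ _).trans (max_le h2.le hy1)
    rw [← H36CY.val_coe]
    have e : algebraMap K (v.adicCompletion K) (x - y ^ 2) =
        -((algebraMap K (v.adicCompletion K) y - s) *
          (s + algebraMap K (v.adicCompletion K) y)) := by
      rw [map_sub, map_pow, hs]
      ring
    rw [e, Valuation.map_neg, map_mul]
    exact (mul_le_of_le_one_right' hy2).trans_lt hy
  · rintro ⟨t, ht⟩
    have h1 : v.valuation K (t ^ 2) = 1 := by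
      have e : t ^ 2 = x - (x - t ^ 2) := by ring
      rw [e, Valuation.map_sub_eq_of_lt_left _ (by rw [hx]; exact ht), hx]
    obtain ⟨r, -, hr⟩ := He_near hv (y := x) (z := t ^ 2) (by rw [h1]; exact ht)
    refine ⟨algebraMap K (v.adicCompletion K) t * r, ?_⟩
    rw [hr, map_pow]
    ring

private theorem He_unif_ne (v : HeightOneSpectrum (𝓞 K)) : unif v ≠ 0 := by
  intro h
  have h1 := H38T1.unif_spec v
  rw [h, map_zero] at h1
  exact exp_ne_zero h1.symm

private theorem He_nf (v : HeightOneSpectrum (𝓞 K)) {a : K} (ha : a ≠ 0) :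
    ∃ a' r : K, a' ≠ 0 ∧ r ≠ 0 ∧ a = a' * r ^ 2 ∧
      (v.valuation K a' = 1 ∨ v.valuation K a' = exp (-1)) := by
  obtain ⟨k, hk⟩ := Int.even_or_odd' (ord (v.valuation K) a)
  have hπ := H38T1.unif_spec v
  have hπ0 := He_unif_ne v
  have e1 : (unif v) ^ (-(2 * k)) * ((unif v) ^ k) ^ 2 = 1 := by
    rw [← zpow_natCast, ← zpow_mul, ← zpow_add₀ hπ0]
    have : -(2 * k) + k * ((2 : ℕ) : ℤ) = 0 := by push_cast; ring
    rw [this, zpow_zero]
  refine ⟨a * (unif v) ^ (-(2 * k)), (unif v) ^ k, mul_ne_zero ha (zpow_ne_zero _ hπ0),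
    zpow_ne_zero _ hπ0, ?_, ?_⟩
  · rw [mul_assoc, e1, mul_one]
  · rw [map_mul, map_zpow₀, hπ, H38RT.V_eq (V := v.valuation K) ha, ← exp_zsmul, ← exp_add]
    rcases hk with hk | hk
    · left
      rw [hk]
      have : -(2 * k) + -(2 * k) • (-1 : ℤ) = 0 := by rw [smul_eq_mul]; ring
      rw [this, exp_zero]
    · right
      rw [hk]
      have : -(2 * k + 1) + -(2 * k) • (-1 : ℤ) = -1 := by rw [smul_eq_mul]; ring
      rw [this]

private theorem He_sc {a r : K} (h1 : a ≠ 0) (hr : r ≠ 0) : sc (a * r ^ 2) = sc a := by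
  rw [sc_mul h1 (pow_ne_zero 2 hr), (sc_eq_zero (pow_ne_zero 2 hr)).2 ⟨r, sq r⟩, add_zero]

private theorem He_hsv {a a' r b : K} (hr : r ≠ 0) (h : a = a' * r ^ 2) :
    hsv v a b = hsv v a' b := by
  unfold hsv
  refine hs_congr (r := algebraMap K (v.adicCompletion K) r) ((map_ne_zero _).2 hr) ?_
  rw [h, map_mul, map_pow]

private theorem He_hsv_comm (a b : K) : hsv v a b = hsv v b a := hs_comm _ _

private theorem He_ne {a : K} (h : v.valuation K a = 1) : a ≠ 0 := by
  rintro rfl
  rw [map_zero] at h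
  exact zero_ne_one h

private theorem He_ne' {a : K} (h : v.valuation K a = exp (-1)) : a ≠ 0 := by
  rintro rfl
  rw [map_zero] at h
  exact exp_ne_zero h.symm

private theorem He_eo_one {a : K} (h : v.valuation K a = 1) : eo v (sc a) = 0 := by
  rw [H38T1.eo_sc (He_ne h)]
  have : ord (v.valuation K) a = 0 := by
    unfold ord
    rw [h, log_one, neg_zero]
  rw [this, Int.cast_zero]

private theorem He_eo_exp {a : K} (h : v.valuation K a = exp (-1)) : eo v (sc a) = 1 := by
  rw [H38T1.eo_sc (He_ne' h)]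
  have : ord (v.valuation K) a = 1 := by
    unfold ord
    rw [h, log_exp, neg_neg]
  rw [this, Int.cast_one]

private theorem He_la_one (hv : OddP v) {a : K} (h : v.valuation K a = 1) :
    la v (sc a) = if Sq (v.valuation K) a then 0 else 1 := by
  rw [H38T1.la_sc hv (He_ne h)]
  exact lam_unit h

private theorem He_int (v : HeightOneSpectrum (𝓞 K)) (y : 𝓞 K) : v.valuation K (y : K) ≤ 1 :=
  v.valuation_le_one y

/-- The residue field. -/
private theorem He_res (hv : OddP v) :
    ∃ (k : Type) (_ : Field k) (_ : Fintype k) (f : 𝓞 K →+* k), Function.Surjective f ∧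
      ringChar k ≠ 2 ∧ ∀ x : 𝓞 K, f x = 0 ↔ v.valuation K (x : K) < 1 := by
  have hmax : v.asIdeal.IsMaximal := v.isMaximal
  have hfin : Finite (𝓞 K ⧸ v.asIdeal) := Ideal.finiteQuotientOfFreeOfNeBot v.asIdeal v.ne_bot
  refine ⟨𝓞 K ⧸ v.asIdeal, Ideal.Quotient.field v.asIdeal, Fintype.ofFinite _,
    Ideal.Quotient.mk v.asIdeal, Ideal.Quotient.mk_surjective, ?_, ?_⟩
  · intro h
    have h1 : ((2 : ℕ) : 𝓞 K ⧸ v.asIdeal) = 0 := by
      have := ringChar.Nat.cast_ringChar (R := 𝓞 K ⧸ v.asIdeal)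
      rwa [h] at this
    have h2 : Ideal.Quotient.mk v.asIdeal (2 : 𝓞 K) = 0 := by
      rw [map_ofNat]
      exact_mod_cast h1
    rw [Ideal.Quotient.eq_zero_iff_mem] at h2
    have h3 := (v.valuation_lt_one_iff_mem (K := K) _).2 h2
    have h4 : ((2 : 𝓞 K) : K) = 2 := map_ofNat (algebraMap (𝓞 K) K) 2
    have h5 : v.valuation K 2 < 1 := lt_of_eq_of_lt (congrArg (v.valuation K) h4.symm) h3
    exact absurd hv h5.ne
  · intro x
    rw [Ideal.Quotient.eq_zero_iff_mem]
    exact (v.valuation_lt_one_iff_mem (K := K) x).symm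

private theorem He_case1 (hv : OddP v) {a b : K} (ha : v.valuation K a = 1)
    (hb : v.valuation K b = 1) : hsv v a b = 0 := by
  obtain ⟨k, _, _, f, hf, hchar, hz⟩ := He_res hv
  obtain ⟨α, hα⟩ := Tf_approx v ha.le
  obtain ⟨β, hβ⟩ := Tf_approx v hb.le
  have hvα : v.valuation K (α : K) = 1 := by
    have e : (α : K) = a - (a - α) := by ring
    rw [e, Valuation.map_sub_eq_of_lt_left _ (by rw [ha]; exact hα), ha]
  have hvβ : v.valuation K (β : K) = 1 := by
    have e : (β : K) = b - (b - β) := by ring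
    rw [e, Valuation.map_sub_eq_of_lt_left _ (by rw [hb]; exact hβ), hb]
  have hfα : f α ≠ 0 := by
    intro h
    rw [hz, hvα] at h
    exact lt_irrefl _ h
  have hfβ : f β ≠ 0 := by
    intro h
    rw [hz, hvβ] at h
    exact lt_irrefl _ h
  have hcard : Fintype.card k % 2 = 1 := FiniteField.odd_card_of_char_ne_two hchar
  obtain ⟨x', y', hxy⟩ := FiniteField.exists_root_sum_quadratic
    (f := Polynomial.C (f α) * Polynomial.X ^ 2)
    (g := Polynomial.C (f β) * Polynomial.X ^ 2 + Polynomial.C 0 * Polynomial.X +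
      Polynomial.C (-1))
    (Polynomial.degree_C_mul_X_pow 2 hfα) (Polynomial.degree_quadratic hfβ) hcard
  obtain ⟨x, rfl⟩ := hf x'
  obtain ⟨y, rfl⟩ := hf y'
  have h1 : f (α * x ^ 2 + β * y ^ 2 - 1) = 0 := by
    simp only [Polynomial.eval_mul, Polynomial.eval_C, Polynomial.eval_pow, Polynomial.eval_X,
      Polynomial.eval_add, zero_mul, add_zero] at hxy
    simp only [map_sub, map_add, map_mul, map_pow, map_one]
    linear_combination hxy
  rw [hz] at h1
  have h2 : v.valuation K (a * x ^ 2 + b * y ^ 2 - 1) < 1 := by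
    have e : a * (x : K) ^ 2 + b * (y : K) ^ 2 - 1 =
        ((α * x ^ 2 + β * y ^ 2 - 1 : 𝓞 K) : K) + ((a - α) * (x : K) ^ 2 +
          (b - β) * (y : K) ^ 2) := by
      push_cast
      ring
    rw [e]
    refine Valuation.map_add_lt _ h1 (Valuation.map_add_lt _ ?_ ?_)
    · rw [map_mul, map_pow]
      exact (mul_le_of_le_one_right' (pow_le_one₀ zero_le (He_int v x))).trans_lt hα
    · rw [map_mul, map_pow]
      exact (mul_le_of_le_one_right' (pow_le_one₀ zero_le (He_int v y))).trans_lt hβ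
  have key : ∀ (a b : K) (x y : 𝓞 K), v.valuation K a = 1 → v.valuation K (x : K) = 1 →
      v.valuation K (a * x ^ 2 + b * y ^ 2 - 1) < 1 →
      Sol (algebraMap K (v.adicCompletion K) a) (algebraMap K (v.adicCompletion K) b) := by
    intro a b x y ha hx h
    have hax : v.valuation K (a * (x : K) ^ 2) = 1 := by
      rw [map_mul, map_pow, ha, hx, one_pow, one_mul]
    obtain ⟨r, -, hr⟩ := He_near hv (y := 1 - b * (y : K) ^ 2) (z := a * (x : K) ^ 2) (by
      rw [hax]
      have e : 1 - b * (y : K) ^ 2 - a * (x : K) ^ 2 = -(a * (x : K) ^ 2 + b * (y : K) ^ 2 - 1) := by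
        ring
      rw [e, Valuation.map_neg]
      exact h)
    refine ⟨algebraMap K (v.adicCompletion K) x * r, algebraMap K (v.adicCompletion K) y, ?_⟩
    simp only [map_sub, map_mul, map_pow, map_one] at hr
    linear_combination -hr
  rw [hsv, hs_eq_zero]
  by_cases hx : v.valuation K (x : K) = 1
  · exact key a b x y ha hx h2
  · have hy : v.valuation K (y : K) = 1 := by
      by_contra hy
      have hx' := lt_of_le_of_ne (He_int v x) hx
      have hy' := lt_of_le_of_ne (He_int v y) hy
      have h3 : v.valuation K (a * (x : K) ^ 2 + b * (y : K) ^ 2) < 1 := by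
        refine Valuation.map_add_lt _ ?_ ?_
        · rw [map_mul, map_pow, ha, one_mul]
          exact pow_lt_one₀ zero_le hx' two_ne_zero
        · rw [map_mul, map_pow, hb, one_mul]
          exact pow_lt_one₀ zero_le hy' two_ne_zero
      have e : (1 : K) = (a * (x : K) ^ 2 + b * (y : K) ^ 2) -
          (a * (x : K) ^ 2 + b * (y : K) ^ 2 - 1) := by ring
      have h4 : v.valuation K (1 : K) < 1 := by
        rw [e]
        exact Valuation.map_sub_lt _ h3 h2
      rw [map_one] at h4
      exact lt_irrefl _ h4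
    have h5 := key b a y x hb hy (by
      have e : b * (y : K) ^ 2 + a * (x : K) ^ 2 - 1 = a * (x : K) ^ 2 + b * (y : K) ^ 2 - 1 := by
        ring
      rw [e]
      exact h2)
    obtain ⟨s, t, hst⟩ := h5
    exact ⟨t, s, by rw [add_comm]; exact hst⟩

private theorem He_case2 (hv : OddP v) {a b : K} (ha : v.valuation K a = 1)
    (hb : v.valuation K b = exp (-1)) : hsv v a b = la v (sc a) := by
  have ha0 := He_ne ha
  have hb0 := He_ne' hb
  rw [He_la_one hv ha]
  by_cases hs : Sq (v.valuation K) a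
  · rw [if_pos hs]
    exact hs_of_sq ((map_ne_zero _).2 ha0) ((He_sq hv ha).2 hs)
  · rw [if_neg hs, hsv, hs_eq_one]
    rintro ⟨x, y, hxy⟩
    apply hs
    rw [← He_sq hv ha]
    obtain ⟨A, hA⟩ : ∃ A, A = algebraMap K (v.adicCompletion K) a := ⟨_, rfl⟩
    obtain ⟨B, hB⟩ : ∃ B, B = algebraMap K (v.adicCompletion K) b := ⟨_, rfl⟩
    have hvA : Valued.v A = 1 := by rw [hA, H36CY.val_coe, ha]
    have hvB : Valued.v B = exp (-1) := by rw [hB, H36CY.val_coe, hb]
    rw [← hA, ← hB] at hxy
    rw [← hA]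
    -- the valuation of `B y^2` is less than one
    have hBy : Valued.v (B * y ^ 2) < 1 := by
      by_contra hge
      rw [not_lt] at hge
      have hy0 : Valued.v y ≠ 0 := by
        intro h
        rw [map_mul, map_pow, h, zero_pow two_ne_zero, mul_zero] at hge
        exact absurd hge (not_le.2 zero_lt_one)
      obtain ⟨n, hn⟩ : ∃ n : ℤ, Valued.v y = exp n := ⟨log (Valued.v y), (exp_log hy0).symm⟩
      have e1 : Valued.v (B * y ^ 2) = exp (2 * n - 1) := by
        rw [map_mul, map_pow, hvB, hn, ← exp_nsmul, ← exp_add]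
        congr 1
        rw [nsmul_eq_mul]
        push_cast
        ring
      rw [e1, ← exp_zero, exp_le_exp] at hge
      have e2 : Valued.v (A * x ^ 2) = exp (2 * n - 1) := by
        have e3 : A * x ^ 2 = 1 - B * y ^ 2 := by linear_combination hxy
        rw [e3, Valuation.map_sub_swap, Valuation.map_sub_eq_of_lt_left, e1]
        rw [e1, map_one, ← exp_zero, exp_lt_exp]
        omega
      rw [map_mul, map_pow, hvA, one_mul] at e2
      have hx0 : Valued.v x ≠ 0 := by
        intro h
        rw [h, zero_pow two_ne_zero] at e2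
        exact exp_ne_zero e2.symm
      obtain ⟨m, hm⟩ : ∃ m : ℤ, Valued.v x = exp m := ⟨log (Valued.v x), (exp_log hx0).symm⟩
      rw [hm, ← exp_nsmul, exp_inj, nsmul_eq_mul] at e2
      push_cast at e2
      omega
    have hAx : Valued.v (A * x ^ 2) = 1 := by
      have e3 : A * x ^ 2 = 1 - B * y ^ 2 := by linear_combination hxy
      rw [e3, Valuation.map_sub_eq_of_lt_left _ (by rw [map_one]; exact hBy), map_one]
    have hx1 : Valued.v x = 1 := by
      rw [map_mul, map_pow, hvA, one_mul, sq] at hAx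
      exact He_sqone hAx
    have hx0 : x ≠ 0 := by
      rintro rfl
      rw [map_zero] at hx1
      exact zero_ne_one hx1
    have _ := H36CY.char_zero v
    obtain ⟨r, -, hr⟩ := H36CY.sq_near (y := A) (z := (x⁻¹) ^ 2) (by
      rw [map_mul, He_v4' hv, one_mul, map_pow, map_inv₀, hx1, inv_one, one_pow]
      have e : A - (x⁻¹) ^ 2 = -(B * y ^ 2) * (x⁻¹) ^ 2 := by
        have h5 : x * x⁻¹ = 1 := mul_inv_cancel₀ hx0
        linear_combination (x⁻¹) ^ 2 * hxy - A * (x * x⁻¹ + 1) * h5
      rw [e, map_mul, Valuation.map_neg, map_pow, map_inv₀, hx1, inv_one, one_pow, mul_one]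
      exact hBy)
    exact ⟨x⁻¹ * r, by rw [hr]; ring⟩

private theorem He_two (v : HeightOneSpectrum (𝓞 K)) : (2 : v.adicCompletion K) ≠ 0 := by
  have _ := H36CY.char_zero v
  exact two_ne_zero

private theorem He_case3 (hv : OddP v) {a b : K} (ha : v.valuation K a = exp (-1))
    (hb : v.valuation K b = exp (-1)) :
    hsv v a b = la v (sc (-1)) + la v (sc a) + la v (sc b) := by
  have ha0 := He_ne' ha
  have hb0 := He_ne' hb
  have h2 := He_two v
  obtain ⟨A, hA⟩ : ∃ A, A = algebraMap K (v.adicCompletion K) a := ⟨_, rfl⟩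
  obtain ⟨B, hB⟩ : ∃ B, B = algebraMap K (v.adicCompletion K) b := ⟨_, rfl⟩
  have hA0 : A ≠ 0 := by rw [hA]; exact (map_ne_zero _).2 ha0
  have hB0 : B ≠ 0 := by rw [hB]; exact (map_ne_zero _).2 hb0
  have hneg : Sol A (-A) := hs_eq_zero.1 (hs_neg h2 hA0)
  have h3 : hs A B = hs A (-(A * B)) := by
    by_cases hs1 : Sol A B
    · have h4 : Sol A (B * -A) := sol_mul h2 hA0 hB0 (neg_ne_zero.2 hA0) hs1 hneg
      have e : B * -A = -(A * B) := by ring
      rw [e] at h4
      rw [hs_eq_zero.2 hs1, hs_eq_zero.2 h4]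
    · have h4 : ¬ Sol A (-(A * B)) := by
        intro h5
        apply hs1
        have h6 : Sol A (-(A * B) * -A) :=
          sol_mul h2 hA0 (neg_ne_zero.2 (mul_ne_zero hA0 hB0)) (neg_ne_zero.2 hA0) h5 hneg
        have h7 : hs A (-(A * B) * -A) = hs A B := hs_congr_right hA0 (by ring)
        rw [← hs_eq_zero, ← h7, hs_eq_zero]
        exact h6
      rw [hs_eq_one.2 hs1, hs_eq_one.2 h4]
  have hπ := H38T1.unif_spec v
  have hπ0 := He_unif_ne v
  have hc : v.valuation K (-(a * b) * ((unif v)⁻¹) ^ 2) = 1 := by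
    rw [map_mul, Valuation.map_neg, map_mul, map_pow, map_inv₀, ha, hb, hπ, ← exp_neg,
      ← exp_nsmul, ← exp_add, ← exp_add]
    have : (-1 : ℤ) + -1 + 2 • (- -1 : ℤ) = 0 := by norm_num
    rw [this, exp_zero]
  have h4 : hs A (-(A * B)) = hsv v a (-(a * b) * ((unif v)⁻¹) ^ 2) := by
    unfold hsv
    rw [← hA]
    refine (hs_congr_right (r := algebraMap K (v.adicCompletion K) (unif v)⁻¹)
      ((map_ne_zero _).2 (inv_ne_zero hπ0)) ?_).symm
    rw [map_mul, map_neg, map_mul, map_pow, ← hA, ← hB]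
  have h5 : hsv v a b = hs A B := by
    unfold hsv
    rw [hA, hB]
  have h1 : (-1 : K) ≠ 0 := neg_ne_zero.2 one_ne_zero
  rw [h5, h3, h4, He_hsv_comm, He_case2 hv hc ha,
    He_sc (neg_ne_zero.2 (mul_ne_zero ha0 hb0)) (inv_ne_zero hπ0)]
  have e : -(a * b) = -1 * (a * b) := by ring
  rw [e, sc_mul h1 (mul_ne_zero ha0 hb0), sc_mul ha0 hb0, H38T1.la_add hv, H38T1.la_add hv,
    add_assoc]

theorem hs_odd (hv : OddP v) {a b : K} (ha : a ≠ 0) (hb : b ≠ 0) :
    hsv v a b = tp v (sc a) (sc b) := by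
  obtain ⟨a', r, ha', hr, har, hva⟩ := He_nf v ha
  obtain ⟨b', s, hb', hs, hbs, hvb⟩ := He_nf v hb
  rw [He_hsv hr har, He_hsv_comm, He_hsv hs hbs, He_hsv_comm, har, hbs, He_sc ha' hr,
    He_sc hb' hs]
  unfold tp
  rcases hva with hva | hva <;> rcases hvb with hvb | hvb
  · rw [He_case1 hv hva hvb, He_eo_one hva, He_eo_one hvb]
    ring
  · rw [He_case2 hv hva hvb, He_eo_one hva, He_eo_exp hvb]
    ring
  · rw [He_hsv_comm, He_case2 hv hvb hva, He_eo_one hvb, He_eo_exp hva]
    ring
  · rw [He_case3 hv hva hvb, He_eo_exp hva, He_eo_exp hvb]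
    ring

private theorem He_rep (v : HeightOneSpectrum (𝓞 K)) {x : v.adicCompletion K} (hx : x ≠ 0) :
    ∃ y : K, y ≠ 0 ∧ ∃ r : v.adicCompletion K, r ≠ 0 ∧
      algebraMap K (v.adicCompletion K) y = x * r ^ 2 := by
  have _ := H36CY.char_zero v
  obtain ⟨y, hy⟩ := H36CY.near_coe v x (c := 4 * x) (mul_ne_zero (by norm_num) hx)
  obtain ⟨r, hr, h⟩ := H36CY.sq_near hy
  refine ⟨y, ?_, r, hr, h⟩
  rintro rfl
  rw [map_zero] at h
  exact mul_ne_zero hx (pow_ne_zero 2 hr) h.symm

private theorem He_hs_rep {v : HeightOneSpectrum (𝓞 K)} {x y r s : v.adicCompletion K} {a b : K}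
    (hr : r ≠ 0) (hs : s ≠ 0) (ha : algebraMap K (v.adicCompletion K) a = x * r ^ 2)
    (hb : algebraMap K (v.adicCompletion K) b = y * s ^ 2) :
    H36MX.hs x y = hsv v a b := by
  unfold hsv
  rw [hs_congr hr ha, hs_congr_right hs hb]

/-- A unit which is not a square modulo `v`. -/
private theorem He_nonsq (hv : OddP v) :
    ∃ b : K, v.valuation K b = 1 ∧ ¬ Sq (v.valuation K) b := by
  obtain ⟨k, _, _, f, hf, hchar, hz⟩ := He_res hv
  obtain ⟨β', hβ'⟩ := FiniteField.exists_nonsquare hchar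
  obtain ⟨β, rfl⟩ := hf β'
  have hβ1 : v.valuation K (β : K) = 1 := by
    refine le_antisymm (He_int v β) (not_lt.1 fun h => ?_)
    rw [← hz] at h
    exact hβ' (by rw [h]; exact IsSquare.zero)
  refine ⟨β, hβ1, ?_⟩
  rintro ⟨t, ht⟩
  have h1 : v.valuation K (t ^ 2) = 1 := by
    have e : t ^ 2 = β - (β - t ^ 2) := by ring
    rw [e, Valuation.map_sub_eq_of_lt_left _ (by rw [hβ1]; exact ht), hβ1]
  have ht1 : v.valuation K t = 1 := by
    rw [map_pow, sq] at h1
    exact He_sqone h1
  obtain ⟨τ, hτ⟩ := Tf_approx v ht1.le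
  apply hβ'
  refine ⟨f τ, ?_⟩
  have h2 : f (β - τ * τ) = 0 := by
    rw [hz]
    have e : ((β - τ * τ : 𝓞 K) : K) = (β - t ^ 2) + (t - τ) * (t + τ) := by
      push_cast
      ring
    rw [e]
    refine Valuation.map_add_lt _ ht ?_
    rw [map_mul]
    exact (mul_le_of_le_one_right' ((Valuation.map_add _ _ _).trans
      (max_le ht1.le (He_int v τ)))).trans_lt hτ
  rw [map_sub, map_mul, sub_eq_zero] at h2
  exact h2

theorem hf_odd (hv : OddP v) : HF (v.adicCompletion K) := by
  refine ⟨He_two v, ?_, ?_⟩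
  · intro x y z hx hy hz
    obtain ⟨a, ha, r, hr, har⟩ := He_rep v hx
    obtain ⟨b, hb, s, hs, hbs⟩ := He_rep v hy
    obtain ⟨c, hc, t, ht, hct⟩ := He_rep v hz
    have hab : algebraMap K (v.adicCompletion K) (a * b) = x * y * (r * s) ^ 2 := by
      rw [map_mul, har, hbs]
      ring
    rw [He_hs_rep (mul_ne_zero hr hs) ht hab hct, He_hs_rep hr ht har hct,
      He_hs_rep hs ht hbs hct, hs_odd hv (mul_ne_zero ha hb) hc, hs_odd hv ha hc,
      hs_odd hv hb hc, sc_mul ha hb, H38T1.tp_add_left hv]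
  · intro x hx hns
    obtain ⟨a, ha, r, hr, har⟩ := He_rep v hx
    have hns' : ¬ IsSquare (algebraMap K (v.adicCompletion K) a) := by
      rintro ⟨m, hm⟩
      apply hns
      refine ⟨m / r, ?_⟩
      rw [har] at hm
      field_simp
      linear_combination hm
    have key : ∃ b : K, b ≠ 0 ∧ tp v (sc a) (sc b) = 1 := by
      obtain ⟨a', s, ha', hs, has, hva⟩ := He_nf v ha
      have hsc : sc a = sc a' := by rw [has, He_sc ha' hs]
      rcases hva with hva | hva
      · have h1 : ¬ Sq (v.valuation K) a' := by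
          rw [← He_sq hv hva]
          rintro ⟨m, hm⟩
          apply hns'
          refine ⟨m * algebraMap K (v.adicCompletion K) s, ?_⟩
          rw [has, map_mul, map_pow, hm]
          ring
        refine ⟨unif v, He_unif_ne v, ?_⟩
        unfold tp
        rw [hsc, He_eo_one hva, He_eo_exp (H38T1.unif_spec v), He_la_one hv hva, if_neg h1]
        ring
      · obtain ⟨b, hb, hbn⟩ := He_nonsq hv
        refine ⟨b, He_ne hb, ?_⟩
        unfold tp
        rw [hsc, He_eo_exp hva, He_eo_one hb, He_la_one hv hb, if_neg hbn]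
        ring
    obtain ⟨b, hb, htp⟩ := key
    refine ⟨algebraMap K (v.adicCompletion K) b, (map_ne_zero _).2 hb, ?_⟩
    rw [← hs_odd hv ha hb] at htp
    rw [He_hs_rep hr one_ne_zero har (b := b) (by rw [one_pow, mul_one])]
    exact htp

end H36MX
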