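import Pool.Agent.H36.MX.Bk
import Pool.Agent.H36.MX.He

/-!
ROW MXBo (project MP_78d38b_MX, about 150 lines): the local condition at odd places. Use the STATEMENTS of Ha, Hh, He, Bk. `F = K_v`, `|4| = 1`, sq_near = `H36CY.sq_near`: `|y - z| < |z|` implies `y = z r^2`, `r ≠ 0`.

hs_even: choose `a, b ∈ K` equal to `y, z` times squares (`weak_sq` of Wa.lean, `S = {v}`); `eo v (sc a) = 0 = eo v (sc b)` (`H38T1.eo_sc`, `ord = -log`, `H36CY.val_coe`), hs_odd, `tp` unfolds to `0`.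
cond_odd: `δ = e 1 - e 0`, `|δ| = 1`, `X = x - e 1`, `τ = e 2 - e 1`, `|τ| < 1`. `x - e 0 = X + δ`, `x - e 2 = X - τ`. `E (X + δ) X (X - τ)` is a square. `c0 = sc (E (X + δ))`, `c2 = sc (E (X - τ))`, `g = E δ`, `|g|` is an even power. iso_pt: `hsc c0 c2 = 0`.
(a) `|X| > |τ|`: `X - τ = X *` square, so `E (X + δ)` is a square, `c0 = 0`. We need `hs (E X) (E δ) = 0`. If `|X| > 1`: `X + δ = X *` square, so `E X` is a square (hs_of_sq). If `|X| = 1`: hs_even. If `|X| < 1`: `X + δ = δ *` square, so `E δ` is a square: hs_comm, hs_of_sq.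
(b) `|X| ≤ |τ| < 1`: `X + δ = δ *` square: `c0 = sc (E δ)`; and `hsc c2 (sc (E δ)) = hsc c2 c0 = 0` by iso_pt.
-/

set_option autoImplicit false
set_option linter.unusedSectionVars false
open scoped Classical

open WithZero NumberField IsDedekindDomain H38RT
open H38T1 (SC sc scu rep rep_ne sc_rep sc_mul sc_eq_zero sc_surj eo la si Pri OddP tp unif ka)
open H76PP

namespace H36MX

variable {K : Type} [Field K] [NumberField K] {v : HeightOneSpectrum (𝓞 K)}

private theorem Bo_v4 (hv : OddP v) : Valued.v (4 : v.adicCompletion K) = 1 := by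
  have h : (4 : v.adicCompletion K) = algebraMap K (v.adicCompletion K) (2 * 2) := by
    rw [map_mul, map_ofNat]
    norm_num
  have h2 : v.valuation K 2 = 1 := hv
  rw [h, H36CY.val_coe, map_mul, h2, one_mul]

private theorem Bo_near (hv : OddP v) {y z : v.adicCompletion K}
    (h : Valued.v (y - z) < Valued.v z) : ∃ r : v.adicCompletion K, r ≠ 0 ∧ y = z * r ^ 2 := by
  have _ := H36CY.char_zero v
  refine H36CY.sq_near ?_
  rw [map_mul, Bo_v4 hv, one_mul]
  exact h

private theorem Bo_ne {y : v.adicCompletion K} {n : ℤ} (hy : Valued.v y = exp n) : y ≠ 0 := by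
  rintro rfl
  rw [map_zero] at hy
  exact exp_ne_zero hy.symm

private theorem Bo_rep {y : v.adicCompletion K} {m : ℤ} (hy : Valued.v y = exp (2 * m)) :
    ∃ a : K, a ≠ 0 ∧ eo v (sc a) = 0 ∧ ∃ r : v.adicCompletion K, r ≠ 0 ∧
      algebraMap K (v.adicCompletion K) a = y * r ^ 2 := by
  have _ := H36CY.char_zero v
  have hy0 : y ≠ 0 := Bo_ne hy
  obtain ⟨a, ha⟩ := H36CY.near_coe v y (c := 4 * y) (mul_ne_zero (by norm_num) hy0)
  obtain ⟨r, hr, h⟩ := H36CY.sq_near ha
  have ha0 : a ≠ 0 := by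
    rintro rfl
    rw [map_zero] at h
    exact mul_ne_zero hy0 (pow_ne_zero 2 hr) h.symm
  refine ⟨a, ha0, ?_, r, hr, h⟩
  have hvr : Valued.v r ≠ 0 := (Valuation.ne_zero_iff _).2 hr
  obtain ⟨k, hk⟩ : ∃ k : ℤ, Valued.v r = exp k := ⟨log (Valued.v r), (exp_log hvr).symm⟩
  have h1 : v.valuation K a = exp (2 * m + (k + k)) := by
    rw [← H36CY.val_coe, h, map_mul, map_pow, hy, hk, sq, ← exp_add, ← exp_add]
  rw [H38T1.eo_sc ha0]
  have h2 : ord (v.valuation K) a = -(2 * m + (k + k)) := by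
    unfold ord
    rw [h1, log_exp]
  rw [h2]
  push_cast
  have h3 : (2 : ZMod 2) = 0 := by decide
  linear_combination (-(m : ZMod 2) - (k : ZMod 2)) * h3

private theorem Bo_sq {s t r : v.adicCompletion K} (hr : r ≠ 0)
    (h : s * r ^ 2 = t * t) : IsSquare s := by
  refine ⟨t / r, ?_⟩
  have h1 : r * r⁻¹ = 1 := mul_inv_cancel₀ hr
  rw [div_eq_mul_inv]
  linear_combination (r⁻¹ ^ 2) * h - s * (r * r⁻¹ + 1) * h1

theorem hs_even (hv : OddP v) {y z : v.adicCompletion K} {m n : ℤ}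
    (hy : Valued.v y = exp (2 * m)) (hz : Valued.v z = exp (2 * n)) : hs y z = 0 := by
  obtain ⟨a, ha, hea, r, hr, har⟩ := Bo_rep hy
  obtain ⟨b, hb, heb, s, hs, hbs⟩ := Bo_rep hz
  have h1 : hsv v a b = 0 := by
    rw [hs_odd hv ha hb]
    unfold tp
    rw [hea, heb]
    ring
  unfold hsv at h1
  rw [hs_congr hr har, hs_congr_right hs hbs] at h1
  exact h1

theorem cond_odd (hv : OddP v) {a b : v.adicCompletion K} {e : Fin 3 → v.adicCompletion K}
    (h : Spl a b e) (h1 : Valued.v (e 1 - e 0) = 1) (hτ : Valued.v (e 2 - e 1) < 1)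
    {E x : v.adicCompletion K} (hE : E ≠ 0) {n : ℤ} (hEv : Valued.v E = exp (2 * n))
    (hx : ∀ j, x ≠ e j) (hsq : IsSquare (E * ((x - e 0) * (x - e 1) * (x - e 2)))) :
    LW (sc (E * (e 1 - e 0))) (sc (E * (x - e 0))) (sc (E * (x - e 2))) := by
  have _ := H36CY.char_zero v
  have h2 : (2 : v.adicCompletion K) ≠ 0 := two_ne_zero
  have hiso := iso_pt h2 h hE hx hsq
  have x0 : x - e 0 ≠ 0 := sub_ne_zero.2 (hx 0)
  have x1 : x - e 1 ≠ 0 := sub_ne_zero.2 (hx 1)
  have x2 : x - e 2 ≠ 0 := sub_ne_zero.2 (hx 2)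
  have d0 : e 1 - e 0 ≠ 0 := sub_ne_zero.2 h.ne01.symm
  have c0 := mul_ne_zero hE x0
  have c2 := mul_ne_zero hE x2
  have cd := mul_ne_zero hE d0
  unfold LW
  rcases lt_or_ge (Valued.v (e 2 - e 1)) (Valued.v (x - e 1)) with hc | hc
  · obtain ⟨r, hr, hr'⟩ := Bo_near hv (y := x - e 2) (z := x - e 1) (by
      have e' : x - e 2 - (x - e 1) = -(e 2 - e 1) := by ring
      rw [e', Valuation.map_neg]
      exact hc)
    have hs0 : IsSquare (E * (x - e 0)) := by
      obtain ⟨s, hs⟩ := hsq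
      refine Bo_sq (t := s) (r := (x - e 1) * r) (mul_ne_zero x1 hr) ?_
      rw [← hs, hr']
      ring
    have hz : sc (E * (x - e 0)) = 0 := (sc_eq_zero c0).2 hs0
    refine ⟨Or.inl hz, ?_⟩
    rw [hsc_sc c2 cd, hr', ← mul_assoc, hs_sq hr]
    rcases lt_trichotomy (Valued.v (x - e 1)) 1 with hl | hl | hl
    · obtain ⟨s, hs, hs'⟩ := Bo_near hv (y := x - e 0) (z := e 1 - e 0) (by
        have e' : x - e 0 - (e 1 - e 0) = x - e 1 := by ring
        rw [e', h1]
        exact hl)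
      have hsq1 : IsSquare (E * (e 1 - e 0)) := by
        obtain ⟨t, ht⟩ := hs0
        refine Bo_sq (t := t) (r := s) hs ?_
        rw [← ht, hs']
        ring
      rw [hs_comm]
      exact hs_of_sq cd hsq1
    · exact hs_even hv (m := n) (n := n) (by rw [map_mul, hl, mul_one, hEv])
        (by rw [map_mul, h1, mul_one, hEv])
    · obtain ⟨s, hs, hs'⟩ := Bo_near hv (y := x - e 0) (z := x - e 1) (by
        have e' : x - e 0 - (x - e 1) = e 1 - e 0 := by ring
        rw [e', h1]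
        exact hl)
      have hsq1 : IsSquare (E * (x - e 1)) := by
        obtain ⟨t, ht⟩ := hs0
        refine Bo_sq (t := t) (r := s) hs ?_
        rw [← ht, hs']
        ring
      exact hs_of_sq (mul_ne_zero hE x1) hsq1
  · obtain ⟨s, hs, hs'⟩ := Bo_near hv (y := x - e 0) (z := e 1 - e 0) (by
      have e' : x - e 0 - (e 1 - e 0) = x - e 1 := by ring
      rw [e', h1]
      exact hc.trans_lt hτ)
    have hz : sc (E * (x - e 0)) = sc (E * (e 1 - e 0)) := by
      rw [hs', ← mul_assoc, sc_mul cd (pow_ne_zero 2 hs),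
        (sc_eq_zero (pow_ne_zero 2 hs)).2 ⟨s, sq s⟩, add_zero]
    refine ⟨Or.inr hz, ?_⟩
    rw [← hz, hsc_comm, hsc_sc c0 c2]
    exact hiso

end H36MX
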