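import Pool.Agent.H36.MX.Bt
import Pool.Agent.H36.MX.Bo
import Pool.Agent.H36.CY.Ld
import Pool.Agent.H76.MX.Df

/-!
The conditions `CondAt` (H76/MX/Df.lean) at the places of `Z` (project MP_78d38b_MX, row MXBc).

kum_Z (with `E = D * d`) gives `x` with `x ≠ e j`, `i E * ∏ (x - e j)` a square and
`lcl .. j (sc ..) = sc (i E * (x - e j))`; `i D` is a nonzero square in the completion, so `i E` may be replaced by `i d`.
Then cond_two, cond_odd.
-/

set_option autoImplicit false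
set_option linter.unusedSectionVars false
open scoped Classical

open WithZero NumberField IsDedekindDomain H38RT
open H38T1 (SC sc scu rep rep_ne sc_rep sc_mul sc_eq_zero sc_surj eo la si Pri OddP tp unif ka)
open H76PP

namespace H36MX

open H76MX

theorem Bc_sq {K : Type} [Field K] [NumberField K] {u : HeightOneSpectrum (𝓞 K)} {D : K}
    (h : ∃ m : K, m ≠ 0 ∧ u.valuation K (D * m ^ 2 - 1) < u.valuation K 4) :
    ∃ w : u.adicCompletion K, w ≠ 0 ∧ algebraMap K (u.adicCompletion K) D = w ^ 2 := by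
  obtain ⟨m, hm0, hm⟩ := h
  have h1 : u.valuation K (D * m ^ 2 - 1) < u.valuation K (4 * 1) := by
    rw [mul_one]
    exact hm
  obtain ⟨r, hr0, hr⟩ := H36CY.sq_near' u h1
  have him : algebraMap K (u.adicCompletion K) m ≠ 0 := (map_ne_zero _).2 hm0
  refine ⟨r / algebraMap K (u.adicCompletion K) m, div_ne_zero hr0 him, ?_⟩
  rw [map_mul, map_pow, map_one, one_mul] at hr
  rw [div_pow, ← hr]
  field_simp

theorem Bc_sc {F : Type} [Field F] {w a b : F} (hw : w ≠ 0) (ha : a ≠ 0) (hb : b ≠ 0) :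
    sc (w ^ 2 * a * b) = sc (a * b) := by
  have h1 : w ^ 2 * a * b = w ^ 2 * (a * b) := by ring
  have h2 : (sc (w ^ 2) : SC F) = 0 := (sc_eq_zero (pow_ne_zero 2 hw)).2 ⟨w, sq w⟩
  rw [h1, sc_mul (pow_ne_zero 2 hw) (mul_ne_zero ha hb), h2, zero_add]

theorem Bc_main {K : Type} [Field K] [NumberField K] {u : HeightOneSpectrum (𝓞 K)} {A B : 𝓞 K}
    {e : Fin 3 → u.adicCompletion K} {d : 𝓞 K} (hd : d ≠ 0) {c : SC (Kv u)}
    (key : Spl (algebraMap K (Kv u) (A : K)) (algebraMap K (Kv u) (B : K)) e →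
      ∀ x : Kv u, (∀ j, x ≠ e j) →
      IsSquare (algebraMap K (Kv u) (d : K) * ((x - e 0) * (x - e 1) * (x - e 2))) →
      LW c (sc (algebraMap K (Kv u) (d : K) * (x - e 0)))
        (sc (algebraMap K (Kv u) (d : K) * (x - e 2)))) :
    CondAt u A B e d c := by
  intro hs L _ _ _ θ h D hD hm δ hδ hN hLC
  have hDK : ((D : 𝓞 K) : K) ≠ 0 := by
    intro h0
    exact hD (RingOfIntegers.ext h0)
  have hdK : ((d : 𝓞 K) : K) ≠ 0 := by
    intro h0
    exact hd (RingOfIntegers.ext h0)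
  have hEe : ((D * d : 𝓞 K) : K) = (D : K) * (d : K) := map_mul _ _ _
  have hE0 : ((D * d : 𝓞 K) : K) ≠ 0 := by
    rw [hEe]
    exact mul_ne_zero hDK hdK
  obtain ⟨x, hx, hsq, hl⟩ := kum_Z h (algebraMap K (Kv u)) hs hE0 hδ hLC
  obtain ⟨w, hw0, hw⟩ := Bc_sq hm
  have hid : algebraMap K (Kv u) (d : K) ≠ 0 := (map_ne_zero _).2 hdK
  have hiE : algebraMap K (Kv u) ((D * d : 𝓞 K) : K) = w ^ 2 * algebraMap K (Kv u) (d : K) := by
    rw [hEe, map_mul, hw]
  rw [hl 0, hl 2, hiE, Bc_sc hw0 hid (sub_ne_zero.2 (hx 0)), Bc_sc hw0 hid (sub_ne_zero.2 (hx 2))]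
  refine key hs x hx ?_
  rw [hiE] at hsq
  obtain ⟨y, hy⟩ := hsq
  refine ⟨y / w, ?_⟩
  field_simp
  linear_combination hy

theorem condAt_two {K : Type} [Field K] [NumberField K] {u : HeightOneSpectrum (𝓞 K)}
    (h2 : u.valuation K 2 < 1) (hF : HF (u.adicCompletion K)) {A B : 𝓞 K}
    {e : Fin 3 → u.adicCompletion K}
    (hδ : IsSquare (e 1 - e 0)) (h1 : Valued.v (e 1 - e 0) = 1)
    (h16 : Valued.v (e 2 - e 1) = Valued.v (16 : u.adicCompletion K))
    {g0 : u.adicCompletion K} (hg0 : Unr g0) {d : 𝓞 K} (hd : d ≠ 0) :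
    CondAt u A B e d (if IsSquare (algebraMap K (u.adicCompletion K) (d : K)) then sc g0 else
      sc (algebraMap K (u.adicCompletion K) (d : K))) := by
  refine Bc_main hd fun hs x hx hsq => ?_
  have hdK : ((d : 𝓞 K) : K) ≠ 0 := by
    intro h0
    exact hd (RingOfIntegers.ext h0)
  have hid : algebraMap K (Kv u) (d : K) ≠ 0 := (map_ne_zero _).2 hdK
  exact cond_two h2 hF hs hδ h1 h16 hid hx hsq hg0

theorem condAt_odd {K : Type} [Field K] [NumberField K] {u : HeightOneSpectrum (𝓞 K)}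
    (hu : OddP u) {A B : 𝓞 K} {e : Fin 3 → u.adicCompletion K}
    (h1 : Valued.v (e 1 - e 0) = 1) (hτ : Valued.v (e 2 - e 1) < 1) {s : 𝓞 K}
    (hs0 : s ≠ 0) (hs : IsSquare ((e 1 - e 0) * algebraMap K (u.adicCompletion K) (s : K)))
    {d : 𝓞 K} (hd : d ≠ 0) (hde : eo u (sc (d : K)) = 0) :
    CondAt u A B e d (sc (algebraMap K (u.adicCompletion K) ((d * s : 𝓞 K) : K))) := by
  refine Bc_main hd fun hsp x hx hsq => ?_
  have hdK : ((d : 𝓞 K) : K) ≠ 0 := by
    intro h0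
    exact hd (RingOfIntegers.ext h0)
  have hsK : ((s : 𝓞 K) : K) ≠ 0 := by
    intro h0
    exact hs0 (RingOfIntegers.ext h0)
  have hid : algebraMap K (Kv u) (d : K) ≠ 0 := (map_ne_zero _).2 hdK
  have his : algebraMap K (Kv u) (s : K) ≠ 0 := (map_ne_zero _).2 hsK
  have he : e 1 - e 0 ≠ 0 := by
    intro h0
    rw [h0, map_zero] at h1
    exact zero_ne_one h1
  -- the valuation of `d` is even
  rw [H38T1.eo_sc hdK] at hde
  unfold ord at hde
  rw [ZMod.intCast_eq_zero_iff_even] at hde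
  obtain ⟨n, hn⟩ := hde
  have hv0 : u.valuation K (d : K) ≠ 0 := (Valuation.ne_zero_iff _).2 hdK
  have hEv : Valued.v (algebraMap K (Kv u) (d : K)) = exp (2 * (-n)) := by
    rw [H36CY.val_coe, ← exp_log hv0]
    congr 1
    omega
  have h5 := cond_odd hu hsp h1 hτ hid hEv hx hsq
  have h6 : sc (algebraMap K (u.adicCompletion K) ((d * s : 𝓞 K) : K)) =
      sc (algebraMap K (Kv u) (d : K) * (e 1 - e 0)) := by
    have e1 : ((d * s : 𝓞 K) : K) = (d : K) * (s : K) := map_mul _ _ _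
    rw [e1, map_mul, sc_mul hid his, sc_mul hid he]
    have h7 : sc ((e 1 - e 0) * algebraMap K (Kv u) (s : K)) = 0 :=
      (sc_eq_zero (mul_ne_zero he his)).2 hs
    rw [sc_mul he his] at h7
    have h8 := SC.two_smul (sc (e 1 - e 0))
    rw [two_nsmul] at h8
    congr 1
    have h9 : sc (e 1 - e 0) + sc (algebraMap K (Kv u) (s : K)) =
        sc (e 1 - e 0) + sc (e 1 - e 0) := by rw [h7, h8]
    exact add_left_cancel h9
  rw [h6]
  exact h5

end H36MX
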