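import Pool.Agent.H36.MX.Df

/-!
ROW MXHa (project MP_78d38b_MX, about 120 lines, pure algebra): conics `a x^2 + b y^2 = 1` over a field.

PROOF. hs_comm: exchange `x, y`. hs_sq: `(a c^2) x^2 = a (c x)^2` and back with `x / c`. hs_of_sq: `a = r^2`, `x = 1/r`, `y = 0`.
sol_iff: (→) `a x^2 + b y^2 = 1`. If `y ≠ 0`: `b = (1/y)^2 - a (x/y)^2`. If `y = 0`: `a x^2 = 1`, `x ≠ 0`; put `X = (b+1)/2`, `Y = x (b-1)/2`: `X^2 - a Y^2 = ((b+1)^2 - (b-1)^2)/4 = b`.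
(←) `b = X^2 - a Y^2`. If `X ≠ 0`: `a (Y/X)^2 + b (1/X)^2 = 1`. If `X = 0`: `b = -a Y^2`, `Y ≠ 0`; put `x = (1 + 1/a)/2`, `y = (1/a - 1)/(2 Y)`: `a x^2 + b y^2 = a (x^2 - (Y y)^2) = a * (1/a) = 1`.
sol_mul: the product of two norms: `(X^2 - a Y^2)(Z^2 - a W^2) = (X Z + a Y W)^2 - a (X W + Y Z)^2`.
hs_neg: sol_iff with `X = 0, Y = 1`. hs_one_sub: `x = y = 1`.
sol_of_iso: a nontrivial zero of `a X^2 + b Y^2 = Z^2` gives Sol: if `Z ≠ 0` divide; if `Z = 0`: then `X, Y ≠ 0`, `b = -a (X/Y)^2`, use sol_iff (←) with `X := 0`.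
-/

set_option autoImplicit false
set_option linter.unusedSectionVars false
open scoped Classical

open WithZero NumberField IsDedekindDomain H38RT
open H38T1 (SC sc scu rep rep_ne sc_rep sc_mul sc_eq_zero sc_surj eo la si Pri OddP tp unif ka)
open H76PP

namespace H36MX

variable {F : Type} [Field F]

private lemma Ha_congr {a b c d : F} (h : Sol a b ↔ Sol c d) : hs a b = hs c d := by
  by_cases h1 : Sol a b
  · rw [hs_eq_zero.2 h1, hs_eq_zero.2 (h.1 h1)]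
  · rw [hs_eq_one.2 h1, hs_eq_one.2 (fun h2 => h1 (h.2 h2))]

theorem hs_comm (a b : F) : hs a b = hs b a := by
  apply Ha_congr
  constructor
  · rintro ⟨x, y, h⟩
    exact ⟨y, x, by rw [add_comm]; exact h⟩
  · rintro ⟨x, y, h⟩
    exact ⟨y, x, by rw [add_comm]; exact h⟩

theorem hs_sq {a b c : F} (hc : c ≠ 0) : hs (a * c ^ 2) b = hs a b := by
  apply Ha_congr
  constructor
  · rintro ⟨x, y, h⟩
    exact ⟨c * x, y, by rw [← h]; ring⟩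
  · rintro ⟨x, y, h⟩
    refine ⟨c⁻¹ * x, y, ?_⟩
    have e : c * c⁻¹ = 1 := mul_inv_cancel₀ hc
    linear_combination h + (a * x ^ 2 * (c * c⁻¹ + 1)) * e

theorem hs_of_sq {a b : F} (ha : a ≠ 0) (h : IsSquare a) : hs a b = 0 := by
  obtain ⟨r, hr⟩ := h
  have hr0 : r ≠ 0 := by
    rintro rfl
    exact ha (by rw [hr]; ring)
  refine hs_eq_zero.2 ⟨r⁻¹, 0, ?_⟩
  have e : r * r⁻¹ = 1 := mul_inv_cancel₀ hr0
  rw [hr]
  linear_combination (r * r⁻¹ + 1) * e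

theorem sol_iff (h2 : (2 : F) ≠ 0) {a b : F} (ha : a ≠ 0) (hb : b ≠ 0) :
    Sol a b ↔ ∃ X Y : F, b = X ^ 2 - a * Y ^ 2 := by
  obtain ⟨u, hu⟩ : ∃ u : F, 2 * u = 1 := ⟨2⁻¹, mul_inv_cancel₀ h2⟩
  constructor
  · rintro ⟨x, y, h⟩
    by_cases hy : y = 0
    · subst hy
      have h1 : a * x ^ 2 = 1 := by linear_combination h
      refine ⟨(b + 1) * u, x * (b - 1) * u, ?_⟩
      linear_combination (u ^ 2 * (b - 1) ^ 2) * h1 - (b * (1 + 2 * u)) * hu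
    · have e : y * y⁻¹ = 1 := mul_inv_cancel₀ hy
      refine ⟨y⁻¹, x * y⁻¹, ?_⟩
      linear_combination (y⁻¹ ^ 2) * h - (b * (y * y⁻¹ + 1)) * e
  · rintro ⟨X, Y, h⟩
    by_cases hX : X = 0
    · subst hX
      have hY : Y ≠ 0 := by
        rintro rfl
        exact hb (by rw [h]; ring)
      have e1 : Y * Y⁻¹ = 1 := mul_inv_cancel₀ hY
      have e2 : a * a⁻¹ = 1 := mul_inv_cancel₀ ha
      refine ⟨(1 + a⁻¹) * u, (a⁻¹ - 1) * u * Y⁻¹, ?_⟩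
      rw [h]
      linear_combination (-(a * (a⁻¹ - 1) ^ 2 * u ^ 2 * (Y * Y⁻¹ + 1))) * e1 + (4 * u ^ 2) * e2 +
        (2 * u + 1) * hu
    · have e : X * X⁻¹ = 1 := mul_inv_cancel₀ hX
      refine ⟨Y * X⁻¹, X⁻¹, ?_⟩
      linear_combination (X⁻¹ ^ 2) * h + (X * X⁻¹ + 1) * e

theorem sol_mul (h2 : (2 : F) ≠ 0) {a b c : F} (ha : a ≠ 0) (hb : b ≠ 0) (hc : c ≠ 0)
    (h : Sol a b) (h' : Sol a c) : Sol a (b * c) := by
  obtain ⟨X, Y, e⟩ := (sol_iff h2 ha hb).1 h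
  obtain ⟨Z, W, e'⟩ := (sol_iff h2 ha hc).1 h'
  refine (sol_iff h2 ha (mul_ne_zero hb hc)).2 ⟨X * Z + a * Y * W, X * W + Y * Z, ?_⟩
  rw [e, e']
  ring

theorem hs_neg (h2 : (2 : F) ≠ 0) {a : F} (ha : a ≠ 0) : hs a (-a) = 0 :=
  hs_eq_zero.2 ((sol_iff h2 ha (neg_ne_zero.2 ha)).2 ⟨0, 1, by ring⟩)

theorem hs_one_sub (a : F) : hs a (1 - a) = 0 :=
  hs_eq_zero.2 ⟨1, 1, by ring⟩

theorem sol_of_iso (h2 : (2 : F) ≠ 0) {a b X Y Z : F} (ha : a ≠ 0) (hb : b ≠ 0)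
    (h : a * X ^ 2 + b * Y ^ 2 = Z ^ 2) (hne : X ≠ 0 ∨ Y ≠ 0 ∨ Z ≠ 0) : Sol a b := by
  by_cases hZ : Z = 0
  · subst hZ
    have hY : Y ≠ 0 := by
      rintro rfl
      have h1 : a * X ^ 2 = 0 := by linear_combination h
      have h3 : X = 0 := by
        rcases mul_eq_zero.1 h1 with h4 | h4
        · exact absurd h4 ha
        · exact pow_eq_zero_iff (two_ne_zero) |>.1 h4
      rcases hne with h4 | h4 | h4
      · exact h4 h3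
      · exact h4 rfl
      · exact h4 rfl
    have e : Y * Y⁻¹ = 1 := mul_inv_cancel₀ hY
    refine (sol_iff h2 ha hb).2 ⟨0, X * Y⁻¹, ?_⟩
    linear_combination (Y⁻¹ ^ 2) * h - (b * (Y * Y⁻¹ + 1)) * e
  · have e : Z * Z⁻¹ = 1 := mul_inv_cancel₀ hZ
    refine ⟨X * Z⁻¹, Y * Z⁻¹, ?_⟩
    linear_combination (Z⁻¹ ^ 2) * h + (Z * Z⁻¹ + 1) * e

end H36MX
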