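import Pool.Agent.H36.MX.Wa
import Pool.Agent.H36.CY.Ke

/-!
Quadratic extensions of number fields (no row, proved).
-/

set_option autoImplicit false
set_option linter.unusedSectionVars false
set_option linter.style.haveILetI false
open scoped Classical

open WithZero NumberField IsDedekindDomain H38RT Polynomial
open H76PP

namespace H36MX

/-- `M` is the quadratic extension of `K` generated by a square root `s` of `D`. -/
structure QD {K M : Type} [Field K] [Field M] [Algebra K M] (D : K) (s : M)
    (σ : M ≃ₐ[K] M) : Prop where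
  sq : s ^ 2 = algebraMap K M D
  neg : σ s = -s
  rk : Module.finrank K M = 2
  D0 : D ≠ 0

theorem exists_QD {L : Type} [Field L] [NumberField L] {D : L} (hD : ¬ IsSquare D) :
    ∃ (B : Type) (_ : Field B) (_ : NumberField B) (_ : Algebra L B) (s : B) (σ : B ≃ₐ[L] B),
      QD D s σ := by
  have hirr : Irreducible (X ^ 2 - C D : L[X]) := by
    rw [X_pow_sub_C_irreducible_iff_of_prime Nat.prime_two]
    intro b hb
    exact hD ⟨b, by rw [← hb, pow_two]⟩
  have hne : (X ^ 2 - C D : L[X]) ≠ 0 := hirr.ne_zero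
  haveI : Fact (Irreducible (X ^ 2 - C D : L[X])) := ⟨hirr⟩
  have hfr : Module.finrank L (AdjoinRoot (X ^ 2 - C D : L[X])) = 2 := by
    rw [(AdjoinRoot.powerBasis hne).finrank, AdjoinRoot.powerBasis_dim, natDegree_X_pow_sub_C]
  haveI hfin : FiniteDimensional L (AdjoinRoot (X ^ 2 - C D : L[X])) :=
    Module.finite_of_finrank_pos (by rw [hfr]; norm_num)
  haveI : CharZero (AdjoinRoot (X ^ 2 - C D : L[X])) :=
    charZero_of_injective_algebraMap (algebraMap L (AdjoinRoot (X ^ 2 - C D : L[X]))).injective
  haveI : FiniteDimensional ℚ (AdjoinRoot (X ^ 2 - C D : L[X])) :=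
    FiniteDimensional.trans ℚ L _
  haveI : NumberField (AdjoinRoot (X ^ 2 - C D : L[X])) := ⟨⟩
  set s : AdjoinRoot (X ^ 2 - C D : L[X]) := AdjoinRoot.root _ with hs
  have hsq : s ^ 2 = algebraMap L _ D := by
    have h1 : aeval s (X ^ 2 - C D : L[X]) = 0 := by
      rw [hs, AdjoinRoot.aeval_eq, AdjoinRoot.mk_self]
    rw [map_sub, map_pow, aeval_X, aeval_C] at h1
    exact sub_eq_zero.1 h1
  have hev : aeval (-s) (X ^ 2 - C D : L[X]) = 0 := by
    rw [map_sub, map_pow, aeval_X, aeval_C, neg_sq, hsq, sub_self]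
  let τ : AdjoinRoot (X ^ 2 - C D : L[X]) →ₐ[L] AdjoinRoot (X ^ 2 - C D : L[X]) :=
    AdjoinRoot.liftAlgHom _ (Algebra.ofId L _) (-s) hev
  let σ : AdjoinRoot (X ^ 2 - C D : L[X]) ≃ₐ[L] AdjoinRoot (X ^ 2 - C D : L[X]) :=
    AlgEquiv.ofBijective τ (Algebra.IsAlgebraic.algHom_bijective τ)
  refine ⟨_, inferInstance, inferInstance, inferInstance, s, σ, hsq, ?_, hfr, ?_⟩
  · change τ s = -s
    exact AdjoinRoot.liftAlgHom_root _ _ _ _
  · rintro rfl
    exact hD ⟨0, by ring⟩

section

variable {K M : Type} [Field K] [Field M] [Algebra K M] {D : K} {s : M} {σ : M ≃ₐ[K] M}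

theorem QD.s0 (h : QD D s σ) : s ≠ 0 := by
  intro h0
  have h1 := h.sq
  rw [h0] at h1
  exact h.D0 ((map_eq_zero (algebraMap K M)).1 (by rw [← h1]; ring))

theorem QD.sig (h : QD D s σ) (a b : K) :
    σ (algebraMap K M a + algebraMap K M b * s) = algebraMap K M a - algebraMap K M b * s := by
  rw [map_add, map_mul, h.neg, AlgEquiv.commutes, AlgEquiv.commutes]
  ring

theorem QD.notK [CharZero K] (h : QD D s σ) (a : K) : algebraMap K M a ≠ s := by
  intro h1
  have _ : CharZero M := charZero_of_injective_algebraMap (algebraMap K M).injective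
  have h2 := h.neg
  rw [← h1, AlgEquiv.commutes, h1] at h2
  have h3 : (2 : M) * s = 0 := by
    linear_combination h2
  exact (mul_ne_zero two_ne_zero h.s0) h3

/-- `1, s` is a basis. -/
noncomputable def QD.basis [CharZero K] (h : QD D s σ) : Module.Basis (Fin 2) K M :=
  basisOfLinearIndependentOfCardEqFinrank (b := ![1, s]) (by
    rw [LinearIndependent.pair_iff]
    intro a b hab
    rw [Algebra.smul_def, Algebra.smul_def, mul_one] at hab
    have hb : b = 0 := by
      by_contra hb
      have hb' : algebraMap K M b ≠ 0 := (_root_.map_ne_zero _).2 hb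
      apply h.notK (-a / b)
      rw [map_div₀, map_neg, div_eq_iff hb']
      linear_combination -hab
    rw [hb, map_zero, zero_mul, add_zero] at hab
    exact ⟨(map_eq_zero _).1 hab, hb⟩) (by rw [Fintype.card_fin, h.rk])

theorem QD.basis_coe [CharZero K] (h : QD D s σ) : ⇑h.basis = ![1, s] :=
  coe_basisOfLinearIndependentOfCardEqFinrank _ _

theorem QD.span [CharZero K] (h : QD D s σ) (x : M) :
    ∃ a b : K, x = algebraMap K M a + algebraMap K M b * s := by
  refine ⟨h.basis.repr x 0, h.basis.repr x 1, ?_⟩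
  have h1 := h.basis.sum_repr x
  rw [Fin.sum_univ_two, h.basis_coe] at h1
  simp only [Matrix.cons_val_zero, Matrix.cons_val_one, Algebra.smul_def, mul_one] at h1
  exact h1.symm

theorem QD.co [CharZero K] (h : QD D s σ) (a b : K) :
    h.basis.repr (algebraMap K M a + algebraMap K M b * s) 0 = a ∧
      h.basis.repr (algebraMap K M a + algebraMap K M b * s) 1 = b := by
  have e1 : algebraMap K M a + algebraMap K M b * s = a • h.basis 0 + b • h.basis 1 := by
    rw [h.basis_coe]
    simp only [Matrix.cons_val_zero, Matrix.cons_val_one, Algebra.smul_def, mul_one]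
  rw [e1, map_add, map_smul, map_smul, Module.Basis.repr_self, Module.Basis.repr_self]
  constructor <;> simp

/-- The norm of `a + b s`. -/
theorem QD.norm_mk [CharZero K] (h : QD D s σ) (a b : K) :
    Algebra.norm K (algebraMap K M a + algebraMap K M b * s) = a ^ 2 - D * b ^ 2 := by
  have key : Algebra.leftMulMatrix h.basis (algebraMap K M a + algebraMap K M b * s) =
      !![a, D * b; b, a] := by
    have e0 : (algebraMap K M a + algebraMap K M b * s) * h.basis 0 =
        algebraMap K M a + algebraMap K M b * s := by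
      rw [h.basis_coe]
      simp
    have e1 : (algebraMap K M a + algebraMap K M b * s) * h.basis 1 =
        algebraMap K M (D * b) + algebraMap K M a * s := by
      rw [h.basis_coe]
      simp only [Matrix.cons_val_one]
      rw [map_mul, ← h.sq]
      change _ * s = _
      ring
    obtain ⟨c0, c1⟩ := h.co a b
    obtain ⟨d0, d1⟩ := h.co (D * b) a
    ext i j
    rw [Algebra.leftMulMatrix_eq_repr_mul]
    fin_cases i <;> fin_cases j
    · change h.basis.repr (_ * h.basis 0) 0 = a
      rw [e0, c0]
    · change h.basis.repr (_ * h.basis 1) 0 = D * b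
      rw [e1, d0]
    · change h.basis.repr (_ * h.basis 0) 1 = b
      rw [e0, c1]
    · change h.basis.repr (_ * h.basis 1) 1 = a
      rw [e1, d1]
  rw [Algebra.norm_eq_matrix_det h.basis, key, Matrix.det_fin_two_of]
  ring

theorem QD.norm_eq [CharZero K] (h : QD D s σ) (x : M) :
    algebraMap K M (Algebra.norm K x) = x * σ x := by
  obtain ⟨a, b, rfl⟩ := h.span x
  rw [h.norm_mk, h.sig, map_sub, map_mul, map_pow, map_pow, ← h.sq]
  ring

theorem QD.sig_sig [CharZero K] (h : QD D s σ) (x : M) : σ (σ x) = x := by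
  obtain ⟨a, b, rfl⟩ := h.span x
  rw [h.sig]
  have h1 := h.sig a (-b)
  rw [map_neg] at h1
  have e1 : algebraMap K M a - algebraMap K M b * s =
      algebraMap K M a + -algebraMap K M b * s := by ring
  rw [e1, h1]
  ring

/-- Every automorphism is trivial or `σ`. -/
theorem QD.aut [CharZero K] (h : QD D s σ) (g : M ≃ₐ[K] M) :
    (∀ x, g x = x) ∨ ∀ x, g x = σ x := by
  have h1 : g s ^ 2 = s ^ 2 := by
    rw [← map_pow, h.sq, AlgEquiv.commutes]
  rcases sq_eq_sq_iff_eq_or_eq_neg.1 h1 with h2 | h2
  · left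
    intro x
    obtain ⟨a, b, rfl⟩ := h.span x
    rw [map_add, map_mul, h2, AlgEquiv.commutes, AlgEquiv.commutes]
  · right
    intro x
    obtain ⟨a, b, rfl⟩ := h.span x
    rw [map_add, map_mul, h2, AlgEquiv.commutes, AlgEquiv.commutes, h.sig]
    ring

end

end H36MX
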