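import Pool.Agent.H36.MX.Wa
import Pool.Agent.H36.MX.Qd

/-!
ROW MXHd (project MP_78d38b_MX, about 250 lines): squares and norms in a quadratic extension `M = K(s)`, `s^2 = D`, at a place `w` fixed by `σ`. (`v = dn K w`; comparison of the valuations: `H36CY.val_lt_iff w x y : w.valuation (algebraMap x) < w.valuation (algebraMap y) ↔ (dn K w).valuation x < (dn K w).valuation y`.) `V = w.valuation M`; `V x = Valued.v (algebraMap x)` (`H36CY.val_coe`). Approximation of elements of the completions: `H36CY.near_coe`; square criterion `H36CY.sq_near'`, `H36CY.sq_near`.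

`N x = x σ x`: `QD.norm_eq`; `x = a + b s`: `QD.span`, `QD.sig`, `QD.norm_mk` (all in Qd.lean, proved).

sq_norm: `x = r^2` in `M_w`, `r ≠ 0`. Choose `t ∈ M` with `|t - r|_w < |8 r|_w` (near_coe with `c = 8 r`). Then `t ≠ 0` and `ε' = x / t^2 - 1` has `|ε'|_w < |8|_w` (`x - t^2 = (r-t)(r+t)`, `|t| = |r|`). `N x = N(t)^2 (1 + ε')(1 + σ ε')` and `|(1+ε')(1+σ ε') - 1|_w < |8|_w ≤ |4|_w`. So `|N x - (N t)^2|_v < |4 (N t)^2|_v` (val_lt_iff), sq_near'.

norm_sq: `N x = r^2` in `K_v`, `r ≠ 0` (norm_eq: `N x ≠ 0`). Choose `r' ∈ K` with `|r' - r|_v < |64 r|_v`. So `N x = r'^2 (1 + ε)`, `ε ∈ K`, `|ε| < |64|`. For the two signs put `x' = x / (± r')`: `x' σ x' = 1 + ε`. As `(1 + x/r') + (1 - x/r') = 2`, for one of the signs `z = 1 + x'` has `|z|_w ≥ |2|_w`. `x' σ z = x' + x' σ x' = x' + 1 + ε = z + ε`. So `x' z σ z = z^2 (1 + ε/z)` and `|ε/z|_w < |4|_w`: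
`x' z σ z` is a square in `M_w` (`H36CY.sq_near` for `y = 1 + ε/z`, `z = 1`). `z σ z = N z = k₀ ∈ K^*`. So `x * (algebraMap (k₀ / (± r')))` is a square in `M_w`: `k = ± k₀ / r'` (times a square if convenient).

K_sq: `k = r^2` in `M_w`, `k ∈ K^*`. Choose `t ∈ M` with `|t - r|_w < |8 r|_w`, so `|t^2 - k|_w < |8 k|_w` and `|t|_w = |r|_w`, `|t|^2 = |k|`. `t = a + b s`, `σ t = a - b s`; `|σ t^2 - k|_w < |8 k|_w` too, so `|4 a b s|_w = |t^2 - σ t^2|_w < |8 k|_w`, i.e. `|2ab s| < |4 k|` (cancel `|2|`). `t^2 = a^2 + D b^2 + 2 a b s`, so `|a^2 + D b^2 - k| < |4 k|`. One of `|a|, |b s|` is at least `|t|`.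
Case `|a|_w ≥ |b s|_w`: `|a| ≥ |t|`; `|4||a||b s| < |8||k| = |8||t|^2 ≤ |8| |t| |a|` gives `|b s| < |2||t|`, `|D b^2| < |4||k|`; so `|a^2 - k|_w < |4 k|_w`, in `K`: `|k - a^2|_v < |4 k|_v`, and `|4k| = |4 a^2|`: `k` is a square in `K_v` (sq_near'). Case `|b s| ≥ |a|`: symmetric: `|k - D b^2| < |4 k|`, `k = D b^2 *` square, so `k D` is a square in `K_v`.
-/

set_option autoImplicit false
set_option linter.unusedSectionVars false
open scoped Classical

open WithZero NumberField IsDedekindDomain H38RT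
open H38T1 (SC sc scu rep rep_ne sc_rep sc_mul sc_eq_zero sc_surj eo la si Pri OddP tp unif ka)
open H76PP

namespace H36MX

variable {K M : Type} [Field K] [NumberField K] [Field M] [NumberField M] [Algebra K M]

private theorem Hd_le {N : Type} [Field N] [NumberField N] (u : HeightOneSpectrum (𝓞 N)) (n : ℕ) :
    u.valuation N (n : N) ≤ 1 := by
  have h := u.valuation_le_one (K := N) (n : 𝓞 N)
  have e : algebraMap (𝓞 N) N (n : 𝓞 N) = (n : N) := map_natCast (algebraMap (𝓞 N) N) n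
  rw [← e]
  exact h

/-- An element of `N^*` that is a square in the completion is close to a square of `N`. -/
private theorem Hd_near {N : Type} [Field N] [NumberField N] (u : HeightOneSpectrum (𝓞 N)) {x : N}
    (hx : x ≠ 0) (h : IsSquare (algebraMap N (u.adicCompletion N) x)) (n : ℕ) (hn : n ≠ 0) :
    ∃ t : N, t ≠ 0 ∧ u.valuation N (x - t ^ 2) < u.valuation N ((n : N) * t ^ 2) := by
  have _ := H36CY.char_zero u
  obtain ⟨r, hr⟩ := h
  have hx' : algebraMap N (u.adicCompletion N) x ≠ 0 := (_root_.map_ne_zero _).2 hx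
  have hr0 : r ≠ 0 := by
    rintro rfl
    rw [mul_zero] at hr
    exact hx' hr
  have hnr : (n : u.adicCompletion N) ≠ 0 := Nat.cast_ne_zero.2 hn
  obtain ⟨t, ht⟩ := H36CY.near_coe u r (mul_ne_zero hnr hr0)
  have hn1 : Valued.v (n : u.adicCompletion N) ≤ 1 := by
    have h1 := Hd_le u n
    rw [← H36CY.val_coe, map_natCast] at h1
    exact h1
  have hr1 : Valued.v r ≠ 0 := (Valuation.ne_zero_iff _).2 hr0
  have hlt : Valued.v (algebraMap N (u.adicCompletion N) t - r) < Valued.v r := by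
    refine lt_of_lt_of_le ht ?_
    rw [map_mul]
    calc Valued.v (n : u.adicCompletion N) * Valued.v r ≤ 1 * Valued.v r := by gcongr
      _ = Valued.v r := one_mul _
  have heq : Valued.v (algebraMap N (u.adicCompletion N) t) = Valued.v r :=
    Valuation.map_eq_of_sub_lt _ hlt
  have ht0 : t ≠ 0 := by
    rintro rfl
    rw [map_zero, map_zero] at heq
    exact hr1 heq.symm
  refine ⟨t, ht0, ?_⟩
  rw [← H36CY.val_coe, ← H36CY.val_coe, map_sub, map_mul, map_pow, hr, map_natCast]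
  have e1 : r * r - algebraMap N (u.adicCompletion N) t ^ 2 =
      -((algebraMap N (u.adicCompletion N) t - r) * (algebraMap N (u.adicCompletion N) t + r)) := by
    ring
  rw [e1, Valuation.map_neg, map_mul, map_mul, map_pow, heq]
  have h3 : Valued.v (algebraMap N (u.adicCompletion N) t + r) ≤ Valued.v r := by
    refine (Valuation.map_add _ _ _).trans (max_le heq.le le_rfl)
  rw [map_mul] at ht
  calc Valued.v (algebraMap N (u.adicCompletion N) t - r) *
        Valued.v (algebraMap N (u.adicCompletion N) t + r)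
      ≤ Valued.v (algebraMap N (u.adicCompletion N) t - r) * Valued.v r := by gcongr
    _ < Valued.v (n : u.adicCompletion N) * Valued.v r * Valued.v r :=
        mul_lt_mul_of_pos_right ht (zero_lt_iff.2 hr1)
    _ = Valued.v (n : u.adicCompletion N) * Valued.v r ^ 2 := by rw [mul_assoc, pow_two]

/-- Multiplication of a strict inequality, in the value group with zero. -/
private theorem Hd_mul {Γ : Type*} [LinearOrderedCommGroupWithZero Γ] {a b c : Γ} (h : a < b)
    (hc : c ≠ 0) : c * a < c * b := by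
  exact mul_lt_mul_of_pos_left h (zero_lt_iff.2 hc)

private theorem Hd_cancel {Γ : Type*} [LinearOrderedCommGroupWithZero Γ] {a b c : Γ}
    (h : c * a < c * b) : a < b := lt_of_mul_lt_mul_left' h

theorem sq_norm {D : K} {s : M} {σ : M ≃ₐ[K] M} (hQ : QD D s σ)
    {w : HeightOneSpectrum (𝓞 M)} (hσ : ∀ x : M, w.valuation M (σ x) = w.valuation M x) {x : M}
    (hx : x ≠ 0) (h : IsSquare (algebraMap M (w.adicCompletion M) x)) :
    IsSquare (algebraMap K ((dn K w).adicCompletion K) (Algebra.norm K x)) := by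
  obtain ⟨t, ht0, ht⟩ := Hd_near w hx h 8 (by norm_num)
  have h8 : w.valuation M ((8 : ℕ) : M) ≤ 1 := Hd_le w 8
  have h2 : w.valuation M ((2 : ℕ) : M) ≤ 1 := Hd_le w 2
  have hV8 : w.valuation M ((8 : ℕ) : M) ≤ w.valuation M ((4 : ℕ) : M) := by
    have e : ((8 : ℕ) : M) = ((2 : ℕ) : M) * ((4 : ℕ) : M) := by norm_num
    rw [e, map_mul]
    calc w.valuation M ((2 : ℕ) : M) * w.valuation M ((4 : ℕ) : M)
        ≤ 1 * w.valuation M ((4 : ℕ) : M) := by gcongr
      _ = _ := one_mul _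
  have hxt : w.valuation M x = w.valuation M (t ^ 2) := by
    apply Valuation.map_eq_of_sub_lt
    refine lt_of_lt_of_le ht ?_
    rw [map_mul]
    calc w.valuation M ((8 : ℕ) : M) * w.valuation M (t ^ 2) ≤ 1 * w.valuation M (t ^ 2) := by
          gcongr
      _ = _ := one_mul _
  have ht2 : w.valuation M (t ^ 2) ≠ 0 := (Valuation.ne_zero_iff _).2 (pow_ne_zero 2 ht0)
  have key : w.valuation M (algebraMap K M (Algebra.norm K x - (Algebra.norm K t) ^ 2)) <
      w.valuation M (algebraMap K M (4 * (Algebra.norm K t) ^ 2)) := by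
    have e1 : algebraMap K M (Algebra.norm K x - (Algebra.norm K t) ^ 2) =
        (x - t ^ 2) * σ x + t ^ 2 * σ (x - t ^ 2) := by
      rw [map_sub, map_pow, hQ.norm_eq, hQ.norm_eq, map_sub, map_pow]
      ring
    have e2 : algebraMap K M (4 * (Algebra.norm K t) ^ 2) = ((4 : ℕ) : M) * (t ^ 2 * σ (t ^ 2)) := by
      rw [map_mul, map_pow, hQ.norm_eq, map_pow, map_ofNat]
      push_cast
      ring
    have e3 : w.valuation M (((8 : ℕ) : M) * t ^ 2 * t ^ 2) ≤
        w.valuation M (((4 : ℕ) : M) * (t ^ 2 * σ (t ^ 2))) := by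
      rw [map_mul, map_mul, map_mul, map_mul, hσ, mul_assoc]
      gcongr
    rw [e1, e2]
    refine lt_of_lt_of_le ?_ e3
    apply Valuation.map_add_lt
    · rw [map_mul, hσ, hxt, map_mul _ (((8 : ℕ) : M) * t ^ 2)]
      exact mul_lt_mul_of_pos_right ht (zero_lt_iff.2 ht2)
    · rw [map_mul, hσ, map_mul _ (((8 : ℕ) : M) * t ^ 2), mul_comm]
      exact mul_lt_mul_of_pos_right ht (zero_lt_iff.2 ht2)
  rw [H36CY.val_lt_iff] at key
  obtain ⟨r, _, hr⟩ := H36CY.sq_near' (dn K w) key
  rw [hr, map_pow]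
  exact ⟨algebraMap K ((dn K w).adicCompletion K) (Algebra.norm K t) * r, by ring⟩

theorem norm_sq {D : K} {s : M} {σ : M ≃ₐ[K] M} (hQ : QD D s σ)
    {w : HeightOneSpectrum (𝓞 M)} (hσ : ∀ x : M, w.valuation M (σ x) = w.valuation M x) {x : M}
    (hx : x ≠ 0) (h : IsSquare (algebraMap K ((dn K w).adicCompletion K) (Algebra.norm K x))) :
    ∃ k : K, k ≠ 0 ∧ IsSquare (algebraMap M (w.adicCompletion M) (x * algebraMap K M k)) := by
  have hσ0 : ∀ y : M, y ≠ 0 → σ y ≠ 0 := fun y hy => (_root_.map_ne_zero σ).2 hy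
  have hN0 : ∀ y : M, y ≠ 0 → Algebra.norm K y ≠ 0 := by
    intro y hy h0
    have h1 := hQ.norm_eq y
    rw [h0, map_zero] at h1
    exact mul_ne_zero hy (hσ0 y hy) h1.symm
  obtain ⟨r, hr0, hr⟩ := Hd_near (dn K w) (hN0 x hx) h 64 (by norm_num)
  rw [← H36CY.val_lt_iff] at hr
  obtain ⟨R, hR⟩ : ∃ R : M, R = algebraMap K M r := ⟨_, rfl⟩
  have hR0 : R ≠ 0 := by rw [hR]; exact (_root_.map_ne_zero _).2 hr0
  obtain ⟨ε, hε⟩ : ∃ ε : M, ε = algebraMap K M (Algebra.norm K x) / R ^ 2 - 1 := ⟨_, rfl⟩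
  have hεv : w.valuation M ε < w.valuation M ((64 : ℕ) : M) := by
    have e1 : algebraMap K M (Algebra.norm K x - r ^ 2) = R ^ 2 * ε := by
      rw [hε, map_sub, map_pow, ← hR]
      field_simp
    have e2 : algebraMap K M (((64 : ℕ) : K) * r ^ 2) = R ^ 2 * ((64 : ℕ) : M) := by
      rw [map_mul, map_pow, ← hR, map_natCast]
      ring
    rw [e1, e2, map_mul, map_mul _ (R ^ 2)] at hr
    exact Hd_cancel hr
  have main : ∀ δ : K, δ ^ 2 = 1 →
      w.valuation M ((2 : ℕ) : M) ≤ w.valuation M (1 + algebraMap K M δ * x / R) →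
      ∃ k : K, k ≠ 0 ∧ IsSquare (algebraMap M (w.adicCompletion M) (x * algebraMap K M k)) := by
    intro δ hδ hz
    obtain ⟨z, hzd⟩ : ∃ z : M, z = 1 + algebraMap K M δ * x / R := ⟨_, rfl⟩
    rw [← hzd] at hz
    have hδM : (algebraMap K M δ) ^ 2 = 1 := by rw [← map_pow, hδ, map_one]
    have h20 : w.valuation M ((2 : ℕ) : M) ≠ 0 :=
      (Valuation.ne_zero_iff _).2 (Nat.cast_ne_zero.2 (by norm_num))
    have hzv0 : w.valuation M z ≠ 0 := fun h0 => by
      rw [h0] at hz
      exact h20 (le_antisymm hz zero_le)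
    have hz0 : z ≠ 0 := (Valuation.ne_zero_iff _).1 hzv0
    have hδ0 : δ ≠ 0 := by
      rintro rfl
      norm_num at hδ
    have hσz : σ z = 1 + algebraMap K M δ * σ x / R := by
      rw [hzd, map_add, map_one, map_div₀, map_mul, AlgEquiv.commutes, hR, AlgEquiv.commutes]
    have hmul : algebraMap K M δ * x / R * σ z = z + ε := by
      rw [hσz, hzd, hε, hQ.norm_eq]
      have e4 : algebraMap K M δ * x / R * (1 + algebraMap K M δ * σ x / R) =
          algebraMap K M δ * x / R + (algebraMap K M δ) ^ 2 * (x * σ x) / R ^ 2 := by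
        field_simp
      rw [e4, hδM]
      ring
    refine ⟨δ * Algebra.norm K z / r, div_ne_zero (mul_ne_zero hδ0 (hN0 z hz0)) hr0, ?_⟩
    have e5 : x * algebraMap K M (δ * Algebra.norm K z / r) = z * (z + ε) := by
      rw [← hmul, map_div₀, map_mul, hQ.norm_eq, ← hR]
      ring
    have key : w.valuation M (z * (z + ε) - z ^ 2) < w.valuation M (4 * z ^ 2) := by
      have e6 : z * (z + ε) - z ^ 2 = z * ε := by ring
      have e7 : (4 : M) * z ^ 2 = z * (((4 : ℕ) : M) * z) := by push_cast; ring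
      rw [e6, e7, map_mul, map_mul _ z]
      apply Hd_mul _ hzv0
      refine lt_of_lt_of_le hεv ?_
      have e8 : ((64 : ℕ) : M) = ((8 : ℕ) : M) * (((4 : ℕ) : M) * ((2 : ℕ) : M)) := by norm_num
      rw [e8, map_mul, map_mul, map_mul]
      calc w.valuation M ((8 : ℕ) : M) * (w.valuation M ((4 : ℕ) : M) *
            w.valuation M ((2 : ℕ) : M))
          ≤ 1 * (w.valuation M ((4 : ℕ) : M) * w.valuation M z) := by
            gcongr
            exact Hd_le w 8
        _ = _ := one_mul _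
    obtain ⟨ρ, _, hρ⟩ := H36CY.sq_near' w key
    rw [e5, hρ, map_pow]
    exact ⟨algebraMap M (w.adicCompletion M) z * ρ, by ring⟩
  have h2 : w.valuation M ((2 : ℕ) : M) ≤
      max (w.valuation M (1 + algebraMap K M 1 * x / R))
        (w.valuation M (1 + algebraMap K M (-1) * x / R)) := by
    have e9 : ((2 : ℕ) : M) = (1 + algebraMap K M 1 * x / R) + (1 + algebraMap K M (-1) * x / R) := by
      rw [map_neg, map_one]
      push_cast
      ring
    rw [e9]
    exact Valuation.map_add _ _ _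
  rcases le_max_iff.1 h2 with h3 | h3
  · exact main 1 (by norm_num) h3
  · exact main (-1) (by norm_num) h3

theorem K_sq {D : K} {s : M} {σ : M ≃ₐ[K] M} (hQ : QD D s σ)
    {w : HeightOneSpectrum (𝓞 M)} (hσ : ∀ x : M, w.valuation M (σ x) = w.valuation M x) {k : K}
    (hk : k ≠ 0) (h : IsSquare (algebraMap M (w.adicCompletion M) (algebraMap K M k))) :
    IsSquare (algebraMap K ((dn K w).adicCompletion K) k) ∨
      IsSquare (algebraMap K ((dn K w).adicCompletion K) (k * D)) := by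
  have hkM : algebraMap K M k ≠ 0 := (_root_.map_ne_zero _).2 hk
  obtain ⟨t, ht0, ht⟩ := Hd_near w hkM h 8 (by norm_num)
  obtain ⟨a, b, hab⟩ := hQ.span t
  obtain ⟨A, hA⟩ : ∃ A : M, A = algebraMap K M a := ⟨_, rfl⟩
  obtain ⟨B, hB⟩ : ∃ B : M, B = algebraMap K M b * s := ⟨_, rfl⟩
  rw [← hA, ← hB] at hab
  have hσt : σ t = A - B := by
    rw [hab, hA, hB]
    exact hQ.sig a b
  have hB2 : B ^ 2 = algebraMap K M (D * b ^ 2) := by
    rw [hB, mul_pow, hQ.sq, map_mul, map_pow]
    ring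
  have hA2 : A ^ 2 = algebraMap K M (a ^ 2) := by rw [hA, map_pow]
  have h20 : w.valuation M ((2 : ℕ) : M) ≠ 0 :=
    (Valuation.ne_zero_iff _).2 (Nat.cast_ne_zero.2 (by norm_num))
  have ht1 : w.valuation M t ≠ 0 := (Valuation.ne_zero_iff _).2 ht0
  -- the difference of the two squares
  have hd1 : w.valuation M (σ (algebraMap K M k - t ^ 2)) < w.valuation M (((8 : ℕ) : M) * t ^ 2) := by
    rw [hσ]
    exact ht
  have hd2 : w.valuation M (((2 : ℕ) : M) * (((2 : ℕ) : M) * (A * B))) <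
      w.valuation M (((2 : ℕ) : M) * (((4 : ℕ) : M) * t ^ 2)) := by
    have e1 : ((2 : ℕ) : M) * (((2 : ℕ) : M) * (A * B)) =
        σ (algebraMap K M k - t ^ 2) - (algebraMap K M k - t ^ 2) := by
      rw [map_sub, map_pow, AlgEquiv.commutes, hσt, hab]
      push_cast
      ring
    have e2 : ((2 : ℕ) : M) * (((4 : ℕ) : M) * t ^ 2) = ((8 : ℕ) : M) * t ^ 2 := by
      push_cast
      ring
    rw [e1, e2]
    exact Valuation.map_sub_lt _ hd1 ht
  have hd3 : w.valuation M (((2 : ℕ) : M) * (A * B)) < w.valuation M (((4 : ℕ) : M) * t ^ 2) := by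
    rw [map_mul _ ((2 : ℕ) : M), map_mul _ ((2 : ℕ) : M) (((4 : ℕ) : M) * t ^ 2)] at hd2
    exact Hd_cancel hd2
  have hV8 : w.valuation M (((8 : ℕ) : M) * t ^ 2) ≤ w.valuation M (((4 : ℕ) : M) * t ^ 2) := by
    have e : ((8 : ℕ) : M) * t ^ 2 = ((2 : ℕ) : M) * (((4 : ℕ) : M) * t ^ 2) := by
      push_cast
      ring
    rw [e, map_mul]
    calc w.valuation M ((2 : ℕ) : M) * w.valuation M (((4 : ℕ) : M) * t ^ 2)
        ≤ 1 * w.valuation M (((4 : ℕ) : M) * t ^ 2) := by
          gcongr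
          exact Hd_le w 2
      _ = _ := one_mul _
  have hd4 : w.valuation M (algebraMap K M k - (A ^ 2 + B ^ 2)) <
      w.valuation M (((4 : ℕ) : M) * t ^ 2) := by
    have e1 : algebraMap K M k - (A ^ 2 + B ^ 2) =
        (algebraMap K M k - t ^ 2) + ((2 : ℕ) : M) * (A * B) := by
      rw [hab]
      push_cast
      ring
    rw [e1]
    exact Valuation.map_add_lt _ (lt_of_lt_of_le ht hV8) hd3
  -- the general step
  have step : ∀ X Y : M, ((2 : ℕ) : M) * (X * Y) = ((2 : ℕ) : M) * (A * B) →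
      X ^ 2 + Y ^ 2 = A ^ 2 + B ^ 2 → w.valuation M t ≤ w.valuation M X →
      w.valuation M (algebraMap K M k - X ^ 2) < w.valuation M (4 * X ^ 2) := by
    intro X Y hXY hXY2 hX
    have hX0 : w.valuation M X ≠ 0 := fun h0 => by
      rw [h0] at hX
      exact ht1 (le_antisymm hX zero_le)
    have h1 : w.valuation M ((2 : ℕ) : M) * (w.valuation M X * w.valuation M Y) <
        w.valuation M ((2 : ℕ) : M) *
          (w.valuation M X * (w.valuation M ((2 : ℕ) : M) * w.valuation M t)) := by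
      rw [← map_mul, ← map_mul, hXY]
      refine lt_of_lt_of_le hd3 ?_
      have e1 : ((4 : ℕ) : M) * t ^ 2 = ((2 : ℕ) : M) * (t * (((2 : ℕ) : M) * t)) := by
        push_cast
        ring
      rw [e1, map_mul, map_mul, map_mul]
      gcongr
    have h2 : w.valuation M Y < w.valuation M (((2 : ℕ) : M) * t) := by
      rw [map_mul]
      exact Hd_cancel (Hd_cancel h1)
    have h3 : w.valuation M (Y ^ 2) < w.valuation M (((4 : ℕ) : M) * t ^ 2) := by
      have e1 : ((4 : ℕ) : M) * t ^ 2 = (((2 : ℕ) : M) * t) ^ 2 := by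
        push_cast
        ring
      rw [e1, map_pow, map_pow]
      exact pow_lt_pow_left₀ h2 zero_le (by norm_num)
    have h4 : w.valuation M (((4 : ℕ) : M) * t ^ 2) ≤ w.valuation M (4 * X ^ 2) := by
      have e1 : (4 : M) * X ^ 2 = ((4 : ℕ) : M) * X ^ 2 := by push_cast; ring
      rw [e1, map_mul, map_mul, map_pow, map_pow]
      gcongr
    refine lt_of_lt_of_le ?_ h4
    have e2 : algebraMap K M k - X ^ 2 = (algebraMap K M k - (A ^ 2 + B ^ 2)) + Y ^ 2 := by
      rw [← hXY2]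
      ring
    rw [e2]
    exact Valuation.map_add_lt _ hd4 h3
  have hmax : w.valuation M t ≤ max (w.valuation M A) (w.valuation M B) := by
    rw [hab]
    exact Valuation.map_add _ _ _
  rcases le_max_iff.1 hmax with h1 | h1
  · left
    have h2 := step A B rfl rfl h1
    have e1 : algebraMap K M k - A ^ 2 = algebraMap K M (k - a ^ 2) := by
      rw [hA2, map_sub]
    have e2 : (4 : M) * A ^ 2 = algebraMap K M (4 * a ^ 2) := by
      rw [hA2, map_mul, map_ofNat]
    rw [e1, e2, H36CY.val_lt_iff] at h2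
    obtain ⟨r, _, hr⟩ := H36CY.sq_near' (dn K w) h2
    rw [hr, map_pow]
    exact ⟨algebraMap K ((dn K w).adicCompletion K) a * r, by ring⟩
  · right
    have h2 := step B A (by ring) (by ring) h1
    have e1 : algebraMap K M k - B ^ 2 = algebraMap K M (k - D * b ^ 2) := by
      rw [hB2, map_sub]
    have e2 : (4 : M) * B ^ 2 = algebraMap K M (4 * (D * b ^ 2)) := by
      rw [hB2, map_mul _ 4, map_ofNat]
    rw [e1, e2, H36CY.val_lt_iff] at h2
    obtain ⟨r, _, hr⟩ := H36CY.sq_near' (dn K w) h2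
    rw [map_mul, hr, map_mul, map_pow]
    exact ⟨algebraMap K ((dn K w).adicCompletion K) D *
      algebraMap K ((dn K w).adicCompletion K) b * r, by ring⟩

end H36MX
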