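import Pool.Agent.H36.MX.Hb
import Pool.Agent.H36.MX.Hd
import Pool.Agent.H36.MX.Ha
import Pool.Agent.H30.ZO.Ac
import Pool.Agent.H36.CY.Nn

/-!
ROW MXHc (project MP_78d38b_MX, about 200 lines): the norm classes of a quadratic extension of `K_v`, `v` above two, have index two; the Hilbert symbol of `K_v` is bilinear and nondegenerate. Use the STATEMENTS of Ha, Hb, Hd.

PROOF of index_norm. Let `F = K_v`. Choose `D₀, b₀, c₀ ∈ K^*` equal to `D, b, c` times squares of `F` (`weak_sq` of Wa.lean for `S = {v}`); Sol only depends on the classes (sol_iff or hs_sq). `D₀` is not a square in `F`, so not in `K`: `exists_QD` (Qd.lean): `M, s, σ`; `w` from quad_place, `dn K w = v`. `G = SC K`, `G' = SC M`, `N = scm (Algebra.norm K) : G' → G`, `j = scm (algebraMap K M) : G → G'`, `Sq v = H30ZO.Sq v ≤ G`, `Sq w ≤ G'` (`H30ZO.mem_Sq : sc x ∈ Sq w ↔ IsSquare (algebraMap x)`),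
`H30ZO.index_Sq v : (Sq v).index = 4 qq v`, `index (Sq w) = 4 qq w = 4 (qq v)^2`.
(1) `P = (Sq v).comap N` contains `Sq w` (sq_norm) and `P = Sq w ⊔ range j` (norm_sq, and `N (j x) = x^2`: `Algebra.norm_algebraMap`, finrank 2). (2) The index of `Sq w` in `P` is the index of `j⁻¹ (Sq w)` in `G`: `P / Sq w ≅ G / j⁻¹(Sq w)` (`AddSubgroup.relIndex`, `relIndex_sup_right`, `index_comap`: `(Sq w).comap j` has index `(Sq w).relIndex (range j)`).
`j⁻¹ (Sq w) = Sq v ⊔ {0, sc D₀}` (K_sq; `D₀ = s^2` in `M`), `sc D₀ ∉ Sq v`, so its index is `(4 qq v)/2 = 2 qq v`. (3) `index P = index (Sq w) / relIndex = 4 (qq v)^2 / (2 qq v) = 2 qq v`, and `index P = (Sq v).relIndex (range N)` (`index_comap`). With `U = Sq v ⊔ range N`: `index (Sq v) = relIndex(Sq v, U) * index U`, `relIndex (Sq v) U = relIndex (Sq v) (range N) = 2 qq v` (`relIndex_sup_right`), so `index U = 2`.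
(4) `sc b₀ ∈ U → Sol D₀ b₀` in `F`: `b₀ = N y * r^2` in `F`, `N y = y₁^2 - D₀ y₂^2` (`y = y₁ + y₂ s`, norm_eq), sol_iff. So `sc b₀, sc c₀ ∉ U`, hence `sc b₀ + sc c₀ ∈ U` (index two: `AddSubgroup.add_mem_iff_of_index_two`), so `Sol D₀ (b₀ c₀)`.
PROOF of hf_two: `mul`: if `c` is a square all three symbols vanish (hs_of_sq, hs_comm). Otherwise `hs c a = 0 ↔ Sol c a`: two Sol: sol_mul; one Sol and one not: the product is not Sol (otherwise `b = (a b) * a * (1/a)^2` is, by sol_mul and hs_sq); none: index_norm. `nd`: `H36CY.nonnorm_F h2 hD` gives `c ≠ 0` not of the form `X^2 - a Y^2`: sol_iff.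
-/

set_option autoImplicit false
set_option linter.unusedSectionVars false
open scoped Classical

open WithZero NumberField IsDedekindDomain H38RT
open H38T1 (SC sc scu rep rep_ne sc_rep sc_mul sc_eq_zero sc_surj eo la si Pri OddP tp unif ka)
open H76PP

namespace H36MX

section HcAux

private theorem Hc_qq_pos {K : Type} [Field K] [NumberField K] (v : HeightOneSpectrum (𝓞 K)) :
    0 < H30ZO.qq v := by
  unfold H30ZO.qq Nv
  refine Nat.pow_pos (Nat.pos_of_ne_zero ?_)
  rw [Ne, Ideal.absNorm_eq_zero_iff]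
  exact v.ne_bot

private theorem Hc_neg {F : Type} [Field F] (c : SC F) : -c = c := by
  rw [neg_eq_iff_add_eq_zero, ← two_nsmul]
  exact H38T1.SC.two_smul c

private theorem Hc_sc_sq {F : Type} [Field F] {x : F} (hx : x ≠ 0) : sc (x ^ 2) = 0 := by
  rw [H38T1.sc_eq_zero (pow_ne_zero _ hx), sq]
  exact ⟨_, rfl⟩

variable {K M : Type} [Field K] [NumberField K] [Field M] [NumberField M] [Algebra K M]

private theorem Hc_fd : FiniteDimensional K M := Module.Finite.of_restrictScalars_finite ℚ K M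

private theorem Hc_norm_ne {y : M} (hy : y ≠ 0) : Algebra.norm K y ≠ 0 := by
  have _ : FiniteDimensional K M := Hc_fd
  exact Algebra.norm_ne_zero_iff.2 hy

/-- the subgroup of norm classes -/
private noncomputable def Hc_U (K : Type) {M : Type} [Field K] [NumberField K] [Field M]
    [NumberField M] [Algebra K M] (w : HeightOneSpectrum (𝓞 M)) : AddSubgroup (SC K) :=
  H30ZO.Sq (dn K w) ⊔ (scm (Algebra.norm K : M →* K)).range

private theorem Hc_index {D : K} {s : M} {σ : M ≃ₐ[K] M} (hQ : QD D s σ)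
    {w : HeightOneSpectrum (𝓞 M)} (hσ : ∀ x : M, w.valuation M (σ x) = w.valuation M x)
    (hqq : H30ZO.qq w = H30ZO.qq (dn K w) ^ 2)
    (hD : ¬ IsSquare (algebraMap K ((dn K w).adicCompletion K) D)) :
    (Hc_U K w).index = 2 := by
  have hfd : FiniteDimensional K M := Hc_fd
  obtain ⟨N, hN⟩ : ∃ N : SC M →+ SC K, N = scm (Algebra.norm K : M →* K) := ⟨_, rfl⟩
  obtain ⟨j, hj⟩ : ∃ j : SC K →+ SC M, j = scm ((algebraMap K M : K →+* M) : K →* M) := ⟨_, rfl⟩
  have hNsc : ∀ {y : M}, y ≠ 0 → N (sc y) = sc (Algebra.norm K y) := fun {y} hy => by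
    rw [hN, scm_sc _ hy]
  have hjsc : ∀ {k : K}, k ≠ 0 → j (sc k) = sc (algebraMap K M k) := fun {k} hk => by
    rw [hj, scm_sc _ hk]
    rfl
  have hinj : ∀ {k : K}, k ≠ 0 → algebraMap K M k ≠ 0 := fun {k} hk => (_root_.map_ne_zero _).2 hk
  obtain ⟨Sv, hSv⟩ : ∃ Sv : AddSubgroup (SC K), Sv = H30ZO.Sq (dn K w) := ⟨_, rfl⟩
  obtain ⟨Sw, hSw⟩ : ∃ Sw : AddSubgroup (SC M), Sw = H30ZO.Sq w := ⟨_, rfl⟩
  have hSvi : Sv.index = 4 * H30ZO.qq (dn K w) := by rw [hSv]; exact H30ZO.index_Sq _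
  have hSwi : Sw.index = 4 * H30ZO.qq (dn K w) ^ 2 := by
    rw [hSw, ← hqq]; exact H30ZO.index_Sq _
  have hq := Hc_qq_pos (dn K w)
  -- the preimage of the squares under the norm
  have hP : Sv.comap N = Sw ⊔ j.range := by
    apply le_antisymm
    · intro c hc
      obtain ⟨x, hx, rfl⟩ := H38T1.sc_surj c
      rw [AddSubgroup.mem_comap, hNsc hx, hSv, H30ZO.mem_Sq (Hc_norm_ne hx)] at hc
      obtain ⟨k, hk, h⟩ := norm_sq hQ hσ hx hc
      have h1 : sc (x * algebraMap K M k) ∈ Sw := by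
        rw [hSw, H30ZO.mem_Sq (mul_ne_zero hx (hinj hk))]
        exact h
      rw [H38T1.sc_mul hx (hinj hk), ← hjsc hk] at h1
      have h2 : sc x = (sc x + j (sc k)) + j (sc k) := by
        rw [add_assoc, ← two_nsmul, H38T1.SC.two_smul, add_zero]
      rw [h2]
      exact AddSubgroup.add_mem _ (AddSubgroup.mem_sup_left h1)
        (AddSubgroup.mem_sup_right ⟨sc k, rfl⟩)
    · refine sup_le ?_ ?_
      · intro c hc
        obtain ⟨x, hx, rfl⟩ := H38T1.sc_surj c
        rw [hSw, H30ZO.mem_Sq hx] at hc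
        rw [AddSubgroup.mem_comap, hNsc hx, hSv, H30ZO.mem_Sq (Hc_norm_ne hx)]
        exact sq_norm hQ hσ hx hc
      · rintro _ ⟨c, rfl⟩
        obtain ⟨k, hk, rfl⟩ := H38T1.sc_surj c
        rw [AddSubgroup.mem_comap, hjsc hk, hNsc (hinj hk), Algebra.norm_algebraMap, hQ.rk,
          Hc_sc_sq hk]
        exact AddSubgroup.zero_mem _
  -- the classes of `K` which become squares
  have hle : Sv ≤ Sw.comap j := by
    intro c hc
    obtain ⟨k, hk, rfl⟩ := H38T1.sc_surj c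
    rw [hSv, H30ZO.mem_Sq hk] at hc
    rw [AddSubgroup.mem_comap, hjsc hk, hSw, H30ZO.mem_Sq (hinj hk)]
    have h1 := hc.map (H36CY.over_dn (K := K) w).map
    rwa [Pool.Agent.H10.Over.map_algebraMap] at h1
  have hD0 := hQ.D0
  have hrel : Sv.relIndex (Sw.comap j) = 2 := by
    rw [AddSubgroup.relIndex_eq_two_iff_exists_notMem_and]
    refine ⟨sc D, ?_, ?_, ?_⟩
    · rw [AddSubgroup.mem_comap, hjsc hD0, ← hQ.sq, Hc_sc_sq hQ.s0]
      exact AddSubgroup.zero_mem _
    · rw [hSv, H30ZO.mem_Sq hD0]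
      exact hD
    · intro b hb
      obtain ⟨k, hk, rfl⟩ := H38T1.sc_surj b
      rw [AddSubgroup.mem_comap, hjsc hk, hSw, H30ZO.mem_Sq (hinj hk)] at hb
      rw [← H38T1.sc_mul hk hD0, hSv, H30ZO.mem_Sq hk, H30ZO.mem_Sq (mul_ne_zero hk hD0)]
      exact (K_sq hQ hσ hk hb).symm
  have hcj : (Sw.comap j).index = 2 * H30ZO.qq (dn K w) := by
    have h1 := AddSubgroup.relIndex_mul_index hle
    rw [hrel, hSvi] at h1
    omega
  have hPw : Sw.relIndex (Sv.comap N) = 2 * H30ZO.qq (dn K w) := by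
    rw [hP, AddSubgroup.relIndex_sup_left, ← AddSubgroup.index_comap]
    exact hcj
  have hPi : (Sv.comap N).index = 2 * H30ZO.qq (dn K w) := by
    have h0 : Sw ≤ Sv.comap N := by
      rw [hP]
      exact le_sup_left
    have h1 := AddSubgroup.relIndex_mul_index h0
    rw [hPw, hSwi] at h1
    have h2 : 2 * H30ZO.qq (dn K w) * (Sv.comap N).index =
        2 * H30ZO.qq (dn K w) * (2 * H30ZO.qq (dn K w)) := by
      rw [h1]
      ring
    exact Nat.eq_of_mul_eq_mul_left (by omega) h2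
  rw [AddSubgroup.index_comap] at hPi
  have hUrel : Sv.relIndex (Sv ⊔ N.range) = 2 * H30ZO.qq (dn K w) := by
    rw [AddSubgroup.relIndex_sup_left]
    exact hPi
  have h1 := AddSubgroup.relIndex_mul_index (le_sup_left : Sv ≤ Sv ⊔ N.range)
  rw [hUrel, hSvi] at h1
  have h3 : Hc_U K w = Sv ⊔ N.range := by
    rw [hSv, hN]
    rfl
  rw [h3]
  have h2 : 2 * H30ZO.qq (dn K w) * (Sv ⊔ N.range).index = 2 * H30ZO.qq (dn K w) * 2 := by
    rw [h1]
    ring
  exact Nat.eq_of_mul_eq_mul_left (by omega) h2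

private theorem Hc_sol {D : K} {s : M} {σ : M ≃ₐ[K] M} (hQ : QD D s σ)
    {w : HeightOneSpectrum (𝓞 M)} {b : K} (hb : b ≠ 0) (h : sc b ∈ Hc_U K w) :
    Sol (algebraMap K ((dn K w).adicCompletion K) D)
      (algebraMap K ((dn K w).adicCompletion K) b) := by
  have _ := H36CY.char_zero (dn K w)
  have hinjF : ∀ {k : K}, k ≠ 0 → algebraMap K ((dn K w).adicCompletion K) k ≠ 0 :=
    fun {k} hk => (_root_.map_ne_zero _).2 hk
  obtain ⟨a, ha, c, ⟨y', rfl⟩, hac⟩ := AddSubgroup.mem_sup.1 h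
  obtain ⟨y, hy, rfl⟩ := H38T1.sc_surj y'
  have hn := Hc_norm_ne (K := K) hy
  rw [scm_sc _ hy] at hac
  have h1 : sc (b * Algebra.norm K y) ∈ H30ZO.Sq (dn K w) := by
    rw [H38T1.sc_mul hb hn, ← hac, add_assoc, ← two_nsmul, H38T1.SC.two_smul, add_zero]
    exact ha
  rw [H30ZO.mem_Sq (mul_ne_zero hb hn)] at h1
  obtain ⟨r, hr⟩ := h1
  obtain ⟨y1, y2, rfl⟩ := hQ.span y
  rw [hQ.norm_mk] at hr hn
  have hnF := hinjF hn
  rw [sol_iff two_ne_zero (hinjF hQ.D0) (hinjF hb)]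
  rw [map_mul] at hr
  refine ⟨algebraMap K _ y1 * r / algebraMap K _ (y1 ^ 2 - D * y2 ^ 2),
    algebraMap K _ y2 * r / algebraMap K _ (y1 ^ 2 - D * y2 ^ 2), ?_⟩
  have e1 : algebraMap K ((dn K w).adicCompletion K) (y1 ^ 2 - D * y2 ^ 2) =
      (algebraMap K ((dn K w).adicCompletion K) y1) ^ 2 -
        algebraMap K ((dn K w).adicCompletion K) D *
          (algebraMap K ((dn K w).adicCompletion K) y2) ^ 2 := by
    rw [map_sub, map_mul, map_pow, map_pow]
  rw [e1] at hr hnF ⊢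
  generalize algebraMap K ((dn K w).adicCompletion K) y1 = Y1 at *
  generalize algebraMap K ((dn K w).adicCompletion K) y2 = Y2 at *
  generalize algebraMap K ((dn K w).adicCompletion K) D = DD at *
  generalize algebraMap K ((dn K w).adicCompletion K) b = B at *
  field_simp
  linear_combination hr

/-- a representative of a square class of the completion -/
private theorem Hc_cls (v : HeightOneSpectrum (𝓞 K)) {x : v.adicCompletion K} (hx : x ≠ 0) :
    ∃ y : K, y ≠ 0 ∧ ∃ r : v.adicCompletion K, r ≠ 0 ∧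
      algebraMap K (v.adicCompletion K) y = x * r ^ 2 := by
  have _ := H36CY.char_zero v
  obtain ⟨y, hy⟩ := H36CY.near_coe v x (c := 4 * x) (mul_ne_zero (by norm_num) hx)
  obtain ⟨r, hr, h⟩ := H36CY.sq_near hy
  refine ⟨y, ?_, r, hr, h⟩
  rintro rfl
  rw [map_zero] at h
  exact mul_ne_zero hx (pow_ne_zero 2 hr) h.symm

private theorem Hc_sol_sq {F : Type} [Field F] {a b c d : F} (hc : c ≠ 0) (hd : d ≠ 0) :
    Sol (a * c ^ 2) (b * d ^ 2) ↔ Sol a b := by
  rw [← hs_eq_zero, ← hs_eq_zero, hs_sq hc, hs_comm, hs_sq hd, hs_comm]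

end HcAux

variable {K : Type} [Field K] [NumberField K] {v : HeightOneSpectrum (𝓞 K)}

theorem index_norm (h2 : v.valuation K 2 < 1) {D b c : v.adicCompletion K} (hD : ¬ IsSquare D)
    (hb : b ≠ 0) (hc : c ≠ 0) (h1 : ¬ Sol D b) (h3 : ¬ Sol D c) : Sol D (b * c) := by
  have _ := H36CY.char_zero v
  have hD0 : D ≠ 0 := by
    rintro rfl
    exact hD ⟨0, by ring⟩
  obtain ⟨D', hD', r1, hr1, e1⟩ := Hc_cls v hD0
  obtain ⟨b', hb', r2, hr2, e2⟩ := Hc_cls v hb
  obtain ⟨c', hc', r3, hr3, e3⟩ := Hc_cls v hc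
  have hDF : ¬ IsSquare (algebraMap K (v.adicCompletion K) D') := by
    rintro ⟨t, ht⟩
    apply hD
    refine ⟨t / r1, ?_⟩
    rw [e1] at ht
    field_simp
    linear_combination ht
  have hDK : ¬ IsSquare D' := fun h => hDF (h.map _)
  obtain ⟨M, iM, iN, iA, s, σ, hQ⟩ := exists_QD hDK
  obtain ⟨w, hw, hσ, hqq⟩ := quad_place hQ v hDF
  subst hw
  have hidx := Hc_index hQ hσ hqq hDF
  have hb1 : sc b' ∉ Hc_U K w := by
    intro h
    have h4 := Hc_sol hQ hb' h
    rw [e1, e2, Hc_sol_sq hr1 hr2] at h4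
    exact h1 h4
  have hc1 : sc c' ∉ Hc_U K w := by
    intro h
    have h4 := Hc_sol hQ hc' h
    rw [e1, e3, Hc_sol_sq hr1 hr3] at h4
    exact h3 h4
  have hbc : sc (b' * c') ∈ Hc_U K w := by
    rw [H38T1.sc_mul hb' hc', AddSubgroup.add_mem_iff_of_index_two hidx]
    exact ⟨fun h => absurd h hb1, fun h => absurd h hc1⟩
  have h4 := Hc_sol hQ (mul_ne_zero hb' hc') hbc
  have e4 : algebraMap K ((dn K w).adicCompletion K) (b' * c') = (b * c) * (r2 * r3) ^ 2 := by
    rw [map_mul, e2, e3]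
    ring
  rw [e1, e4, Hc_sol_sq hr1 (mul_ne_zero hr2 hr3)] at h4
  exact h4

theorem hf_two (h2 : v.valuation K 2 < 1) : HF (v.adicCompletion K) := by
  have _ := H36CY.char_zero v
  have h20 : (2 : v.adicCompletion K) ≠ 0 := two_ne_zero
  refine ⟨h20, fun a b c ha hb hc => ?_, fun a ha hsq => ?_⟩
  · by_cases hcs : IsSquare c
    · rw [hs_comm (a * b) c, hs_comm a c, hs_comm b c, hs_of_sq hc hcs, hs_of_sq hc hcs,
        hs_of_sq hc hcs, add_zero]
    · rw [hs_comm (a * b) c, hs_comm a c, hs_comm b c]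
      have hab : a * b ≠ 0 := mul_ne_zero ha hb
      have hz : ∀ {x y : v.adicCompletion K}, x ≠ 0 → (Sol c (y * x ^ 2) ↔ Sol c y) :=
        fun {x y} hx => by
          have := Hc_sol_sq (a := c) (b := y) (c := (1 : v.adicCompletion K)) (d := x)
            one_ne_zero hx
          rwa [one_pow, mul_one] at this
      by_cases hA : Sol c a <;> by_cases hB : Sol c b
      · rw [hs_eq_zero.2 hA, hs_eq_zero.2 hB, hs_eq_zero.2 (sol_mul h20 hc ha hb hA hB), add_zero]
      · have h3 : ¬ Sol c (a * b) := by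
          intro h
          apply hB
          have h4 := sol_mul h20 hc ha hab hA h
          have e : a * (a * b) = b * a ^ 2 := by ring
          rw [e, hz ha] at h4
          exact h4
        rw [hs_eq_zero.2 hA, hs_eq_one.2 hB, hs_eq_one.2 h3, zero_add]
      · have h3 : ¬ Sol c (a * b) := by
          intro h
          apply hA
          have h4 := sol_mul h20 hc hb hab hB h
          have e : b * (a * b) = a * b ^ 2 := by ring
          rw [e, hz hb] at h4
          exact h4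
        rw [hs_eq_one.2 hA, hs_eq_zero.2 hB, hs_eq_one.2 h3, add_zero]
      · rw [hs_eq_one.2 hA, hs_eq_one.2 hB, hs_eq_zero.2 (index_norm h2 hcs ha hb hA hB)]
        decide
  · obtain ⟨c, hc, h⟩ := H36CY.nonnorm_F h2 hsq
    refine ⟨c, hc, ?_⟩
    rw [hs_eq_one, sol_iff h20 ha hc]
    rintro ⟨X, Y, hXY⟩
    exact h X Y hXY.symm

end H36MX
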