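import Pool.Agent.H36.MX.Hh
import Pool.Agent.H36.CY.Nn
import Pool.Agent.H36.CY.Sq
import Pool.Agent.H36.CY.Ld

/-!
ROW MXHu (project MP_78d38b_MX, about 150 lines): the unramified class at a place above two, `F = K_v`. Use the STATEMENTS of Ha, Hh.

exists_unr: `H36CY.exists_rho h2`. unr_nsq: `g = 1 + 4 ρ` is not a square: if `g = r^2` then with `A = r, B = 1` `A^2 - g B^2 = 0`, against `H36CY.rho_even` (`γ ≠ 0`). unr_one: `|g| = 1`.
unr_even: (→) `Sol g z` gives `z = X^2 - g Y^2` (sol_iff), `(X, Y) ≠ 0`, `|z| = γ^2` by `H36CY.rho_even`. (←) Let `|z| = γ^2`, `γ ≠ 0`, and suppose `hs g z = 1`. Let `π` be a uniformizer (`|π| = exp (-1)`): `hs g π = 1`, otherwise `|π| = γ'^2` by (→), impossible (`log`). By bilinearity `hs g (z π) = 0`, so `|z π| = γ''^2`, and `|π| = (γ''/γ)^2`, impossible.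
unr_cases: `u = 4 u'`, `|u'| ≤ 1` (`4 ≠ 0`). The residue field `k` (of `K` at `v`, `𝓞 K ⧸ v`, see the proof of `exists_rho` in H36/CY/Na.lean for the translation; `Na_app`-type approximation: every `t ∈ F` with `|t| ≤ 1` is close to an element of `𝓞 K`) is finite of characteristic two; `t ↦ t^2 + t` is additive with kernel `{0, 1}`, so its image has index two and does not contain the class of `ρ`; so the class of `u'` or of `u' + ρ` (`= u' - ρ`) is in the image: there is `t`, `|t| ≤ 1`, with `|t^2 + t - u'| < 1` or `|t^2 + t - u' - ρ| < 1`.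
First case: `(1 + 2t)^2 = 1 + 4(t^2+t)`, `|1 + u - (1+2t)^2| < |4|`, `|1 + 2t| = 1`: `sq_near`. Second case: `(1 + 4u')(1 + 4ρ) = 1 + 4 (u' + ρ) + 16 u' ρ`, `|16| < |4|`, so it is `(1+2t)^2` times a square.
unr_pri: not needed here.
-/

set_option autoImplicit false
set_option linter.unusedSectionVars false
open scoped Classical

open WithZero NumberField IsDedekindDomain H38RT
open H38T1 (SC sc scu rep rep_ne sc_rep sc_mul sc_eq_zero sc_surj eo la si Pri OddP tp unif ka)
open H76PP

namespace H36MX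

variable {K : Type} [Field K] [NumberField K] {v : HeightOneSpectrum (𝓞 K)}

private theorem Hu_dense (v : HeightOneSpectrum (𝓞 K)) (x : v.adicCompletion K) :
    ∃ k : K, Valued.v (algebraMap K (v.adicCompletion K) k - x) < 1 := by
  have hd := HeightOneSpectrum.denseRange_algebraMap (K := K) v
  have hopen : IsOpen {y : v.adicCompletion K | Valued.v (y - x) < 1} := by
    have h1 : IsOpen {y : v.adicCompletion K | Valued.v y < 1} := by
      obtain ⟨t, ht⟩ := v.valuedAdicCompletion_surjective K (1 : WithZero (Multiplicative ℤ))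
      have := Valued.isOpen_ball (v.adicCompletion K) (Valued.v.restrict t)
      simp_rw [Valuation.restrict_lt_iff] at this
      rwa [ht] at this
    exact h1.preimage (continuous_sub_right x)
  obtain ⟨k, hk⟩ := hd.exists_mem_open hopen ⟨x, by simp⟩
  exact ⟨k, hk⟩

private theorem Hu_val (x : K) :
    Valued.v (algebraMap K (v.adicCompletion K) x) = v.valuation K x :=
  v.valuedAdicCompletion_eq_valuation' (K := K) x

private theorem Hu_app {t : v.adicCompletion K} (ht : Valued.v t ≤ 1) :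
    ∃ a : 𝓞 K, Valued.v (t - algebraMap K (v.adicCompletion K) (a : K)) < 1 := by
  obtain ⟨k, hk⟩ := Hu_dense v t
  have h1 : v.valuation K k ≤ 1 := by
    rw [← Hu_val (v := v) k]
    have e1 : algebraMap K (v.adicCompletion K) k =
        (algebraMap K (v.adicCompletion K) k - t) + t := by ring
    rw [e1]
    exact Valuation.map_add_le _ hk.le ht
  obtain ⟨a, ha⟩ := Tf_approx v h1
  refine ⟨a, ?_⟩
  have e1 : t - algebraMap K (v.adicCompletion K) (a : K) =
      -(algebraMap K (v.adicCompletion K) k - t) +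
        algebraMap K (v.adicCompletion K) (k - (a : K)) := by
    rw [map_sub]
    ring
  rw [e1]
  refine Valuation.map_add_lt _ ?_ ?_
  · rw [Valuation.map_neg]
    exact hk
  · rw [Hu_val]
    exact ha

private theorem Hu_lt (x : 𝓞 K) :
    Valued.v (algebraMap K (v.adicCompletion K) (x : K)) < 1 ↔ x ∈ v.asIdeal := by
  rw [Hu_val]
  exact v.valuation_lt_one_iff_mem x

private theorem Hu_le (x : 𝓞 K) :
    Valued.v (algebraMap K (v.adicCompletion K) (x : K)) ≤ 1 := by
  rw [Hu_val]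
  exact v.valuation_le_one x

private theorem Hu_two (h2 : v.valuation K 2 < 1) : (2 : 𝓞 K) ∈ v.asIdeal := by
  rw [← v.valuation_lt_one_iff_mem (K := K) 2]
  have h1 : algebraMap (𝓞 K) K 2 = 2 := map_ofNat (algebraMap (𝓞 K) K) 2
  have h3 : v.valuation K (algebraMap (𝓞 K) K 2) < 1 := by
    rw [h1]
    exact h2
  exact h3

private theorem Hu_V2 (h2 : v.valuation K 2 < 1) :
    Valued.v (2 : v.adicCompletion K) < 1 := by
  have h1 := Hu_val (v := v) (2 : K)
  rw [map_ofNat] at h1
  rw [h1]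
  exact h2

private theorem Hu_V4 (h2 : v.valuation K 2 < 1) :
    Valued.v (4 : v.adicCompletion K) < 1 := by
  have h : (4 : v.adicCompletion K) = 2 * 2 := by norm_num
  rw [h, map_mul]
  exact mul_lt_one_of_lt_of_le (Hu_V2 h2) (Hu_V2 h2).le

private theorem Hu_ne2 : (2 : v.adicCompletion K) ≠ 0 := by
  have h1 : (algebraMap K (v.adicCompletion K)) 2 ≠ 0 := (map_ne_zero _).2 two_ne_zero
  rwa [map_ofNat] at h1

private theorem Hu_ne4 : (4 : v.adicCompletion K) ≠ 0 := by
  have h : (4 : v.adicCompletion K) = 2 * 2 := by norm_num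
  rw [h]
  exact mul_ne_zero Hu_ne2 Hu_ne2

/-- In a finite field of characteristic two the image of `t ^ 2 + t` has index two. -/
private theorem Hu_field {k : Type} [CommRing k] [IsDomain k] [Finite k] (h2 : (2 : k) = 0)
    (r : k) (hr : ∀ t : k, t ^ 2 + t ≠ r) (x : k) :
    ∃ t : k, t ^ 2 + t = x ∨ t ^ 2 + t = x + r := by
  obtain ⟨φ, hφ⟩ : ∃ φ : k →+ k, ∀ t, φ t = t ^ 2 + t :=
    ⟨{ toFun := fun t => t ^ 2 + t
       map_zero' := by ring
       map_add' := by
        intro a b
        have e : (a + b) ^ 2 + (a + b) = a ^ 2 + a + (b ^ 2 + b) + 2 * (a * b) := by ring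
        rw [e, h2]
        ring }, fun _ => rfl⟩
  have hker : Nat.card φ.ker = 2 := by
    rw [Nat.card_eq_two_iff]
    refine ⟨0, ⟨1, ?_⟩, ?_, ?_⟩
    · rw [AddMonoidHom.mem_ker, hφ]
      have e : (1 : k) ^ 2 + 1 = 2 := by ring
      rw [e, h2]
    · intro h
      have h1 := congrArg Subtype.val h
      exact zero_ne_one h1
    · rw [Set.eq_univ_iff_forall]
      rintro ⟨t, ht⟩
      rw [AddMonoidHom.mem_ker, hφ] at ht
      have e : t ^ 2 + t = t * (t + 1) := by ring
      rw [e, mul_eq_zero] at ht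
      rcases ht with ht | ht
      · left
        exact Subtype.ext ht
      · right
        refine Subtype.ext ?_
        change t = 1
        have e2 : t = (t + 1) + 1 - 2 := by ring
        rw [e2, ht, h2]
        ring
  have h3 := AddSubgroup.index_ker φ
  have h4 := AddSubgroup.card_mul_index φ.ker
  have h5 := AddSubgroup.card_mul_index φ.range
  have h6 : 0 < Nat.card φ.range := Nat.card_pos
  have hidx : φ.range.index = 2 := by
    rw [hker, h3] at h4
    rw [← h4, mul_comm 2] at h5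
    exact Nat.eq_of_mul_eq_mul_left h6 h5
  have hrn : r ∉ φ.range := by
    rintro ⟨t, ht⟩
    rw [hφ] at ht
    exact hr t ht
  by_cases hx : x ∈ φ.range
  · obtain ⟨t, ht⟩ := hx
    rw [hφ] at ht
    exact ⟨t, Or.inl ht⟩
  · have h7 : x + r ∈ φ.range := by
      rw [AddSubgroup.add_mem_iff_of_index_two hidx]
      exact ⟨fun h => absurd h hx, fun h => absurd h hrn⟩
    obtain ⟨t, ht⟩ := h7
    rw [hφ] at ht
    exact ⟨t, Or.inr ht⟩

/-- The lift to the completion. -/
private theorem Hu_as (h2 : v.valuation K 2 < 1) {ρ : v.adicCompletion K}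
    (hρ1 : Valued.v ρ ≤ 1)
    (hρ : ∀ t : v.adicCompletion K, Valued.v t ≤ 1 → Valued.v (t ^ 2 + t - ρ) = 1)
    {x : v.adicCompletion K} (hx : Valued.v x ≤ 1) :
    ∃ t : v.adicCompletion K, Valued.v t ≤ 1 ∧
      (Valued.v (t ^ 2 + t - x) < 1 ∨ Valued.v (t ^ 2 + t - (x + ρ)) < 1) := by
  have hfin : Finite (𝓞 K ⧸ v.asIdeal) := Ideal.finiteQuotientOfFreeOfNeBot _ v.ne_bot
  have hpr : v.asIdeal.IsPrime := v.isPrime
  have hdom : IsDomain (𝓞 K ⧸ v.asIdeal) := Ideal.Quotient.isDomain _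
  have h20 : (2 : 𝓞 K ⧸ v.asIdeal) = 0 := by
    have h1 := Ideal.Quotient.eq_zero_iff_mem.2 (Hu_two h2)
    rwa [map_ofNat] at h1
  obtain ⟨a, ha⟩ := Hu_app hx
  obtain ⟨r, hr⟩ := Hu_app hρ1
  have key : ∀ (t : 𝓞 K) (y : v.adicCompletion K) (b : 𝓞 K),
      Valued.v (y - algebraMap K (v.adicCompletion K) (b : K)) < 1 →
      Ideal.Quotient.mk v.asIdeal t ^ 2 + Ideal.Quotient.mk v.asIdeal t =
        Ideal.Quotient.mk v.asIdeal b →
      Valued.v ((algebraMap K (v.adicCompletion K) (t : K)) ^ 2 +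
        algebraMap K (v.adicCompletion K) (t : K) - y) < 1 := by
    intro t y b hy htb
    rw [← map_pow, ← map_add] at htb
    have h3 : t ^ 2 + t - b ∈ v.asIdeal := Ideal.Quotient.eq.1 htb
    have h4 := (Hu_lt (v := v) _).2 h3
    have e0 : ((t ^ 2 + t - b : 𝓞 K) : K) = (t : K) ^ 2 + (t : K) - (b : K) := by
      push_cast
      rfl
    rw [e0, map_sub, map_add, map_pow] at h4
    have e1 : (algebraMap K (v.adicCompletion K) (t : K)) ^ 2 +
        algebraMap K (v.adicCompletion K) (t : K) - y =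
        ((algebraMap K (v.adicCompletion K) (t : K)) ^ 2 +
        algebraMap K (v.adicCompletion K) (t : K) - algebraMap K (v.adicCompletion K) (b : K)) +
        -(y - algebraMap K (v.adicCompletion K) (b : K)) := by ring
    rw [e1]
    refine Valuation.map_add_lt _ h4 ?_
    rw [Valuation.map_neg]
    exact hy
  have hrn : ∀ t : 𝓞 K ⧸ v.asIdeal, t ^ 2 + t ≠ Ideal.Quotient.mk v.asIdeal r := by
    intro t ht
    obtain ⟨t, rfl⟩ := Ideal.Quotient.mk_surjective t
    have h3 := key t ρ r hr ht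
    rw [hρ _ (Hu_le t)] at h3
    exact lt_irrefl _ h3
  obtain ⟨t, ht⟩ := Hu_field h20 (Ideal.Quotient.mk v.asIdeal r) hrn (Ideal.Quotient.mk v.asIdeal a)
  obtain ⟨t, rfl⟩ := Ideal.Quotient.mk_surjective t
  refine ⟨algebraMap K (v.adicCompletion K) (t : K), Hu_le t, ?_⟩
  rcases ht with ht | ht
  · left
    exact key t x a ha ht
  · right
    rw [← map_add] at ht
    refine key t (x + ρ) (a + r) ?_ ht
    have e0 : ((a + r : 𝓞 K) : K) = (a : K) + (r : K) := by
      push_cast
      rfl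
    rw [e0, map_add]
    have e1 : x + ρ - (algebraMap K (v.adicCompletion K) (a : K) +
        algebraMap K (v.adicCompletion K) (r : K)) =
        (x - algebraMap K (v.adicCompletion K) (a : K)) +
        (ρ - algebraMap K (v.adicCompletion K) (r : K)) := by ring
    rw [e1]
    exact Valuation.map_add_lt _ ha hr

/-- Elements near the square of `1 + 2 t`. -/
private theorem Hu_near (h2 : v.valuation K 2 < 1) {t y z : v.adicCompletion K}
    (ht : Valued.v t ≤ 1) (hz : Valued.v z < 1)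
    (h : y - (1 + 2 * t) ^ 2 = 4 * z) : IsSquare y := by
  have hc : CharZero (v.adicCompletion K) := H36CY.char_zero v
  have h1 : Valued.v (1 + 2 * t) = 1 := by
    refine Valuation.map_one_add_of_lt _ ?_
    rw [map_mul]
    exact mul_lt_one_of_lt_of_le (Hu_V2 h2) ht
  obtain ⟨r, -, hr⟩ := H36CY.sq_near (y := y) (z := (1 + 2 * t) ^ 2) (by
    rw [h, map_mul, map_mul, map_pow, h1, one_pow, mul_one]
    have h4 : Valued.v (4 : v.adicCompletion K) ≠ 0 := (Valuation.ne_zero_iff _).2 Hu_ne4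
    calc Valued.v (4 : v.adicCompletion K) * Valued.v z
        < Valued.v (4 : v.adicCompletion K) * 1 :=
          mul_lt_mul_of_pos_left hz (zero_lt_iff.2 h4)
      _ = _ := mul_one _)
  refine ⟨(1 + 2 * t) * r, ?_⟩
  rw [hr]
  ring

private theorem Hu_exp {γ : WithZero (Multiplicative ℤ)} (hγ : γ ≠ 0) :
    ∃ n : ℤ, γ ^ 2 = exp (2 * n) := by
  refine ⟨log γ, ?_⟩
  rw [two_mul, exp_add, exp_log hγ, sq]

theorem exists_unr (h2 : v.valuation K 2 < 1) : ∃ g : v.adicCompletion K, Unr g := by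
  obtain ⟨ρ, h1, h3⟩ := H36CY.exists_rho h2
  exact ⟨1 + 4 * ρ, ρ, h1, h3, rfl⟩

theorem unr_one (h2 : v.valuation K 2 < 1) {g : v.adicCompletion K} (hg : Unr g) :
    Valued.v g = 1 := by
  obtain ⟨ρ, h1, h3, rfl⟩ := hg
  refine Valuation.map_one_add_of_lt _ ?_
  rw [map_mul]
  exact mul_lt_one_of_lt_of_le (Hu_V4 h2) h1

theorem unr_nsq (h2 : v.valuation K 2 < 1) {g : v.adicCompletion K} (hg : Unr g) :
    ¬ IsSquare g := by
  rintro ⟨r, hr⟩
  obtain ⟨ρ, h1, h3, rfl⟩ := hg
  obtain ⟨γ, hγ, h4⟩ := H36CY.rho_even h2 h1 h3 (A := r) (B := 1) (Or.inr one_ne_zero)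
  have e : r ^ 2 - (1 + 4 * ρ) * 1 ^ 2 = 0 := by
    rw [hr]
    ring
  rw [e, map_zero] at h4
  exact hγ (pow_eq_zero_iff two_ne_zero |>.1 h4.symm)

theorem unr_even (h2 : v.valuation K 2 < 1) (hF : HF (v.adicCompletion K))
    {g : v.adicCompletion K} (hg : Unr g) {z : v.adicCompletion K} (hz : z ≠ 0) :
    hs g z = 0 ↔ ∃ n : ℤ, Valued.v z = exp (2 * n) := by
  have hg0 : g ≠ 0 := by
    intro h
    have h1 := unr_one h2 hg
    rw [h, map_zero] at h1
    exact zero_ne_one h1
  have key : ∀ y : v.adicCompletion K, y ≠ 0 → hs g y = 0 →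
      ∃ n : ℤ, Valued.v y = exp (2 * n) := by
    intro y hy h
    rw [hs_eq_zero, sol_iff hF.two hg0 hy] at h
    obtain ⟨X, Y, hXY⟩ := h
    obtain ⟨ρ, h1, h3, rfl⟩ := hg
    have hne : X ≠ 0 ∨ Y ≠ 0 := by
      by_contra hcon
      push Not at hcon
      apply hy
      rw [hXY, hcon.1, hcon.2]
      ring
    obtain ⟨γ, hγ, h4⟩ := H36CY.rho_even h2 h1 h3 hne
    obtain ⟨n, hn⟩ := Hu_exp hγ
    exact ⟨n, by rw [hXY, h4, hn]⟩
  constructor
  · exact key z hz
  · rintro ⟨n, hn⟩
    by_contra hcon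
    have h1 : hs g z = 1 := by
      rcases (show hs g z = 0 ∨ hs g z = 1 by
        generalize hs g z = w
        revert w
        decide) with h | h
      · exact absurd h hcon
      · exact h
    obtain ⟨π, hπ⟩ := v.valuedAdicCompletion_surjective K (exp (-1 : ℤ))
    have hπ0 : π ≠ 0 := by
      rintro rfl
      rw [map_zero] at hπ
      exact exp_ne_zero hπ.symm
    have h3 : hs g π = 1 := by
      rcases (show hs g π = 0 ∨ hs g π = 1 by
        generalize hs g π = w
        revert w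
        decide) with h | h
      · obtain ⟨m, hm⟩ := key π hπ0 h
        rw [hπ, exp_inj] at hm
        omega
      · exact h
    have h4 : hs g (z * π) = 0 := by
      rw [hs_mul_right hF hz hπ0 hg0, h1, h3]
      decide
    obtain ⟨m, hm⟩ := key (z * π) (mul_ne_zero hz hπ0) h4
    rw [map_mul, hn, hπ, ← exp_add, exp_inj] at hm
    omega

theorem unr_cases (h2 : v.valuation K 2 < 1) {g : v.adicCompletion K} (hg : Unr g)
    {u : v.adicCompletion K} (hu : Valued.v u ≤ Valued.v (4 : v.adicCompletion K)) :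
    IsSquare (1 + u) ∨ IsSquare ((1 + u) * g) := by
  obtain ⟨ρ, h1, h3, rfl⟩ := hg
  have h4 : Valued.v (4 : v.adicCompletion K) ≠ 0 := (Valuation.ne_zero_iff _).2 Hu_ne4
  obtain ⟨w, rfl⟩ : ∃ w, u = 4 * w := ⟨u / 4, by rw [mul_div_cancel₀ _ Hu_ne4]⟩
  have hw : Valued.v w ≤ 1 := by
    rw [map_mul] at hu
    have h5 : Valued.v (4 : v.adicCompletion K) * Valued.v w ≤
        Valued.v (4 : v.adicCompletion K) * 1 := by rw [mul_one]; exact hu
    exact le_of_mul_le_mul_left h5 (zero_lt_iff.2 h4)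
  obtain ⟨t, ht, h5 | h5⟩ := Hu_as h2 h1 h3 hw
  · left
    refine Hu_near h2 ht (z := -(t ^ 2 + t - w)) (by rw [Valuation.map_neg]; exact h5) ?_
    ring
  · right
    refine Hu_near h2 ht (z := -(t ^ 2 + t - (w + ρ)) + 4 * (w * ρ)) ?_ ?_
    · refine Valuation.map_add_lt _ (by rw [Valuation.map_neg]; exact h5) ?_
      rw [map_mul, map_mul]
      exact mul_lt_one_of_lt_of_le (Hu_V4 h2) (mul_le_one' hw h1)
    · ring

end H36MX
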