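import Pool.Agent.H36.MX.Br
import Pool.Agent.H36.MX.Bc
import Pool.Agent.H36.MX.Hu
import Pool.Agent.H36.MX.He
import Pool.Agent.H36.MX.Hc
import Pool.Agent.H76.MX.Cx

/-!
The residue classes at the places of `Z` (project MP_78d38b_MX; no row, proved from the rows).
-/

set_option autoImplicit false
set_option linter.unusedSectionVars false
open scoped Classical

open WithZero NumberField IsDedekindDomain H38RT
open H38T1 (SC sc scu rep rep_ne sc_rep sc_mul sc_eq_zero sc_surj eo la si Pri OddP tp unif ka)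
open H76PP

namespace H36MX

variable {K : Type} [Field K] [NumberField K] {v : HeightOneSpectrum (𝓞 K)}

private theorem Bf_res (hv : OddP v) :
    ∃ (k : Type) (_ : Field k) (_ : Fintype k) (f : 𝓞 K →+* k), Function.Surjective f ∧
      ringChar k ≠ 2 ∧ ∀ x : 𝓞 K, f x = 0 ↔ v.valuation K (x : K) < 1 := by
  have hmax : v.asIdeal.IsMaximal := v.isMaximal
  have hfin : Finite (𝓞 K ⧸ v.asIdeal) := Ideal.finiteQuotientOfFreeOfNeBot v.asIdeal v.ne_bot
  refine ⟨𝓞 K ⧸ v.asIdeal, Ideal.Quotient.field v.asIdeal, Fintype.ofFinite _,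
    Ideal.Quotient.mk v.asIdeal, Ideal.Quotient.mk_surjective, ?_, ?_⟩
  · intro h
    have h1 : ((2 : ℕ) : 𝓞 K ⧸ v.asIdeal) = 0 := by
      have := ringChar.Nat.cast_ringChar (R := 𝓞 K ⧸ v.asIdeal)
      rwa [h] at this
    have h2 : Ideal.Quotient.mk v.asIdeal (2 : 𝓞 K) = 0 := by
      rw [map_ofNat]
      exact_mod_cast h1
    rw [Ideal.Quotient.eq_zero_iff_mem] at h2
    have h3 := (v.valuation_lt_one_iff_mem (K := K) _).2 h2
    have h4 : ((2 : 𝓞 K) : K) = 2 := map_ofNat (algebraMap (𝓞 K) K) 2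
    have h5 : v.valuation K 2 < 1 := lt_of_eq_of_lt (congrArg (v.valuation K) h4.symm) h3
    exact absurd hv h5.ne
  · intro x
    rw [Ideal.Quotient.eq_zero_iff_mem]
    exact (v.valuation_lt_one_iff_mem (K := K) x).symm

private theorem Bf_sqone {t : WithZero (Multiplicative ℤ)} (h : t * t = 1) : t = 1 := by
  have h' : t ^ 2 = 1 := by rw [sq, h]
  exact (pow_eq_one_iff.1 h').resolve_right two_ne_zero

/-- An integral unit which is not a square modulo `v`. -/
private theorem Bf_nonsq (hv : OddP v) :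
    ∃ b : 𝓞 K, v.valuation K (b : K) = 1 ∧ ¬ Sq (v.valuation K) (b : K) := by
  obtain ⟨k, _, _, f, hf, hchar, hz⟩ := Bf_res hv
  obtain ⟨β', hβ'⟩ := FiniteField.exists_nonsquare hchar
  obtain ⟨β, rfl⟩ := hf β'
  have hβ1 : v.valuation K (β : K) = 1 := by
    refine le_antisymm (v.valuation_le_one β) (not_lt.1 fun h => ?_)
    rw [← hz] at h
    exact hβ' (by rw [h]; exact IsSquare.zero)
  refine ⟨β, hβ1, ?_⟩
  rintro ⟨t, ht⟩
  have h1 : v.valuation K (t ^ 2) = 1 := by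
    have e : t ^ 2 = β - (β - t ^ 2) := by ring
    rw [e, Valuation.map_sub_eq_of_lt_left _ (by rw [hβ1]; exact ht), hβ1]
  have ht1 : v.valuation K t = 1 := by
    rw [map_pow, sq] at h1
    exact Bf_sqone h1
  obtain ⟨τ, hτ⟩ := Tf_approx v ht1.le
  apply hβ'
  refine ⟨f τ, ?_⟩
  have h2 : f (β - τ * τ) = 0 := by
    rw [hz]
    have e : ((β - τ * τ : 𝓞 K) : K) = (β - t ^ 2) + (t - τ) * (t + τ) := by
      push_cast
      ring
    rw [e]
    refine Valuation.map_add_lt _ ht ?_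
    rw [map_mul]
    exact (mul_le_of_le_one_right' ((Valuation.map_add _ _ _).trans
      (max_le ht1.le (v.valuation_le_one τ)))).trans_lt hτ
  rw [map_sub, map_mul, sub_eq_zero] at h2
  exact h2

/-- A unit with nontrivial Legendre class. -/
theorem exists_la (hv : OddP v) : ∃ n : 𝓞 K, n ∉ v.asIdeal ∧ eo v (sc (n : K)) = 0 ∧
    la v (sc (n : K)) = 1 := by
  obtain ⟨n, h1, h2⟩ := Bf_nonsq hv
  have hn0 : (n : K) ≠ 0 := by
    intro h
    rw [h, map_zero] at h1
    exact zero_ne_one h1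
  refine ⟨n, ?_, ?_, ?_⟩
  · intro h
    have h3 := (v.valuation_lt_one_iff_mem (K := K) n).2 h
    exact absurd h1 h3.ne
  · rw [H38T1.eo_sc hn0]
    have : ord (v.valuation K) (n : K) = 0 := by
      unfold ord
      rw [h1, log_one, neg_zero]
    rw [this, Int.cast_zero]
  · rw [H38T1.la_sc hv hn0, lam_unit h1, if_neg h2]

theorem rep_F (v : HeightOneSpectrum (𝓞 K)) {x : v.adicCompletion K} (hx : x ≠ 0) :
    ∃ y : K, y ≠ 0 ∧ ∃ r : v.adicCompletion K, r ≠ 0 ∧
      algebraMap K (v.adicCompletion K) y = x * r ^ 2 := by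
  have _ := H36CY.char_zero v
  obtain ⟨y, hy⟩ := H36CY.near_coe v x (c := 4 * x) (mul_ne_zero (by norm_num) hx)
  obtain ⟨r, hr, h⟩ := H36CY.sq_near hy
  refine ⟨y, ?_, r, hr, h⟩
  rintro rfl
  rw [map_zero] at h
  exact mul_ne_zero hx (pow_ne_zero 2 hr) h.symm

/-- Squares at odd places. -/
theorem sq_of_la (hv : OddP v) {x : K} (hx : x ≠ 0) (h1 : eo v (sc x) = 0)
    (h2 : la v (sc x) = 0) : IsSquare (algebraMap K (v.adicCompletion K) x) := by
  by_contra h
  have hx' : algebraMap K (v.adicCompletion K) x ≠ 0 := (map_ne_zero _).2 hx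
  obtain ⟨b, hb, hb1⟩ := (hf_odd hv).nd _ hx' h
  obtain ⟨b', hb', r, hr, hbr⟩ := rep_F v hb
  have h3 : hsv v x b' = 1 := by
    unfold hsv
    rw [hs_congr_right hr hbr]
    exact hb1
  rw [hs_odd hv hx hb'] at h3
  unfold tp at h3
  rw [h1, h2] at h3
  simp at h3

/-- The converse for units. -/
theorem nsq_of_la (hv : OddP v) {x : K} (hx : x ≠ 0)
    (h2 : la v (sc x) = 1) (h1 : eo v (sc x) = 0) : ¬ IsSquare (algebraMap K (v.adicCompletion K) x) := by
  intro h
  have hu0 : unif v ≠ 0 := by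
    intro h0
    have h4 := H38T1.unif_spec v
    rw [h0, map_zero] at h4
    exact exp_ne_zero h4.symm
  have h3 : hsv v x (unif v) = 0 := hs_of_sq ((map_ne_zero _).2 hx) h
  rw [hs_odd hv hx hu0] at h3
  unfold tp at h3
  have h5 : eo v (sc (unif v)) = 1 := by
    rw [H38T1.eo_sc hu0]
    have : ord (v.valuation K) (unif v) = 1 := by
      unfold ord
      rw [H38T1.unif_spec, log_exp, neg_neg]
    rw [this, Int.cast_one]
  rw [h1, h2, h5] at h3
  simp at h3

theorem sc_eq_of_sq {F : Type} [Field F] {x y : F} (hx : x ≠ 0) (hy : y ≠ 0)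
    (h : IsSquare (x * y)) : sc x = sc y := by
  have h1 := (sc_eq_zero (mul_ne_zero hx hy)).2 h
  rw [sc_mul hx hy] at h1
  have h2 := H38T1.SC.two_smul (sc y)
  rw [two_nsmul] at h2
  calc sc x = sc x + (sc y + sc y) := by rw [h2, add_zero]
    _ = (sc x + sc y) + sc y := by rw [add_assoc]
    _ = sc y := by rw [h1, zero_add]

theorem odd_of_six {u : HeightOneSpectrum (𝓞 K)} (h6 : (6 : 𝓞 K) ∉ u.asIdeal) :
    OddP u ∧ u.valuation K 6 = 1 ∧ u.valuation K 3 = 1 := by
  have e6 : (6 : 𝓞 K) = 2 * 3 := by norm_num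
  have h2 : (2 : 𝓞 K) ∉ u.asIdeal := fun h => h6 (by rw [e6]; exact Ideal.mul_mem_right _ _ h)
  have h3 : (3 : 𝓞 K) ∉ u.asIdeal := fun h => h6 (by rw [e6]; exact Ideal.mul_mem_left _ _ h)
  have c2 := (u.valuation_eq_one_iff_notMem (K := K) (r := (2 : 𝓞 K))).2 h2
  have c3 := (u.valuation_eq_one_iff_notMem (K := K) (r := (3 : 𝓞 K))).2 h3
  have c6 := (u.valuation_eq_one_iff_notMem (K := K) (r := (6 : 𝓞 K))).2 h6
  have d2 : algebraMap (𝓞 K) K 2 = 2 := map_ofNat _ 2
  have d3 : algebraMap (𝓞 K) K 3 = 3 := map_ofNat _ 3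
  have d6 : algebraMap (𝓞 K) K 6 = 6 := map_ofNat _ 6
  rw [d2] at c2
  rw [d3] at c3
  rw [d6] at c6
  exact ⟨c2, c6, c3⟩

/-- membership in a power of a prime and the valuation -/
theorem mem_pow_iff (u : HeightOneSpectrum (𝓞 K)) (x : 𝓞 K) (n : ℕ) :
    x ∈ u.asIdeal ^ n ↔ u.valuation K (x : K) ≤ exp (-(n : ℤ)) := by
  rw [← u.intValuation_le_pow_iff_mem, u.valuation_of_algebraMap]

end H36MX
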