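import Pool.Agent.H36.MX.Cd
import Pool.Agent.H30.ZO.Ms

/-!
ROW MXCe (project MP_78d38b_MX, counting block, about 250 lines): the counting theorem. Use only the STATEMENTS of the imported rows.

PROOF. As in `H30ZO.main_inS3` (H30/ZO/Ms.lean; copy the beginning). `q₀ ∈ Z`, `hinf : (Z \ {q₀}).Infinite`, `famS_lower_in K hSv q₀ _ hm0 _ hmS hm`: `c₃ > 0`. All `v ∈ Z` are not in `S` (`m ≤ v^e ≤ v` for `v ∈ S`).
`δ l = c₃ / 2^(l+2)`. Construct sequences `T b N M` by recursion: state `(U, Nmax)`, `U = ⋃_{i<l} T i ⊆ Z \ {q₀}`; `stage K S he U _ (δ l)` gives `b l, N l, M l`; choose `T l ⊆ Z \ {q₀}` with `(T l).card = M l`, disjoint from `U`, and `Nv v ≥ max (Nmax, N l)` and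
`Nv v ≥ 16 * 2^l * M l` for `v ∈ T l` (`exists_T` applied to the infinite set `(Z \ {q₀}) \ U`: see how it is used in H36/MT/As2.lean `exists_T hinf' (max N₀ 9) (3 * N)`). Next state: `U ∪ T l`, `max Nmax (N l)`. (For instance: the type of states is a subtype
`{U // ∀ v ∈ U, v ∈ Z ∧ v ≠ q₀}` times `ℕ`, with a function `step` obtained by `choose`; `T l`, `b l` are functions of the `l`-th state.) So: `N i ≤ Nv v` for `v ∈ T l`, `i ≤ l`; `∑_{v ∈ T l} 1/Nv ≤ M l / (16 * 2^l * M l) = 1 / (16 * 2^l)`; the sum over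
`⋃_{l<k} T l` is at most `1/8`.
`k`: `b 0 * 2^m0 ≤ 2^k` (`Nat.lt_two_pow_self`: `k = b 0 * 2^m0`). `Tall = ⋃_{l<k} T l = ⋃_{i<l} T i ∪ (T l ∪ ⋃_{l<i<k} T i)` for `l < k`. Apply the property of `stage` for `l < k` with `T₁ = T l`, `T₂ = ⋃_{l<i<k} T i`: `X₀ l`. `famS_lower_in` for `Tall`: `X₁`. For `X ≥` the maximum
(a finite sum of absolute values plus `|X₁|`): the family `G₀ = {p ∈ Bx | FamS S e q₀ Tall, p.1 - A₀ ∈ m, p.2 - B₀ ∈ m, positive}` has at least `c₃ P X^n` elements, `P = ∏_{Tall} ρ`; the pairs of `G₀` for which some `GoodSt` fails are at most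
`∑_{l<k} δ l P X^n ≤ (c₃/2) P X^n` (`Set.ncard_le_ncard` into the finite union `⋃_{l<k}`; `Finset.card_biUnion_le`-type bound). So `c = c₃ P / 2`.
-/

set_option autoImplicit false
set_option linter.unusedSectionVars false
open scoped Classical

open WithZero NumberField IsDedekindDomain H38RT
open H38T1 (SC sc scu rep eo la si Pri OddP tp unif)
open H76PP H36MT H76MQ

namespace H36MX

private theorem Ce_seq {V : Type} (Z' : Set V) (nv : V → ℕ)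
    (hT : ∀ (U : Finset V) (N k : ℕ), ∃ T : Finset V,
      (∀ v ∈ T, v ∈ Z' ∧ v ∉ U ∧ N ≤ nv v) ∧ T.card = k)
    (Nf Mf : Finset V → ℕ → ℕ) :
    ∃ T : ℕ → Finset V, (∀ l, ∀ v ∈ T l, v ∈ Z') ∧ (∀ i j, i ≠ j → Disjoint (T i) (T j)) ∧
      (∀ l, (T l).card = Mf ((Finset.range l).biUnion T) l) ∧
      (∀ i l, i ≤ l → ∀ v ∈ T l, Nf ((Finset.range i).biUnion T) i ≤ nv v) ∧
      ∀ l, ∀ v ∈ T l, 16 * 2 ^ l * Mf ((Finset.range l).biUnion T) l ≤ nv v := by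
  choose T hT hTc using hT
  obtain ⟨F, hF⟩ : ∃ F : ℕ → Finset V → ℕ → Finset V, ∀ l U n,
      F l U n = T U (max n (max (Nf U l) (16 * 2 ^ l * Mf U l))) (Mf U l) := ⟨_, fun _ _ _ => rfl⟩
  obtain ⟨st, h0, hs⟩ : ∃ st : ℕ → Finset V × ℕ, st 0 = (∅, 0) ∧ ∀ l, st (l + 1) =
      ((st l).1 ∪ F l (st l).1 (st l).2, max (st l).2 (Nf (st l).1 l)) :=
    ⟨fun l => Nat.rec (∅, 0) (fun l s => (s.1 ∪ F l s.1 s.2, max s.2 (Nf s.1 l))) l, rfl,
      fun l => rfl⟩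
  obtain ⟨Tl, hTl⟩ : ∃ Tl : ℕ → Finset V, ∀ l, Tl l = F l (st l).1 (st l).2 := ⟨_, fun _ => rfl⟩
  have h1 : ∀ l, (st l).1 = (Finset.range l).biUnion Tl := by
    intro l
    induction l with
    | zero => rw [h0, Finset.range_zero, Finset.biUnion_empty]
    | succ l ih =>
      rw [hs, Finset.range_add_one, Finset.biUnion_insert, ← ih, ← hTl, Finset.union_comm]
  have h2 : ∀ l, ∀ v ∈ Tl l, v ∈ Z' ∧ v ∉ (Finset.range l).biUnion Tl ∧ (st l).2 ≤ nv v ∧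
      Nf ((Finset.range l).biUnion Tl) l ≤ nv v ∧
      16 * 2 ^ l * Mf ((Finset.range l).biUnion Tl) l ≤ nv v := by
    intro l v hv
    rw [hTl, hF] at hv
    obtain ⟨a, b, c⟩ := hT _ _ _ v hv
    rw [← h1]
    exact ⟨a, b, (le_max_left _ _).trans c, ((le_max_left _ _).trans (le_max_right _ _)).trans c,
      ((le_max_right _ _).trans (le_max_right _ _)).trans c⟩
  have h3 : ∀ i l, i < l → Nf ((Finset.range i).biUnion Tl) i ≤ (st l).2 := by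
    intro i l
    induction l with
    | zero => intro h; exact absurd h (Nat.not_lt_zero _)
    | succ l ih =>
      intro h
      rw [hs]
      rcases Nat.lt_succ_iff_lt_or_eq.1 h with h | h
      · exact (ih h).trans (le_max_left _ _)
      · rw [h, ← h1]
        exact le_max_right _ _
  have h4 : ∀ i j, i < j → Disjoint (Tl i) (Tl j) := by
    intro i j hij
    rw [Finset.disjoint_left]
    intro v hv hv'
    exact (h2 j v hv').2.1 (Finset.mem_biUnion.2 ⟨i, Finset.mem_range.2 hij, hv⟩)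
  refine ⟨Tl, fun l v hv => (h2 l v hv).1, fun i j hij => ?_, fun l => ?_, fun i l hil v hv => ?_,
    fun l v hv => (h2 l v hv).2.2.2.2⟩
  · rcases lt_or_gt_of_ne hij with h | h
    · exact h4 i j h
    · exact (h4 j i h).symm
  · rw [hTl, hF, hTc, h1]
  · rcases hil.lt_or_eq with h | h
    · exact (h3 i l h).trans (h2 l v hv).2.2.1
    · rw [h]
      exact (h2 l v hv).2.2.2.1

private theorem Ce_geo (k : ℕ) :
    ∑ i ∈ Finset.range k, (1 : ℝ) / (16 * 2 ^ i) = 1 / 8 - 1 / (8 * 2 ^ k) := by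
  induction k with
  | zero => norm_num
  | succ k ih =>
    rw [Finset.sum_range_succ, ih, pow_succ]
    have h : (2 : ℝ) ^ k ≠ 0 := by positivity
    field_simp
    ring

private theorem Ce_geo2 (c : ℝ) (k : ℕ) :
    ∑ i ∈ Finset.range k, c / 2 ^ (i + 2) = c / 2 - c / (2 * 2 ^ k) := by
  induction k with
  | zero => norm_num
  | succ k ih =>
    rw [Finset.sum_range_succ, ih, pow_add, pow_succ]
    have h : (2 : ℝ) ^ k ≠ 0 := by positivity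
    field_simp
    ring

private theorem Ce_card {α : Type} (s : ℕ → Set α) (k : ℕ) :
    {p | ∃ l < k, p ∈ s l}.ncard ≤ ∑ l ∈ Finset.range k, (s l).ncard := by
  induction k with
  | zero =>
    have h : {p | ∃ l < 0, p ∈ s l} = (∅ : Set α) := by
      ext p
      constructor
      · rintro ⟨l, hl, -⟩
        exact absurd hl (Nat.not_lt_zero _)
      · intro h
        exact absurd h (Set.notMem_empty p)
    rw [h, Set.ncard_empty]
    exact Nat.zero_le _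
  | succ k ih =>
    have h : {p | ∃ l < k + 1, p ∈ s l} = {p | ∃ l < k, p ∈ s l} ∪ s k := by
      ext p
      constructor
      · rintro ⟨l, hl, h⟩
        rcases Nat.lt_succ_iff_lt_or_eq.1 hl with hl | hl
        · exact Or.inl ⟨l, hl, h⟩
        · rw [hl] at h
          exact Or.inr h
      · rintro (⟨l, hl, h⟩ | h)
        · exact ⟨l, Nat.lt_succ_of_lt hl, h⟩
        · exact ⟨k, Nat.lt_succ_self k, h⟩
    rw [h, Finset.sum_range_succ]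
    exact (Set.ncard_union_le _ _).trans (Nat.add_le_add_right ih _)

private theorem Ce_sum {K : Type} [Field K] [NumberField K]
    (T : ℕ → Finset (HeightOneSpectrum (𝓞 K))) (M : ℕ → ℕ) (hM : ∀ l, 1 ≤ M l)
    (hc : ∀ l, (T l).card = M l) (hd : ∀ i j, i ≠ j → Disjoint (T i) (T j))
    (h : ∀ l, ∀ v ∈ T l, 16 * 2 ^ l * M l ≤ Nv v) (k : ℕ) :
    ∑ v ∈ (Finset.range k).biUnion T, 1 / (Nv v : ℝ) ≤ 1 / 8 := by
  have h1 : ∀ l, ∑ v ∈ T l, 1 / (Nv v : ℝ) ≤ 1 / (16 * 2 ^ l) := by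
    intro l
    have hM' : (0 : ℝ) < (M l : ℝ) := by exact_mod_cast hM l
    have h2 : ∀ v ∈ T l, 1 / (Nv v : ℝ) ≤ 1 / (16 * 2 ^ l * (M l : ℝ)) := by
      intro v hv
      refine one_div_le_one_div_of_le (by positivity) ?_
      exact_mod_cast h l v hv
    refine (Finset.sum_le_card_nsmul _ _ _ h2).trans ?_
    rw [hc, nsmul_eq_mul]
    have h3 : (2 : ℝ) ^ l ≠ 0 := by positivity
    refine le_of_eq ?_
    field_simp
  rw [Finset.sum_biUnion (fun i _ j _ hij => hd i j hij)]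
  refine (Finset.sum_le_sum fun i _ => h1 i).trans ?_
  rw [Ce_geo]
  have : (0 : ℝ) ≤ 1 / (8 * 2 ^ k) := by positivity
  linarith

theorem count_main (K : Type) [Field K] [NumberField K] {S : Finset (HeightOneSpectrum (𝓞 K))}
    (hSv : ∀ v : HeightOneSpectrum (𝓞 K), (2 : 𝓞 K) ∈ v.asIdeal → v ∈ S) {e : ℕ} (he : 2 ≤ e)
    {Z : Set (HeightOneSpectrum (𝓞 K))} (hZ : Z.Infinite)
    {m : Ideal (𝓞 K)} (hm0 : m ≠ ⊥) (hmZ : ∀ v ∈ Z, ¬ m ≤ v.asIdeal ∧ (6 : 𝓞 K) ∉ v.asIdeal)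
    {A₀ B₀ : 𝓞 K} (hmS : ∀ v ∈ S, m ≤ v.asIdeal ^ e ∧ dsc A₀ B₀ ∉ v.asIdeal ^ e)
    (hm : ∀ v : HeightOneSpectrum (𝓞 K), v ∉ S → m ≤ v.asIdeal → dsc A₀ B₀ ∉ v.asIdeal)
    (m₀ : ℕ) :
    ∃ (q₀ : HeightOneSpectrum (𝓞 K)) (T : ℕ → Finset (HeightOneSpectrum (𝓞 K))) (b : ℕ → ℕ) (k : ℕ)
      (c X₀ : ℝ), q₀ ∈ Z ∧ (∀ l, ∀ v ∈ T l, v ∈ Z ∧ v ≠ q₀) ∧
      (∀ i j, i ≠ j → Disjoint (T i) (T j)) ∧ 0 < k ∧ b 0 * 2 ^ m₀ ≤ 2 ^ k ∧
      0 < c ∧
      ∀ X : ℝ, X₀ ≤ X → c * X ^ (5 * Module.finrank ℚ K) ≤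
        ({p : 𝓞 K × 𝓞 K | p ∈ Bx K X ∧ FamS S e q₀ ((Finset.range k).biUnion T) p.1 p.2 ∧
          (p.1 - A₀ ∈ m ∧ p.2 - B₀ ∈ m ∧ ∀ s : K →+* ℝ, 0 < s (p.1 : K)) ∧
          ∀ l < k, GoodSt (S ∪ (Finset.range l).biUnion T) (T l) (b l) p.1 p.2}.ncard : ℝ) := by
  obtain ⟨q₀, hq₀⟩ := hZ.nonempty
  have h6 := (hmZ q₀ hq₀).2
  have hinf : (Z \ {q₀}).Infinite := hZ.sdiff (Set.finite_singleton q₀)
  obtain ⟨c₃, hc₃, hfam⟩ := H30ZO.famS_lower_in K hSv (e := e) q₀ h6 hm0 (hmZ q₀ hq₀).1 hmS hm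
  have hZS : ∀ v ∈ Z, v ∉ S := by
    intro v hv hvS
    exact (hmZ v hv).1 ((hmS v hvS).1.trans (Ideal.pow_le_self (by omega)))
  have hst : ∀ (U : Finset (HeightOneSpectrum (𝓞 K))) (l : ℕ), ∃ b N₀ M : ℕ, 1 ≤ b ∧ 1 ≤ M ∧
      ((∀ v ∈ U, v ∉ S) → ∀ T₁ T₂ : Finset (HeightOneSpectrum (𝓞 K)),
      Disjoint T₁ T₂ → (∀ v ∈ T₁ ∪ T₂, N₀ ≤ Nv v ∧ (6 : 𝓞 K) ∉ v.asIdeal ∧ v ∉ S ∧ v ∉ U) →
      M ≤ T₁.card → ∑ v ∈ T₁ ∪ T₂, 1 / (Nv v : ℝ) ≤ 1 / 8 → ∃ X₀ : ℝ, ∀ X : ℝ, X₀ ≤ X →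
      ∀ q₀ : HeightOneSpectrum (𝓞 K),
        ({p : 𝓞 K × 𝓞 K | p ∈ Bx K X ∧ FamS S e q₀ (U ∪ (T₁ ∪ T₂)) p.1 p.2 ∧
          ¬ GoodSt (S ∪ U) T₁ b p.1 p.2}.ncard : ℝ) ≤
          c₃ / 2 ^ (l + 2) * (∏ v ∈ U ∪ (T₁ ∪ T₂), (1 / 2 * (1 - 1 / (Nv v : ℝ)))) *
            X ^ (5 * Module.finrank ℚ K)) := by
    intro U l
    by_cases hU : ∀ v ∈ U, v ∉ S
    · obtain ⟨b, N₀, M, h1, h2, h3⟩ := stage K S he U hU (δ := c₃ / 2 ^ (l + 2)) (by positivity)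
      exact ⟨b, N₀, M, h1, h2, fun _ => h3⟩
    · exact ⟨1, 0, 1, le_rfl, le_rfl, fun h => absurd h hU⟩
  choose bf Nf Mf hb1 hM1 hprop using hst
  obtain ⟨T, hTZ, hTd, hTc, hTN, hTM⟩ := Ce_seq (Z \ {q₀}) (Nv (K := K)) (fun U N k => by
    have h1 : ((Z \ {q₀}) \ (U : Set (HeightOneSpectrum (𝓞 K)))).Infinite :=
      hinf.sdiff U.finite_toSet
    obtain ⟨T, hT, hTk⟩ := exists_T h1 N k
    exact ⟨T, fun v hv => ⟨(hT v hv).1.1, fun h => (hT v hv).1.2 h, (hT v hv).2⟩, hTk⟩) Nf Mf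
  obtain ⟨b, hb⟩ : ∃ b : ℕ → ℕ, ∀ l, b l = bf ((Finset.range l).biUnion T) l := ⟨_, fun _ => rfl⟩
  obtain ⟨k, hk⟩ : ∃ k, k = b 0 * 2 ^ m₀ := ⟨_, rfl⟩
  have hTZ' : ∀ l, ∀ v ∈ T l, v ∈ Z ∧ v ≠ q₀ := fun l v hv => ⟨(hTZ l v hv).1, (hTZ l v hv).2⟩
  have hall : ∀ (I : Finset ℕ), ∀ v ∈ I.biUnion T, v ∈ Z ∧ v ≠ q₀ := by
    intro I v hv
    obtain ⟨l, -, hl⟩ := Finset.mem_biUnion.1 hv
    exact hTZ' l v hl
  -- the stages
  have hsum := Ce_sum T (fun l => Mf ((Finset.range l).biUnion T) l) (fun l => hM1 _ _) hTc hTd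
    hTM k
  have hsplit : ∀ l < k, (Finset.range k).biUnion T =
      (Finset.range l).biUnion T ∪ (T l ∪ (Finset.Ioo l k).biUnion T) := by
    intro l hl
    ext v
    simp only [Finset.mem_biUnion, Finset.mem_union, Finset.mem_range, Finset.mem_Ioo]
    constructor
    · rintro ⟨i, hi, hv⟩
      rcases lt_trichotomy i l with h | h | h
      · exact Or.inl ⟨i, h, hv⟩
      · rw [h] at hv
        exact Or.inr (Or.inl hv)
      · exact Or.inr (Or.inr ⟨i, ⟨h, hi⟩, hv⟩)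
    · rintro (⟨i, hi, hv⟩ | hv | ⟨i, ⟨-, hi⟩, hv⟩)
      · exact ⟨i, hi.trans hl, hv⟩
      · exact ⟨l, hl, hv⟩
      · exact ⟨i, hi, hv⟩
  have hstage : ∀ l, ∃ X₀ : ℝ, l < k → ∀ X : ℝ, X₀ ≤ X →
      ({p : 𝓞 K × 𝓞 K | p ∈ Bx K X ∧ FamS S e q₀ ((Finset.range k).biUnion T) p.1 p.2 ∧
        ¬ GoodSt (S ∪ (Finset.range l).biUnion T) (T l) (b l) p.1 p.2}.ncard : ℝ) ≤
        c₃ / 2 ^ (l + 2) * (∏ v ∈ (Finset.range k).biUnion T, (1 / 2 * (1 - 1 / (Nv v : ℝ)))) *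
          X ^ (5 * Module.finrank ℚ K) := by
    intro l
    by_cases hl : l < k
    · have h1 : Disjoint (T l) ((Finset.Ioo l k).biUnion T) := by
        rw [Finset.disjoint_biUnion_right]
        intro i hi
        exact hTd l i (Finset.mem_Ioo.1 hi).1.ne
      have h2 : ∀ v ∈ T l ∪ (Finset.Ioo l k).biUnion T,
          Nf ((Finset.range l).biUnion T) l ≤ Nv v ∧ (6 : 𝓞 K) ∉ v.asIdeal ∧ v ∉ S ∧
            v ∉ (Finset.range l).biUnion T := by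
        intro v hv
        obtain ⟨i, hi, hv⟩ : ∃ i, l ≤ i ∧ v ∈ T i := by
          rcases Finset.mem_union.1 hv with hv | hv
          · exact ⟨l, le_rfl, hv⟩
          · obtain ⟨i, hi, hv⟩ := Finset.mem_biUnion.1 hv
            exact ⟨i, (Finset.mem_Ioo.1 hi).1.le, hv⟩
        refine ⟨hTN l i hi v hv, (hmZ v (hTZ' i v hv).1).2, hZS v (hTZ' i v hv).1, fun h => ?_⟩
        obtain ⟨j, hj, hvj⟩ := Finset.mem_biUnion.1 h
        have hji : j ≠ i := ((Finset.mem_range.1 hj).trans_le hi).ne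
        exact Finset.disjoint_left.1 (hTd j i hji) hvj hv
      have h3 : ∑ v ∈ T l ∪ (Finset.Ioo l k).biUnion T, 1 / (Nv v : ℝ) ≤ 1 / 8 := by
        refine (Finset.sum_le_sum_of_subset_of_nonneg ?_ fun v _ _ => by positivity).trans hsum
        rw [hsplit l hl]
        exact Finset.subset_union_right
      obtain ⟨X₀, h4⟩ := hprop ((Finset.range l).biUnion T) l
        (fun v hv => hZS v (hall _ v hv).1) (T l) _ h1 h2 (hTc l).ge h3
      refine ⟨X₀, fun _ X hX => ?_⟩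
      rw [hsplit l hl, hb]
      exact h4 X hX q₀
    · exact ⟨0, fun h => absurd h hl⟩
  choose Xs hXs using hstage
  obtain ⟨X₁, h1⟩ := hfam ((Finset.range k).biUnion T) (fun v hv => ⟨(hall _ v hv).2,
    (hmZ v (hall _ v hv).1).2, (hmZ v (hall _ v hv).1).1⟩)
  obtain ⟨P, hP⟩ : ∃ P : ℝ,
      P = ∏ v ∈ (Finset.range k).biUnion T, (1 / 2 * (1 - 1 / (Nv v : ℝ))) := ⟨_, rfl⟩
  have hPpos : 0 < P := by
    rw [hP]
    refine Finset.prod_pos fun v hv => ?_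
    have h2 : (1 : ℝ) < (Nv v : ℝ) := by
      have h3 : 1 < Nv v := by
        have h4 := H36PP.five_le K (hmZ v (hall _ v hv).1).2
        omega
      exact_mod_cast h3
    have h3 : 1 / (Nv v : ℝ) < 1 := by
      rw [div_lt_one (by linarith)]
      exact h2
    linarith
  rw [← hP] at h1
  obtain ⟨X₂, hX₂⟩ : ∃ X₂ : ℝ, X₂ = ∑ l ∈ Finset.range k, |Xs l| := ⟨_, rfl⟩
  have hX₂' : ∀ l < k, Xs l ≤ X₂ := by
    intro l hl
    rw [hX₂]
    exact (le_abs_self _).trans (Finset.single_le_sum (f := fun l => |Xs l|)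
      (fun _ _ => abs_nonneg _) (Finset.mem_range.2 hl))
  refine ⟨q₀, T, b, k, c₃ * P / 2, max (max X₁ X₂) 0, hq₀, hTZ', hTd, ?_, ?_, by positivity, ?_⟩
  · rw [hk, hb]
    exact Nat.mul_pos (hb1 _ _) (by positivity)
  · rw [hk]
    exact Nat.lt_two_pow_self.le
  intro X hX
  have hX1 : X₁ ≤ X := (le_max_left _ _).trans ((le_max_left _ _).trans hX)
  have hX2 : X₂ ≤ X := (le_max_right _ _).trans ((le_max_left _ _).trans hX)
  have hX0 : 0 ≤ X := (le_max_right _ _).trans hX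
  have hXp : 0 ≤ X ^ (5 * Module.finrank ℚ K) := by positivity
  have e1 := h1 X hX1
  have hfin : ∀ R : 𝓞 K × 𝓞 K → Prop, {p : 𝓞 K × 𝓞 K | p ∈ Bx K X ∧ R p}.Finite := fun R =>
    (H36PP.Bx_finite K X).subset fun p hp => hp.1
  obtain ⟨s, hs⟩ : ∃ s : ℕ → Set (𝓞 K × 𝓞 K), ∀ l, s l = {p : 𝓞 K × 𝓞 K | p ∈ Bx K X ∧
      FamS S e q₀ ((Finset.range k).biUnion T) p.1 p.2 ∧
      ¬ GoodSt (S ∪ (Finset.range l).biUnion T) (T l) (b l) p.1 p.2} := ⟨_, fun _ => rfl⟩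
  have e2 : ((∑ l ∈ Finset.range k, (s l).ncard : ℕ) : ℝ) ≤
      c₃ / 2 * P * X ^ (5 * Module.finrank ℚ K) := by
    rw [Nat.cast_sum]
    calc ∑ l ∈ Finset.range k, ((s l).ncard : ℝ) ≤
          ∑ l ∈ Finset.range k, c₃ / 2 ^ (l + 2) * P * X ^ (5 * Module.finrank ℚ K) := by
          refine Finset.sum_le_sum fun l hl => ?_
          rw [hs, hP]
          exact hXs l (Finset.mem_range.1 hl) X ((hX₂' l (Finset.mem_range.1 hl)).trans hX2)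
      _ = (∑ l ∈ Finset.range k, c₃ / 2 ^ (l + 2)) * P * X ^ (5 * Module.finrank ℚ K) := by
          rw [Finset.sum_mul, Finset.sum_mul]
      _ ≤ _ := by
          refine mul_le_mul_of_nonneg_right (mul_le_mul_of_nonneg_right ?_ hPpos.le) hXp
          rw [Ce_geo2]
          have : 0 ≤ c₃ / (2 * 2 ^ k) := by positivity
          linarith
  have e3 : {p : 𝓞 K × 𝓞 K | ∃ l < k, p ∈ s l}.ncard ≤ ∑ l ∈ Finset.range k, (s l).ncard :=
    Ce_card s k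
  have e4 : ({p : 𝓞 K × 𝓞 K | p ∈ Bx K X ∧ FamS S e q₀ ((Finset.range k).biUnion T) p.1 p.2 ∧
        p.1 - A₀ ∈ m ∧ p.2 - B₀ ∈ m ∧ ∀ s : K →+* ℝ, 0 < s (p.1 : K)}.ncard) ≤
      {p : 𝓞 K × 𝓞 K | ∃ l < k, p ∈ s l}.ncard +
      {p : 𝓞 K × 𝓞 K | p ∈ Bx K X ∧ FamS S e q₀ ((Finset.range k).biUnion T) p.1 p.2 ∧
        (p.1 - A₀ ∈ m ∧ p.2 - B₀ ∈ m ∧ ∀ s : K →+* ℝ, 0 < s (p.1 : K)) ∧
        ∀ l < k, GoodSt (S ∪ (Finset.range l).biUnion T) (T l) (b l) p.1 p.2}.ncard := by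
    have hfs : {p : 𝓞 K × 𝓞 K | ∃ l < k, p ∈ s l}.Finite := by
      refine (H36PP.Bx_finite K X).subset ?_
      rintro p ⟨l, -, hp⟩
      rw [hs] at hp
      exact hp.1
    refine (Set.ncard_le_ncard ?_ (hfs.union (hfin _))).trans (Set.ncard_union_le _ _)
    rintro p ⟨h10, h11, h13⟩
    by_cases h12 : ∀ l < k, GoodSt (S ∪ (Finset.range l).biUnion T) (T l) (b l) p.1 p.2
    · exact Or.inr ⟨h10, h11, h13, h12⟩
    · push Not at h12
      obtain ⟨l, hl, h12⟩ := h12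
      refine Or.inl ⟨l, hl, ?_⟩
      rw [hs]
      exact ⟨h10, h11, h12⟩
  have e5 := (Nat.cast_le (α := ℝ)).2 (e4.trans (Nat.add_le_add_right e3 _))
  rw [Nat.cast_add] at e5
  have e6 : c₃ * P * X ^ (5 * Module.finrank ℚ K) =
      c₃ * P / 2 * X ^ (5 * Module.finrank ℚ K) + c₃ / 2 * P * X ^ (5 * Module.finrank ℚ K) := by
    ring
  linarith

end H36MX
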