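import Pool.Agent.H36.MX.Ha

/-!
ROW MXHh (project MP_78d38b_MX, about 100 lines): the Hilbert symbol on square classes. Use the STATEMENTS of Ha (hs_comm, hs_sq, hs_of_sq, hs_neg).

PROOF. For `a ≠ 0`: `rep (sc a)` and `a` have the same class (`sc_rep`), so `rep (sc a) = a * r^2` with `r ≠ 0` (`sc_mul`, `sc_eq_zero`: `a * rep (sc a)` is a square); so `hsc (sc a) (sc b) = hs a b` by hs_sq (twice, with hs_comm). All the other statements: write classes as `sc a` (`sc_surj`) and use `HF.mul`, `sc_mul`, hs_of_sq (`hsc 0 z = 0`: `sc 1 = 0`), HF.nd.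
hs_mul_right, hs_sq', hs_isSq: variants for elements. hsB: the bilinear map, `LinearMap.mk₂` (scalars in `ZMod 2`: `0` and `1`; e.g. `AddMonoidHom.toZModLinearMap`, or `LinearMap.mk₂ (ZMod 2)` with the smul laws by `fin_cases` on the scalar).
-/

set_option autoImplicit false
set_option linter.unusedSectionVars false
open scoped Classical

open WithZero NumberField IsDedekindDomain H38RT
open H38T1 (SC sc scu rep rep_ne sc_rep sc_mul sc_eq_zero sc_surj eo la si Pri OddP tp unif ka)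
open H76PP

namespace H36MX

variable {F : Type} [Field F]

private lemma Hh_rep {a : F} (ha : a ≠ 0) : ∃ r : F, r ≠ 0 ∧ rep (sc a) = a * r ^ 2 := by
  have h1 : sc (a * rep (sc a)) = 0 := by
    rw [sc_mul ha (rep_ne _), sc_rep, ← two_nsmul, H38T1.SC.two_smul]
  rw [sc_eq_zero (mul_ne_zero ha (rep_ne _))] at h1
  obtain ⟨s, hs⟩ := h1
  have hs0 : s ≠ 0 := by
    rintro rfl
    rw [mul_zero] at hs
    exact (mul_ne_zero ha (rep_ne _)) hs
  refine ⟨s / a, div_ne_zero hs0 ha, ?_⟩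
  have h2 : a * rep (sc a) = a * (a * (s / a) ^ 2) := by
    rw [hs]
    field_simp
  exact mul_left_cancel₀ ha h2

theorem hsc_sc {a b : F} (ha : a ≠ 0) (hb : b ≠ 0) : hsc (sc a) (sc b) = hs a b := by
  obtain ⟨r, hr, h1⟩ := Hh_rep ha
  obtain ⟨t, ht, h2⟩ := Hh_rep hb
  unfold hsc
  rw [h1, h2, hs_sq hr, hs_comm, hs_sq ht, hs_comm]

theorem hsc_comm (x y : SC F) : hsc x y = hsc y x := hs_comm _ _

theorem hsc_zero_left (x : SC F) : hsc 0 x = 0 := by
  have h1 : IsSquare (rep (0 : SC F)) := (sc_eq_zero (rep_ne _)).1 (sc_rep 0)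
  exact hs_of_sq (rep_ne _) h1

theorem hsc_add_left (h : HF F) (x y z : SC F) : hsc (x + y) z = hsc x z + hsc y z := by
  obtain ⟨a, ha, rfl⟩ := sc_surj x
  obtain ⟨b, hb, rfl⟩ := sc_surj y
  obtain ⟨c, hc, rfl⟩ := sc_surj z
  rw [← sc_mul ha hb, hsc_sc (mul_ne_zero ha hb) hc, hsc_sc ha hc, hsc_sc hb hc,
    h.mul a b c ha hb hc]

theorem hsc_add_right (h : HF F) (x y z : SC F) : hsc x (y + z) = hsc x y + hsc x z := by
  rw [hsc_comm, hsc_add_left h, hsc_comm y, hsc_comm z]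

theorem hsc_nd (h : HF F) {x : SC F} (hx : x ≠ 0) : ∃ y : SC F, hsc x y = 1 := by
  obtain ⟨a, ha, rfl⟩ := sc_surj x
  obtain ⟨b, hb, h1⟩ := h.nd a ha (fun h2 => hx ((sc_eq_zero ha).2 h2))
  exact ⟨sc b, by rw [hsc_sc ha hb, h1]⟩

private lemma Hh_smul_left (c : ZMod 2) (x y : SC F) : hsc (c • x) y = c • hsc x y := by
  fin_cases c
  · change hsc ((0 : ZMod 2) • x) y = (0 : ZMod 2) • hsc x y
    rw [zero_smul, zero_smul, hsc_zero_left]
  · change hsc ((1 : ZMod 2) • x) y = (1 : ZMod 2) • hsc x y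
    rw [one_smul, one_smul]

/-- The Hilbert symbol as a bilinear form. -/
theorem exists_hsB (h : HF F) : ∃ b : SC F →ₗ[ZMod 2] SC F →ₗ[ZMod 2] ZMod 2,
    ∀ x y : SC F, b x y = hsc x y := by
  refine ⟨LinearMap.mk₂ (ZMod 2) hsc (hsc_add_left h) Hh_smul_left (hsc_add_right h)
    (fun c x y => ?_), fun x y => rfl⟩
  rw [hsc_comm, Hh_smul_left, hsc_comm]

theorem hs_mul_right (h : HF F) {a b c : F} (ha : a ≠ 0) (hb : b ≠ 0) (hc : c ≠ 0) :
    hs c (a * b) = hs c a + hs c b := by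
  rw [hs_comm, h.mul a b c ha hb hc, hs_comm a, hs_comm b]

theorem hs_congr {a b c : F} {r : F} (hr : r ≠ 0) (h : b = a * r ^ 2) : hs b c = hs a c := by
  rw [h, hs_sq hr]

theorem hs_congr_right {a b c : F} {r : F} (hr : r ≠ 0) (h : b = a * r ^ 2) : hs c b = hs c a := by
  rw [hs_comm, hs_congr hr h, hs_comm]

end H36MX
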