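import Pool.Agent.H36.MX.Ha
import Pool.Agent.H36.CY.Ag

/-!
ROW MXBk (project MP_78d38b_MX, about 120 lines, algebra): the local classes of points of twists at a place where the cubic splits.

kum_Z: `LC` (H76/PP/Df1.lean) gives `X, y, z` with `y ≠ 0`, `y^2 = X^3 + i (E^2 A) X + i (E^3 B)` and `m3 (i (E^2 A)) (i (E^3 B)) (i ∘ d) ![X, -1, 0] = m3 .. z z`. `t_j = i E * e j` is a root of `T^3 + i (E^2 A) T + i (E^3 B)` (hs.root). By `H36CY.e1_m3` (e1 θ z = z 0 + z 1 θ + z 2 θ^2 is multiplicative for m3, `θ` a root): `(i (d 0) + i (d 1) t_j + i (d 2) t_j^2) * (X - t_j) = (z(t_j))^2`.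
The first factor is `rh h i (hs.root j) (ev (E θ) d)` (`ev`, map_add, map_mul, rh_algebraMap, rh_theta). `x = X / i E`: `X - t_j = i E (x - e j)`; `X^3 + i(E^2 A) X + i(E^3 B) = ∏ (X - t_j) = (i E)^3 ∏ (x - e j) = y^2 ≠ 0`. So `x ≠ e j` and `i E * ∏ (x - e j) = (y / i E)^2`.
`lcl h i hs j (sc (ev ..)) = sc (rh .. (ev ..))` (lcl_sc), the product of `rh .. (ev ..)` and `i E (x - e j)` is a square: the classes are equal (`sc_mul`, `sc_eq_zero`, `SC.two_smul`: `sc u + sc w = 0` implies `sc u = sc w`).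

iso_pt: with `f' i` the product of the two `e_i - e_j`: `∑ (x - e_i) / f' i = 0` (three terms, `field_simp; ring` after `e 2 = ..` is not even needed: it holds for all different `e_i`). `c_i = E (x - e_i)`, `a_i = c_i / f' i`, so `a_0 + a_1 + a_2 = 0`. `c_0 c_1 c_2 = E^2 (E ∏ (x - e_i)) = ν^2`, `ν ≠ 0`; `f' 0 f' 1 f' 2 = -d^2`, `d = (e_0-e_1)(e_0-e_2)(e_1-e_2)`. So `a_0 a_1 a_2 = -(ν/d)^2`, hence `a_2 a_0^2 + a_0 a_2^2 = a_0 a_2 (a_0 + a_2) = -a_0 a_1 a_2 = (ν/d)^2`: sol_of_iso (`X = a_0`, `Y = a_2`) gives `Sol a_2 a_0`. `a_0 = c_0 *` square, `a_2 = c_2 *` square (sq0, sq2): hs_sq, hs_comm.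
-/

set_option autoImplicit false
set_option linter.unusedSectionVars false
open scoped Classical

open WithZero NumberField IsDedekindDomain H38RT
open H38T1 (SC sc scu rep rep_ne sc_rep sc_mul sc_eq_zero sc_surj eo la si Pri OddP tp unif ka)
open H76PP

namespace H36MX

theorem kum_Z {K L F : Type} [Field K] [Field L] [Algebra K L] [Field F] {A B : K} {θ : L}
    (h : Cub K L A B θ) (i : K →+* F) {e : Fin 3 → F} (hs : Spl (i A) (i B) e) {E : K}
    (hE : E ≠ 0) {d : Fin 3 → K} (hd : ev (algebraMap K L E * θ) d ≠ 0)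
    (hLC : LC i (E ^ 2 * A) (E ^ 3 * B) d) :
    ∃ x : F, (∀ j, x ≠ e j) ∧ IsSquare (i E * ((x - e 0) * (x - e 1) * (x - e 2))) ∧
      ∀ j, lcl h i hs j (sc (ev (algebraMap K L E * θ) d)) = sc (i E * (x - e j)) := by
  obtain ⟨X, y, z, hy0, hy, hm⟩ := hLC
  have hE' : i E ≠ 0 := fun h0 => hE ((map_eq_zero i).1 h0)
  have hEi : i E * (i E)⁻¹ = 1 := mul_inv_cancel₀ hE'
  obtain ⟨x, hx⟩ : ∃ x, x = X * (i E)⁻¹ := ⟨_, rfl⟩
  have hXx : X = i E * x := by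
    rw [hx]
    linear_combination (-X) * hEi
  have h1 := hs.s1
  have h2 := hs.s2
  have h3 := hs.s3
  have hprod : y ^ 2 = (i E) ^ 3 * ((x - e 0) * (x - e 1) * (x - e 2)) := by
    rw [hy, hXx]
    simp only [map_mul, map_pow]
    linear_combination (-(i E) ^ 3 * x) * h2 + (i E) ^ 3 * h3 + (i E) ^ 3 * x ^ 2 * h1
  have hxj : ∀ j, x ≠ e j := by
    intro j hj
    have h4 : (x - e 0) * (x - e 1) * (x - e 2) = 0 := by
      fin_cases j
      · have h5 : x = e 0 := hj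
        rw [h5]
        ring
      · have h5 : x = e 1 := hj
        rw [h5]
        ring
      · have h5 : x = e 2 := hj
        rw [h5]
        ring
    rw [h4, mul_zero] at hprod
    exact hy0 (pow_eq_zero_iff (two_ne_zero) |>.1 hprod)
  refine ⟨x, hxj, ⟨y * (i E)⁻¹, ?_⟩, ?_⟩
  · have h4 : (i E) ^ 2 * (i E * ((x - e 0) * (x - e 1) * (x - e 2))) =
        (i E) ^ 2 * (y * (i E)⁻¹ * (y * (i E)⁻¹)) := by
      linear_combination (-1 : F) * hprod - y ^ 2 * (i E * (i E)⁻¹ + 1) * hEi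
    exact mul_left_cancel₀ (pow_ne_zero 2 hE') h4
  · intro j
    rw [lcl_sc h i hs j hd]
    set u := rh h i (hs.root j) (ev (algebraMap K L E * θ) d) with hu
    have hu0 : u ≠ 0 := fun h0 => hd ((map_eq_zero _).1 h0)
    have hw0 : i E * (x - e j) ≠ 0 := mul_ne_zero hE' (sub_ne_zero.2 (hxj j))
    have hroot : (i E * e j) ^ 3 + i (E ^ 2 * A) * (i E * e j) + i (E ^ 3 * B) = 0 := by
      simp only [map_mul, map_pow]
      linear_combination ((i E) ^ 3) * hs.root j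
    have hue : u = H36CY.e1 (i E * e j) (fun k => i (d k)) := by
      rw [hu]
      unfold ev H36CY.e1
      simp only [map_add, map_mul, map_pow, rh_algebraMap, rh_theta]
    have hmul : u * (i E * (x - e j)) =
        H36CY.e1 (i E * e j) z * H36CY.e1 (i E * e j) z := by
      rw [← H36CY.e1_m3 hroot z z, ← hm, H36CY.e1_m3 hroot, ← hue]
      have h5 : H36CY.e1 (i E * e j) ![X, -1, 0] = X - i E * e j := by
        unfold H36CY.e1
        simp only [Matrix.cons_val_zero, Matrix.cons_val_one, Matrix.cons_val_two,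
          Matrix.head_cons, Matrix.tail_cons, Matrix.cons_val]
        ring
      rw [h5, hXx]
      ring
    have h6 : sc (u * (i E * (x - e j))) = 0 :=
      (sc_eq_zero (mul_ne_zero hu0 hw0)).2 ⟨_, hmul⟩
    rw [sc_mul hu0 hw0] at h6
    have h7 := H38T1.SC.two_smul (sc (i E * (x - e j)))
    rw [two_nsmul] at h7
    exact add_right_cancel (h6.trans h7.symm)

theorem iso_pt {F : Type} [Field F] (h2 : (2 : F) ≠ 0) {a b : F} {e : Fin 3 → F} (h : Spl a b e)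
    {E x : F} (hE : E ≠ 0) (hx : ∀ j, x ≠ e j)
    (hsq : IsSquare (E * ((x - e 0) * (x - e 1) * (x - e 2)))) :
    hs (E * (x - e 0)) (E * (x - e 2)) = 0 := by
  obtain ⟨ν, hν⟩ := hsq
  have n01 : e 0 - e 1 ≠ 0 := sub_ne_zero.2 h.ne01
  have n02 : e 0 - e 2 ≠ 0 := sub_ne_zero.2 h.ne02
  have n12 : e 1 - e 2 ≠ 0 := sub_ne_zero.2 h.ne12
  have n20 : e 2 - e 0 ≠ 0 := sub_ne_zero.2 h.ne02.symm
  have n21 : e 2 - e 1 ≠ 0 := sub_ne_zero.2 h.ne12.symm
  have x0 : x - e 0 ≠ 0 := sub_ne_zero.2 (hx 0)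
  have x1 : x - e 1 ≠ 0 := sub_ne_zero.2 (hx 1)
  have x2 : x - e 2 ≠ 0 := sub_ne_zero.2 (hx 2)
  obtain ⟨r0, hr0⟩ := h.sq0
  obtain ⟨r2, hr2⟩ := h.sq2
  have r0ne : r0 ≠ 0 := by
    rintro rfl
    exact mul_ne_zero n01 n02 (by rw [hr0]; ring)
  have r2ne : r2 ≠ 0 := by
    rintro rfl
    exact mul_ne_zero n20 n21 (by rw [hr2]; ring)
  obtain ⟨a0, ha0⟩ : ∃ a0, a0 = E * (x - e 0) / (r0 * r0) := ⟨_, rfl⟩
  obtain ⟨a2, ha2⟩ : ∃ a2, a2 = E * (x - e 2) / (r2 * r2) := ⟨_, rfl⟩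
  have a0ne : a0 ≠ 0 := by
    rw [ha0]
    exact div_ne_zero (mul_ne_zero hE x0) (mul_ne_zero r0ne r0ne)
  have a2ne : a2 ≠ 0 := by
    rw [ha2]
    exact div_ne_zero (mul_ne_zero hE x2) (mul_ne_zero r2ne r2ne)
  -- `a_0 + a_2 = - a_1`
  have hsum : a0 + a2 = -(E * (x - e 1) / ((e 1 - e 0) * (e 1 - e 2))) := by
    have n10 : e 1 - e 0 ≠ 0 := sub_ne_zero.2 h.ne01.symm
    rw [ha0, ha2, ← hr0, ← hr2]
    field_simp
    ring
  obtain ⟨D, hD⟩ : ∃ D, D = (e 0 - e 1) * (e 0 - e 2) * (e 1 - e 2) := ⟨_, rfl⟩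
  have Dne : D ≠ 0 := by
    rw [hD]
    exact mul_ne_zero (mul_ne_zero n01 n02) n12
  have hmain : a2 * a0 ^ 2 + a0 * a2 ^ 2 = (E * ν / D) ^ 2 := by
    have e1 : a2 * a0 ^ 2 + a0 * a2 ^ 2 = a0 * a2 * (a0 + a2) := by ring
    have n10 : e 1 - e 0 ≠ 0 := sub_ne_zero.2 h.ne01.symm
    rw [e1, hsum, ha0, ha2, ← hr0, ← hr2]
    have e2 : (E * ν / D) ^ 2 = E ^ 2 * (E * ((x - e 0) * (x - e 1) * (x - e 2))) / D ^ 2 := by
      rw [hν]
      ring
    rw [e2, hD]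
    field_simp
    ring
  have hSol : Sol a2 a0 := by
    refine sol_of_iso h2 a2ne a0ne (X := a0) (Y := a2) (Z := E * ν / D) ?_ (Or.inl a0ne)
    exact hmain
  have h0 : hs a2 a0 = 0 := hs_eq_zero.2 hSol
  have c0 : E * (x - e 0) = a0 * r0 ^ 2 := by
    rw [ha0]
    field_simp
  have c2 : E * (x - e 2) = a2 * r2 ^ 2 := by
    rw [ha2]
    field_simp
  rw [c0, c2, hs_sq r0ne, hs_comm, hs_sq r2ne]
  exact h0

end H36MX
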