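import Pool.Agent.H36.MX.Df
import Pool.Agent.H36.CY.Sq
import Pool.Agent.H36.CY.Ld
import Pool.Agent.H30.ZO.Bd

/-!
ROW MXBr (project MP_78d38b_MX, about 250 lines): the roots of the cubic at the places of `Z`. `F = K_v`, `|x| = Valued.v x`; sq_near = `H36CY.sq_near`.

(H) Simple roots: `f(x) = x^3 + a x + b`, `|a|, |b|, |r| ≤ 1`, `|f(r)| ≤ ε < 1`, `|3 r^2 + a| = 1`: there is `e₀ ∈ F` with `f(e₀) = 0`, `|e₀ - r| ≤ ε`. (Newton; `H30ZO.Bd_hens`/`Bd_exists` (H30/ZO/Bd.lean): write `f(r + y) = f(r) + f'(r) y + 3 r y^2 + y^3`, divide by `f'(r)`: `y + a2 y^2 + a3 y^3 + a0 = 0` form; the bound: `|y| = |f(r)|` as `|y| < 1` and the linear term dominates.) Alternatively `HenselianLocalRing` for `v.adicCompletionIntegers K` as used in Bd_hens.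
(Q) Then `x^3 + a x + b = (x - e₀)(x^2 + e₀ x + e₀^2 + a)`, and if `r^2 = -3 e₀^2 - 4 a =: Δ` then `e₁ = (-e₀ - r)/2`, `e₂ = (-e₀ + r)/2` are the other roots: s1, s2, s3 by `field_simp; ring`-type computations; `e₂ - e₁ = r`, `e₁ - e₀ = (-3 e₀ - r)/2`, `(e₀ - e₁)(e₀ - e₂) = 3 e₀^2 + a`, `(e₂ - e₀)(e₂ - e₁) = r (3 e₀ ... )`: `e₂ - e₀ = (-3 e₀ + r)/2`.

roots_two: `|a + 91|, |b + 330| ≤ |2^14|`. `r₀ = -6`: `f(-6) = -6 (a + 91) + (b + 330)`, `|f(-6)| ≤ |2^14|`, `f'(-6) = 108 + a = 17 + (a + 91)`, `|17| = 1` (odd). `e₀` with `|e₀ + 6| ≤ |2^14|`. `Δ - 256 = -3 (e₀ - 6)(e₀ + 6) - 4 (a + 91)`, `|Δ - 256| ≤ |2^14| < |4 * 256|`: `Δ = 256 ρ^2`, and `ρ^2 = 1 + ε`, `|ε| ≤ |2^6|`;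
`(ρ - 1)(ρ + 1) = ε` and one of `|ρ - 1|, |ρ + 1|` is `≥ |2|`; changing the sign of `ρ` we may assume `|ρ + 1| ≥ |2|`, so `|ρ - 1| ≤ |2^5|`. `r = 16 ρ`, `|ρ| = 1`, `|r| = |16|`, `|r - 16| ≤ |2^9|`. `e₁ - e₀ - 1 = (-3 (e₀ + 6) - (r - 16))/2`, `≤ |2^8| < |4|`: `e₁ - e₀` is a square of absolute value one.
sq0: `3 e₀^2 + a = 17 + small = 1 + 16 + small`: distance to `1` is `≤ |16| < |4|`. sq2: `(e₂ - e₀)(e₂ - e₁) = ((-3e₀ + r)/2) r`, `(-3 e₀ + r)/2 = 17 + small` (`(18 + 16)/2 = 17`, error `≤ |2^8|`) `= 1 + 16 + ..` is a square, `r = 16 ρ`, `ρ = 1 + (ρ - 1)`, `|ρ - 1| ≤ |2^5| < |4|`, `16 = 4^2`. Different roots: the differences have absolute values `1, |17| = 1, |16|`, all nonzero.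

roots_odd: `|2| = |3| = 1`. `r₀ = -6 s - t`. If `a₁ = -27 s^2 - 9 s t - 3 t^2`, `b₁ = 54 s^3 + 27 s^2 t - 9 s t^2 - 2 t^3` then `x^3 + a₁ x + b₁ = (x + 6s + t)(x - 3s + t)(x - 3s - 2t)` (ring). So `|f(r₀)| = |(a - a₁) r₀ + (b - b₁)| ≤ exp (-5)`, `f'(r₀) = 3 r₀^2 + a₁ + (a - a₁) = 81 s^2 + 27 s t + ..`, `|f'(r₀)| = |81 s^2| = 1`. `|e₀ - r₀| ≤ exp (-5)`. `Δ = 9 t^2 + small` (`≤ exp (-5) < exp (-4) = |9 t^2|`): `Δ = (3 t)^2 ρ^2`, `ρ^2 = 1 + ε`, `|ε| < 1`, sign: `|ρ - 1| < 1`.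
`r = 3 t ρ`, `|r| = exp (-2) < 1`. `e₁ - e₀ = (-3 e₀ - r)/2 = 9 s + small` (`-3 r₀ = 18 s + 3 t`, `|..| < 1`), so `(e₁ - e₀) s = 9 s^2 (1 + small)` is a square. sq0: `3 e₀^2 + a = 81 s^2 (1 + small)`. sq2: `e₂ - e₀ = 9 s (1 + small)`, `e₂ - e₁ = 3 t ρ = 3 t (1 + small)`: the product is `27 s t (1 + small) = 9 (3 s t)(1 + small)`: a square by hst.
-/

set_option autoImplicit false
set_option linter.unusedSectionVars false
open scoped Classical

open WithZero NumberField IsDedekindDomain H38RT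
open H38T1 (SC sc scu rep rep_ne sc_rep sc_mul sc_eq_zero sc_surj eo la si Pri OddP tp unif ka)
open H76PP

namespace H36MX

section BrF

variable {F : Type} [Field F] [CharZero F] [Valued F (WithZero (Multiplicative ℤ))]

lemma Br_nat (n : ℕ) : Valued.v (n : F) ≤ 1 := H36CY.v_nat_le n

lemma Br_root [CompleteSpace F] {a b r : F} (hr : Valued.v r ≤ 1)
    (h0 : Valued.v (r ^ 3 + a * r + b) < 1) (h1 : Valued.v (3 * r ^ 2 + a) = 1) :
    ∃ e : F, e ^ 3 + a * e + b = 0 ∧ Valued.v (e - r) ≤ Valued.v (r ^ 3 + a * r + b) := by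
  have h3 : Valued.v (3 * r) ≤ 1 := by
    rw [map_mul]
    have := Br_nat (F := F) 3
    rw [Nat.cast_ofNat] at this
    exact mul_le_one' this hr
  obtain ⟨y, hy1, hy⟩ := H30ZO.Bd_hens h0 h1 h3 (by rw [map_one] : Valued.v (1 : F) ≤ 1)
  refine ⟨r + y, by linear_combination hy, ?_⟩
  have e1 : r + y - r = y := by ring
  rw [e1]
  by_contra hlt
  rw [not_le] at hlt
  have hy0 : Valued.v y ≠ 0 := by
    intro h
    rw [h] at hlt
    exact not_lt_zero' hlt
  have e2 : (3 * r ^ 2 + a) * y = -(r ^ 3 + a * r + b) - y * y * (3 * r + y) := by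
    linear_combination hy
  have h4 : Valued.v ((3 * r ^ 2 + a) * y) = Valued.v y := by rw [map_mul, h1, one_mul]
  have h5 : Valued.v (y * y * (3 * r + y)) < Valued.v y := by
    rw [map_mul, map_mul]
    have h6 : Valued.v (3 * r + y) ≤ 1 :=
      (Valuation.map_add _ _ _).trans (max_le h3 hy1.le)
    calc Valued.v y * Valued.v y * Valued.v (3 * r + y) ≤ Valued.v y * Valued.v y * 1 :=
          mul_le_mul' le_rfl h6
      _ = Valued.v y * Valued.v y := mul_one _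
      _ < Valued.v y * 1 := (mul_lt_mul_iff_right₀ (zero_lt_iff.2 hy0)).2 hy1
      _ = Valued.v y := mul_one _
  rw [e2] at h4
  have h7 : Valued.v (-(r ^ 3 + a * r + b) - y * y * (3 * r + y)) < Valued.v y := by
    refine lt_of_le_of_lt (Valuation.map_sub _ _ _) (max_lt ?_ h5)
    rw [Valuation.map_neg]
    exact hlt
  rw [h4] at h7
  exact lt_irrefl _ h7

/-- The three roots from one root and a square root of the discriminant of the quotient. -/
lemma Br_spl {a b e r : F} (he : e ^ 3 + a * e + b = 0) (hr : r ^ 2 = -3 * e ^ 2 - 4 * a)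
    (h01 : (-3 * e - r) / 2 ≠ 0) (h02 : (-3 * e + r) / 2 ≠ 0) (h12 : r ≠ 0)
    (s0 : IsSquare (3 * e ^ 2 + a)) (s2 : IsSquare ((-3 * e + r) / 2 * r)) :
    Spl a b ![e, (-e - r) / 2, (-e + r) / 2] := by
  have e0 : (![e, (-e - r) / 2, (-e + r) / 2] : Fin 3 → F) 0 = e := rfl
  have e1 : (![e, (-e - r) / 2, (-e + r) / 2] : Fin 3 → F) 1 = (-e - r) / 2 := rfl
  have e2 : (![e, (-e - r) / 2, (-e + r) / 2] : Fin 3 → F) 2 = (-e + r) / 2 := rfl
  constructor
  · rw [e0, e1, e2]; ring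
  · rw [e0, e1, e2]; linear_combination (-1 / 4 : F) * hr
  · rw [e0, e1, e2]; linear_combination (-e / 4 : F) * hr + he
  · rw [e0, e1]
    intro h
    apply h01
    linear_combination -h
  · rw [e0, e2]
    intro h
    apply h02
    linear_combination -h
  · rw [e1, e2]
    intro h
    apply h12
    linear_combination -h
  · rw [e0, e1, e2]
    have : (e - (-e - r) / 2) * (e - (-e + r) / 2) = 3 * e ^ 2 + a := by
      linear_combination (-1 / 4 : F) * hr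
    rw [this]
    exact s0
  · rw [e0, e1, e2]
    have : ((-e + r) / 2 - e) * ((-e + r) / 2 - (-e - r) / 2) = (-3 * e + r) / 2 * r := by
      ring
    rw [this]
    exact s2

lemma Br_sq [CompleteSpace F] {y z : F} (h : Valued.v (y - z) < Valued.v (4 * z))
    (hz : IsSquare z) : IsSquare y := by
  obtain ⟨r, _, hr⟩ := H36CY.sq_near h
  obtain ⟨w, hw⟩ := hz
  exact ⟨w * r, by rw [hr, hw]; ring⟩

lemma Br_one {x y : F} (hy : Valued.v y = 1) (h : Valued.v (x - y) < 1) : Valued.v x = 1 := by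
  have e : x = y + (x - y) := by ring
  rw [e, Valuation.map_add_eq_of_lt_left _ (by rw [hy]; exact h), hy]

lemma Br_add {x y : F} {c : WithZero (Multiplicative ℤ)} (hx : Valued.v x < c)
    (hy : Valued.v y < c) : Valued.v (x + y) < c :=
  lt_of_le_of_lt (Valuation.map_add _ _ _) (max_lt hx hy)

lemma Br_sub {x y : F} {c : WithZero (Multiplicative ℤ)} (hx : Valued.v x < c)
    (hy : Valued.v y < c) : Valued.v (x - y) < c :=
  lt_of_le_of_lt (Valuation.map_sub _ _ _) (max_lt hx hy)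

lemma Br_mul {x y : F} {c : WithZero (Multiplicative ℤ)} (hx : Valued.v x ≤ 1)
    (hy : Valued.v y < c) : Valued.v (x * y) < c := by
  rw [map_mul]
  exact lt_of_le_of_lt (by calc Valued.v x * Valued.v y ≤ 1 * Valued.v y := mul_le_mul' hx le_rfl
    _ = _ := one_mul _) hy

lemma Br_two_pow (h2 : Valued.v (2 : F) < 1) {m n : ℕ} (h : m < n) :
    Valued.v ((2 : F) ^ n) < Valued.v ((2 : F) ^ m) := by
  have h20 : (2 : F) ≠ 0 := two_ne_zero
  rw [map_pow, map_pow]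
  exact pow_lt_pow_right_of_lt_one₀ (zero_lt_iff.2 ((Valuation.ne_zero_iff _).2 h20)) h2 h

theorem Br_two [CompleteSpace F] (h2 : Valued.v (2 : F) < 1) {a b : F}
    (ha : Valued.v (a + 91) ≤ Valued.v ((2 : F) ^ 14))
    (hb : Valued.v (b + 330) ≤ Valued.v ((2 : F) ^ 14)) :
    ∃ e : Fin 3 → F, Spl a b e ∧ IsSquare (e 1 - e 0) ∧
      Valued.v (e 1 - e 0) = 1 ∧ Valued.v (e 2 - e 1) = Valued.v (16 : F) := by
  have h20 : (2 : F) ≠ 0 := two_ne_zero
  have h2v : Valued.v (2 : F) ≠ 0 := (Valuation.ne_zero_iff _).2 h20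
  have hN : ∀ n : ℕ, n < 14 → Valued.v ((2 : F) ^ 14) < Valued.v ((2 : F) ^ n) :=
    fun n hn => Br_two_pow h2 hn
  have p0 : Valued.v ((2 : F) ^ 0) = 1 := by rw [pow_zero, map_one]
  have hN1 : Valued.v ((2 : F) ^ 14) < 1 := by
    have := hN 0 (by norm_num)
    rwa [p0] at this
  -- the small numbers
  have n6 : Valued.v (6 : F) ≤ 1 := by exact_mod_cast Br_nat (F := F) 6
  have n3 : Valued.v (3 : F) ≤ 1 := by exact_mod_cast Br_nat (F := F) 3
  have n4 : Valued.v (4 : F) ≤ 1 := by exact_mod_cast Br_nat (F := F) 4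
  have f0 : Valued.v ((-6 : F) ^ 3 + a * (-6) + b) ≤ Valued.v ((2 : F) ^ 14) := by
    have e : (-6 : F) ^ 3 + a * (-6) + b = (b + 330) - 6 * (a + 91) := by ring
    rw [e]
    refine (Valuation.map_sub _ _ _).trans (max_le hb ?_)
    rw [map_mul]
    calc Valued.v (6 : F) * Valued.v (a + 91) ≤ 1 * Valued.v ((2 : F) ^ 14) := mul_le_mul' n6 ha
      _ = _ := one_mul _
  have h17 : Valued.v (17 : F) = 1 := by
    refine Br_one (y := 1) (map_one _) ?_
    have e : (17 : F) - 1 = 8 * 2 := by norm_num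
    rw [e]
    exact Br_mul (by exact_mod_cast Br_nat (F := F) 8) h2
  have f1 : Valued.v (3 * (-6 : F) ^ 2 + a) = 1 := by
    refine Br_one h17 ?_
    have e : 3 * (-6 : F) ^ 2 + a - 17 = a + 91 := by ring
    rw [e]
    exact lt_of_le_of_lt ha hN1
  obtain ⟨e, he, hen⟩ := Br_root (a := a) (b := b) (r := (-6 : F))
    (by rw [Valuation.map_neg]; exact n6) (lt_of_le_of_lt f0 hN1) f1
  have he6 : Valued.v (e + 6) ≤ Valued.v ((2 : F) ^ 14) := by
    have e1 : e + 6 = e - (-6) := by ring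
    rw [e1]
    exact hen.trans f0
  have hem : Valued.v (e - 6) ≤ 1 := by
    have e1 : e - 6 = (e + 6) - (12 : ℕ) := by push_cast; ring
    rw [e1]
    exact (Valuation.map_sub _ _ _).trans (max_le (he6.trans hN1.le) (Br_nat 12))
  have hq : ∀ c : WithZero (Multiplicative ℤ), Valued.v ((2 : F) ^ 14) < c →
      Valued.v (3 * (e - 6) * (e + 6)) < c ∧ Valued.v (a + 91) < c ∧ Valued.v (3 * (e + 6)) < c := by
    intro c hc
    refine ⟨Br_mul ?_ (lt_of_le_of_lt he6 hc), lt_of_le_of_lt ha hc,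
      Br_mul n3 (lt_of_le_of_lt he6 hc)⟩
    rw [map_mul]
    exact mul_le_one' n3 hem
  -- the discriminant
  have hD : Valued.v ((-3 * e ^ 2 - 4 * a) - 256) < Valued.v ((2 : F) ^ 12) := by
    have e1 : (-3 * e ^ 2 - 4 * a) - 256 = -(3 * (e - 6) * (e + 6)) - 4 * (a + 91) := by ring
    rw [e1]
    obtain ⟨q1, q2, _⟩ := hq _ (hN 12 (by norm_num))
    refine Br_sub ?_ (Br_mul n4 q2)
    rw [Valuation.map_neg]
    exact q1
  obtain ⟨ρ, hρ0, hρ⟩ := H36CY.sq_near (y := -3 * e ^ 2 - 4 * a) (z := (256 : F)) (by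
    refine hD.trans ?_
    have e1 : (4 : F) * 256 = 2 ^ 10 := by norm_num
    rw [e1]
    exact Br_two_pow h2 (by norm_num))
  obtain ⟨n, hn1, hn2⟩ := H36CY.close_one h2 (n := ρ) (by
    have e1 : (256 : F) * (ρ ^ 2 - 1) = (-3 * e ^ 2 - 4 * a) - 256 := by rw [hρ]; ring
    have e2 : Valued.v (256 : F) * Valued.v (ρ ^ 2 - 1) < Valued.v (256 : F) * Valued.v (16 : F) := by
      rw [← map_mul, ← map_mul, e1]
      have e3 : (256 : F) * 16 = 2 ^ 12 := by norm_num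
      rw [e3]
      exact hD
    exact lt_of_mul_lt_mul_left e2 zero_le)
  have hr : (16 * n) ^ 2 = -3 * e ^ 2 - 4 * a := by
    rw [hρ, ← hn1]; ring
  have hn1' : Valued.v n = 1 := Br_one (map_one _) (lt_of_lt_of_le hn2
    (by exact_mod_cast Br_nat (F := F) 8))
  have h84 : Valued.v (8 : F) < Valued.v (4 : F) := by
    have := Br_two_pow (F := F) h2 (m := 2) (n := 3) (by norm_num)
    norm_num at this
    exact this
  have h164 : Valued.v (16 : F) < Valued.v (4 : F) := by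
    have := Br_two_pow (F := F) h2 (m := 2) (n := 4) (by norm_num)
    norm_num at this
    exact this
  have h41 : Valued.v (4 : F) < 1 := by
    have := Br_two_pow (F := F) h2 (m := 0) (n := 2) (by norm_num)
    norm_num at this
    exact this
  -- r - 16
  have hr16 : Valued.v (16 * n - 16) < Valued.v (8 : F) := by
    have e1 : 16 * n - 16 = 16 * (n - 1) := by ring
    rw [e1]
    exact Br_mul (by exact_mod_cast Br_nat (F := F) 16) hn2
  have hhalf : ∀ x : F, Valued.v x < Valued.v (8 : F) → Valued.v (x / 2) < Valued.v (4 : F) := by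
    intro x hx
    have e1 : Valued.v (2 : F) * Valued.v (x / 2) < Valued.v (2 : F) * Valued.v (4 : F) := by
      rw [← map_mul, ← map_mul, mul_div_cancel₀ _ h20]
      have e2 : (2 : F) * 4 = 8 := by norm_num
      rw [e2]
      exact hx
    exact lt_of_mul_lt_mul_left e1 zero_le
  have h8 : Valued.v ((2 : F) ^ 14) < Valued.v (8 : F) := by
    have := hN 3 (by norm_num)
    norm_num at this ⊢
    exact this
  have d1 : Valued.v ((-3 * e - 16 * n) / 2 - 1) < Valued.v (4 : F) := by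
    have e1 : (-3 * e - 16 * n) / 2 - 1 = (-(3 * (e + 6)) - (16 * n - 16)) / 2 := by ring
    rw [e1]
    refine hhalf _ (Br_sub ?_ hr16)
    rw [Valuation.map_neg]
    exact (hq _ h8).2.2
  have d2 : Valued.v ((-3 * e + 16 * n) / 2 - 1) < Valued.v (4 : F) := by
    have e1 : (-3 * e + 16 * n) / 2 - 1 = (-(3 * (e + 6)) + (16 * n - 16)) / 2 + 16 := by ring
    rw [e1]
    refine Br_add (hhalf _ (Br_add ?_ hr16)) h164
    rw [Valuation.map_neg]
    exact (hq _ h8).2.2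
  have v1 : Valued.v ((-3 * e - 16 * n) / 2) = 1 := Br_one (map_one _) (d1.trans h41)
  have v2 : Valued.v ((-3 * e + 16 * n) / 2) = 1 := Br_one (map_one _) (d2.trans h41)
  have ne1 : ∀ x : F, Valued.v x = 1 → x ≠ 0 := by
    rintro x hx rfl
    rw [map_zero] at hx
    exact zero_ne_one hx
  have sq1 : ∀ x : F, Valued.v (x - 1) < Valued.v (4 : F) → IsSquare x := by
    intro x hx
    exact Br_sq (z := 1) (by rw [mul_one]; exact hx) ⟨1, by ring⟩
  have h16 : (16 : F) ≠ 0 := by norm_num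
  refine ⟨_, Br_spl he hr (ne1 _ v1) (ne1 _ v2) (mul_ne_zero h16 (ne1 _ hn1')) ?_ ?_, ?_, ?_, ?_⟩
  · refine sq1 _ ?_
    have e1 : 3 * e ^ 2 + a - 1 = (3 * (e - 6) * (e + 6) + (a + 91)) + 16 := by ring
    rw [e1]
    obtain ⟨q1, q2, _⟩ := hq (Valued.v (4 : F)) (h8.trans h84)
    exact Br_add (Br_add q1 q2) h164
  · refine (sq1 _ d2).mul ?_
    exact IsSquare.mul ⟨4, by norm_num⟩ (sq1 _ (hn2.trans h84))
  · have e1 : (![e, (-e - 16 * n) / 2, (-e + 16 * n) / 2] : Fin 3 → F) 1 -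
        (![e, (-e - 16 * n) / 2, (-e + 16 * n) / 2] : Fin 3 → F) 0 = (-3 * e - 16 * n) / 2 := by
      change (-e - 16 * n) / 2 - e = _
      ring
    rw [e1]
    exact sq1 _ d1
  · have e1 : (![e, (-e - 16 * n) / 2, (-e + 16 * n) / 2] : Fin 3 → F) 1 -
        (![e, (-e - 16 * n) / 2, (-e + 16 * n) / 2] : Fin 3 → F) 0 = (-3 * e - 16 * n) / 2 := by
      change (-e - 16 * n) / 2 - e = _
      ring
    rw [e1]
    exact v1
  · have e1 : (![e, (-e - 16 * n) / 2, (-e + 16 * n) / 2] : Fin 3 → F) 2 -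
        (![e, (-e - 16 * n) / 2, (-e + 16 * n) / 2] : Fin 3 → F) 1 = 16 * n := by
      change (-e + 16 * n) / 2 - (-e - 16 * n) / 2 = _
      ring
    rw [e1, map_mul, hn1', mul_one]

theorem Br_odd [CompleteSpace F] (h2 : Valued.v (2 : F) = 1) (h3 : Valued.v (3 : F) = 1)
    {s t a b : F} (hs : Valued.v s = 1) (ht : Valued.v t = exp (-2 : ℤ))
    (hst : IsSquare (3 * s * t))
    (ha : Valued.v (a + (27 * s ^ 2 + 9 * s * t + 3 * t ^ 2)) ≤ exp (-5 : ℤ))
    (hb : Valued.v (b - (54 * s ^ 3 + 27 * s ^ 2 * t - 9 * s * t ^ 2 - 2 * t ^ 3)) ≤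
      exp (-5 : ℤ)) :
    ∃ e : Fin 3 → F, Spl a b e ∧ Valued.v (e 1 - e 0) = 1 ∧
      Valued.v (e 2 - e 1) < 1 ∧ IsSquare ((e 1 - e 0) * s) := by
  have h20 : (2 : F) ≠ 0 := two_ne_zero
  have x5 : (exp (-5 : ℤ) : WithZero (Multiplicative ℤ)) < 1 := by
    rw [← exp_zero, exp_lt_exp]; norm_num
  have x52 : (exp (-5 : ℤ) : WithZero (Multiplicative ℤ)) < exp (-4 : ℤ) := by
    rw [exp_lt_exp]; norm_num
  have x2 : (exp (-2 : ℤ) : WithZero (Multiplicative ℤ)) < 1 := by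
    rw [← exp_zero, exp_lt_exp]; norm_num
  have n4 : Valued.v (4 : F) = 1 := by
    have e : (4 : F) = 2 * 2 := by norm_num
    rw [e, map_mul, h2, one_mul]
  have n9 : Valued.v (9 : F) = 1 := by
    have e : (9 : F) = 3 * 3 := by norm_num
    rw [e, map_mul, h3, one_mul]
  have t1 : Valued.v t < 1 := by rw [ht]; exact x2
  have t0 : t ≠ 0 := by
    rintro rfl
    rw [map_zero] at ht
    exact exp_ne_zero ht.symm
  obtain ⟨A, hA⟩ : ∃ A, A = a + (27 * s ^ 2 + 9 * s * t + 3 * t ^ 2) := ⟨_, rfl⟩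
  obtain ⟨B, hB⟩ : ∃ B, B = b - (54 * s ^ 3 + 27 * s ^ 2 * t - 9 * s * t ^ 2 - 2 * t ^ 3) :=
    ⟨_, rfl⟩
  rw [← hA] at ha
  rw [← hB] at hb
  have ea : a = A - (27 * s ^ 2 + 9 * s * t + 3 * t ^ 2) := by rw [hA]; ring
  have eb : b = B + (54 * s ^ 3 + 27 * s ^ 2 * t - 9 * s * t ^ 2 - 2 * t ^ 3) := by rw [hB]; ring
  have r1 : Valued.v (-6 * s - t) ≤ 1 := by
    refine (Valuation.map_sub _ _ _).trans (max_le ?_ t1.le)
    rw [map_mul, hs, mul_one, Valuation.map_neg]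
    exact_mod_cast Br_nat (F := F) 6
  have f0 : Valued.v ((-6 * s - t) ^ 3 + a * (-6 * s - t) + b) ≤ exp (-5 : ℤ) := by
    have e : (-6 * s - t) ^ 3 + a * (-6 * s - t) + b = (-6 * s - t) * A + B := by
      rw [ea, eb]; ring
    rw [e]
    refine (Valuation.map_add _ _ _).trans (max_le ?_ hb)
    rw [map_mul]
    calc Valued.v (-6 * s - t) * Valued.v A ≤ 1 * exp (-5 : ℤ) := mul_le_mul' r1 ha
      _ = _ := one_mul _
  have n81 : Valued.v (81 * s ^ 2) = 1 := by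
    have e : (81 : F) = 9 * 9 := by norm_num
    rw [e, map_mul, map_mul, map_pow, n9, hs]
    norm_num
  have hA1 : Valued.v A < 1 := lt_of_le_of_lt ha x5
  have st27 : Valued.v (27 * s * t) < 1 := by
    refine Br_mul ?_ t1
    rw [map_mul, hs, mul_one]
    exact_mod_cast Br_nat (F := F) 27
  have f1 : Valued.v (3 * (-6 * s - t) ^ 2 + a) = 1 := by
    refine Br_one n81 ?_
    have e : 3 * (-6 * s - t) ^ 2 + a - 81 * s ^ 2 = 27 * s * t + A := by
      rw [ea]; ring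
    rw [e]
    exact Br_add st27 hA1
  obtain ⟨e, he, hen⟩ := Br_root (a := a) (b := b) r1 (lt_of_le_of_lt f0 x5) f1
  obtain ⟨y, hy⟩ : ∃ y, y = e - (-6 * s - t) := ⟨_, rfl⟩
  rw [← hy] at hen
  have hy5 : Valued.v y ≤ exp (-5 : ℤ) := hen.trans f0
  have hy1 : Valued.v y < 1 := lt_of_le_of_lt hy5 x5
  have ee : e = y + (-6 * s - t) := by rw [hy]; ring
  have e1' : Valued.v e ≤ 1 := by
    rw [ee]
    exact (Valuation.map_add _ _ _).trans (max_le hy1.le r1)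
  have hsum : Valued.v (3 * (e + (-6 * s - t))) ≤ 1 := by
    rw [map_mul, h3, one_mul]
    exact (Valuation.map_add _ _ _).trans (max_le e1' r1)
  have hz : Valued.v (4 * (9 * t ^ 2)) = exp (-4 : ℤ) := by
    rw [map_mul, map_mul, map_pow, n4, n9, ht, one_mul, one_mul, ← exp_nsmul]
    norm_num
  have hz0 : Valued.v (9 * t ^ 2) = exp (-4 : ℤ) := by
    rw [← hz, map_mul (Valued.v) 4, n4, one_mul]
  have hD : Valued.v ((-3 * e ^ 2 - 4 * a) - 9 * t ^ 2) ≤ exp (-5 : ℤ) := by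
    have e1 : (-3 * e ^ 2 - 4 * a) - 9 * t ^ 2 =
        -(3 * (e + (-6 * s - t)) * y) - 4 * A := by
      rw [ea, hy]; ring
    rw [e1]
    refine (Valuation.map_sub _ _ _).trans (max_le ?_ ?_)
    · rw [Valuation.map_neg, map_mul]
      calc Valued.v (3 * (e + (-6 * s - t))) * Valued.v y ≤ 1 * exp (-5 : ℤ) :=
            mul_le_mul' hsum hy5
        _ = _ := one_mul _
    · rw [map_mul, n4, one_mul]
      exact ha
  obtain ⟨ρ, hρ0, hρ⟩ := H36CY.sq_near (y := -3 * e ^ 2 - 4 * a) (z := 9 * t ^ 2)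
    (by rw [hz]; exact lt_of_le_of_lt hD x52)
  have hρ1 : Valued.v ((ρ - 1) * (ρ + 1)) < 1 := by
    have e1 : (9 * t ^ 2) * ((ρ - 1) * (ρ + 1)) = (-3 * e ^ 2 - 4 * a) - 9 * t ^ 2 := by
      rw [hρ]; ring
    have e2 : Valued.v (9 * t ^ 2) * Valued.v ((ρ - 1) * (ρ + 1)) < Valued.v (9 * t ^ 2) * 1 := by
      rw [← map_mul, e1, mul_one, hz0]
      exact lt_of_le_of_lt hD x52
    exact lt_of_mul_lt_mul_left e2 zero_le
  obtain ⟨n, hn1, hn2⟩ : ∃ n : F, n ^ 2 = ρ ^ 2 ∧ Valued.v (n - 1) < 1 := by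
    by_cases h : Valued.v (ρ - 1) < 1
    · exact ⟨ρ, rfl, h⟩
    · refine ⟨-ρ, by ring, ?_⟩
      rw [not_lt] at h
      have e1 : -ρ - 1 = -(ρ + 1) := by ring
      rw [e1, Valuation.map_neg]
      by_contra h'
      rw [not_lt] at h'
      rw [map_mul] at hρ1
      exact absurd hρ1 (not_lt.2 (one_le_mul h h'))
  have hnv : Valued.v n = 1 := Br_one (map_one _) hn2
  have hr : (3 * t * n) ^ 2 = -3 * e ^ 2 - 4 * a := by
    rw [hρ, ← hn1]; ring
  have hrv : Valued.v (3 * t * n) = exp (-2 : ℤ) := by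
    rw [map_mul, map_mul, h3, hnv, ht, one_mul, mul_one]
  have hr1 : Valued.v (3 * t * n) < 1 := by rw [hrv]; exact x2
  have hhalf : ∀ x : F, Valued.v x < 1 → Valued.v (x / 2) < 1 := by
    intro x hx
    rw [map_div₀, h2, div_one]
    exact hx
  have h3t : Valued.v (3 * t) < 1 := Br_mul h3.le t1
  have h3y : Valued.v (3 * y) < 1 := Br_mul h3.le hy1
  have d1 : Valued.v ((-3 * e - 3 * t * n) / 2 - 9 * s) < 1 := by
    have e1 : (-3 * e - 3 * t * n) / 2 - 9 * s = (3 * t - 3 * y - 3 * t * n) / 2 := by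
      rw [ee]; ring
    rw [e1]
    exact hhalf _ (Br_sub (Br_sub h3t h3y) hr1)
  have d2 : Valued.v ((-3 * e + 3 * t * n) / 2 - 9 * s) < 1 := by
    have e1 : (-3 * e + 3 * t * n) / 2 - 9 * s = (3 * t - 3 * y + 3 * t * n) / 2 := by
      rw [ee]; ring
    rw [e1]
    exact hhalf _ (Br_add (Br_sub h3t h3y) hr1)
  have n9s : Valued.v (9 * s) = 1 := by rw [map_mul, n9, hs, one_mul]
  have v1 : Valued.v ((-3 * e - 3 * t * n) / 2) = 1 := Br_one n9s d1
  have v2 : Valued.v ((-3 * e + 3 * t * n) / 2) = 1 := Br_one n9s d2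
  have ne1 : ∀ x : F, Valued.v x = 1 → x ≠ 0 := by
    rintro x hx rfl
    rw [map_zero] at hx
    exact zero_ne_one hx
  have h30 : (3 : F) ≠ 0 := ne1 _ h3
  have q1 : (![e, (-e - 3 * t * n) / 2, (-e + 3 * t * n) / 2] : Fin 3 → F) 1 -
      (![e, (-e - 3 * t * n) / 2, (-e + 3 * t * n) / 2] : Fin 3 → F) 0 =
      (-3 * e - 3 * t * n) / 2 := by
    change (-e - 3 * t * n) / 2 - e = _
    ring
  have q2 : (![e, (-e - 3 * t * n) / 2, (-e + 3 * t * n) / 2] : Fin 3 → F) 2 -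
      (![e, (-e - 3 * t * n) / 2, (-e + 3 * t * n) / 2] : Fin 3 → F) 1 = 3 * t * n := by
    change (-e + 3 * t * n) / 2 - (-e - 3 * t * n) / 2 = _
    ring
  refine ⟨_, Br_spl he hr (ne1 _ v1) (ne1 _ v2)
    (mul_ne_zero (mul_ne_zero h30 t0) (ne1 _ hnv)) ?_ ?_, ?_, ?_, ?_⟩
  · refine Br_sq (z := 81 * s ^ 2) ?_ ⟨9 * s, by ring⟩
    rw [map_mul (Valued.v) 4, n4, n81, one_mul]
    have e1 : 3 * e ^ 2 + a - 81 * s ^ 2 = 3 * (e + (-6 * s - t)) * y + (27 * s * t + A) := by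
      rw [ea, hy]; ring
    rw [e1]
    exact Br_add (Br_mul hsum hy1) (Br_add st27 hA1)
  · obtain ⟨w, hw⟩ := hst
    refine Br_sq (z := 9 * (3 * s * t)) ?_ ⟨3 * w, by rw [hw]; ring⟩
    have e2 : Valued.v (4 * (9 * (3 * s * t))) = Valued.v t := by
      rw [map_mul, map_mul, map_mul, map_mul, n4, n9, h3, hs, one_mul, one_mul, one_mul, one_mul]
    have e1 : (-3 * e + 3 * t * n) / 2 * (3 * t * n) - 9 * (3 * s * t) =
        t * (3 * (((-3 * e + 3 * t * n) / 2 - 9 * s) * n + 9 * s * (n - 1))) := by ring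
    rw [e2, e1, map_mul]
    have e3 : Valued.v (3 * (((-3 * e + 3 * t * n) / 2 - 9 * s) * n + 9 * s * (n - 1))) < 1 := by
      refine Br_mul h3.le (Br_add ?_ (Br_mul n9s.le hn2))
      rw [mul_comm]
      exact Br_mul hnv.le d2
    calc Valued.v t * _ < Valued.v t * 1 :=
          (mul_lt_mul_iff_right₀ (zero_lt_iff.2 ((Valuation.ne_zero_iff _).2 t0))).2 e3
      _ = Valued.v t := mul_one _
  · rw [q1]; exact v1
  · rw [q2]; exact hr1
  · rw [q1]
    refine Br_sq (z := 9 * s ^ 2) ?_ ⟨3 * s, by ring⟩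
    have e2 : Valued.v (4 * (9 * s ^ 2)) = 1 := by
      rw [map_mul, map_mul, map_pow, n4, n9, hs]
      norm_num
    have e1 : (-3 * e - 3 * t * n) / 2 * s - 9 * s ^ 2 =
        s * ((-3 * e - 3 * t * n) / 2 - 9 * s) := by ring
    rw [e2, e1]
    exact Br_mul hs.le d1

end BrF

variable {K : Type} [Field K] [NumberField K] {v : HeightOneSpectrum (𝓞 K)}


theorem roots_two (h2 : v.valuation K 2 < 1) {a b : v.adicCompletion K}
    (ha : Valued.v (a + 91) ≤ Valued.v ((2 : v.adicCompletion K) ^ 14))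
    (hb : Valued.v (b + 330) ≤ Valued.v ((2 : v.adicCompletion K) ^ 14)) :
    ∃ e : Fin 3 → v.adicCompletion K, Spl a b e ∧ IsSquare (e 1 - e 0) ∧
      Valued.v (e 1 - e 0) = 1 ∧ Valued.v (e 2 - e 1) = Valued.v (16 : v.adicCompletion K) := by
  have := H36CY.char_zero v
  refine Br_two ?_ ha hb
  have e : (2 : v.adicCompletion K) = algebraMap K (v.adicCompletion K) 2 := by rw [map_ofNat]
  rw [e, H36CY.val_coe]
  exact h2

theorem roots_odd (h6 : v.valuation K 6 = 1) {s t a b : v.adicCompletion K}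
    (hs : Valued.v s = 1) (ht : Valued.v t = exp (-2 : ℤ)) (hst : IsSquare (3 * s * t))
    (ha : Valued.v (a + (27 * s ^ 2 + 9 * s * t + 3 * t ^ 2)) ≤ exp (-5 : ℤ))
    (hb : Valued.v (b - (54 * s ^ 3 + 27 * s ^ 2 * t - 9 * s * t ^ 2 - 2 * t ^ 3)) ≤
      exp (-5 : ℤ)) :
    ∃ e : Fin 3 → v.adicCompletion K, Spl a b e ∧ Valued.v (e 1 - e 0) = 1 ∧
      Valued.v (e 2 - e 1) < 1 ∧ IsSquare ((e 1 - e 0) * s) := by
  have := H36CY.char_zero v
  have h6' : Valued.v (2 : v.adicCompletion K) * Valued.v (3 : v.adicCompletion K) = 1 := by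
    have e : (2 : v.adicCompletion K) * 3 = algebraMap K (v.adicCompletion K) 6 := by
      rw [map_ofNat]; norm_num
    rw [← map_mul, e, H36CY.val_coe]
    exact h6
  have h2 : Valued.v (2 : v.adicCompletion K) ≤ 1 := by
    exact_mod_cast Br_nat (F := v.adicCompletion K) 2
  have h3 : Valued.v (3 : v.adicCompletion K) ≤ 1 := by
    exact_mod_cast Br_nat (F := v.adicCompletion K) 3
  have g2 : Valued.v (2 : v.adicCompletion K) = 1 := by
    refine le_antisymm h2 ?_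
    rw [← h6']
    calc Valued.v (2 : v.adicCompletion K) * Valued.v (3 : v.adicCompletion K)
        ≤ Valued.v (2 : v.adicCompletion K) * 1 := mul_le_mul' le_rfl h3
      _ = _ := mul_one _
  have g3 : Valued.v (3 : v.adicCompletion K) = 1 := by
    rw [g2, one_mul] at h6'
    exact h6'
  exact Br_odd g2 g3 hs ht hst ha hb

end H36MX
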