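import Pool.Agent.H36.MX.Bk
import Pool.Agent.H36.MX.Hu

/-!
ROW MXBt (project MP_78d38b_MX, about 200 lines): the local condition above two. Use the STATEMENTS of Ha, Hh, Hu, Bk. `F = K_v`, `|x| = Valued.v x`, sq_near = `H36CY.sq_near`: `|y - z| < |4 z|` implies `y = z r^2`, `r ≠ 0`.

Let `δ = e 1 - e 0` (a square, `|δ| = 1`), `X = (x - e 1)/δ`, `τ = (e 2 - e 1)/δ`, `|τ| = |16|`. So `x - e 0 = δ (X + 1)`, `x - e 1 = δ X`, `x - e 2 = δ (X - τ)`; `X, X + 1, X - τ ≠ 0`. The hypothesis: `E X (X + 1)(X - τ)` is a square. `c0 = sc (E (X + 1))`, `c2 = sc (E (X - τ))` (δ is a square). By iso_pt `hsc c0 c2 = 0` (ISO).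
Write `g` for `g0` if `E` is a square and for `E` otherwise. We show: (`c0 = 0` or `c0 = sc g`) and `hs (E (X - τ)) g = 0` (symmetry: hs_comm).
(a) `|X| > |4|`. `1 - τ/X` is a square (`|τ/X| < |16|/|4| = |4|`), so `X (X - τ) = X^2 (1 - τ/X)` is a square and `E (X + 1)` is a square: `c0 = 0`. `X - τ = X *` square: we need `hs (E X) g = 0`. If `E` is not a square (`g = E`, `E = (1 + X) *` square): `hs (E X) E = hs ((1+X) X) (1+X) = hs (-(1+X)) (1+X) + hs (-X) (1 + X) = 0` (HF.mul, hs_neg + hs_comm, hs_one_sub for `a = -X`).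
If `E` is a square: `1 + X` is a square `r^2`, `X = (r - 1)(r + 1)`; `|r - 1| > |2|` (otherwise `|r + 1| ≤ |2|` and `|X| ≤ |4|`), so `|r + 1| = |r - 1|`, `|X| = |r - 1|^2`; `hs (E X) g0 = hs X g0 = 0` by unr_even (write `|r-1| = exp n`).
(b) `|X| < |4|`. `1 + X` is a square, so `c0 = sc E`. If `E` is not a square: `c0 = sc g`, and `hs (E (X - τ)) E = 0` by (ISO) (`c0 = sc E`; hs_congr). If `E` is a square: `c0 = 0`; `X (X - τ)` is a square; `1 - τ/X = r^2` with `τ / X = (1 - r)(1 + r)`, `|τ/X| > |16|/|4| = |4|`, so as in (a) `|τ / X|` is an even power, `|τ| = |16| = |4|^2` too, so `|X|` is an even power and (as `X (X - τ)` is a square) `|X - τ|` is an even power: unr_even.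
(c) `|X| = |4|`. `1 + X` and `1 - τ/X` (`|τ/X| = |4|`) are squares or `g0` times squares (unr_cases). So `X (X - τ) = X^2 (1 - τ/X)` and `1 + X` are squares or `g0` times squares, hence `E` is (the product of the three is a square), and `c0 = sc (E (1 + X)) = sc (X (X - τ)) ∈ {0, sc g0}`. In both cases for `E`: `sc g = sc g0` (if `E` is not a square then `E = g0 *` square). `|E|`, `|X - τ| = |X| = |4|` are even powers (`|g0| = 1`; `|4| = |2|^2`), so `hs (E (X - τ)) g0 = 0` by unr_even.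
-/

set_option autoImplicit false
set_option linter.unusedSectionVars false
open scoped Classical

open WithZero NumberField IsDedekindDomain H38RT
open H38T1 (SC sc scu rep rep_ne sc_rep sc_mul sc_eq_zero sc_surj eo la si Pri OddP tp unif ka)
open H76PP

namespace H36MX

variable {K : Type} [Field K] [NumberField K] {v : HeightOneSpectrum (𝓞 K)}

private theorem Bt_one {F : Type} [Field F] [CharZero F] [Valued F (WithZero (Multiplicative ℤ))]
    [CompleteSpace F] {u : F} (h : Valued.v u < Valued.v (4 : F)) :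
    ∃ r : F, r ≠ 0 ∧ 1 + u = r ^ 2 := by
  obtain ⟨r, hr, h1⟩ := H36CY.sq_near (y := 1 + u) (z := 1) (by
    rw [add_sub_cancel_left, mul_one]
    exact h)
  exact ⟨r, hr, by rw [h1, one_mul]⟩

private theorem Bt_sqv {F : Type} [Field F] [Valued F (WithZero (Multiplicative ℤ))] {y : F}
    (hy : y ≠ 0) : ∃ n : ℤ, Valued.v (y ^ 2) = exp (2 * n) := by
  have h0 : Valued.v y ≠ 0 := (Valuation.ne_zero_iff _).2 hy
  refine ⟨log (Valued.v y), ?_⟩
  rw [map_pow, two_mul, exp_add, exp_log h0, pow_two]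

private theorem Bt_can {F : Type} [Field F] [Valued F (WithZero (Multiplicative ℤ))] {y z : F}
    (hyz : ∃ n : ℤ, Valued.v (y * z) = exp (2 * n)) (hy : ∃ n : ℤ, Valued.v y = exp (2 * n)) :
    ∃ n : ℤ, Valued.v z = exp (2 * n) := by
  obtain ⟨n, hn⟩ := hyz
  obtain ⟨m, hm⟩ := hy
  rw [map_mul, hm] at hn
  refine ⟨n - m, ?_⟩
  have h0 : (exp (2 * m) : WithZero (Multiplicative ℤ)) ≠ 0 := exp_ne_zero
  apply mul_left_cancel₀ h0
  rw [hn, ← exp_add]
  congr 1
  ring

private theorem Bt_mul {F : Type} [Field F] [Valued F (WithZero (Multiplicative ℤ))] {y z : F}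
    (hy : ∃ n : ℤ, Valued.v y = exp (2 * n)) (hz : ∃ n : ℤ, Valued.v z = exp (2 * n)) :
    ∃ n : ℤ, Valued.v (y * z) = exp (2 * n) := by
  obtain ⟨n, hn⟩ := hy
  obtain ⟨m, hm⟩ := hz
  refine ⟨n + m, ?_⟩
  rw [map_mul, hn, hm, ← exp_add]
  congr 1
  ring

private theorem Bt_even {F : Type} [Field F] [Valued F (WithZero (Multiplicative ℤ))] {u r : F}
    (h : 1 + u = r ^ 2) (h4 : Valued.v (4 : F) < Valued.v u) :
    ∃ n : ℤ, Valued.v u = exp (2 * n) := by
  have e : u = (r - 1) * (r + 1) := by linear_combination h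
  have e4 : Valued.v (4 : F) = Valued.v (2 : F) * Valued.v (2 : F) := by
    rw [← map_mul]
    norm_num
  have h1 : Valued.v (2 : F) < Valued.v (r - 1) := by
    by_contra hcon
    rw [not_lt] at hcon
    have h2 : Valued.v (r + 1) ≤ Valued.v (2 : F) := by
      have e1 : r + 1 = (r - 1) + 2 := by ring
      rw [e1]
      exact Valuation.map_add_le _ hcon le_rfl
    rw [e, map_mul, e4] at h4
    exact absurd (mul_le_mul' hcon h2) (not_le.2 h4)
  have h2 : Valued.v (r + 1) = Valued.v (r - 1) := by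
    have e1 : r + 1 = (r - 1) + 2 := by ring
    rw [e1]
    exact Valuation.map_add_eq_of_lt_left _ h1
  have hr : r - 1 ≠ 0 := by
    intro h0
    rw [h0, map_zero] at h1
    exact not_lt_zero h1
  have h3 : Valued.v u = Valued.v ((r - 1) ^ 2) := by
    rw [e, map_mul, h2, map_pow, pow_two]
  rw [h3]
  exact Bt_sqv hr

private theorem Bt_div {F : Type} [Field F] {a t : F} (ht : t ≠ 0) (h : IsSquare (a * t ^ 2)) :
    IsSquare a := by
  obtain ⟨m, hm⟩ := h
  refine ⟨m / t, ?_⟩
  field_simp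
  rw [hm]
  ring

/-- `a b` a square: `a` is `b` times a square. -/
private theorem Bt_quot {F : Type} [Field F] {a b : F} (ha : a ≠ 0) (hb : b ≠ 0)
    (h : IsSquare (a * b)) : ∃ w : F, w ≠ 0 ∧ a = b * w ^ 2 := by
  obtain ⟨m, hm⟩ := h
  have hm0 : m ≠ 0 := by
    rintro rfl
    rw [mul_zero] at hm
    exact mul_ne_zero ha hb hm
  refine ⟨m / b, div_ne_zero hm0 hb, ?_⟩
  field_simp
  rw [← pow_two] at hm
  linear_combination hm

private theorem Bt_sc {F : Type} [Field F] {a b : F} (ha : a ≠ 0) (hb : b ≠ 0)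
    (h : IsSquare (a * b)) : sc a = sc b := by
  have h1 := (sc_eq_zero (mul_ne_zero ha hb)).2 h
  rw [sc_mul ha hb] at h1
  have h2 := H38T1.SC.two_smul (sc b)
  rw [two_nsmul] at h2
  exact add_right_cancel (h1.trans h2.symm)

private theorem Bt_core (h2 : v.valuation K 2 < 1) (hF : HF (v.adicCompletion K))
    {E X τ g0 : v.adicCompletion K} (hE : E ≠ 0) (hX : X ≠ 0) (hX1 : X + 1 ≠ 0) (hXτ : X - τ ≠ 0)
    (hτ : Valued.v τ = Valued.v (16 : v.adicCompletion K))
    (hsq : IsSquare (E * (X * (X + 1) * (X - τ)))) (hg0 : Unr g0)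
    (iso : hs (E * (X + 1)) (E * (X - τ)) = 0) :
    (IsSquare E → (IsSquare (E * (X + 1)) ∨ IsSquare (E * (X + 1) * g0)) ∧
      hs (E * (X - τ)) g0 = 0) ∧
    (¬ IsSquare E → (IsSquare (E * (X + 1)) ∨ IsSquare (E * (X + 1) * E)) ∧
      hs (E * (X - τ)) E = 0) := by
  have hc : CharZero (v.adicCompletion K) := H36CY.char_zero v
  have g0ne : g0 ≠ 0 := by
    rintro rfl
    have := unr_one h2 hg0
    rw [map_zero] at this
    exact zero_ne_one this
  have v2 : Valued.v (2 : v.adicCompletion K) ≠ 0 := (Valuation.ne_zero_iff _).2 two_ne_zero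
  have v4 : Valued.v (4 : v.adicCompletion K) ≠ 0 := (Valuation.ne_zero_iff _).2 (by norm_num)
  have v16 : Valued.v (16 : v.adicCompletion K) =
      Valued.v (4 : v.adicCompletion K) * Valued.v (4 : v.adicCompletion K) := by
    rw [← map_mul]
    norm_num
  have vX : Valued.v X ≠ 0 := (Valuation.ne_zero_iff _).2 hX
  have hev4 : ∃ n : ℤ, Valued.v (4 : v.adicCompletion K) = exp (2 * n) := by
    have := Bt_sqv (two_ne_zero : (2 : v.adicCompletion K) ≠ 0)
    have e : (2 : v.adicCompletion K) ^ 2 = 4 := by norm_num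
    rwa [e] at this
  have hτX : Valued.v (-(τ / X)) * Valued.v X = Valued.v (4 : v.adicCompletion K) *
      Valued.v (4 : v.adicCompletion K) := by
    rw [Valuation.map_neg, ← map_mul, div_mul_cancel₀ _ hX, hτ, v16]
  have eXτ : X - τ = X * (1 + -(τ / X)) := by
    field_simp
    ring
  have hBne : 1 + -(τ / X) ≠ 0 := by
    intro h0
    rw [h0, mul_zero] at eXτ
    exact hXτ eXτ
  -- symbols with `g0` when `E` is a square
  have hgE : IsSquare E → (∃ n : ℤ, Valued.v (X - τ) = exp (2 * n)) →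
      hs (E * (X - τ)) g0 = 0 := by
    rintro ⟨m, hm⟩ hev
    have hm0 : m ≠ 0 := by
      rintro rfl
      exact hE (by rw [hm]; ring)
    have e : E * (X - τ) = (X - τ) * m ^ 2 := by
      rw [hm]
      ring
    rw [hs_congr hm0 e, hs_comm]
    exact (unr_even h2 hF hg0 hXτ).2 hev
  rcases lt_trichotomy (Valued.v X) (Valued.v (4 : v.adicCompletion K)) with hlt | heq | hgt
  · -- case (b)
    obtain ⟨r, hr0, hr⟩ := Bt_one hlt
    have hr' : X + 1 = r ^ 2 := by rw [← hr]; ring
    have e1 : E * (X + 1) = E * r ^ 2 := by rw [hr']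
    refine ⟨fun hsE => ⟨Or.inl ?_, hgE hsE ?_⟩, fun hnE => ⟨Or.inr ⟨E * r, ?_⟩, ?_⟩⟩
    · obtain ⟨m, hm⟩ := hsE
      exact ⟨m * r, by rw [e1, hm]; ring⟩
    · -- valuation of `X - τ`
      obtain ⟨m, hm⟩ := hsE
      have hm0 : m ≠ 0 := by
        rintro rfl
        exact hE (by rw [hm]; ring)
      have h3 : IsSquare (1 + -(τ / X)) := by
        apply Bt_div (t := m * r * X) (mul_ne_zero (mul_ne_zero hm0 hr0) hX)
        have e2 : (1 + -(τ / X)) * (m * r * X) ^ 2 = E * (X * (X + 1) * (X - τ)) := by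
          rw [eXτ, hr', hm]
          ring
        rw [e2]
        exact hsq
      obtain ⟨s, hs'⟩ := h3
      have h4 : Valued.v (4 : v.adicCompletion K) < Valued.v (-(τ / X)) := by
        by_contra hcon
        rw [not_lt] at hcon
        have h5 : Valued.v (-(τ / X)) * Valued.v X < Valued.v (4 : v.adicCompletion K) *
            Valued.v (4 : v.adicCompletion K) := by
          calc Valued.v (-(τ / X)) * Valued.v X ≤ Valued.v (4 : v.adicCompletion K) * Valued.v X :=
                mul_le_mul' hcon le_rfl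
            _ < _ := (mul_lt_mul_iff_right₀ (zero_lt_iff.2 v4)).2 hlt
        rw [hτX] at h5
        exact lt_irrefl _ h5
      have h6 := Bt_even (r := s) (by rw [hs', pow_two]) h4
      have h7 : ∃ n : ℤ, Valued.v (-(τ / X) * X) = exp (2 * n) := by
        rw [map_mul, hτX, ← map_mul]
        exact Bt_mul hev4 hev4
      have h8 : ∃ n : ℤ, Valued.v X = exp (2 * n) := Bt_can h7 h6
      have hs0 : s ≠ 0 := by
        rintro rfl
        exact hBne (by rw [hs']; ring)
      rw [eXτ, hs', ← pow_two]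
      exact Bt_mul h8 (Bt_sqv hs0)
    · rw [e1]
      ring
    · rw [hs_congr hr0 e1, hs_comm] at iso
      exact iso
  · -- case (c)
    have hA := unr_cases h2 hg0 (u := X) heq.le
    have hB : IsSquare (1 + -(τ / X)) ∨ IsSquare ((1 + -(τ / X)) * g0) := by
      apply unr_cases h2 hg0
      rw [heq] at hτX
      exact le_of_eq (mul_right_cancel₀ v4 hτX)
    have hvB : Valued.v (X - τ) = Valued.v (4 : v.adicCompletion K) := by
      rw [← heq]
      refine Valuation.map_sub_eq_of_lt_left _ ?_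
      rw [hτ, v16, heq]
      have h41 : Valued.v (4 : v.adicCompletion K) < 1 := by
        have h21 : Valued.v (2 : v.adicCompletion K) < 1 := by
          have h1 := v.valuedAdicCompletion_eq_valuation' (K := K) (2 : K)
          have h3 : ((2 : K) : v.adicCompletion K) = 2 := by
            exact map_ofNat (algebraMap K (v.adicCompletion K)) 2
          rw [h3] at h1
          rw [h1]
          exact h2
        have e4 : (4 : v.adicCompletion K) = 2 * 2 := by norm_num
        rw [e4, map_mul]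
        exact mul_lt_one_of_lt_of_le h21 h21.le
      calc Valued.v (4 : v.adicCompletion K) * Valued.v (4 : v.adicCompletion K)
          < Valued.v (4 : v.adicCompletion K) * 1 :=
            (mul_lt_mul_iff_right₀ (zero_lt_iff.2 v4)).2 h41
        _ = _ := mul_one _
    have hevX : ∃ n : ℤ, Valued.v (X - τ) = exp (2 * n) := by
      rw [hvB]
      exact hev4
    obtain ⟨A, hAd⟩ : ∃ A, A = 1 + X := ⟨_, rfl⟩
    obtain ⟨B, hBd⟩ : ∃ B, B = 1 + -(τ / X) := ⟨_, rfl⟩
    have hA1 : X + 1 = A := by rw [hAd]; ring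
    rw [← hAd] at hA
    rw [← hBd] at hB hBne eXτ
    have hAne : A ≠ 0 := by rw [← hA1]; exact hX1
    have hEAB : IsSquare (E * A * B) := by
      apply Bt_div (t := X) hX
      have e2 : E * A * B * X ^ 2 = E * (X * (X + 1) * (X - τ)) := by
        rw [eXτ, hA1]
        ring
      rw [e2]
      exact hsq
    rw [hA1]
    -- the nonsquare case: `E = g0 * square` gives everything
    have hEg : IsSquare (E * g0) → hs (E * (X - τ)) E = 0 := by
      intro h
      obtain ⟨w, hw, hw'⟩ := Bt_quot hE g0ne h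
      have h5 : hs (E * (X - τ)) E = hs (E * (X - τ)) g0 := hs_congr_right hw hw'
      rw [h5, hs_comm]
      refine (unr_even h2 hF hg0 (mul_ne_zero hE hXτ)).2 (Bt_mul ?_ hevX)
      rw [hw', map_mul, unr_one h2 hg0, one_mul]
      exact Bt_sqv hw
    have hsqg : ∀ y : v.adicCompletion K, IsSquare (y * g0 ^ 2) → IsSquare y :=
      fun y hy => Bt_div g0ne hy
    rcases hA with hA | hA <;> rcases hB with hB | hB
    · -- `E` is a square
      obtain ⟨p, hp⟩ := hA
      obtain ⟨q, hq⟩ := hB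
      have hp0 : p ≠ 0 := by rintro rfl; exact hAne (by rw [hp]; ring)
      have hq0 : q ≠ 0 := by rintro rfl; exact hBne (by rw [hq]; ring)
      have hsE : IsSquare E := by
        apply Bt_div (t := p * q) (mul_ne_zero hp0 hq0)
        have e2 : E * (p * q) ^ 2 = E * A * B := by rw [hp, hq]; ring
        rw [e2]
        exact hEAB
      refine ⟨fun _ => ⟨Or.inl ?_, hgE hsE hevX⟩, fun hn => absurd hsE hn⟩
      obtain ⟨m, hm⟩ := hsE
      exact ⟨m * p, by rw [hm, hp]; ring⟩
    · -- `A` a square, `B g0` a square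
      obtain ⟨p, hp⟩ := hA
      obtain ⟨q, hq⟩ := hB
      have hp0 : p ≠ 0 := by rintro rfl; exact hAne (by rw [hp]; ring)
      have hEg0 : IsSquare (E * g0) := by
        obtain ⟨m, hm⟩ := hEAB
        apply Bt_div (t := p * B) (mul_ne_zero hp0 hBne)
        refine ⟨m * q, ?_⟩
        calc E * g0 * (p * B) ^ 2 = (E * A * B) * (B * g0) := by rw [hp]; ring
          _ = m * m * (q * q) := by rw [hm, hq]
          _ = _ := by ring
      refine ⟨fun hsE => ?_, fun _ => ⟨Or.inr ⟨E * p, by rw [hp]; ring⟩, hEg hEg0⟩⟩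
      exfalso
      obtain ⟨m, hm⟩ := hsE
      have hm0 : m ≠ 0 := by rintro rfl; exact hE (by rw [hm]; ring)
      apply unr_nsq h2 hg0
      apply Bt_div (t := m) hm0
      have e2 : g0 * m ^ 2 = E * g0 := by rw [hm]; ring
      rw [e2]
      exact hEg0
    · -- `A g0` a square, `B` a square
      obtain ⟨p, hp⟩ := hA
      obtain ⟨q, hq⟩ := hB
      have hq0 : q ≠ 0 := by rintro rfl; exact hBne (by rw [hq]; ring)
      have hEA : IsSquare (E * A) := by
        apply Bt_div (t := q) hq0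
        have e2 : E * A * q ^ 2 = E * A * B := by rw [hq]; ring
        rw [e2]
        exact hEAB
      have hEg0 : IsSquare (E * g0) := by
        obtain ⟨m, hm⟩ := hEA
        apply Bt_div (t := A) hAne
        refine ⟨m * p, ?_⟩
        calc E * g0 * A ^ 2 = (E * A) * (A * g0) := by ring
          _ = m * m * (p * p) := by rw [hm, hp]
          _ = _ := by ring
      refine ⟨fun hsE => ⟨Or.inl hEA, hgE hsE hevX⟩, fun _ => ⟨Or.inl hEA, hEg hEg0⟩⟩
    · -- `A g0`, `B g0` squares: `E` is a square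
      obtain ⟨p, hp⟩ := hA
      obtain ⟨q, hq⟩ := hB
      have hsE : IsSquare E := by
        obtain ⟨m, hm⟩ := hEAB
        apply Bt_div (t := A * B * g0) (mul_ne_zero (mul_ne_zero hAne hBne) g0ne)
        refine ⟨m * p * q, ?_⟩
        calc E * (A * B * g0) ^ 2 = (E * A * B) * (A * g0) * (B * g0) := by ring
          _ = m * m * (p * p) * (q * q) := by rw [hm, hp, hq]
          _ = _ := by ring
      refine ⟨fun _ => ⟨Or.inr ?_, hgE hsE hevX⟩, fun hn => absurd hsE hn⟩
      obtain ⟨m, hm⟩ := hsE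
      exact ⟨m * p, by
        calc E * A * g0 = E * (A * g0) := by ring
          _ = m * m * (p * p) := by rw [hm, hp]
          _ = _ := by ring⟩
  · -- case (a)
    have h4 : Valued.v (-(τ / X)) < Valued.v (4 : v.adicCompletion K) := by
      by_contra hcon
      rw [not_lt] at hcon
      have h5 : Valued.v (4 : v.adicCompletion K) * Valued.v (4 : v.adicCompletion K) <
          Valued.v (-(τ / X)) * Valued.v X := by
        calc Valued.v (4 : v.adicCompletion K) * Valued.v (4 : v.adicCompletion K)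
            < Valued.v (4 : v.adicCompletion K) * Valued.v X :=
              (mul_lt_mul_iff_right₀ (zero_lt_iff.2 v4)).2 hgt
          _ ≤ _ := mul_le_mul' hcon le_rfl
      rw [hτX] at h5
      exact lt_irrefl _ h5
    obtain ⟨s, hs0, hs'⟩ := Bt_one h4
    have eXs : X - τ = X * s ^ 2 := by rw [eXτ, hs']
    have hEX1 : IsSquare (E * (X + 1)) := by
      apply Bt_div (t := X * s) (mul_ne_zero hX hs0)
      have e2 : E * (X + 1) * (X * s) ^ 2 = E * (X * (X + 1) * (X - τ)) := by
        rw [eXs]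
        ring
      rw [e2]
      exact hsq
    have e3 : E * (X - τ) = E * X * s ^ 2 := by rw [eXs]; ring
    refine ⟨fun hsE => ⟨Or.inl hEX1, ?_⟩, fun _ => ⟨Or.inl hEX1, ?_⟩⟩
    · obtain ⟨m, hm⟩ := hsE
      have hm0 : m ≠ 0 := by rintro rfl; exact hE (by rw [hm]; ring)
      have h5 : IsSquare (1 + X) := by
        apply Bt_div (t := m) hm0
        have e2 : (1 + X) * m ^ 2 = E * (X + 1) := by rw [hm]; ring
        rw [e2]
        exact hEX1
      obtain ⟨r, hr⟩ := h5
      have e4 : E * X = X * m ^ 2 := by rw [hm]; ring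
      rw [hs_congr hs0 e3, hs_congr hm0 e4, hs_comm]
      exact (unr_even h2 hF hg0 hX).2 (Bt_even (r := r) (by rw [hr, pow_two]) hgt)
    · obtain ⟨w, hw, hw'⟩ := Bt_quot hE hX1 hEX1
      have e4 : E * X = (-(X + 1) * (-X)) * w ^ 2 := by
        rw [hw']
        ring
      have h6 : hs (-(X + 1) * (-X)) (X + 1) = 0 := by
        rw [hF.mul _ _ _ (neg_ne_zero.2 hX1) (neg_ne_zero.2 hX) hX1, hs_comm (-(X + 1)),
          hs_neg hF.two hX1, zero_add]
        have h7 := hs_one_sub (-X)
        have e5 : 1 - -X = X + 1 := by ring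
        rwa [e5] at h7
      have h7 : hs (E * (X - τ)) E = hs (E * (X - τ)) (X + 1) := hs_congr_right hw hw'
      rw [h7, hs_congr hs0 e3, hs_congr hw e4]
      exact h6

theorem cond_two (h2 : v.valuation K 2 < 1) (hF : HF (v.adicCompletion K))
    {a b : v.adicCompletion K} {e : Fin 3 → v.adicCompletion K} (h : Spl a b e)
    (hδ : IsSquare (e 1 - e 0)) (h1 : Valued.v (e 1 - e 0) = 1)
    (h16 : Valued.v (e 2 - e 1) = Valued.v (16 : v.adicCompletion K))
    {E x : v.adicCompletion K} (hE : E ≠ 0) (hx : ∀ j, x ≠ e j)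
    (hsq : IsSquare (E * ((x - e 0) * (x - e 1) * (x - e 2))))
    {g0 : v.adicCompletion K} (hg0 : Unr g0) :
    LW (if IsSquare E then sc g0 else sc E) (sc (E * (x - e 0))) (sc (E * (x - e 2))) := by
  obtain ⟨d, hd⟩ := hδ
  have n10 : e 1 - e 0 ≠ 0 := sub_ne_zero.2 h.ne01.symm
  have hd0 : d ≠ 0 := by
    rintro rfl
    exact n10 (by rw [hd]; ring)
  have g0ne : g0 ≠ 0 := by
    rintro rfl
    have := unr_one h2 hg0
    rw [map_zero] at this
    exact zero_ne_one this
  obtain ⟨X, hX⟩ : ∃ X, X = (x - e 1) / (e 1 - e 0) := ⟨_, rfl⟩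
  obtain ⟨τ, hτ⟩ : ∃ τ, τ = (e 2 - e 1) / (e 1 - e 0) := ⟨_, rfl⟩
  have eX : x - e 1 = (e 1 - e 0) * X := by rw [hX]; field_simp
  have eτ : e 2 - e 1 = (e 1 - e 0) * τ := by rw [hτ]; field_simp
  have eX1 : x - e 0 = (X + 1) * d ^ 2 := by
    rw [pow_two, ← hd]
    linear_combination eX
  have eXτ : x - e 2 = (X - τ) * d ^ 2 := by
    rw [pow_two, ← hd]
    linear_combination eX - eτ
  have eXd : x - e 1 = X * d ^ 2 := by
    rw [pow_two, ← hd]
    linear_combination eX
  have x0 : x - e 0 ≠ 0 := sub_ne_zero.2 (hx 0)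
  have x1 : x - e 1 ≠ 0 := sub_ne_zero.2 (hx 1)
  have x2 : x - e 2 ≠ 0 := sub_ne_zero.2 (hx 2)
  have X1ne : X + 1 ≠ 0 := by
    intro h0
    rw [h0, zero_mul] at eX1
    exact x0 eX1
  have Xne : X ≠ 0 := by
    intro h0
    rw [h0, zero_mul] at eXd
    exact x1 eXd
  have Xτne : X - τ ≠ 0 := by
    intro h0
    rw [h0, zero_mul] at eXτ
    exact x2 eXτ
  have vτ : Valued.v τ = Valued.v (16 : v.adicCompletion K) := by
    rw [← h16, eτ, map_mul, h1, one_mul]
  have e0' : E * (x - e 0) = E * (X + 1) * d ^ 2 := by rw [eX1]; ring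
  have e2' : E * (x - e 2) = E * (X - τ) * d ^ 2 := by rw [eXτ]; ring
  have hsq' : IsSquare (E * (X * (X + 1) * (X - τ))) := by
    apply Bt_div (t := d ^ 3) (pow_ne_zero 3 hd0)
    have e3 : E * (X * (X + 1) * (X - τ)) * (d ^ 3) ^ 2 =
        E * ((x - e 0) * (x - e 1) * (x - e 2)) := by
      rw [eX1, eXτ, eXd]
      ring
    rw [e3]
    exact hsq
  have iso := iso_pt hF.two h hE hx hsq
  rw [hs_congr hd0 e0', hs_congr_right hd0 e2'] at iso
  obtain ⟨hc1, hc2⟩ := Bt_core h2 hF hE Xne X1ne Xτne vτ hsq' hg0 iso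
  have hE0 : E * (x - e 0) ≠ 0 := mul_ne_zero hE x0
  have hE2 : E * (x - e 2) ≠ 0 := mul_ne_zero hE x2
  have hup : ∀ y : v.adicCompletion K, IsSquare y → IsSquare (y * d ^ 2) := by
    rintro y ⟨m, hm⟩
    exact ⟨m * d, by rw [hm]; ring⟩
  unfold LW
  by_cases hsE : IsSquare E
  · rw [if_pos hsE]
    obtain ⟨h3, h4⟩ := hc1 hsE
    refine ⟨?_, ?_⟩
    · rcases h3 with h3 | h3
      · left
        rw [sc_eq_zero hE0, e0']
        exact hup _ h3
      · right
        apply Bt_sc hE0 g0ne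
        have e3 : E * (x - e 0) * g0 = E * (X + 1) * g0 * d ^ 2 := by rw [e0']; ring
        rw [e3]
        exact hup _ h3
    · rw [hsc_sc hE2 g0ne, hs_congr hd0 e2']
      exact h4
  · rw [if_neg hsE]
    obtain ⟨h3, h4⟩ := hc2 hsE
    refine ⟨?_, ?_⟩
    · rcases h3 with h3 | h3
      · left
        rw [sc_eq_zero hE0, e0']
        exact hup _ h3
      · right
        apply Bt_sc hE0 hE
        have e3 : E * (x - e 0) * E = E * (X + 1) * E * d ^ 2 := by rw [e0']; ring
        rw [e3]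
        exact hup _ h3
    · rw [hsc_sc hE2 hE, hs_congr hd0 e2']
      exact h4

end H36MX
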