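import Mathlib

/-!
ROW MXCa (project MP_78d38b_MX, counting block, about 90 lines, pure): a functional which is not among the `u v` forces
a nonzero class on which the values `u v c` are unbalanced.

PROOF. `χ : ZMod 2 → ℤ`, `χ 0 = 1`, `χ 1 = -1` (`χ (a + b) = χ a * χ b`, `decide`). For an additive `ψ : H →+ ZMod 2`, `ψ ≠ 0`: `∑ c, χ (ψ c) = 0` (choose `c₀` with `ψ c₀ = 1`; the substitution
`c ↦ c + c₀` (`Equiv.addRight c₀`, `Equiv.sum_comp`) changes the sign of the sum). `ψ v = φ + u v` is not zero for `v ∈ T` (otherwise `u v c = φ c` for all `c`, as `-x = x` in `ZMod 2`).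
So `0 = ∑ v ∈ T, ∑ c, χ (φ c + u v c) = ∑ c, χ (φ c) * D c`, `D c = ∑ v ∈ T, χ (u v c) = #{v | u v c = 0} - #{v | u v c = 1}` (`Finset.sum_comm`; `ZMod 2` has only the values `0, 1`). `D 0 = #T`,
so `#T = - ∑_{c ≠ 0} χ (φ c) D c ≤ ∑_{c ≠ 0} |D c|`. If `#T > card H * |D c|` for all `c ≠ 0`, then `card H * #T ≤ ∑_{c ≠ 0} card H * |D c| `, and each term is `< #T`, and there are `card H - 1` terms:
`card H * #T ≤ (card H - 1) * #T`, so `#T ≤ 0`, a contradiction to `T` nonempty (if `card H = 1` the sum over `c ≠ 0` is empty and `#T = 0`, contradiction as well).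
-/

set_option autoImplicit false
open scoped Classical

namespace H36MX

theorem fourier {H ι : Type} [AddCommGroup H] [Finite H] {T : Finset ι} (hT : T.Nonempty)
    (u : ι → H →+ ZMod 2) (φ : H →+ ZMod 2) (hno : ∀ v ∈ T, u v ≠ φ) :
    ∃ c : H, c ≠ 0 ∧ (T.card : ℤ) ≤
      (Nat.card H : ℤ) * |(T.card : ℤ) - 2 * ((T.filter (fun v => u v c = 1)).card : ℤ)| := by
  classical
  have : Fintype H := Fintype.ofFinite H
  set χ : ZMod 2 → ℤ := fun a => if a = 0 then 1 else -1 with hχ
  have hmul : ∀ a b : ZMod 2, χ (a + b) = χ a * χ b := by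
    intro a b
    simp only [hχ]
    revert a b
    decide
  have habs : ∀ a : ZMod 2, |χ a| = 1 := by
    intro a
    simp only [hχ]
    split_ifs <;> simp
  have hpsi : ∀ ψ : H →+ ZMod 2, ψ ≠ 0 → ∑ c : H, χ (ψ c) = 0 := by
    intro ψ hψ
    obtain ⟨c₀, hc₀⟩ : ∃ c₀, ψ c₀ ≠ 0 := by
      by_contra h
      push Not at h
      exact hψ (AddMonoidHom.ext (fun x => by simpa using h x))
    have h1 : χ (ψ c₀) = -1 := by
      simp only [hχ]
      rw [if_neg hc₀]
    have h2 : ∑ c : H, χ (ψ (c + c₀)) = ∑ c : H, χ (ψ c) :=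
      Equiv.sum_comp (Equiv.addRight c₀) (fun c => χ (ψ c))
    have h3 : ∑ c : H, χ (ψ (c + c₀)) = - ∑ c : H, χ (ψ c) := by
      rw [← Finset.sum_neg_distrib]
      refine Finset.sum_congr rfl (fun c _ => ?_)
      rw [map_add, hmul, h1]
      ring
    linarith
  have hself : ∀ a : ZMod 2, a + a = 0 := by decide
  have hv : ∀ v ∈ T, ∑ c : H, χ (φ c) * χ (u v c) = 0 := by
    intro v hvT
    have hne : φ + u v ≠ 0 := by
      intro h0
      apply hno v hvT
      refine AddMonoidHom.ext (fun x => ?_)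
      have hx : φ x + u v x = 0 := by
        have := DFunLike.congr_fun h0 x
        simpa using this
      have : u v x = (φ x + u v x) + φ x := by
        have := hself (φ x)
        calc u v x = (φ x + φ x) + u v x := by rw [this, zero_add]
          _ = (φ x + u v x) + φ x := by abel
      rw [this, hx, zero_add]
    have := hpsi (φ + u v) hne
    rw [← this]
    refine Finset.sum_congr rfl (fun c _ => ?_)
    rw [AddMonoidHom.add_apply, hmul]
  set D : H → ℤ := fun c => (T.card : ℤ) - 2 * ((T.filter (fun v => u v c = 1)).card : ℤ) with hD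
  have hsumD : ∀ c : H, ∑ v ∈ T, χ (u v c) = D c := by
    intro c
    have h1 : ∀ a : ZMod 2, χ a = 1 - 2 * (if a = 1 then (1 : ℤ) else 0) := by
      intro a
      simp only [hχ]
      revert a
      decide
    simp only [h1, hD]
    rw [Finset.sum_sub_distrib, ← Finset.mul_sum, Finset.sum_boole]
    simp
  have htot : ∑ c : H, χ (φ c) * D c = 0 := by
    have h1 : ∑ c : H, χ (φ c) * D c = ∑ c : H, ∑ v ∈ T, χ (φ c) * χ (u v c) := by
      refine Finset.sum_congr rfl (fun c _ => ?_)
      rw [← hsumD, Finset.mul_sum]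
    rw [h1, Finset.sum_comm]
    exact Finset.sum_eq_zero hv
  have hD0 : D 0 = T.card := by
    simp only [hD]
    have : T.filter (fun v => u v (0 : H) = 1) = ∅ := by
      refine Finset.filter_eq_empty_iff.2 (fun v _ => ?_)
      rw [map_zero]
      decide
    rw [this]
    simp
  have hχ0 : χ (φ 0) = 1 := by
    rw [map_zero]
    simp [hχ]
  by_contra hcon
  push Not at hcon
  have hTpos : (0 : ℤ) < T.card := by exact_mod_cast hT.card_pos
  have hsplit : ∑ c : H, χ (φ c) * D c = D 0 + ∑ c ∈ Finset.univ.erase (0 : H), χ (φ c) * D c := by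
    rw [← Finset.add_sum_erase Finset.univ (fun c => χ (φ c) * D c) (Finset.mem_univ (0 : H))]
    simp only [hχ0, one_mul]
  have hle1 : (T.card : ℤ) ≤ ∑ c ∈ Finset.univ.erase (0 : H), |D c| := by
    have h1 : (T.card : ℤ) = - ∑ c ∈ Finset.univ.erase (0 : H), χ (φ c) * D c := by
      have := hsplit
      rw [htot, hD0] at this
      linarith
    rw [h1]
    refine le_trans (neg_le_abs _) (le_trans (Finset.abs_sum_le_sum_abs _ _) ?_)
    refine Finset.sum_le_sum (fun c _ => ?_)
    rw [abs_mul, habs, one_mul]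
  have hcard : (Nat.card H : ℤ) = (Fintype.card H : ℤ) := by rw [Nat.card_eq_fintype_card]
  have hHpos : (0 : ℤ) < Nat.card H := by
    rw [hcard]
    exact_mod_cast Fintype.card_pos_iff.2 ⟨0⟩
  have hle2 : (Nat.card H : ℤ) * T.card ≤ ∑ c ∈ Finset.univ.erase (0 : H), (T.card : ℤ) := by
    calc (Nat.card H : ℤ) * T.card ≤ (Nat.card H : ℤ) * ∑ c ∈ Finset.univ.erase (0 : H), |D c| :=
          mul_le_mul_of_nonneg_left hle1 hHpos.le
      _ = ∑ c ∈ Finset.univ.erase (0 : H), (Nat.card H : ℤ) * |D c| := by rw [Finset.mul_sum]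
      _ ≤ ∑ c ∈ Finset.univ.erase (0 : H), (T.card : ℤ) := by
          refine Finset.sum_le_sum (fun c hc => ?_)
          exact (hcon c (Finset.ne_of_mem_erase hc)).le
  rw [Finset.sum_const, Finset.card_erase_of_mem (Finset.mem_univ _), Finset.card_univ, nsmul_eq_mul] at hle2
  have hc1 : 1 ≤ Fintype.card H := Fintype.card_pos_iff.2 ⟨0⟩
  rw [Nat.cast_sub hc1, hcard] at hle2
  push_cast at hle2
  nlinarith

end H36MX
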