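import Mathlib

/-!
ROW MXCb (project MP_78d38b_MX, counting block, about 90 lines, pure): the number of unbalanced subsets (Chebyshev).

PROOF. `n = T.card`. `∑_{A ⊆ T} (n - 2 |A|)^2 = n 2^n`: induction on `T` (`Finset.induction_on`, `Finset.sum_powerset_insert` or `Finset.powerset_insert` with `Finset.sum_union`, `Finset.sum_image`): for `insert a T` the subsets are `A` and
`insert a A`, `A ⊆ T`; `(n + 1 - 2|A|)^2 + (n + 1 - 2 (|A| + 1))^2 = 2 (n - 2|A|)^2 + 2`, so the sum is `2 n 2^n + 2 * 2^n = (n + 1) 2^(n+1)`. For an unbalanced `A`: `n ≤ b |n - 2|A||`, so `n^2 ≤ b^2 (n - 2|A|)^2`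
(`sq_le_sq'`, `sq_abs`). Sum over the unbalanced `A`: `n^2 * #unb ≤ b^2 * n * 2^n`; cancel `n` (if `n = 0` the claim is `0 ≤ ..`).
-/

set_option autoImplicit false
open scoped Classical

namespace H36MX

/-- The subset `A` of `T` is unbalanced. -/
def Unb {α : Type} (T : Finset α) (b : ℕ) (A : Finset α) : Prop :=
  (T.card : ℤ) ≤ (b : ℤ) * |(T.card : ℤ) - 2 * (A.card : ℤ)|

private theorem Cb_sum {α : Type} (T : Finset α) :
    ∑ A ∈ T.powerset, ((T.card : ℤ) - 2 * (A.card : ℤ)) ^ 2 = (T.card : ℤ) * (2 : ℤ) ^ T.card := by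
  induction T using Finset.induction_on with
  | empty => simp
  | insert a T ha ih =>
    rw [Finset.sum_powerset_insert ha]
    have h1 : ∀ A ∈ T.powerset, (((insert a T).card : ℤ) - 2 * (A.card : ℤ)) ^ 2 +
        (((insert a T).card : ℤ) - 2 * ((insert a A).card : ℤ)) ^ 2 =
        2 * ((T.card : ℤ) - 2 * (A.card : ℤ)) ^ 2 + 2 := by
      intro A hA
      have haA : a ∉ A := fun h => ha (Finset.mem_powerset.1 hA h)
      rw [Finset.card_insert_of_notMem ha, Finset.card_insert_of_notMem haA]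
      push_cast
      ring
    rw [← Finset.sum_add_distrib, Finset.sum_congr rfl h1, Finset.sum_add_distrib, ← Finset.mul_sum, ih,
      Finset.sum_const, Finset.card_powerset, Finset.card_insert_of_notMem ha]
    push_cast
    rw [nsmul_eq_mul]
    push_cast
    ring

theorem unb_count {α : Type} (T : Finset α) (b : ℕ) :
    T.card * (T.powerset.filter (fun A => Unb T b A)).card ≤ b ^ 2 * 2 ^ T.card := by
  rcases Nat.eq_zero_or_pos T.card with h0 | hpos
  · rw [h0, zero_mul]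
    exact Nat.zero_le _
  have h1 : ∀ A ∈ T.powerset.filter (fun A => Unb T b A), (T.card : ℤ) ^ 2 ≤
      (b : ℤ) ^ 2 * ((T.card : ℤ) - 2 * (A.card : ℤ)) ^ 2 := by
    intro A hA
    have h2 : (T.card : ℤ) ≤ (b : ℤ) * |(T.card : ℤ) - 2 * (A.card : ℤ)| := (Finset.mem_filter.1 hA).2
    calc (T.card : ℤ) ^ 2 ≤ ((b : ℤ) * |(T.card : ℤ) - 2 * (A.card : ℤ)|) ^ 2 :=
          pow_le_pow_left₀ (by positivity) h2 2
      _ = _ := by rw [mul_pow, sq_abs]
  have h3 : ((T.powerset.filter (fun A => Unb T b A)).card : ℤ) * (T.card : ℤ) ^ 2 ≤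
      (b : ℤ) ^ 2 * ((T.card : ℤ) * (2 : ℤ) ^ T.card) := by
    calc ((T.powerset.filter (fun A => Unb T b A)).card : ℤ) * (T.card : ℤ) ^ 2 =
          ∑ A ∈ T.powerset.filter (fun A => Unb T b A), (T.card : ℤ) ^ 2 := by
          rw [Finset.sum_const, nsmul_eq_mul]
      _ ≤ ∑ A ∈ T.powerset.filter (fun A => Unb T b A),
          (b : ℤ) ^ 2 * ((T.card : ℤ) - 2 * (A.card : ℤ)) ^ 2 := Finset.sum_le_sum h1
      _ ≤ ∑ A ∈ T.powerset, (b : ℤ) ^ 2 * ((T.card : ℤ) - 2 * (A.card : ℤ)) ^ 2 := by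
          refine Finset.sum_le_sum_of_subset_of_nonneg (Finset.filter_subset _ _) fun A _ _ => ?_
          positivity
      _ = _ := by rw [← Finset.mul_sum, Cb_sum]
  have hposZ : (0 : ℤ) < T.card := by exact_mod_cast hpos
  have h4 : (T.card : ℤ) * ((T.card : ℤ) * ((T.powerset.filter (fun A => Unb T b A)).card : ℤ)) ≤
      (T.card : ℤ) * ((b : ℤ) ^ 2 * (2 : ℤ) ^ T.card) := by
    linarith [h3, sq (T.card : ℤ), mul_comm ((T.powerset.filter (fun A => Unb T b A)).card : ℤ) ((T.card : ℤ) ^ 2),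
      mul_assoc (T.card : ℤ) (T.card : ℤ) ((T.powerset.filter (fun A => Unb T b A)).card : ℤ),
      mul_left_comm ((b : ℤ) ^ 2) (T.card : ℤ) (2 ^ T.card)]
  have h5 := le_of_mul_le_mul_left h4 hposZ
  exact_mod_cast h5

end H36MX
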