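import Pool.Agent.H36.MX.Ca
import Pool.Agent.H36.MX.Cb
import Pool.Agent.H76.MQ.Df
import Pool.Agent.H36.MT.Tj
import Pool.Agent.H76.PP.Ze

/-!
ROW MXCc (project MP_78d38b_MX, counting block, about 150 lines): if the stage is not good then an unbalanced pattern or many patterns are
realised. Use only the STATEMENTS of Ca, Cb.

PROOF. Unfold `GoodSt`: there are `L, θ`, `Cub` such that for `H = HH K S' : AddSubgroup (SC L)` one of `Finite H`, `Nat.card H ≤ b`, the realisation of functionals fails. `hr2 h hd : HR2 K L A B θ` (H76/PP/Ze.lean; how to use it: As1.lean /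
`H36MT.good_S`, `hF.dsc_ne` gives `hd`). For `v ∈ U`: `H36MT.exists_twoL h (hF.sqf v _) (6 ∉ v) (hF.typ v hv)` (H36/MT/Td.lean) gives `w₁, w₂` with `Two K θ v w₁ w₂`, `H36MT.TjS_la` (H36/MT/Tj.lean): `la w₁ c = la w₂ c` for `c ∈ H` (`v ∉ S'`, so
`eo w c = 0` for both). So (as in `rel_S`, H36/MT/Tj.lean: `hu`) there are additive `u v : SC L →+ ZMod 2` with `la w c = u v c` for all `w | v`, `c ∈ H`, `v ∈ U`. For `c ∈ H` let `W c = U.filter (fun v => u v c = 1)`;
then `la w c = ind (W c) (dn K w)` for `dn K w ∈ U` (values in `ZMod 2` are `0` or `1`), so `BadR S' U (ind (W c)) A B` if `c ≠ 0`.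
CASE 1: some `c ∈ H`, `c ≠ 0`, has `u v c = 0` for all `v ∈ T₁`: `W c ∩ T₁ = ∅` is unbalanced (`b ≥ 1`): first alternative.
CASE 2: not case 1, and `H` infinite or `b < Nat.card H`: there is a finset `F` of `b + 1` elements of `H` (`Set.exists_subset_card_eq`/`Infinite.exists_subset_card_eq`, or `Finset.exists_subset_card_eq`); `F.erase 0` has at least `b` elements, and
`c ↦ W c` is injective on `F` (if `W c = W c'` then `u v (c - c') = 0` for `v ∈ T₁ ⊆ U`, so `c = c'` by not case 1). `𝒜 = (F.erase 0).image W`: second alternative.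
CASE 3: `H` finite, `Nat.card H ≤ b`, and there is `φ` which is not realised: for all `v ∈ T₁` there are `c ∈ H`, `w | v` with `la w c ≠ φ c`, so the restrictions of `u v` and `φ` to `H` are different. `fourier` (with `T := T₁`): `c ≠ 0` in `H` with
`T₁.card ≤ Nat.card H * |T₁.card - 2 #{v ∈ T₁ | u v c = 1}|`, and `{v ∈ T₁ | u v c = 1} = W c ∩ T₁`: first alternative.
-/

set_option autoImplicit false
set_option linter.unusedSectionVars false
open scoped Classical

open WithZero NumberField IsDedekindDomain H38RT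
open H38T1 (SC sc scu rep eo la si Pri OddP tp unif)
open H76PP H36MT H76MQ

namespace H36MX

/-- The pattern of a set. -/
noncomputable def ind {α : Type} (W : Finset α) (v : α) : ZMod 2 := if v ∈ W then 1 else 0

private theorem MXCc_zmod (x : ZMod 2) (h : x ≠ 1) : x = 0 := by
  revert x
  decide

private theorem MXCc_zmod_eq (x y : ZMod 2) (h : x = 1 ↔ y = 1) : x = y := by
  revert x y
  decide

private theorem MXCc_u {K : Type} [Field K] [NumberField K]
    {S' U : Finset (HeightOneSpectrum (𝓞 K))}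
    (hU : ∀ v ∈ U, (6 : 𝓞 K) ∉ v.asIdeal ∧ v ∉ S')
    {e : ℕ} {q₀ : HeightOneSpectrum (𝓞 K)} {A B : 𝓞 K} (hF : FamS S' e q₀ U A B)
    {L : Type} [Field L] [NumberField L] [Algebra K L] {θ : L}
    (h : Cub K L (A : K) (B : K) θ) :
    ∃ u : HeightOneSpectrum (𝓞 K) → SC L →+ ZMod 2, ∀ v ∈ U,
      ∀ c ∈ (HH K S' : AddSubgroup (SC L)), ∀ w : HeightOneSpectrum (𝓞 L), dn K w = v →
        la w c = u v c := by
  obtain ⟨w₀, -⟩ := exists_above (L := L) q₀
  have : Nonempty (HeightOneSpectrum (𝓞 L)) := ⟨w₀⟩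
  have hR : HR2 K L A B θ := hr2 h hF.dsc_ne
  have h2 : ∀ v ∈ U, ∃ w₁ w₂ : HeightOneSpectrum (𝓞 L), Two K θ v w₁ w₂ := fun v hv =>
    exists_twoL h (hF.sqf v (hU v hv).2) (hU v hv).1 (hF.typ v hv)
  choose! w₁ w₂ hw using h2
  have hodd : ∀ v ∈ U, OddP v := fun v hv => TjS_odd (hU v hv).1
  have hodd1 : ∀ v ∈ U, OddP (w₁ v) := fun v hv => by
    rw [oddP_dn (K := K), (hw v hv).dn1]
    exact hodd v hv
  refine ⟨fun v => if h : v ∈ U then ⟨⟨la (w₁ v), H38T1.la_zero (hodd1 v h)⟩,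
      H38T1.la_add (hodd1 v h)⟩ else 0, fun v hv c hc w hwv => ?_⟩
  beta_reduce
  rw [dif_pos hv]
  change la w c = la (w₁ v) c
  obtain ⟨hc1, hc2⟩ := mem_HH.1 hc
  rcases (hw v hv).only w hwv with h4 | h4
  · rw [h4]
  · rw [h4]
    exact (TjS_la hR (hodd v hv) (hw v hv)
      (hc2 _ (by rw [(hw v hv).dn1]; exact (hU v hv).2))
      (hc2 _ (by rw [(hw v hv).dn2]; exact (hU v hv).2)) hc1).symm

theorem dicho {K : Type} [Field K] [NumberField K] {S' U T₁ : Finset (HeightOneSpectrum (𝓞 K))}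
    (hU : ∀ v ∈ U, (6 : 𝓞 K) ∉ v.asIdeal ∧ v ∉ S') (hT : T₁ ⊆ U) (hT0 : T₁.Nonempty)
    {e : ℕ} {q₀ : HeightOneSpectrum (𝓞 K)} {b : ℕ} (hb : 1 ≤ b) {A B : 𝓞 K}
    (hF : FamS S' e q₀ U A B) (hG : ¬ GoodSt S' T₁ b A B) :
    (∃ W ⊆ U, Unb T₁ b (W ∩ T₁) ∧ BadR S' U (ind W) A B) ∨
    ∃ 𝒜 : Finset (Finset (HeightOneSpectrum (𝓞 K))), b ≤ 𝒜.card ∧
      ∀ W ∈ 𝒜, W ⊆ U ∧ BadR S' U (ind W) A B := by
  by_contra hcon
  apply hG
  intro L _ _ _ θ h
  obtain ⟨u, hu⟩ := MXCc_u hU hF h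
  set H : AddSubgroup (SC L) := HH K S' with hH
  set W : SC L → Finset (HeightOneSpectrum (𝓞 K)) := fun c => U.filter (fun v => u v c = 1)
    with hW
  have hWU : ∀ c, W c ⊆ U := fun c => Finset.filter_subset _ _
  have hbad : ∀ c ∈ H, c ≠ 0 → BadR S' U (ind (W c)) A B := by
    intro c hc hne
    refine ⟨L, _, _, _, θ, c, h, hne, hc, fun w hw => ?_⟩
    rw [hu _ hw c hc w rfl]
    unfold ind
    by_cases h1 : u (dn K w) c = 1
    · rw [if_pos (Finset.mem_filter.2 ⟨hw, h1⟩), h1]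
    · have h3 : dn K w ∉ W c := fun h2 => h1 (Finset.mem_filter.1 h2).2
      rw [if_neg h3, MXCc_zmod _ h1]
  have hker : ∀ c ∈ H, (∀ v ∈ T₁, u v c = 0) → c = 0 := by
    intro c hc h0
    by_contra hne
    refine hcon (Or.inl ⟨W c, hWU c, ?_, hbad c hc hne⟩)
    have h1 : W c ∩ T₁ = ∅ := by
      rw [Finset.eq_empty_iff_forall_notMem]
      intro v hv
      obtain ⟨h2, h3⟩ := Finset.mem_inter.1 hv
      have h4 := (Finset.mem_filter.1 h2).2
      rw [h0 v h3] at h4
      exact absurd h4 (by decide)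
    unfold Unb
    rw [h1, Finset.card_empty, Nat.cast_zero, mul_zero, sub_zero, Nat.abs_cast]
    have h5 : (1 : ℤ) ≤ b := by exact_mod_cast hb
    have h6 : (0 : ℤ) ≤ T₁.card := Nat.cast_nonneg _
    nlinarith
  have hinj : ∀ c ∈ H, ∀ c' ∈ H, W c = W c' → c = c' := by
    intro c hc c' hc' hWW
    have h1 : c - c' = 0 := by
      refine hker _ (H.sub_mem hc hc') fun v hv => ?_
      rw [map_sub, sub_eq_zero]
      refine MXCc_zmod_eq _ _ ⟨fun h2 => ?_, fun h2 => ?_⟩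
      · have h3 : v ∈ W c := Finset.mem_filter.2 ⟨hT hv, h2⟩
        rw [hWW] at h3
        exact (Finset.mem_filter.1 h3).2
      · have h3 : v ∈ W c' := Finset.mem_filter.2 ⟨hT hv, h2⟩
        rw [← hWW] at h3
        exact (Finset.mem_filter.1 h3).2
    exact sub_eq_zero.1 h1
  have hbound : ∀ F : Finset (SC L), (∀ c ∈ F, c ∈ H) → F.card ≤ b := by
    intro F hFH
    by_contra hlt
    refine hcon (Or.inr ⟨(F.erase 0).image W, ?_, ?_⟩)
    · rw [Finset.card_image_of_injOn]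
      · have h1 := Finset.pred_card_le_card_erase (s := F) (a := (0 : SC L))
        omega
      · intro c hc c' hc' hWW
        exact hinj c (hFH c (Finset.mem_of_mem_erase (Finset.mem_coe.1 hc))) c'
          (hFH c' (Finset.mem_of_mem_erase (Finset.mem_coe.1 hc'))) hWW
    · intro W' hW'
      obtain ⟨c, hc, rfl⟩ := Finset.mem_image.1 hW'
      exact ⟨hWU c, hbad c (hFH c (Finset.mem_of_mem_erase hc)) (Finset.ne_of_mem_erase hc)⟩
  have hfinS : (H : Set (SC L)).Finite := by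
    by_contra hinf
    obtain ⟨F, hF1, hF2⟩ := Set.Infinite.exists_subset_card_eq hinf (b + 1)
    have h1 := hbound F (fun c hc => hF1 hc)
    omega
  have hfinH : Finite H := hfinS.to_subtype
  have hcard : Nat.card H ≤ b := by
    have h1 := hbound hfinS.toFinset (fun c hc => hfinS.mem_toFinset.1 hc)
    have h2 : Nat.card H = hfinS.toFinset.card := Nat.card_eq_card_finite_toFinset hfinS
    rw [h2]
    exact h1
  refine ⟨hfinH, hcard, fun φ => ?_⟩
  by_contra hno
  have hno' : ∀ v ∈ T₁, (u v).comp H.subtype ≠ φ.comp H.subtype := by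
    intro v hv he
    apply hno
    refine ⟨v, hv, fun c hc w hw => ?_⟩
    rw [hu v (hT hv) c hc w hw]
    exact DFunLike.congr_fun he ⟨c, hc⟩
  obtain ⟨c, hc0, hle⟩ := fourier hT0 (fun v => (u v).comp H.subtype) (φ.comp H.subtype) hno'
  refine hcon (Or.inl ⟨W c.1, hWU c.1, ?_, hbad c.1 c.2 (fun h1 => hc0 (Subtype.ext h1))⟩)
  have h1 : (T₁.filter (fun v => ((u v).comp H.subtype) c = 1)) = W c.1 ∩ T₁ := by
    ext v
    rw [Finset.mem_filter, Finset.mem_inter, Finset.mem_filter]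
    exact ⟨fun h2 => ⟨⟨hT h2.1, h2.2⟩, h2.1⟩, fun h2 => ⟨h2.2, h2.1.2⟩⟩
  unfold Unb
  rw [← h1]
  refine le_trans hle (mul_le_mul_of_nonneg_right ?_ (abs_nonneg _))
  exact_mod_cast hcard

end H36MX
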