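import Pool.Agent.H36.MX.Cc
import Pool.Agent.H54.MQ.Zc
import Pool.Agent.H36.PP.Fm

/-!
ROW MXCd (project MP_78d38b_MX, counting block, about 220 lines): the stage lemma. Use only the STATEMENTS of the imported rows.

NOTATION: `ρ v = 1/2 (1 - 1/Nv)`, `σ v = (1 + 1/Nv)^2/4`, `n = 5 * finrank`.
(sparse) If `∑_{v ∈ U} 1/Nv ≤ 1/8` then `2^|U| ∏_U σ ≤ 2 ∏_U ρ`: with `x = 1/Nv ≤ 1/8`: `2 σ = (1+x)^2/2 ≤ ρ (1 + 4 x + ..)`: show `(1 + x)^2 ≤ (1 - x) (1 + 4x)`: `(1 - x)(1 + 4x) - (1+x)^2 = x - 5 x^2 ≥ 0` for `x ≤ 1/5`. So `2 σ v ≤ (1 + 4 x_v) ρ v`, and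
`∏ (1 + 4 x_v) ≤ exp (4 ∑ x_v) ≤ exp (1/2) ≤ 2` (`Real.add_one_le_exp`, `Real.exp_sum`, `Real.exp_one_lt_d9`).
stage. `S' = S ∪ T₀`. `bad_countR K Bx_finite S' e _`: `C, N₀`. `P₀ = ∏_{v ∈ T₀} ρ v > 0` (if `Nv ≥ 2`, always; each factor is positive: `Nv v ≥ 2`). Choose `b ≥ 1` with `4 C / b ≤ δ P₀`, `M ≥ 1` with `4 C b^2 / M ≤ δ P₀`.
Let `T₁, T₂`, `U = T₁ ∪ T₂`. `X₀` from `bad_countR` for `U`. `Y = C * ∏_U σ * X^n`. For `W ⊆ U` let `P W = {p ∈ Bx K X | FamS S' e q₀ U p, BadR S' U (ind W) p}` (finite, `ncard ≤ Y`). A pair `p` of the set `F` on the left satisfies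
`FamS S' e q₀ U` (`irr` same; `typ` since `U ⊆ T₀ ∪ T₁ ∪ T₂`; `sqf` outside `S'` clear; `bdd` at `v ∈ T₀`, `v ∉ S`: `dsc ∉ v^2`, and `v^e ≤ v^2`). By `dicho` `F = F₁ ∪ F₂`; `F₁ ⊆ ⋃ P W` over `W ⊆ U` with `W ∩ T₁` unbalanced; the number of these `W` is at most
`#unb(T₁) * 2^|T₂|` (`W ↦ (W ∩ T₁, W ∩ T₂)` is injective on the subsets of `U`; `T₁, T₂` disjoint), so `|F₁| ≤ #unb * 2^|T₂| * Y`, and `|T₁| #unb ≤ b^2 2^|T₁|`, `|T₁| ≥ M`, so `|F₁| ≤ (b^2/M) 2^|U| Y ≤ (2 C b^2/M) ∏_U ρ X^n ≤ (δ/2) P₀ ∏_U ρ X^n`.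
`F₂`: every `p ∈ F₂` is in at least `b` of the sets `P W`, so `b |F₂| ≤ ∑_{W ⊆ U} |P W| ≤ 2^|U| Y` (double counting: `Finset.sum_card_bipartiteAbove_eq_sum_card_bipartiteBelow` or `Finset.card_eq_sum..`), `|F₂| ≤ (2C/b) ∏_U ρ X^n ≤ (δ/2) P₀ ∏_U ρ X^n`.
`∏_{T₀ ∪ U} ρ = P₀ ∏_U ρ` (`T₀` disjoint from `U`, as `v ∉ S'` for `v ∈ U`).
-/

set_option autoImplicit false
set_option linter.unusedSectionVars false
open scoped Classical

open WithZero NumberField IsDedekindDomain H38RT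
open H38T1 (SC sc scu rep eo la si Pri OddP tp unif)
open H76PP H36MT H76MQ

namespace H36MX

private lemma Cd_rho {K : Type} [Field K] [NumberField K] (v : HeightOneSpectrum (𝓞 K)) :
    2 ≤ Nv v := by
  have h1 : Nv v ≠ 0 := by
    rw [Nv]
    exact Ideal.absNorm_eq_zero_iff.not.2 v.ne_bot
  have h2 : Nv v ≠ 1 := by
    rw [Nv]
    exact Ideal.absNorm_eq_one_iff.not.2 v.isPrime.ne_top
  omega

private lemma Cd_pos {K : Type} [Field K] [NumberField K] (v : HeightOneSpectrum (𝓞 K)) :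
    0 < 1 / 2 * (1 - 1 / (Nv v : ℝ)) := by
  have h1 : (2 : ℝ) ≤ (Nv v : ℝ) := by exact_mod_cast Cd_rho v
  have h2 : 1 / (Nv v : ℝ) ≤ 1 / 2 := one_div_le_one_div_of_le (by norm_num) h1
  linarith

private lemma Cd_exp : Real.exp (1 / 2) ≤ 2 := by
  have h1 : Real.exp (1 / 2) ^ 2 = Real.exp 1 := by
    rw [← Real.exp_nat_mul]
    norm_num
  have h2 := Real.exp_one_lt_d9
  have h3 := Real.exp_pos (1 / 2)
  nlinarith

theorem sparse {K : Type} [Field K] [NumberField K] {U : Finset (HeightOneSpectrum (𝓞 K))}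
    (hU : ∑ v ∈ U, 1 / (Nv v : ℝ) ≤ 1 / 8) :
    2 ^ U.card * (∏ v ∈ U, ((1 + 1 / (Nv v : ℝ)) ^ 2 / 4)) ≤
      2 * ∏ v ∈ U, (1 / 2 * (1 - 1 / (Nv v : ℝ))) := by
  have hx0 : ∀ v : HeightOneSpectrum (𝓞 K), 0 ≤ 1 / (Nv v : ℝ) := fun v => by positivity
  have hx : ∀ v ∈ U, 1 / (Nv v : ℝ) ≤ 1 / 8 := fun v hv =>
    (Finset.single_le_sum (f := fun v => 1 / (Nv v : ℝ)) (fun v _ => hx0 v) hv).trans hU
  have h1 : 2 ^ U.card * (∏ v ∈ U, ((1 + 1 / (Nv v : ℝ)) ^ 2 / 4)) =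
      ∏ v ∈ U, (2 * ((1 + 1 / (Nv v : ℝ)) ^ 2 / 4)) := by
    rw [Finset.prod_mul_distrib, Finset.prod_const]
  have h2 : ∏ v ∈ U, (2 * ((1 + 1 / (Nv v : ℝ)) ^ 2 / 4)) ≤
      ∏ v ∈ U, ((1 + 4 * (1 / (Nv v : ℝ))) * (1 / 2 * (1 - 1 / (Nv v : ℝ)))) := by
    refine Finset.prod_le_prod (fun v _ => by positivity) fun v hv => ?_
    have := hx v hv
    have := hx0 v
    nlinarith
  have h3 : ∏ v ∈ U, (1 + 4 * (1 / (Nv v : ℝ))) ≤ 2 := by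
    calc ∏ v ∈ U, (1 + 4 * (1 / (Nv v : ℝ))) ≤ ∏ v ∈ U, Real.exp (4 * (1 / (Nv v : ℝ))) := by
          refine Finset.prod_le_prod (fun v _ => by have := hx0 v; positivity) fun v _ => ?_
          have := Real.add_one_le_exp (4 * (1 / (Nv v : ℝ)))
          linarith
      _ = Real.exp (∑ v ∈ U, 4 * (1 / (Nv v : ℝ))) := (Real.exp_sum _ _).symm
      _ ≤ Real.exp (1 / 2) := by
          rw [Real.exp_le_exp, ← Finset.mul_sum]
          linarith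
      _ ≤ 2 := Cd_exp
  rw [h1]
  refine h2.trans ?_
  rw [Finset.prod_mul_distrib]
  exact mul_le_mul_of_nonneg_right h3 (Finset.prod_nonneg fun v _ => (Cd_pos v).le)

private lemma Cd_count {α β : Type} {T₁ T₂ : Finset α} {b : ℕ} (hb : 1 ≤ b)
    (F : Finset β) (P : Finset α → Set β) {Y : ℝ}
    (hP : ∀ W ⊆ T₁ ∪ T₂, (P W).Finite ∧ ((P W).ncard : ℝ) ≤ Y)
    (hF : ∀ p ∈ F, (∃ W ⊆ T₁ ∪ T₂, Unb T₁ b (W ∩ T₁) ∧ p ∈ P W) ∨
      ∃ 𝒜 : Finset (Finset α), b ≤ 𝒜.card ∧ ∀ W ∈ 𝒜, W ⊆ T₁ ∪ T₂ ∧ p ∈ P W) :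
    (F.card : ℝ) ≤ ((T₁.powerset.filter (fun A => Unb T₁ b A)).card : ℝ) * 2 ^ T₂.card * Y +
      2 ^ (T₁ ∪ T₂).card * Y / b := by
  have hcard : ∀ W ⊆ T₁ ∪ T₂, ∀ f : Finset β, ((f.filter (fun p => p ∈ P W)).card : ℝ) ≤ Y := by
    intro W hW f
    refine le_trans ?_ (hP W hW).2
    have h1 : ((f.filter (fun p => p ∈ P W) : Finset β) : Set β).ncard ≤ (P W).ncard :=
      Set.ncard_le_ncard (fun p hp => (Finset.mem_filter.1 hp).2) (hP W hW).1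
    rw [Set.ncard_coe_finset] at h1
    exact_mod_cast h1
  have hY : 0 ≤ Y := by
    have := hcard ∅ (Finset.empty_subset _) ∅
    simpa using this
  set F₁ := F.filter (fun p => ∃ W ⊆ T₁ ∪ T₂, Unb T₁ b (W ∩ T₁) ∧ p ∈ P W) with hF₁
  set F₂ := F.filter (fun p => ∃ 𝒜 : Finset (Finset α), b ≤ 𝒜.card ∧
    ∀ W ∈ 𝒜, W ⊆ T₁ ∪ T₂ ∧ p ∈ P W) with hF₂
  have hsplit : F ⊆ F₁ ∪ F₂ := by
    intro p hp
    rw [Finset.mem_union, hF₁, hF₂, Finset.mem_filter, Finset.mem_filter]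
    rcases hF p hp with h | h
    exacts [Or.inl ⟨hp, h⟩, Or.inr ⟨hp, h⟩]
  have h0 : (F.card : ℝ) ≤ F₁.card + F₂.card := by
    exact_mod_cast (Finset.card_le_card hsplit).trans (Finset.card_union_le _ _)
  -- first part
  set 𝒲 := (T₁ ∪ T₂).powerset.filter (fun W => Unb T₁ b (W ∩ T₁)) with h𝒲
  have h1 : (F₁.card : ℝ) ≤ 𝒲.card * Y := by
    have hs : F₁ ⊆ 𝒲.biUnion (fun W => F₁.filter (fun p => p ∈ P W)) := by
      intro p hp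
      have hp' := hp
      rw [hF₁, Finset.mem_filter] at hp'
      obtain ⟨W, hW, hu, hpW⟩ := hp'.2
      rw [Finset.mem_biUnion]
      exact ⟨W, Finset.mem_filter.2 ⟨Finset.mem_powerset.2 hW, hu⟩,
        Finset.mem_filter.2 ⟨hp, hpW⟩⟩
    calc (F₁.card : ℝ) ≤ ((∑ W ∈ 𝒲, (F₁.filter (fun p => p ∈ P W)).card : ℕ) : ℝ) := by
          exact_mod_cast (Finset.card_le_card hs).trans Finset.card_biUnion_le
      _ = ∑ W ∈ 𝒲, ((F₁.filter (fun p => p ∈ P W)).card : ℝ) := by push_cast; rfl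
      _ ≤ ∑ W ∈ 𝒲, Y := Finset.sum_le_sum fun W hW =>
          hcard W (Finset.mem_powerset.1 (Finset.mem_filter.1 hW).1) _
      _ = 𝒲.card * Y := by rw [Finset.sum_const, nsmul_eq_mul]
  have h2 : 𝒲.card ≤ (T₁.powerset.filter (fun A => Unb T₁ b A)).card * 2 ^ T₂.card := by
    rw [← Finset.card_powerset, ← Finset.card_product]
    refine Finset.card_le_card_of_injOn (fun W => (W ∩ T₁, W ∩ T₂)) ?_ ?_
    · intro W hW
      have hW' := Finset.mem_filter.1 (Finset.mem_coe.1 hW)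
      rw [Finset.mem_coe, Finset.mem_product, Finset.mem_filter, Finset.mem_powerset,
        Finset.mem_powerset]
      exact ⟨⟨Finset.inter_subset_right, hW'.2⟩, Finset.inter_subset_right⟩
    · intro W hW W' hW' he
      have hW1 := Finset.mem_powerset.1 (Finset.mem_filter.1 (Finset.mem_coe.1 hW)).1
      have hW2 := Finset.mem_powerset.1 (Finset.mem_filter.1 (Finset.mem_coe.1 hW')).1
      rw [Prod.mk.injEq] at he
      have e1 : W = (W ∩ T₁) ∪ (W ∩ T₂) := by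
        rw [← Finset.inter_union_distrib_left]
        exact (Finset.inter_eq_left.2 hW1).symm
      have e2 : W' = (W' ∩ T₁) ∪ (W' ∩ T₂) := by
        rw [← Finset.inter_union_distrib_left]
        exact (Finset.inter_eq_left.2 hW2).symm
      rw [e1, e2, he.1, he.2]
  -- second part
  have h3 : (b : ℝ) * F₂.card ≤ 2 ^ (T₁ ∪ T₂).card * Y := by
    have h4 : ∀ p ∈ F₂, b ≤ ((T₁ ∪ T₂).powerset.filter (fun W => p ∈ P W)).card := by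
      intro p hp
      rw [hF₂, Finset.mem_filter] at hp
      obtain ⟨𝒜, h𝒜, hW⟩ := hp.2
      refine h𝒜.trans (Finset.card_le_card fun W hWA => ?_)
      rw [Finset.mem_filter, Finset.mem_powerset]
      exact hW W hWA
    have h5 : F₂.card * b ≤ ∑ W ∈ (T₁ ∪ T₂).powerset, (F₂.filter (fun p => p ∈ P W)).card := by
      calc F₂.card * b = ∑ p ∈ F₂, b := by rw [Finset.sum_const, smul_eq_mul]
        _ ≤ ∑ p ∈ F₂, ((T₁ ∪ T₂).powerset.filter (fun W => p ∈ P W)).card := Finset.sum_le_sum h4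
        _ = ∑ W ∈ (T₁ ∪ T₂).powerset, (F₂.filter (fun p => p ∈ P W)).card := by
            simp only [Finset.card_filter]
            exact Finset.sum_comm
    calc (b : ℝ) * F₂.card = ((F₂.card * b : ℕ) : ℝ) := by push_cast; ring
      _ ≤ ((∑ W ∈ (T₁ ∪ T₂).powerset, (F₂.filter (fun p => p ∈ P W)).card : ℕ) : ℝ) := by
          exact_mod_cast h5
      _ = ∑ W ∈ (T₁ ∪ T₂).powerset, ((F₂.filter (fun p => p ∈ P W)).card : ℝ) := by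
          push_cast; rfl
      _ ≤ ∑ W ∈ (T₁ ∪ T₂).powerset, Y := Finset.sum_le_sum fun W hW =>
          hcard W (Finset.mem_powerset.1 hW) _
      _ = 2 ^ (T₁ ∪ T₂).card * Y := by
          rw [Finset.sum_const, Finset.card_powerset, nsmul_eq_mul]
          push_cast
          ring
  have hb0 : (0 : ℝ) < b := by exact_mod_cast hb
  have h6 : (F₂.card : ℝ) ≤ 2 ^ (T₁ ∪ T₂).card * Y / b := by
    rw [le_div_iff₀ hb0]
    linarith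
  have h7 : (F₁.card : ℝ) ≤ ((T₁.powerset.filter (fun A => Unb T₁ b A)).card : ℝ) *
      2 ^ T₂.card * Y := by
    refine h1.trans (mul_le_mul_of_nonneg_right ?_ hY)
    exact_mod_cast h2
  linarith

theorem stage (K : Type) [Field K] [NumberField K] (S : Finset (HeightOneSpectrum (𝓞 K))) {e : ℕ}
    (he : 2 ≤ e) (T₀ : Finset (HeightOneSpectrum (𝓞 K))) (hT₀ : ∀ v ∈ T₀, v ∉ S) {δ : ℝ}
    (hδ : 0 < δ) : ∃ b N₀ M : ℕ, 1 ≤ b ∧ 1 ≤ M ∧ ∀ T₁ T₂ : Finset (HeightOneSpectrum (𝓞 K)),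
      Disjoint T₁ T₂ → (∀ v ∈ T₁ ∪ T₂, N₀ ≤ Nv v ∧ (6 : 𝓞 K) ∉ v.asIdeal ∧ v ∉ S ∧ v ∉ T₀) →
      M ≤ T₁.card → ∑ v ∈ T₁ ∪ T₂, 1 / (Nv v : ℝ) ≤ 1 / 8 → ∃ X₀ : ℝ, ∀ X : ℝ, X₀ ≤ X →
      ∀ q₀ : HeightOneSpectrum (𝓞 K),
        ({p : 𝓞 K × 𝓞 K | p ∈ Bx K X ∧ FamS S e q₀ (T₀ ∪ (T₁ ∪ T₂)) p.1 p.2 ∧
          ¬ GoodSt (S ∪ T₀) T₁ b p.1 p.2}.ncard : ℝ) ≤
          δ * (∏ v ∈ T₀ ∪ (T₁ ∪ T₂), (1 / 2 * (1 - 1 / (Nv v : ℝ)))) *
            X ^ (5 * Module.finrank ℚ K) := by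
  obtain ⟨C, N₀, hC, hcount⟩ := H54MQ.bad_countR K (H36PP.Bx_finite K) (S ∪ T₀) e (by omega)
  set P0 : ℝ := ∏ v ∈ T₀, (1 / 2 * (1 - 1 / (Nv v : ℝ))) with hP0
  have hP0' : 0 < P0 := Finset.prod_pos fun v _ => Cd_pos v
  have hδP : 0 < δ * P0 := mul_pos hδ hP0'
  obtain ⟨b₀, hb₀⟩ := exists_nat_ge (4 * C / (δ * P0))
  set b : ℕ := b₀ + 1 with hb
  have hb1 : 4 * C ≤ δ * P0 * b := by
    rw [div_le_iff₀ hδP] at hb₀
    push_cast [hb]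
    nlinarith
  obtain ⟨M₀, hM₀⟩ := exists_nat_ge (4 * C * b ^ 2 / (δ * P0))
  set M : ℕ := M₀ + 1 with hM
  have hM1 : 4 * C * b ^ 2 ≤ δ * P0 * M := by
    rw [div_le_iff₀ hδP] at hM₀
    push_cast [hM]
    nlinarith
  refine ⟨b, N₀, M, by omega, by omega, fun T₁ T₂ hdis hT hMT hsum => ?_⟩
  set U := T₁ ∪ T₂ with hU
  obtain ⟨X₀, hX₀⟩ := hcount U fun v hv => ⟨(hT v hv).1, (hT v hv).2.1, by
    rw [Finset.mem_union, not_or]
    exact (hT v hv).2.2⟩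
  refine ⟨max X₀ 0, fun X hX q₀ => ?_⟩
  have hXX : X₀ ≤ X := (le_max_left _ _).trans hX
  have hX0 : 0 ≤ X := (le_max_right _ _).trans hX
  have hXn : 0 ≤ X ^ (5 * Module.finrank ℚ K) := pow_nonneg hX0 _
  set Xn := X ^ (5 * Module.finrank ℚ K) with hXndef
  set SU : ℝ := ∏ v ∈ U, ((1 + 1 / (Nv v : ℝ)) ^ 2 / 4) with hSU
  set PU : ℝ := ∏ v ∈ U, (1 / 2 * (1 - 1 / (Nv v : ℝ))) with hPU
  have hSU0 : 0 ≤ SU := Finset.prod_nonneg fun v _ => by positivity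
  have hPU0 : 0 < PU := Finset.prod_pos fun v _ => Cd_pos v
  have hsp : 2 ^ U.card * SU ≤ 2 * PU := sparse hsum
  set Fs : Set (𝓞 K × 𝓞 K) := {p : 𝓞 K × 𝓞 K | p ∈ Bx K X ∧
    FamS S e q₀ (T₀ ∪ U) p.1 p.2 ∧ ¬ GoodSt (S ∪ T₀) T₁ b p.1 p.2} with hFs
  have hFfin : Fs.Finite := (H36PP.Bx_finite K X).subset fun p hp => hp.1
  set P : Finset (HeightOneSpectrum (𝓞 K)) → Set (𝓞 K × 𝓞 K) := fun W =>
    {p : 𝓞 K × 𝓞 K | p ∈ Bx K X ∧ FamS (S ∪ T₀) e q₀ U p.1 p.2 ∧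
      BadR (S ∪ T₀) U (ind W) p.1 p.2} with hP
  have hfam : ∀ p ∈ Fs, FamS (S ∪ T₀) e q₀ U p.1 p.2 := by
    rintro p ⟨-, hf, -⟩
    refine ⟨hf.irr, fun v hv => hf.typ v (Finset.mem_union_right _ hv), ?_, ?_⟩
    · intro v hv
      rw [Finset.mem_union, not_or] at hv
      exact hf.sqf v hv.1
    · intro v hv
      rw [Finset.mem_union] at hv
      by_cases hvS : v ∈ S
      · exact hf.bdd v hvS
      · exact fun h => hf.sqf v hvS (Ideal.pow_le_pow_right he h)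
  have hmain := Cd_count (T₁ := T₁) (T₂ := T₂) (b := b) (by omega) hFfin.toFinset P
    (Y := C * SU * Xn)
    (fun W _ => ⟨(H36PP.Bx_finite K X).subset fun p hp => hp.1, hX₀ X hXX q₀ (ind W)⟩) (by
      intro p hp
      rw [Set.Finite.mem_toFinset] at hp
      have hf := hfam p hp
      have hT1 : T₁.Nonempty := by
        rw [← Finset.card_pos]
        omega
      rcases dicho (S' := S ∪ T₀) (U := U) (T₁ := T₁) (fun v hv => ⟨(hT v hv).2.1, by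
        rw [Finset.mem_union, not_or]
        exact (hT v hv).2.2⟩) Finset.subset_union_left hT1 (b := b) (by omega) hf hp.2.2 with h | h
      · obtain ⟨W, hW, hu, hbad⟩ := h
        exact Or.inl ⟨W, hW, hu, hp.1, hf, hbad⟩
      · obtain ⟨𝒜, h𝒜, hW⟩ := h
        exact Or.inr ⟨𝒜, h𝒜, fun W hWA => ⟨(hW W hWA).1, hp.1, hf, (hW W hWA).2⟩⟩)
  have hnc : (Fs.ncard : ℝ) = (hFfin.toFinset.card : ℝ) := by
    rw [Set.ncard_eq_toFinset_card _ hFfin]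
  rw [hnc]
  refine hmain.trans ?_
  have hub := unb_count T₁ b
  set ub := (T₁.powerset.filter (fun A => Unb T₁ b A)).card with hubd
  have hub1 : (M : ℝ) * ub ≤ b ^ 2 * 2 ^ T₁.card := by
    have h1 : M * ub ≤ b ^ 2 * 2 ^ T₁.card := (Nat.mul_le_mul_right _ hMT).trans hub
    exact_mod_cast h1
  have hcU : (2 : ℝ) ^ U.card = 2 ^ T₁.card * 2 ^ T₂.card := by
    rw [hU, Finset.card_union_of_disjoint hdis, pow_add]
  have hprod : ∏ v ∈ T₀ ∪ U, (1 / 2 * (1 - 1 / (Nv v : ℝ))) = P0 * PU := by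
    rw [Finset.prod_union]
    rw [Finset.disjoint_left]
    intro v hv hvU
    exact (hT v hvU).2.2.2 hv
  rw [hprod]
  have hb0 : (0 : ℝ) < b := by
    rw [hb]
    positivity
  have hM0 : (0 : ℝ) < M := by
    rw [hM]
    positivity
  have hYY : 2 ^ U.card * (C * SU * Xn) ≤ 2 * C * PU * Xn := by
    have h1 := mul_le_mul_of_nonneg_left hsp (mul_nonneg hC.le hXn)
    nlinarith
  have hY0 : 0 ≤ C * SU * Xn := mul_nonneg (mul_nonneg hC.le hSU0) hXn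
  have t1 : (ub : ℝ) * 2 ^ T₂.card * (C * SU * Xn) ≤ δ * P0 * PU * Xn / 2 := by
    have h1 : (ub : ℝ) * 2 ^ T₂.card ≤ b ^ 2 / M * 2 ^ U.card := by
      rw [hcU, div_mul_eq_mul_div, le_div_iff₀ hM0]
      calc (ub : ℝ) * 2 ^ T₂.card * M = (M * ub) * 2 ^ T₂.card := by ring
        _ ≤ (b ^ 2 * 2 ^ T₁.card) * 2 ^ T₂.card := by gcongr
        _ = _ := by ring
    have h2 : 4 * C * ((b : ℝ) ^ 2 / M) ≤ δ * P0 := by
      rw [mul_div_assoc', div_le_iff₀ hM0]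
      exact hM1
    calc (ub : ℝ) * 2 ^ T₂.card * (C * SU * Xn) ≤ b ^ 2 / M * 2 ^ U.card * (C * SU * Xn) :=
          mul_le_mul_of_nonneg_right h1 hY0
      _ = b ^ 2 / M * (2 ^ U.card * (C * SU * Xn)) := by ring
      _ ≤ b ^ 2 / M * (2 * C * PU * Xn) := by gcongr
      _ = (4 * C * (b ^ 2 / M)) * (PU * Xn) / 2 := by ring
      _ ≤ (δ * P0) * (PU * Xn) / 2 := by gcongr
      _ = _ := by ring
  have t2 : 2 ^ U.card * (C * SU * Xn) / b ≤ δ * P0 * PU * Xn / 2 := by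
    rw [div_le_iff₀ hb0]
    have h1 : 0 ≤ PU * Xn := mul_nonneg hPU0.le hXn
    calc 2 ^ U.card * (C * SU * Xn) ≤ 2 * C * PU * Xn := hYY
      _ = (4 * C) * (PU * Xn) / 2 := by ring
      _ ≤ (δ * P0 * b) * (PU * Xn) / 2 := by gcongr
      _ = _ := by ring
  calc _ ≤ δ * P0 * PU * Xn / 2 + δ * P0 * PU * Xn / 2 := add_le_add t1 t2
    _ = _ := by ring

end H36MX
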