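import Pool.Agent.H36.MX.Wa
import Pool.Agent.H36.MX.Qd
import Pool.Agent.H30.ZO.Ad
import Pool.Agent.H36.CY.Ly

/-!
ROW MXHb (project MP_78d38b_MX, about 150 lines): in a quadratic extension `M = K(s)`, `s^2 = D`, there is one place above `v` if `D` is not a square in `K_v`.

PROOF. Elementary facts on `QD` (span, norm, σ) are proved in Qd.lean. Let `w` be above `v` (`H76PP.exists_above`) and `w'` the place with `w'.valuation M x = w.valuation M (σ x)` (see H36/CY/Ly.lean; or construct: `asIdeal = w.asIdeal.comap (RingOfIntegers.mapRingEquiv ..)`, as in the definition `H86D.sw` in Pool/Agent/H86/T3D/Df.lean or `H38T1.mv`; compare valuations by `valuation` of a comap, or avoid `w'`: see the next lines).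
(If `w.valuation M (σ x) = w.valuation M x` for all `x` we are done. Otherwise `w' ≠ w`.)
Claim `w = w'`. Otherwise there is `x ∈ M` (weak, row file Wa.lean) with `|x - s|_w < |4 s|_w |s|_w...` precisely `|x - s|_w < |8 D|_w / |s|_w ...`: choose `ε = |8|_w |s|_w` and `|x - s|_w < ε`, `|x + s|_{w'} < ε'` with `ε' = |8|_{w'} |s|_{w'}`; note `|z|_{w'} = |σ z|_w`, so `|σ x - s|_w = |σ (x + s)|_w = |x + s|_{w'} < ε'` and `ε' = |8|_w |s|_w = ε`
(`σ 8 = 8`, `σ s = -s`). So `y = (x + σ x) / 2`, which lies in `K` (fixed by `σ`; coordinates with respect to `1, s`), satisfies `|y - s|_w < |4 s|_w`, hence `|y^2 - D|_w = |y - s|_w |y + s|_w < |4 s|_w |s|_w = |4 D|_w` (`|y + s|_w = |y - s + 2 s|_w ≤ |s|_w`), so `|D - y^2|_v < |4 D|_v` (`H36CY.val_lt_iff`), and `|4 D|_v = |4 y^2|_v`: by `H36CY.sq_near'` `D` is `y^2` times a square in `K_v`,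
a contradiction to hD. So `w` is the only place and `|σ x|_w = |x|_{w'} = |x|_w`.
qq: copy the proof of `H30ZO.prod_qq` (H30/ZO/Ad.lean) with `finrank = 2` and the one place `w` instead of the product (`ord_norm`, `Nv w = Nv v ^ f`): `qq w = qq v ^ 2`.
-/

set_option autoImplicit false
set_option linter.unusedSectionVars false
open scoped Classical

open WithZero NumberField IsDedekindDomain H38RT
open H38T1 (SC sc scu rep rep_ne sc_rep sc_mul sc_eq_zero sc_surj eo la si Pri OddP tp unif ka)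
open H76PP

namespace H36MX

variable {K M : Type} [Field K] [NumberField K] [Field M] [NumberField M] [Algebra K M]

private theorem Hb_ext {w w' : HeightOneSpectrum (𝓞 M)}
    (h : ∀ x : M, w.valuation M x = w'.valuation M x) : w = w' := by
  refine HeightOneSpectrum.ext (Ideal.ext fun x => ?_)
  rw [← w.valuation_lt_one_iff_mem (K := M) x, ← w'.valuation_lt_one_iff_mem (K := M) x, h]

private theorem Hb_nat (w : HeightOneSpectrum (𝓞 M)) (n : ℕ) : w.valuation M (n : M) ≤ 1 := by
  have e : algebraMap (𝓞 M) M (n : 𝓞 M) = (n : M) := map_natCast _ n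
  rw [← e]
  exact w.valuation_le_one _

private theorem Hb_inv {D : K} {s : M} {σ : M ≃ₐ[K] M} (hQ : QD D s σ)
    {v : HeightOneSpectrum (𝓞 K)} (hD : ¬ IsSquare (algebraMap K (v.adicCompletion K) D))
    {w w' : HeightOneSpectrum (𝓞 M)} (hw : dn K w = v)
    (h : ∀ x : M, w.valuation M (σ x) = w'.valuation M x) : w = w' := by
  by_contra hne
  have h8 : ∀ V : HeightOneSpectrum (𝓞 M), V.valuation M (8 * s) ≠ 0 := by
    intro V
    rw [Valuation.ne_zero_iff]
    exact mul_ne_zero (by norm_num) hQ.s0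
  obtain ⟨x, hx⟩ := weak ({w, w'} : Finset (HeightOneSpectrum (𝓞 M)))
    (fun V => if V = w then s else -s) h8
  have hx1 : w.valuation M (x - s) < w.valuation M (8 * s) := by
    have := hx w (by simp)
    rwa [if_pos rfl] at this
  have hx2 : w'.valuation M (x + s) < w'.valuation M (8 * s) := by
    have := hx w' (by simp)
    rw [if_neg (Ne.symm hne), sub_neg_eq_add] at this
    exact this
  have e8 : σ (8 * s) = -(8 * s) := by
    rw [map_mul, hQ.neg, map_ofNat]
    ring
  rw [← h, ← h, map_add, hQ.neg, e8, Valuation.map_neg] at hx2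
  obtain ⟨a, b, rfl⟩ := hQ.span x
  rw [hQ.sig] at hx2
  have h3 : w.valuation M (2 * (algebraMap K M a - s)) < w.valuation M (8 * s) := by
    have e1 : 2 * (algebraMap K M a - s) =
        (algebraMap K M a + algebraMap K M b * s - s) +
          (algebraMap K M a - algebraMap K M b * s + -s) := by ring
    rw [e1]
    exact Valuation.map_add_lt _ hx1 hx2
  have h4 : w.valuation M (algebraMap K M a - s) < w.valuation M (4 * s) := by
    have e1 : (8 : M) * s = 2 * (4 * s) := by ring
    rw [e1, map_mul, map_mul (w.valuation M) 2 (4 * s)] at h3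
    exact lt_of_mul_lt_mul_left' h3
  have h5 : w.valuation M (4 * s) ≤ w.valuation M s := by
    rw [map_mul]
    exact mul_le_of_le_one_left' (by simpa using Hb_nat w 4)
  have h6 : w.valuation M (algebraMap K M a + s) ≤ w.valuation M s := by
    have e1 : algebraMap K M a + s = (algebraMap K M a - s) + 2 * s := by ring
    rw [e1]
    refine Valuation.map_add_le _ (h4.le.trans h5) ?_
    rw [map_mul]
    exact mul_le_of_le_one_left' (by simpa using Hb_nat w 2)
  have hs0 : w.valuation M s ≠ 0 := (Valuation.ne_zero_iff _).2 hQ.s0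
  have h7 : w.valuation M (algebraMap K M (a ^ 2 - D)) <
      w.valuation M (algebraMap K M (4 * D)) := by
    have e1 : algebraMap K M (a ^ 2 - D) =
        (algebraMap K M a - s) * (algebraMap K M a + s) := by
      rw [map_sub, map_pow, ← hQ.sq]
      ring
    have e2 : algebraMap K M (4 * D) = (4 * s) * s := by
      rw [map_mul, map_ofNat, ← hQ.sq]
      ring
    rw [e1, e2, map_mul, map_mul (w.valuation M) (4 * s) s]
    calc w.valuation M (algebraMap K M a - s) * w.valuation M (algebraMap K M a + s)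
        ≤ w.valuation M (algebraMap K M a - s) * w.valuation M s := mul_le_mul' le_rfl h6
      _ < w.valuation M (4 * s) * w.valuation M s :=
        mul_lt_mul_of_pos_right h4 (zero_lt_iff.2 hs0)
  have h9 := (H36CY.val_lt_iff w (a ^ 2 - D) (4 * D)).1 h7
  rw [hw] at h9
  obtain ⟨r, hr0, hr⟩ := H36CY.sq_near' v h9
  apply hD
  refine ⟨algebraMap K (v.adicCompletion K) a / r, ?_⟩
  rw [map_pow] at hr
  rw [div_mul_div_comm, eq_div_iff (mul_ne_zero hr0 hr0)]
  linear_combination -hr

private theorem Hb_Nv (w : HeightOneSpectrum (𝓞 M)) :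
    Nv w = Nv (dn K w) ^ (w.asIdeal.inertiaDeg (𝓞 K)) := by
  have h1 : w.asIdeal.IsMaximal := w.isMaximal
  have h2 : (dn K w).asIdeal.IsMaximal := (dn K w).isMaximal
  have h3 : w.asIdeal.LiesOver (dn K w).asIdeal := ⟨rfl⟩
  have h4 : Ideal.relNorm (𝓞 K) w.asIdeal = (dn K w).asIdeal ^ (w.asIdeal.inertiaDeg (𝓞 K)) :=
    Ideal.relNorm_eq_pow_of_isMaximal w.asIdeal (dn K w).asIdeal
  have h5 := Ideal.absNorm_relNorm (R := 𝓞 K) (S := 𝓞 M) w.asIdeal
  rw [h4, map_pow] at h5
  exact h5.symm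

private theorem Hb_e2 {k : Type} [Field k] [NumberField k] (v : HeightOneSpectrum (𝓞 k)) :
    ord (v.valuation k) 2 = (H30ZO.e2 v : ℤ) := by
  rw [ord, H30ZO.e2_spec, log_exp, neg_neg]

private theorem Hb_prod (hfr : Module.finrank K M = 2) (v : HeightOneSpectrum (𝓞 K)) :
    ∏ w ∈ (fin_above (L := M) v).toFinset, H30ZO.qq w = H30ZO.qq v ^ 2 := by
  have h2L : (2 : M) ≠ 0 := two_ne_zero
  have hn : Algebra.norm K (2 : M) = 2 ^ 2 := by
    have e1 := Algebra.norm_algebraMap (R := K) (S := M) (2 : K)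
    rw [hfr, map_ofNat] at e1
    exact e1
  have h1 := ord_norm (K := K) (L := M) v h2L
  have h0 : ∑ᶠ w : {w : HeightOneSpectrum (𝓞 M) // dn K w = v},
        (w.1.asIdeal.inertiaDeg (𝓞 K) : ℤ) * ord (w.1.valuation M) 2 =
      ∑ w ∈ (fin_above (L := M) v).toFinset,
        (w.asIdeal.inertiaDeg (𝓞 K) : ℤ) * ord (w.valuation M) 2 := by
    rw [← finsum_mem_eq_finite_toFinset_sum (fun w : HeightOneSpectrum (𝓞 M) =>
      (w.asIdeal.inertiaDeg (𝓞 K) : ℤ) * ord (w.valuation M) 2) (fin_above (L := M) v)]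
    exact finsum_set_coe_eq_finsum_mem {w : HeightOneSpectrum (𝓞 M) | dn K w = v}
      (f := fun w => (w.asIdeal.inertiaDeg (𝓞 K) : ℤ) * ord (w.valuation M) 2)
  have h2k : (2 : K) ≠ 0 := two_ne_zero
  have h3 : ord (v.valuation K) ((2 : K) ^ 2) = 2 * (H30ZO.e2 v : ℤ) := by
    have e1 : (2 : K) ^ 2 = 2 * 2 := by ring
    rw [e1, ord_mul h2k h2k, Hb_e2]
    ring
  rw [h0, hn, h3] at h1
  have h4 : 2 * H30ZO.e2 v = ∑ w ∈ (fin_above (L := M) v).toFinset,
      w.asIdeal.inertiaDeg (𝓞 K) * H30ZO.e2 w := by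
    have e1 : ((2 * H30ZO.e2 v : ℕ) : ℤ) = ((∑ w ∈ (fin_above (L := M) v).toFinset,
        w.asIdeal.inertiaDeg (𝓞 K) * H30ZO.e2 w : ℕ) : ℤ) := by
      push_cast
      rw [h1]
      refine Finset.sum_congr rfl fun w _ => ?_
      rw [Hb_e2]
    exact_mod_cast e1
  have h5 : ∀ w ∈ (fin_above (L := M) v).toFinset,
      H30ZO.qq w = Nv v ^ (w.asIdeal.inertiaDeg (𝓞 K) * H30ZO.e2 w) := by
    intro w hw
    have e1 : dn K w = v := by
      have := (Set.Finite.mem_toFinset _).1 hw
      exact this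
    rw [H30ZO.qq, Hb_Nv (K := K) w, e1, ← pow_mul]
  rw [Finset.prod_congr rfl h5, Finset.prod_pow_eq_pow_sum, ← h4, H30ZO.qq, ← pow_mul, mul_comm]

theorem quad_place {D : K} {s : M} {σ : M ≃ₐ[K] M} (hQ : QD D s σ)
    (v : HeightOneSpectrum (𝓞 K)) (hD : ¬ IsSquare (algebraMap K (v.adicCompletion K) D)) :
    ∃ w : HeightOneSpectrum (𝓞 M), dn K w = v ∧
      (∀ x : M, w.valuation M (σ x) = w.valuation M x) ∧ H30ZO.qq w = H30ZO.qq v ^ 2 := by
  obtain ⟨w, hw⟩ := exists_above (L := M) v
  obtain ⟨w', h1, -⟩ := Pool.Agent.H10.exists_conj σ w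
  have hww : w = w' := Hb_inv hQ hD hw h1
  subst hww
  refine ⟨w, hw, h1, ?_⟩
  have iq : Algebra.IsQuadraticExtension K M := { finrank_eq_two' := hQ.rk }
  have ig : IsGalois K M := inferInstance
  have huniq : (fin_above (L := M) v).toFinset = {w} := by
    ext w1
    rw [Set.Finite.mem_toFinset, Finset.mem_singleton, Set.mem_setOf_eq]
    constructor
    · intro h2
      obtain ⟨g, hg⟩ := H36CY.conj_exists (K := K) (W := w) (W' := w1) (by rw [h2, hw])
      apply Hb_ext
      intro x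
      rw [hg]
      rcases hQ.aut g with h3 | h3
      · rw [h3]
      · rw [h3, h1]
    · rintro rfl
      exact hw
  have h4 := Hb_prod (K := K) (M := M) hQ.rk v
  rw [huniq, Finset.prod_singleton] at h4
  exact h4

end H36MX
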