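import Pool.Agent.H36.MX.Hu
import Pool.Agent.H38.T1.Ea

/-!
ROW MXHf (project MP_78d38b_MX, about 120 lines): the symbol of a primary element at a place above two. Use the STATEMENTS of Ha, Hh, Hu.

`Pri v (sc y)` (H38/T1/Df.lean) means `Prm (v.valuation K) (rep (sc y))`: `rep (sc y) = t^2 (z^2 - 4 c)`, `t ≠ 0`, `|z| = 1`, `|c| ≤ 1` (H38/RT/Dp.lean); `ka v (sc y) = kp (v.valuation K) (rep (sc y))`. `rep (sc y)` is `y` times a square. See H38/RT/Kq.lean (`kp_eq`) and the definition of `kp`, `kap` (H38/RT/Df.lean): `ka v (sc y) = 0` iff `t^2 + z t + c` has a root modulo `v` (integral `t`).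
PROOF of hs_pri. In `F = K_v`: `y = (square) * (1 + 4 u')`, `u' = -c / z^2`, `|u'| ≤ 1`. By unr_cases (`g` from exists_unr) it is a square or `g` times a square.
If `ka v (sc y) = 0`: there is `t` with `|t^2 + z t + c| < 1`: `(2t + z)^2 = z^2 + 4(t^2 + z t) `, so `z^2 - 4c = (2t+z)^2 - 4 (t^2 + z t + c)`, `|4 (..)| < |4|`, `|2t + z| = 1`: a square in `F`. Then both sides are `0` (hs_of_sq, hs_comm).
If `ka v (sc y) = 1`: `z^2 - 4c` is not a square in `F` (if it were `r^2`, then `|r| = 1`, `(r - z)(r + z) = -4c`, `r - z = 2 t` with `|t| ≤ 1` (one of `|r-z|, |r+z|` is `≤ |2|`, both then since the difference is `2z`), so `t^2 + z t + c = 0` with `t ∈ F` integral; approximate `t` by an element of `K` (near_coe): a root modulo `v`), so `y = g *` square, and `hs x y = hs x g = 0 ↔ |x|` is an even power (unr_even), i.e. `eo v (sc x) = 0`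
(`H38T1.eo_sc`: `eo v (sc x) = (ord x : ZMod 2)`, `ord = - log`); so `hs x y = eo v (sc x)`.
-/

set_option autoImplicit false
set_option linter.unusedSectionVars false
open scoped Classical

open WithZero NumberField IsDedekindDomain H38RT
open H38T1 (SC sc scu rep rep_ne sc_rep sc_mul sc_eq_zero sc_surj eo la si Pri OddP tp unif ka)
open H76PP

namespace H36MX

variable {K : Type} [Field K] [NumberField K] {v : HeightOneSpectrum (𝓞 K)}

private theorem Hf_val (x : K) :
    Valued.v (algebraMap K (v.adicCompletion K) x) = v.valuation K x :=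
  v.valuedAdicCompletion_eq_valuation' (K := K) x

private theorem Hf_le {R : Type} [Field R] (W : Valuation R (WithZero (Multiplicative ℤ)))
    {z c t : R} (hz : W z = 1) (hc : W c ≤ 1) (ht : W (t ^ 2 + z * t + c) ≤ 1) : W t ≤ 1 := by
  by_contra hcon
  rw [not_le] at hcon
  have hzt : W (z * t + c) < W (t ^ 2) := by
    refine lt_of_le_of_lt (W.map_add _ _) (max_lt ?_ ?_)
    · rw [map_mul, hz, one_mul, map_pow, pow_two]
      exact lt_mul_of_one_lt_left (zero_lt_one.trans hcon) hcon
    · rw [map_pow]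
      exact lt_of_le_of_lt hc (one_lt_pow₀ hcon two_ne_zero)
  have e : W (t ^ 2 + z * t + c) = W (t ^ 2) := by
    rw [add_assoc]
    exact Valuation.map_add_eq_of_lt_left W hzt
  rw [e, map_pow] at ht
  exact absurd (one_lt_pow₀ hcon two_ne_zero) (not_lt.2 ht)

private theorem Hf_sq (h2 : v.valuation K 2 < 1) {z c t : K} (hz : v.valuation K z = 1)
    (hc : v.valuation K c ≤ 1) (ht : v.valuation K (t ^ 2 + z * t + c) < 1) :
    IsSquare (algebraMap K (v.adicCompletion K) (z ^ 2 - 4 * c)) := by
  have ht1 : v.valuation K t ≤ 1 := Hf_le _ hz hc ht.le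
  have hu : v.valuation K (2 * t + z) = 1 := by
    rw [← hz]
    refine Valuation.map_add_eq_of_lt_right _ ?_
    rw [hz, map_mul]
    exact mul_lt_one_of_lt_of_le h2 ht1
  have h4 : v.valuation K 4 ≠ 0 := (Valuation.ne_zero_iff _).2 (by norm_num)
  have hcz : CharZero (v.adicCompletion K) := H36CY.char_zero v
  obtain ⟨r, -, hr⟩ := H36CY.sq_near
    (y := algebraMap K (v.adicCompletion K) (z ^ 2 - 4 * c))
    (z := algebraMap K (v.adicCompletion K) ((2 * t + z) ^ 2)) (by
    have e4 : (4 : v.adicCompletion K) = algebraMap K (v.adicCompletion K) 4 :=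
      (map_ofNat _ 4).symm
    rw [e4, ← map_sub, ← map_mul, Hf_val, Hf_val]
    have e1 : z ^ 2 - 4 * c - (2 * t + z) ^ 2 = -(4 * (t ^ 2 + z * t + c)) := by ring
    rw [e1, Valuation.map_neg, map_mul, map_mul, map_pow, hu, one_pow]
    exact mul_lt_mul_of_pos_left ht (zero_lt_iff.2 h4))
  refine ⟨algebraMap K (v.adicCompletion K) (2 * t + z) * r, ?_⟩
  rw [hr, map_pow]
  ring

private theorem Hf_nsq {z c : K} (hz : v.valuation K z = 1)
    (hc : v.valuation K c ≤ 1) (hk : ¬ ∃ t : K, v.valuation K (t ^ 2 + z * t + c) < 1) :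
    ¬ IsSquare (algebraMap K (v.adicCompletion K) (z ^ 2 - 4 * c)) := by
  rintro ⟨R, hR⟩
  have hcz : CharZero (v.adicCompletion K) := H36CY.char_zero v
  have h20 : (2 : v.adicCompletion K) ≠ 0 := by norm_num
  have h40 : (4 : v.adicCompletion K) ≠ 0 := by norm_num
  obtain ⟨T, hT⟩ : ∃ T : v.adicCompletion K,
      R = 2 * T + algebraMap K (v.adicCompletion K) z :=
    ⟨(R - algebraMap K (v.adicCompletion K) z) / 2, by
      rw [mul_div_cancel₀ _ h20]; ring⟩
  have e0 : T ^ 2 + algebraMap K (v.adicCompletion K) z * T +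
      algebraMap K (v.adicCompletion K) c = 0 := by
    have e1 : (4 : v.adicCompletion K) * (T ^ 2 + algebraMap K (v.adicCompletion K) z * T +
        algebraMap K (v.adicCompletion K) c) = 0 := by
      rw [map_sub, map_mul, map_pow, map_ofNat, hT] at hR
      linear_combination -hR
    exact (mul_eq_zero.1 e1).resolve_left h40
  have hT1 : Valued.v T ≤ 1 := by
    refine Hf_le Valued.v (z := algebraMap K (v.adicCompletion K) z)
      (c := algebraMap K (v.adicCompletion K) c) ?_ ?_ ?_
    · rw [Hf_val]; exact hz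
    · rw [Hf_val]; exact hc
    · rw [e0, map_zero]; exact zero_le
  obtain ⟨k, hk1⟩ := H36CY.near_coe v T one_ne_zero
  rw [map_one] at hk1
  apply hk
  refine ⟨k, ?_⟩
  rw [← Hf_val]
  have e1 : algebraMap K (v.adicCompletion K) (k ^ 2 + z * k + c) =
      (algebraMap K (v.adicCompletion K) k - T) *
        (algebraMap K (v.adicCompletion K) k + T + algebraMap K (v.adicCompletion K) z) := by
    rw [map_add, map_add, map_mul, map_pow]
    linear_combination e0
  rw [e1, map_mul]
  refine mul_lt_one_of_lt_of_le hk1 ?_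
  have hk2 : Valued.v (algebraMap K (v.adicCompletion K) k) ≤ 1 := by
    have e2 : algebraMap K (v.adicCompletion K) k =
        (algebraMap K (v.adicCompletion K) k - T) + T := by ring
    rw [e2]
    exact Valuation.map_add_le _ hk1.le hT1
  refine Valuation.map_add_le _ (Valuation.map_add_le _ hk2 hT1) ?_
  rw [Hf_val]
  exact hz.le

private theorem Hf_zmod (w : ZMod 2) (h : w ≠ 0) : w = 1 := by
  revert w
  decide

theorem hs_pri (h2 : v.valuation K 2 < 1) (hF : HF (v.adicCompletion K)) {x y : K} (hx : x ≠ 0)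
    (hy : y ≠ 0) (hP : Pri v (sc y)) : hsv v x y = eo v (sc x) * ka v (sc y) := by
  obtain ⟨s, hs0, hrep⟩ := H38T1.rep_sc hy
  obtain ⟨t, z, c, ht, hz, hc, he⟩ := hP
  obtain ⟨q, d, ψ, hl⟩ := H38T1.loc_of v
  have hka : ka v (sc y) = kap (v.valuation K) z c :=
    kp_eq hl h2 two_ne_zero ht hz hc he
  have hcz : CharZero (v.adicCompletion K) := H36CY.char_zero v
  have hιx : algebraMap K (v.adicCompletion K) x ≠ 0 := (map_ne_zero _).2 hx
  have hιs : algebraMap K (v.adicCompletion K) s ≠ 0 := (map_ne_zero _).2 hs0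
  have hιt : algebraMap K (v.adicCompletion K) t ≠ 0 := (map_ne_zero _).2 ht
  have hιz : algebraMap K (v.adicCompletion K) z ≠ 0 := by
    refine (map_ne_zero _).2 ?_
    rintro rfl
    rw [map_zero] at hz
    exact zero_ne_one hz
  have hD0 : algebraMap K (v.adicCompletion K) (z ^ 2 - 4 * c) ≠ 0 := by
    refine (map_ne_zero _).2 ?_
    intro h
    rw [h, mul_zero, hrep] at he
    exact mul_ne_zero hy (pow_ne_zero 2 hs0) he
  have e1 : algebraMap K (v.adicCompletion K) y =
      algebraMap K (v.adicCompletion K) (z ^ 2 - 4 * c) *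
        (algebraMap K (v.adicCompletion K) t / algebraMap K (v.adicCompletion K) s) ^ 2 := by
    have e2 : algebraMap K (v.adicCompletion K) (y * s ^ 2) =
        algebraMap K (v.adicCompletion K) (t ^ 2 * (z ^ 2 - 4 * c)) := by
      rw [← hrep, he]
    rw [map_mul, map_mul, map_pow, map_pow] at e2
    rw [div_pow, mul_div_assoc', eq_div_iff (pow_ne_zero 2 hιs), e2]
    ring
  have e3 : hsv v x y = hs (algebraMap K (v.adicCompletion K) x)
      (algebraMap K (v.adicCompletion K) (z ^ 2 - 4 * c)) :=
    hs_congr_right (div_ne_zero hιt hιs) e1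
  rw [e3, hka]
  by_cases hk : ∃ t : K, v.valuation K (t ^ 2 + z * t + c) < 1
  · have hk0 : kap (v.valuation K) z c = 0 := if_pos hk
    obtain ⟨t₀, ht₀⟩ := hk
    rw [hk0, mul_zero, hs_comm]
    exact hs_of_sq hD0 (Hf_sq h2 hz hc ht₀)
  · have hk1 : kap (v.valuation K) z c = 1 := if_neg hk
    have hns := Hf_nsq (v := v) hz hc hk
    obtain ⟨g, hg⟩ := exists_unr (v := v) h2
    have hg0 : g ≠ 0 := by
      intro h
      have h1 := unr_one h2 hg
      rw [h, map_zero] at h1
      exact zero_ne_one h1
    obtain ⟨u, hu⟩ : ∃ u : v.adicCompletion K,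
        u = -(4 * algebraMap K (v.adicCompletion K) c /
          (algebraMap K (v.adicCompletion K) z) ^ 2) := ⟨_, rfl⟩
    have hDu : algebraMap K (v.adicCompletion K) (z ^ 2 - 4 * c) =
        (algebraMap K (v.adicCompletion K) z) ^ 2 * (1 + u) := by
      rw [hu, map_sub, map_mul, map_pow, map_ofNat]
      field_simp
      ring
    have huv : Valued.v u ≤ Valued.v (4 : v.adicCompletion K) := by
      rw [hu, Valuation.map_neg, map_div₀, map_mul, map_pow, Hf_val, Hf_val, hz, one_pow, div_one]
      exact mul_le_of_le_one_right' hc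
    rcases unr_cases h2 hg huv with h | h
    · exfalso
      obtain ⟨r, hr⟩ := h
      exact hns ⟨algebraMap K (v.adicCompletion K) z * r, by rw [hDu, hr]; ring⟩
    · obtain ⟨r, hr⟩ := h
      have e4 : algebraMap K (v.adicCompletion K) (z ^ 2 - 4 * c) =
          g * (algebraMap K (v.adicCompletion K) z * r / g) ^ 2 := by
        rw [hDu, div_pow, mul_pow, sq r, ← hr]
        field_simp
      have hr0 : algebraMap K (v.adicCompletion K) z * r / g ≠ 0 := by
        intro h0
        rw [h0] at e4
        apply hD0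
        rw [e4]
        ring
      have e5 : hs (algebraMap K (v.adicCompletion K) x)
          (algebraMap K (v.adicCompletion K) (z ^ 2 - 4 * c)) =
          hs g (algebraMap K (v.adicCompletion K) x) := by
        rw [hs_congr_right hr0 e4, hs_comm]
      rw [e5, hk1, mul_one, H38T1.eo_sc hx]
      have hev := unr_even h2 hF hg hιx
      have hvx : v.valuation K x ≠ 0 := (Valuation.ne_zero_iff _).2 hx
      rw [Hf_val] at hev
      have hord : (∃ n : ℤ, v.valuation K x = exp (2 * n)) ↔
          ((ord (v.valuation K) x : ℤ) : ZMod 2) = 0 := by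
        rw [ZMod.intCast_zmod_eq_zero_iff_dvd]
        unfold ord
        constructor
        · rintro ⟨n, hn⟩
          rw [hn, log_exp]
          exact ⟨-n, by push_cast; ring⟩
        · rintro ⟨n, hn⟩
          refine ⟨-n, ?_⟩
          rw [← exp_log hvx]
          congr 1
          push_cast at hn
          linarith
      by_cases h0 : hs g (algebraMap K (v.adicCompletion K) x) = 0
      · rw [h0, hord.1 (hev.1 h0)]
      · have h3 : ((ord (v.valuation K) x : ℤ) : ZMod 2) ≠ 0 := fun h4 => h0 (hev.2 (hord.2 h4))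
        rw [Hf_zmod _ h0, Hf_zmod _ h3]

end H36MX
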