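import Pool.Agent.H36.MX.Hc
import Pool.Agent.H36.MX.He
import Pool.Agent.H36.MX.Hf
import Pool.Agent.H88.T7.Un

/-!
ROW MXHg (project MP_78d38b_MX, about 250 lines): the sum `BB a b` of all local symbols: bilinear, zero for primary elements and for norms. Use the STATEMENTS of Ha, Hh, Hc, He, Hf.

`hf_all`: `HF (K_v)` for all `v` (`OddP v` or `v.valuation K 2 < 1`, H38T1.val_two_le). supp: `hsv v a b = 0` if `OddP v`, `eo v (sc a) = 0 = eo v (sc b)` (hs_odd, unfold tp), so the support of `v ↦ hsv v a b` is finite: it is contained in the union of the finite sets `{v | ¬ OddP v}`, `{v | v.valuation K a ≠ 1}`, `{v | v.valuation K b ≠ 1}` (`H38RT.fin_bad`; `¬ OddP v` is `v.valuation K 2 ≠ 1`).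
BB_eq: `finsum_eq_sum_of_support_subset`. BB_mul: `finsum_add_distrib` with HF.mul for every `v`; real places: `si s (sc (a b)) = si s (sc a) + si s (sc b)` (`H38T1.si_add`, sc_mul). BB_comm: hs_comm.
BB_pri: `H88T7.recip_sc7 (c := sc a) (c' := sc b) T ..` with `T` the finite set above, BB_eq for `T`, hs_odd for odd `v`, hs_pri for `¬ OddP v`.
BB_norm: `n = x^2 - a y^2 ≠ 0`: `hsv v a n = 0` for all `v` (sol_iff in `K_v`), and `si s (sc a) * si s (sc n) = 0`: if `s a < 0` then `s n = (s x)^2 - s a (s y)^2 > 0` or `= 0` (impossible, `n ≠ 0`) (`H38T1.si_sc`, `H38RT.sw`).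
pri_sq: if `b` is a square in `K_v` (`v` above two) then `Pri v (sc b)`: `b = r^2`, choose `t ∈ K` with `|t - r| < |8 r|` (`H36CY.near_coe`): `b = t^2 (1 + ε)`, `|ε| < |4|`, `ε ∈ K`: `b = t^2 (1^2 - 4 c)`, `c = -ε/4`, `|c| ≤ 1`. `Pri` is about `rep (sc b) = b *` square.
pri_unr: if `b = g r^2` in `K_v` with `Unr g` then `Pri v (sc b)`: `g = 1 + 4 ρ`: choose `t ∈ K` near `r` and `ρ' ∈ K` near `ρ`: `b = t^2 (1 - 4 c)`, `|c| ≤ 1` as above.
BB_sol: if `hsv v a b = 0` for all `v` above two then `BB a b = 0`: for `v` above two choose `x_v, y_v ∈ K_v` with `b = x_v^2 - a y_v^2` (sol_iff). By weak_F (Wa.lean) choose `x, y ∈ K` close to all of them (over the finite set of `v` above two) such that `n = x^2 - a y^2` satisfies `|n - b| < |4 b|` (`|x - x_v| < δ`: `|x^2 - x_v^2| ≤ |x - x_v| max(|x_v|, |x - x_v|)`; take for instance `δ_v` with `δ_v ≤ 1`, `δ_v max(1,|x_v|) < |4b|`, `δ_v max (1, |y_v|) |a| < |4 b|`). So `n ≠ 0` and `n b` is a square in `K_v` for all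 `v` above two (sq_near).
`BB a b = BB a (n b) + BB a n` (as `b = (n b) n (1/n)^2`; BB_mul, or BB_mul for `n * (n b) = n^2 b` and `BB a (n^2 b) = BB a b` by hs_sq and `sc`), `BB a (n b) = 0` (pri_sq, BB_pri), `BB a n = 0` (BB_norm).
(If there is no place above two or for simplicity: the set `S2 = {v | ¬ OddP v}` is finite and nonempty, but nonemptiness is not needed: if `b` is arbitrary and `S2` empty then take `n = 1`.)
-/

set_option autoImplicit false
set_option linter.unusedSectionVars false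
open scoped Classical

open WithZero NumberField IsDedekindDomain H38RT
open H38T1 (SC sc scu rep rep_ne sc_rep sc_mul sc_eq_zero sc_surj eo la si Pri OddP tp unif ka)
open H76PP

namespace H36MX

variable {K : Type} [Field K] [NumberField K]

private theorem Hg_eo {v : HeightOneSpectrum (𝓞 K)} {a : K} (ha : a ≠ 0)
    (h : v.valuation K a = 1) : eo v (sc a) = 0 := by
  rw [H38T1.eo_sc ha, ord, h, log_one]
  simp

private theorem Hg_fin {a b : K} (ha : a ≠ 0) (hb : b ≠ 0) :
    ∃ T : Finset (HeightOneSpectrum (𝓞 K)), ∀ v : HeightOneSpectrum (𝓞 K), v ∉ T →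
      OddP v ∧ eo v (sc a) = 0 ∧ eo v (sc b) = 0 := by
  refine ⟨(fin_bad (two_ne_zero (α := K))).toFinset ∪ ((fin_bad ha).toFinset ∪
    (fin_bad hb).toFinset), fun v hv => ?_⟩
  rw [Finset.mem_union, Finset.mem_union, not_or, not_or] at hv
  obtain ⟨h1, h2, h3⟩ := hv
  rw [Set.Finite.mem_toFinset, Set.mem_ofPred_eq, not_not] at h1 h2 h3
  exact ⟨h1, Hg_eo ha h2, Hg_eo hb h3⟩

private theorem Hg_two (v : HeightOneSpectrum (𝓞 K)) : (2 : v.adicCompletion K) ≠ 0 := by
  have _ := H36CY.char_zero v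
  exact two_ne_zero

private theorem Hg_ne (v : HeightOneSpectrum (𝓞 K)) {a : K} (ha : a ≠ 0) :
    algebraMap K (v.adicCompletion K) a ≠ 0 := (map_ne_zero _).2 ha

theorem hf_all (v : HeightOneSpectrum (𝓞 K)) : HF (v.adicCompletion K) := by
  by_cases hv : OddP v
  · exact hf_odd hv
  · exact hf_two (H38T1.not_oddP.1 hv)

theorem hsv_supp {a b : K} (ha : a ≠ 0) (hb : b ≠ 0) {v : HeightOneSpectrum (𝓞 K)} (hv : OddP v)
    (h1 : eo v (sc a) = 0) (h2 : eo v (sc b) = 0) : hsv v a b = 0 := by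
  rw [hs_odd hv ha hb, tp, h1, h2]
  ring

theorem hsv_fin {a b : K} (ha : a ≠ 0) (hb : b ≠ 0) :
    (Function.support fun v : HeightOneSpectrum (𝓞 K) => hsv v a b).Finite := by
  obtain ⟨T, hT⟩ := Hg_fin ha hb
  refine T.finite_toSet.subset fun v hv => ?_
  by_contra h
  obtain ⟨h1, h2, h3⟩ := hT v h
  exact hv (hsv_supp ha hb h1 h2 h3)

theorem BB_eq {a b : K} (T : Finset (HeightOneSpectrum (𝓞 K)))
    (hT : ∀ v : HeightOneSpectrum (𝓞 K), v ∉ T → hsv v a b = 0) :
    BB a b = ∑ v ∈ T, hsv v a b + ∑ s : K →+* ℝ, si s (sc a) * si s (sc b) := by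
  unfold BB
  congr 1
  refine finsum_eq_sum_of_support_subset _ fun v hv => ?_
  by_contra h
  exact hv (hT v h)

theorem BB_comm (a b : K) : BB a b = BB b a := by
  unfold BB
  congr 1
  · exact finsum_congr fun v => hs_comm _ _
  · exact Finset.sum_congr rfl fun s _ => mul_comm _ _

theorem BB_mul {a b c : K} (ha : a ≠ 0) (hb : b ≠ 0) (hc : c ≠ 0) :
    BB a (b * c) = BB a b + BB a c := by
  have h1 : ∀ v : HeightOneSpectrum (𝓞 K), hsv v a (b * c) = hsv v a b + hsv v a c := by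
    intro v
    unfold hsv
    rw [map_mul]
    exact hs_mul_right (hf_all v) (Hg_ne v hb) (Hg_ne v hc) (Hg_ne v ha)
  have h2 : ∀ s : K →+* ℝ, si s (sc a) * si s (sc (b * c)) =
      si s (sc a) * si s (sc b) + si s (sc a) * si s (sc c) := by
    intro s
    rw [sc_mul hb hc, H38T1.si_add, mul_add]
  unfold BB
  rw [finsum_congr h1, finsum_add_distrib (hsv_fin ha hb) (hsv_fin ha hc),
    Finset.sum_congr rfl fun s _ => h2 s, Finset.sum_add_distrib]
  ring

theorem BB_pri {a b : K} (ha : a ≠ 0) (hb : b ≠ 0)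
    (hP : ∀ v : HeightOneSpectrum (𝓞 K), ¬ OddP v → Pri v (sc b)) : BB a b = 0 := by
  obtain ⟨T, hT⟩ := Hg_fin ha hb
  rw [BB_eq T fun v hv => hsv_supp ha hb (hT v hv).1 (hT v hv).2.1 (hT v hv).2.2]
  rw [← H88T7.recip_sc7 (c := sc a) (c' := sc b) T
    (fun v hv => by
      by_contra h
      exact hv (hT v h).1)
    (fun v hv => (hT v hv).2.1) (fun v hv => (hT v hv).2.2) hP]
  congr 1
  refine Finset.sum_congr rfl fun v _ => ?_
  split_ifs with hv
  · exact hs_odd hv ha hb
  · exact hs_pri (H38T1.not_oddP.1 hv) (hf_all v) ha hb (hP v hv)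

private theorem Hg_four (v : HeightOneSpectrum (𝓞 K)) :
    Valued.v (4 : v.adicCompletion K) ≤ 1 := by
  have e4 : (4 : v.adicCompletion K) = algebraMap K (v.adicCompletion K) (2 * 2) := by
    rw [map_mul, map_ofNat]
    norm_num
  rw [e4, H36CY.val_coe, map_mul]
  exact mul_le_one' (val_two_le v) (val_two_le v)

private theorem Hg_prm {v : HeightOneSpectrum (𝓞 K)} (h2 : v.valuation K 2 < 1) {b : K}
    (hb : b ≠ 0) {g r : v.adicCompletion K}
    (hg : Valued.v (g - 1) ≤ Valued.v (4 : v.adicCompletion K))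
    (h : algebraMap K (v.adicCompletion K) b = g * r ^ 2) : Pri v (sc b) := by
  have _ := H36CY.char_zero v
  have hr : r ≠ 0 := by
    rintro rfl
    rw [zero_pow two_ne_zero, mul_zero] at h
    exact Hg_ne v hb h
  have h40 : (4 : v.adicCompletion K) ≠ 0 := by norm_num
  obtain ⟨t, ht⟩ := H36CY.near_coe v r (mul_ne_zero h40 hr)
  have ht1 : Valued.v (algebraMap K (v.adicCompletion K) t - r) <
      Valued.v (4 : v.adicCompletion K) * Valued.v r := by
    rw [← map_mul]
    exact ht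
  have hrr : Valued.v (algebraMap K (v.adicCompletion K) t - r) < Valued.v r :=
    lt_of_lt_of_le ht1 (mul_le_of_le_one_left' (Hg_four v))
  have htr : Valued.v (algebraMap K (v.adicCompletion K) t) = Valued.v r :=
    Valuation.map_eq_of_sub_lt _ hrr
  have hvr : Valued.v r ≠ 0 := (Valuation.ne_zero_iff _).2 hr
  have ht0 : t ≠ 0 := by
    rintro rfl
    rw [map_zero, map_zero] at htr
    exact hvr htr.symm
  have h3 : Valued.v (algebraMap K (v.adicCompletion K) t ^ 2 - r ^ 2) ≤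
      Valued.v (4 : v.adicCompletion K) * Valued.v r ^ 2 := by
    have e : algebraMap K (v.adicCompletion K) t ^ 2 - r ^ 2 =
        (algebraMap K (v.adicCompletion K) t - r) * (algebraMap K (v.adicCompletion K) t + r) := by
      ring
    rw [e, map_mul, sq, ← mul_assoc]
    refine mul_le_mul' ht1.le ?_
    refine (Valuation.map_add _ _ _).trans ?_
    rw [htr, max_self]
  have h4 : Valued.v (algebraMap K (v.adicCompletion K) b - r ^ 2) ≤
      Valued.v (4 : v.adicCompletion K) * Valued.v r ^ 2 := by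
    have e : algebraMap K (v.adicCompletion K) b - r ^ 2 = (g - 1) * r ^ 2 := by
      rw [h]
      ring
    rw [e, map_mul, map_pow]
    exact mul_le_mul_left hg _
  have h5 : Valued.v (algebraMap K (v.adicCompletion K) (b - t ^ 2)) ≤
      Valued.v (4 : v.adicCompletion K) * Valued.v r ^ 2 := by
    have e : algebraMap K (v.adicCompletion K) (b - t ^ 2) =
        (algebraMap K (v.adicCompletion K) b - r ^ 2) -
          (algebraMap K (v.adicCompletion K) t ^ 2 - r ^ 2) := by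
      rw [map_sub, map_pow]
      ring
    rw [e]
    exact (Valuation.map_sub _ _ _).trans (max_le h4 h3)
  have h6 : v.valuation K (b - t ^ 2) ≤ v.valuation K (4 * t ^ 2) := by
    rw [← H36CY.val_coe v, ← H36CY.val_coe v]
    refine h5.trans (le_of_eq ?_)
    have e4 : algebraMap K (v.adicCompletion K) 4 = 4 := map_ofNat _ _
    rw [map_mul, map_mul, map_pow, map_pow, htr, e4]
  rw [H38T1.pri_sc (H38T1.not_oddP.2 h2) hb]
  have h4K : (4 : K) * t ^ 2 ≠ 0 := mul_ne_zero (by norm_num) (pow_ne_zero 2 ht0)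
  refine ⟨t, 1, -((b - t ^ 2) / (4 * t ^ 2)), ht0, map_one _, ?_, ?_⟩
  · rw [Valuation.map_neg, map_div₀]
    exact div_le_one_of_le₀ h6 zero_le
  · field_simp
    ring

theorem pri_sq {v : HeightOneSpectrum (𝓞 K)} (h2 : v.valuation K 2 < 1) {b : K} (hb : b ≠ 0)
    (h : IsSquare (algebraMap K (v.adicCompletion K) b)) : Pri v (sc b) := by
  obtain ⟨r, hr⟩ := h
  refine Hg_prm h2 hb (g := 1) (r := r) ?_ ?_
  · rw [sub_self, map_zero]
    exact zero_le
  · rw [hr]
    ring

theorem pri_unr {v : HeightOneSpectrum (𝓞 K)} (h2 : v.valuation K 2 < 1) {b : K} (hb : b ≠ 0)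
    {g : v.adicCompletion K} (hg : Unr g) {r : v.adicCompletion K}
    (h : algebraMap K (v.adicCompletion K) b = g * r ^ 2) : Pri v (sc b) := by
  obtain ⟨ρ, h1, -, h3⟩ := hg
  refine Hg_prm h2 hb (g := g) (r := r) ?_ h
  have e : g - 1 = 4 * ρ := by
    rw [h3]
    ring
  rw [e, map_mul]
  exact mul_le_of_le_one_right' h1

theorem BB_norm {a n x y : K} (ha : a ≠ 0) (hn : n ≠ 0) (h : n = x ^ 2 - a * y ^ 2) :
    BB a n = 0 := by
  have h1 : ∀ v : HeightOneSpectrum (𝓞 K), hsv v a n = 0 := by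
    intro v
    refine hs_eq_zero.2 ((sol_iff (Hg_two v) (Hg_ne v ha) (Hg_ne v hn)).2
      ⟨algebraMap K _ x, algebraMap K _ y, ?_⟩)
    rw [h, map_sub, map_mul, map_pow, map_pow]
  have h2 : ∀ s : K →+* ℝ, si s (sc a) * si s (sc n) = 0 := by
    intro s
    rw [H38T1.si_sc s ha, H38T1.si_sc s hn]
    unfold sw
    split_ifs with h3 h4
    · exfalso
      rw [h, map_sub, map_mul, map_pow, map_pow] at h4
      have h5 := mul_nonneg (neg_nonneg.2 h3.le) (sq_nonneg (s y))
      have h6 := sq_nonneg (s x)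
      linarith
    · rw [mul_zero]
    · rw [zero_mul]
    · rw [zero_mul]
  unfold BB
  rw [finsum_congr h1, finsum_zero, Finset.sum_congr rfl fun s _ => h2 s, Finset.sum_const_zero,
    add_zero]

private noncomputable def Hg_eps (β μ : WithZero (Multiplicative ℤ)) :
    WithZero (Multiplicative ℤ) := min 1 (β / max 1 μ)

private theorem Hg_max_ne (μ : WithZero (Multiplicative ℤ)) : max 1 μ ≠ 0 :=
  (lt_of_lt_of_le zero_lt_one (le_max_left _ _)).ne'

private theorem Hg_eps_ne {β : WithZero (Multiplicative ℤ)} (hβ : β ≠ 0)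
    (μ : WithZero (Multiplicative ℤ)) : Hg_eps β μ ≠ 0 := by
  have h1 : (0 : WithZero (Multiplicative ℤ)) < 1 := zero_lt_one
  have h2 : (0 : WithZero (Multiplicative ℤ)) < β / max 1 μ :=
    zero_lt_iff.2 (div_ne_zero hβ (Hg_max_ne μ))
  exact (lt_min h1 h2).ne'

private theorem Hg_est (v : HeightOneSpectrum (𝓞 K)) {β : WithZero (Multiplicative ℤ)}
    {X x : v.adicCompletion K} (h : Valued.v (X - x) < Hg_eps β (Valued.v x)) :
    Valued.v (X ^ 2 - x ^ 2) < β := by
  obtain ⟨h1, h2⟩ := lt_min_iff.1 h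
  rw [lt_div_iff₀ (zero_lt_iff.2 (Hg_max_ne _))] at h2
  have e : X ^ 2 - x ^ 2 = (X - x) * ((X - x) + 2 * x) := by ring
  rw [e, map_mul]
  refine lt_of_le_of_lt (mul_le_mul_right ?_ _) h2
  refine (Valuation.map_add _ _ _).trans (max_le (h1.le.trans (le_max_left _ _)) ?_)
  refine le_trans ?_ (le_max_right _ _)
  rw [map_mul]
  refine mul_le_of_le_one_left' ?_
  have e2 : (2 : v.adicCompletion K) = algebraMap K (v.adicCompletion K) 2 := by
    rw [map_ofNat]
  rw [e2, H36CY.val_coe]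
  exact val_two_le v

theorem BB_sol {a b : K} (ha : a ≠ 0) (hb : b ≠ 0)
    (h : ∀ v : HeightOneSpectrum (𝓞 K), v.valuation K 2 < 1 → hsv v a b = 0) : BB a b = 0 := by
  obtain ⟨S2, hS2⟩ : ∃ S2 : Finset (HeightOneSpectrum (𝓞 K)),
      ∀ v : HeightOneSpectrum (𝓞 K), v ∈ S2 ↔ ¬ OddP v := by
    refine ⟨(fin_bad (two_ne_zero (α := K))).toFinset, fun v => ?_⟩
    rw [Set.Finite.mem_toFinset]
    rfl
  by_cases hS : S2.Nonempty
  swap
  · refine BB_pri ha hb fun v hv => ?_
    exact absurd ⟨v, (hS2 v).2 hv⟩ hS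
  have hex : ∀ v : HeightOneSpectrum (𝓞 K), ∃ x y : v.adicCompletion K, v ∈ S2 →
      algebraMap K (v.adicCompletion K) b = x ^ 2 - algebraMap K (v.adicCompletion K) a * y ^ 2 := by
    intro v
    by_cases hv : v ∈ S2
    · have h1 := h v (H38T1.not_oddP.1 ((hS2 v).1 hv))
      obtain ⟨x, y, hxy⟩ := (sol_iff (Hg_two v) (Hg_ne v ha) (Hg_ne v hb)).1 (hs_eq_zero.1 h1)
      exact ⟨x, y, fun _ => hxy⟩
    · exact ⟨0, 0, fun h1 => absurd h1 hv⟩
  choose x y hxy using hex
  have hb4 : ∀ v : HeightOneSpectrum (𝓞 K),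
      Valued.v (4 * algebraMap K (v.adicCompletion K) b) ≠ 0 := by
    intro v
    have _ := H36CY.char_zero v
    exact (Valuation.ne_zero_iff _).2 (mul_ne_zero (by norm_num) (Hg_ne v hb))
  have hva : ∀ v : HeightOneSpectrum (𝓞 K),
      Valued.v (algebraMap K (v.adicCompletion K) a) ≠ 0 :=
    fun v => (Valuation.ne_zero_iff _).2 (Hg_ne v ha)
  obtain ⟨X, hX⟩ := weak_F S2 x
    (ε := fun v => Hg_eps (Valued.v (4 * algebraMap K (v.adicCompletion K) b)) (Valued.v (x v)))
    (fun v => Hg_eps_ne (hb4 v) _)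
  obtain ⟨Y, hY⟩ := weak_F S2 y
    (ε := fun v => Hg_eps (Valued.v (4 * algebraMap K (v.adicCompletion K) b) /
      Valued.v (algebraMap K (v.adicCompletion K) a)) (Valued.v (y v)))
    (fun v => Hg_eps_ne (div_ne_zero (hb4 v) (hva v)) _)
  have hsq : ∀ v ∈ S2, ∃ r : v.adicCompletion K, r ≠ 0 ∧
      algebraMap K (v.adicCompletion K) (X ^ 2 - a * Y ^ 2) =
        algebraMap K (v.adicCompletion K) b * r ^ 2 := by
    intro v hv
    have _ := H36CY.char_zero v
    refine H36CY.sq_near ?_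
    have h1 := Hg_est v (hX v hv)
    have h2 := Hg_est v (hY v hv)
    have e : algebraMap K (v.adicCompletion K) (X ^ 2 - a * Y ^ 2) -
        algebraMap K (v.adicCompletion K) b =
        (algebraMap K (v.adicCompletion K) X ^ 2 - x v ^ 2) -
          algebraMap K (v.adicCompletion K) a *
            (algebraMap K (v.adicCompletion K) Y ^ 2 - y v ^ 2) := by
      rw [hxy v hv, map_sub, map_mul, map_pow, map_pow]
      ring
    rw [e]
    refine lt_of_le_of_lt (Valuation.map_sub _ _ _) (max_lt h1 ?_)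
    rw [map_mul, mul_comm]
    exact (lt_div_iff₀ (zero_lt_iff.2 (hva v))).1 h2
  have hn : X ^ 2 - a * Y ^ 2 ≠ 0 := by
    obtain ⟨v, hv⟩ := hS
    obtain ⟨r, hr, he⟩ := hsq v hv
    intro h0
    rw [h0, map_zero] at he
    exact mul_ne_zero (Hg_ne v hb) (pow_ne_zero 2 hr) he.symm
  have h1 : BB a ((X ^ 2 - a * Y ^ 2) * b) = 0 := by
    refine BB_pri ha (mul_ne_zero hn hb) fun v hv => ?_
    obtain ⟨r, hr, he⟩ := hsq v ((hS2 v).2 hv)
    refine pri_sq (H38T1.not_oddP.1 hv) (mul_ne_zero hn hb)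
      ⟨algebraMap K (v.adicCompletion K) b * r, ?_⟩
    rw [map_mul, he]
    ring
  have h2 : BB a (X ^ 2 - a * Y ^ 2) = 0 := BB_norm ha hn rfl
  rw [BB_mul ha hn hb, h2, zero_add] at h1
  exact h1

end H36MX
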